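import Pool.Agent.Work.MP_4030f5_lc.CylDefs

/-!
# Module BandC: bands over preconnected sets are preconnected

Proof. There is a continuous function `c : B → ℝ` with `(b, c b) ∈ Band ξ i` for all `b`:
`(ξ_{i-1} + ξ_i) / 2` if `0 < i < l`, `ξ_0 - 1` if `i = 0 < l`, `ξ_{l-1} + 1` if `0 < i = l`, and `0`
if `l = 0` (use `hξ`: the functions are increasing, so only the neighbours matter). Let `X` be the
set in question. The graph of `c` over `A` is a preconnected subset of `X` (image of `A` under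
`b ↦ (b, c b)`), and for every point `(b, t)` of `X` the segment `{b} × [[t, c b]]` is a preconnected
subset of `X` (the conditions of `Band` for fixed `b` define a convex subset of `ℝ`), which meets the
graph. So any two points of `X` lie in a preconnected subset of `X`, the union of the two segments
and the graph (`IsPreconnected.union`, `isPreconnected_of_forall_pair`).
-/

namespace UF

open BU

private theorem bandC_section {B : Type} [TopologicalSpace B] {l : ℕ} (ξ : Fin l → C(B, ℝ))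
    (hξ : ∀ b, StrictMono fun i => ξ i b) (i : Fin (l + 1)) :
    ∃ c : B → ℝ, Continuous c ∧ ∀ b, (b, c b) ∈ Band ξ i := by
  rcases Nat.eq_zero_or_pos (i : ℕ) with h0 | h0
  · rcases Nat.eq_zero_or_pos l with hl | hl
    · subst hl
      exact ⟨fun _ => 0, continuous_const, fun b => ⟨fun j => j.elim0, fun j => j.elim0⟩⟩
    · refine ⟨fun b => ξ ⟨0, hl⟩ b - 1, by fun_prop, fun b => ⟨fun j hj => ?_, fun j _ => ?_⟩⟩
      · rw [h0] at hj
        exact absurd hj (Nat.not_lt_zero _)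
      · have h1 : ξ ⟨0, hl⟩ b ≤ ξ j b := (hξ b).monotone (Fin.mk_le_of_le_val (Nat.zero_le _))
        change ξ ⟨0, hl⟩ b - 1 < ξ j b
        linarith
  · have hi1 : (i : ℕ) - 1 < l := by
      have := i.2
      omega
    by_cases hl : (i : ℕ) < l
    · refine ⟨fun b => (ξ ⟨(i : ℕ) - 1, hi1⟩ b + ξ ⟨i, hl⟩ b) / 2, by fun_prop,
        fun b => ⟨fun j hj => ?_, fun j hj => ?_⟩⟩
      · have h1 : ξ j b ≤ ξ ⟨(i : ℕ) - 1, hi1⟩ b := (hξ b).monotone
          (Fin.le_def.2 (by change (j : ℕ) ≤ (i : ℕ) - 1; omega))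
        have h2 : ξ ⟨(i : ℕ) - 1, hi1⟩ b < ξ ⟨i, hl⟩ b := hξ b
          (Fin.lt_def.2 (by change (i : ℕ) - 1 < (i : ℕ); omega))
        change ξ j b < (ξ ⟨(i : ℕ) - 1, hi1⟩ b + ξ ⟨i, hl⟩ b) / 2
        linarith
      · have h1 : ξ ⟨i, hl⟩ b ≤ ξ j b := (hξ b).monotone (Fin.le_def.2 hj)
        have h2 : ξ ⟨(i : ℕ) - 1, hi1⟩ b < ξ ⟨i, hl⟩ b := hξ b
          (Fin.lt_def.2 (by change (i : ℕ) - 1 < (i : ℕ); omega))
        change (ξ ⟨(i : ℕ) - 1, hi1⟩ b + ξ ⟨i, hl⟩ b) / 2 < ξ j b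
        linarith
    · refine ⟨fun b => ξ ⟨(i : ℕ) - 1, hi1⟩ b + 1, by fun_prop,
        fun b => ⟨fun j hj => ?_, fun j hj => ?_⟩⟩
      · have h1 : ξ j b ≤ ξ ⟨(i : ℕ) - 1, hi1⟩ b := (hξ b).monotone
          (Fin.le_def.2 (by change (j : ℕ) ≤ (i : ℕ) - 1; omega))
        change ξ j b < ξ ⟨(i : ℕ) - 1, hi1⟩ b + 1
        linarith
      · exact absurd (lt_of_le_of_lt hj j.2) hl

theorem band_preconnected {B : Type} [TopologicalSpace B] {l : ℕ} (ξ : Fin l → C(B, ℝ))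
    (hξ : ∀ b, StrictMono fun i => ξ i b) (i : Fin (l + 1)) (A : Set B) (hA : IsPreconnected A) :
    IsPreconnected {z : B × ℝ | z ∈ Band ξ i ∧ z.1 ∈ A} := by
  obtain ⟨c, hc, hcB⟩ := bandC_section ξ hξ i
  have hseg : ∀ (b : B) (t : ℝ), (b, t) ∈ Band ξ i → b ∈ A →
      ((fun s : ℝ => (b, s)) '' Set.uIcc t (c b)) ⊆ {z : B × ℝ | z ∈ Band ξ i ∧ z.1 ∈ A} := by
    rintro b t ht hb _ ⟨s, hs, rfl⟩
    have h1 := hcB b
    rw [Set.uIcc, Set.mem_Icc] at hs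
    refine ⟨⟨fun j hj => ?_, fun j hj => ?_⟩, hb⟩
    · exact lt_of_lt_of_le (lt_min (ht.1 j hj) (h1.1 j hj)) hs.1
    · exact lt_of_le_of_lt hs.2 (max_lt (ht.2 j hj) (h1.2 j hj))
  have hsegc : ∀ (b : B) (t : ℝ), IsPreconnected ((fun s : ℝ => (b, s)) '' Set.uIcc t (c b)) :=
    fun b t => isPreconnected_uIcc.image _ (by fun_prop)
  have hgr : IsPreconnected ((fun b : B => (b, c b)) '' A) := hA.image _ (by fun_prop)
  have hgrs : ((fun b : B => (b, c b)) '' A) ⊆ {z : B × ℝ | z ∈ Band ξ i ∧ z.1 ∈ A} := by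
    rintro _ ⟨b, hb, rfl⟩
    exact ⟨hcB b, hb⟩
  refine isPreconnected_of_forall_pair fun x hx y hy => ?_
  obtain ⟨b1, t1⟩ := x
  obtain ⟨b2, t2⟩ := y
  refine ⟨(((fun s : ℝ => (b1, s)) '' Set.uIcc t1 (c b1)) ∪ ((fun b : B => (b, c b)) '' A)) ∪
    ((fun s : ℝ => (b2, s)) '' Set.uIcc t2 (c b2)), ?_, ?_, ?_, ?_⟩
  · exact Set.union_subset (Set.union_subset (hseg b1 t1 hx.1 hx.2) hgrs) (hseg b2 t2 hy.1 hy.2)
  · exact Or.inl (Or.inl ⟨t1, Set.left_mem_uIcc, rfl⟩)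
  · exact Or.inr ⟨t2, Set.left_mem_uIcc, rfl⟩
  · refine IsPreconnected.union (b2, c b2) (Or.inr ⟨b2, hy.2, rfl⟩)
      ⟨c b2, Set.right_mem_uIcc, rfl⟩ ?_ (hsegc b2 t2)
    exact IsPreconnected.union (b1, c b1) ⟨c b1, Set.right_mem_uIcc, rfl⟩ ⟨b1, hx.2, rfl⟩
      (hsegc b1 t1) hgr

end UF
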