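import Pool.Agent.Work.MP_4030f5_lc.S5a
import Pool.Agent.Work.MP_4030f5_lc.E1a

/-!
# Union of fat convex objects: basic definitions of the proof

The semialgebraic tools are in `Pool/Agent/Work/MP_4030f5_lc` (namespace `BU`): `BU.SA` (subsets of
`σ → ℝ` given by signs of integer polynomials), closure under Boolean operations (`Q0`), under
`∃`/`∀` over blocks of real variables (`SA.exists`, `SA.forall`, Tarski-Seidenberg, `Q3b`), the
calculus `SA.S5a_and`, `SA.S5a_or`, `SA.S5a_not`, `SA.S5a_imp`, `SA.S5a_all`,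
`SA.S5a_exists_real`, `SA.S5a_lt`, `SA.S5a_congr`, `SA.rename`; `Bdd.break_points` (uniform bound
for the break points in one variable), `Bk`, `PC`, `PC.eq_of_Icc`, `PC.exists_right` (`EDefs`,
`E1a`).
-/

namespace UF

open BU

/-- the linear functional `x₀ + τ x₁ + τ² x₂ + ...` -/
noncomputable def lin {d : ℕ} (τ : ℕ) (x : Fin d → ℝ) : ℝ := ∑ l : Fin d, (τ : ℝ) ^ (l : ℕ) * x l

/-- semialgebraic families of subsets of `ℝ^d`, with parameters in `σ → ℝ`. -/
def SAF {σ : Type} {d : ℕ} (E : (σ → ℝ) → (Fin d → ℝ) → Prop) : Prop :=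
  SA {z : σ ⊕ Fin d → ℝ | E (fun i => z (Sum.inl i)) (fun i => z (Sum.inr i))}

/-- parametrisation of the hyperplane `lin τ = t` of `ℝ^(d+1)` by the last `d` coordinates. -/
noncomputable def sec {d : ℕ} (τ : ℕ) (t : ℝ) (y : Fin d → ℝ) : Fin (d + 1) → ℝ :=
  Fin.cons (t - ∑ l : Fin d, (τ : ℝ) ^ ((l : ℕ) + 1) * y l) y

/-- strict lexicographic order on `ℝ^d`. -/
def lexlt {d : ℕ} (x y : Fin d → ℝ) : Prop := ∃ i, (∀ j, j < i → x j = y j) ∧ x i < y i

/-- `rk G b y`: `y` is the `b`-th element of the set `G` in the lexicographic order. -/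
def rk {d : ℕ} (G : (Fin d → ℝ) → Prop) : ℕ → (Fin d → ℝ) → Prop
  | 0, y => G y ∧ ∀ z, G z → ¬ lexlt z y
  | b + 1, y => G y ∧ ∃ z, rk G b z ∧ lexlt z y ∧ ∀ z', G z' → ¬ (lexlt z z' ∧ lexlt z' y)

/-- compact convex sets, fat for the sup norm of `ℝ^d`. -/
def Body {d : ℕ} (Λ : ℝ) (K : Set (Fin d → ℝ)) : Prop :=
  IsCompact K ∧ Convex ℝ K ∧ ∃ (z : Fin d → ℝ) (ρ : ℝ), 0 < ρ ∧ Metric.ball z ρ ⊆ K ∧
    K ⊆ Metric.closedBall z (Λ * ρ)

/-- the fibres of `S` over the functional `lin τ` are finite with finitely many exceptions. -/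
def Slim {d : ℕ} (τ : ℕ) (S : Set (Fin d → ℝ)) : Prop :=
  {t : ℝ | {x | x ∈ S ∧ lin τ x = t}.Infinite}.Finite

end UF
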