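import Mathlib

/-!
# Module Sel: three indices of equal colour with no critical value in between

Proof. Let `w = 2 * card κ + 1`. For `b = 0, ..., z` consider the block of indices
`b w, b w + 1, ..., b w + w - 1` (all `< M` by `hM`), first index `f_b`, last index `l_b`.
1. Some block `b` has no point `x ∈ Z` with `t θ f_b ≤ x ≤ t θ' l_b` for some `θ, θ'`. Otherwise
   choose `x_b ∈ Z` for each block. For `b < b'`: `x_b ≤ t θ' l_b < t θ'' f_{b'} ≤ x_{b'}`, as
   `l_b < f_{b'}`; so `b ↦ x_b` is injective and `Z` has at least `z + 1` elements, contradiction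
   with `hz` (`Set.ncard_le_ncard`, `Set.ncard_image_of_injective`, or
   `Set.Finite.toFinset` and `Finset.card_le_card_of_injOn`).
2. In this block there are `w > 2 * card κ` indices, so three of them, `k₁ < k₂ < k₃`, have the same
   colour (pigeonhole, `Finset.exists_lt_card_fiber_of_mul_lt_card_of_maps_to`).
3. If `x ∈ Z` and `t θ k₁ ≤ x ≤ t θ' k₃`: then `t θ f_b ≤ x` (equal or strictly smaller since
   `f_b ≤ k₁`; if `f_b < k₁` use `ht θ θ`), similarly `x ≤ t θ' l_b`; contradiction with 1.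
-/

namespace UF

theorem sel {Θ κ : Type} [Fintype κ] (z M : ℕ) (hM : (z + 1) * (2 * Fintype.card κ + 1) ≤ M)
    (t : Θ → Fin M → ℝ) (ht : ∀ θ θ' k k', k < k' → t θ k < t θ' k')
    (Z : Set ℝ) (hZ : Z.Finite) (hz : Z.ncard ≤ z) (r : Fin M → κ) :
    ∃ k₁ k₂ k₃ : Fin M, k₁ < k₂ ∧ k₂ < k₃ ∧ r k₁ = r k₂ ∧ r k₂ = r k₃ ∧
      ∀ θ θ' x, t θ k₁ ≤ x → x ≤ t θ' k₃ → x ∉ Z := by
  classical
  set w := 2 * Fintype.card κ + 1 with hw
  have hin : ∀ (b : Fin (z + 1)) (i : ℕ), i < w → (b : ℕ) * w + i < M := by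
    intro b i hi
    have h1 : (b : ℕ) + 1 ≤ z + 1 := b.2
    have h2 : ((b : ℕ) + 1) * w ≤ (z + 1) * w := Nat.mul_le_mul_right w h1
    have h3 : ((b : ℕ) + 1) * w = (b : ℕ) * w + w := by ring
    omega
  have hw1 : 0 < w := by omega
  set f : Fin (z + 1) → Fin M := fun b => ⟨(b : ℕ) * w + 0, hin b 0 hw1⟩ with hf
  set l : Fin (z + 1) → Fin M := fun b => ⟨(b : ℕ) * w + (w - 1), hin b (w - 1) (by omega)⟩ with hl
  have hlf : ∀ b b', b < b' → l b < f b' := by
    intro b b' hb
    have h1 : (b : ℕ) + 1 ≤ b' := hb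
    have h2 : ((b : ℕ) + 1) * w ≤ (b' : ℕ) * w := Nat.mul_le_mul_right w h1
    have h3 : ((b : ℕ) + 1) * w = (b : ℕ) * w + w := by ring
    rw [Fin.lt_def]
    show (b : ℕ) * w + (w - 1) < (b' : ℕ) * w + 0
    omega
  have step1 : ∃ b, ∀ x ∈ Z, ∀ θ θ', ¬ (t θ (f b) ≤ x ∧ x ≤ t θ' (l b)) := by
    by_contra hcon
    push Not at hcon
    choose x hxZ θ θ' h1 h2 using hcon
    have hmono : StrictMono x := by
      intro b b' hb
      exact (h2 b).trans_lt ((ht _ _ _ _ (hlf b b' hb)).trans_le (h1 b'))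
    have h3 : (Finset.univ.image x).card = z + 1 := by
      rw [Finset.card_image_of_injective _ hmono.injective, Finset.card_univ, Fintype.card_fin]
    have h4 : ((Finset.univ.image x : Finset ℝ) : Set ℝ) ⊆ Z := by
      intro y hy
      rw [Finset.mem_coe, Finset.mem_image] at hy
      obtain ⟨b, -, rfl⟩ := hy
      exact hxZ b
    have h5 := Set.ncard_le_ncard h4 hZ
    rw [Set.ncard_coe_finset, h3] at h5
    omega
  obtain ⟨b, hb⟩ := step1
  set g : Fin w → Fin M := fun i => ⟨(b : ℕ) * w + i, hin b i i.2⟩ with hg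
  have hcard : (Finset.univ : Finset κ).card * 2 < (Finset.univ : Finset (Fin w)).card := by
    rw [Finset.card_univ, Finset.card_univ, Fintype.card_fin]
    omega
  obtain ⟨y, -, hy⟩ := Finset.exists_lt_card_fiber_of_mul_lt_card_of_maps_to
    (f := fun i => r (g i)) (fun i _ => Finset.mem_univ _) hcard
  set S := (Finset.univ : Finset (Fin w)).filter (fun i => r (g i) = y) with hS
  set e := S.orderEmbOfFin rfl with he
  have hmem : ∀ j, r (g (e j)) = y := by
    intro j
    have h1 : e j ∈ S := Finset.orderEmbOfFin_mem S rfl j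
    exact (Finset.mem_filter.1 h1).2
  have hgm : ∀ i i', i < i' → g i < g i' := by
    intro i i' h
    rw [Fin.lt_def] at h ⊢
    show (b : ℕ) * w + i < (b : ℕ) * w + i'
    omega
  refine ⟨g (e ⟨0, by omega⟩), g (e ⟨1, by omega⟩), g (e ⟨2, by omega⟩), ?_, ?_, ?_, ?_, ?_⟩
  · exact hgm _ _ (e.strictMono (by rw [Fin.lt_def]; norm_num))
  · exact hgm _ _ (e.strictMono (by rw [Fin.lt_def]; norm_num))
  · rw [hmem, hmem]
  · rw [hmem, hmem]
  · intro θ θ' x h1 h2 hx
    refine hb x hx θ θ' ⟨?_, ?_⟩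
    · set k := g (e ⟨0, by omega⟩) with hk
      rcases eq_or_lt_of_le (show f b ≤ k by
        rw [Fin.le_def]
        show (b : ℕ) * w + 0 ≤ (b : ℕ) * w + _
        omega) with h | h
      · rw [h]; exact h1
      · exact (ht θ θ _ _ h).le.trans h1
    · set k := g (e ⟨2, by omega⟩) with hk
      rcases eq_or_lt_of_le (show k ≤ l b by
        rw [Fin.le_def]
        have := (e ⟨2, by omega⟩).2
        show (b : ℕ) * w + ((e ⟨2, _⟩ : Fin w) : ℕ) ≤ (b : ℕ) * w + (w - 1)
        omega) with h | h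
      · rw [← h]; exact h2
      · exact h2.trans (ht θ' θ' _ _ h).le

end UF
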