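import Pool.Agent.Work.MP_4c5ddc_co.Single
import Pool.Agent.Work.MP_4c5ddc_co.Sel

/-!
# Module Branch: points of one family of Lipschitz branches

Proof. Let `B₁, B` be the numbers of `single_branch` for the slope constant `C + 1`. Let
`z = card Θ * (B * (1 + card Κ))`, `κ = Θ → Fin (B₁ + 1)` and
`M = (z + 1) * (2 * card κ + 1) + 3`. Given the data, let `Z_θ` be the set of `single_branch` for
`q θ`, `h`, and `Z = ⋃ θ, Z_θ`, finite with at most `z` elements. For `k : Fin M` define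
`r k : κ` by `r k θ =` a rank `b < B₁` with `Wb (Γ (q θ)) τ b (lin τ (y θ k)) (y θ k)` if there is
one, else `B₁`. `sel` gives `k₁ < k₂ < k₃` with `r k₁ = r k₂ = r k₃` and no point of `Z` in
`[t θ k₁, t θ' k₃]` for all `θ, θ'` (`t θ k := lin τ (y θ k)`). (If `Θ` is empty everything after the
choice of `k₁ < k₂ < k₃` is trivial.)
Let `t, θ` be given, `u = t θ k₁ < v = t θ k₃`; `[u, v]` is free of `Z_θ`, contains `t` and
`t θ k₂`. By the first claim of `single_branch` the three points `y θ k_i` have ranks `< B₁`, and by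
equality of the colours one and the same rank `b`. So `Wb` holds at `u, t θ k₂, v` with the values
`y θ k₁, y θ k₂, y θ k₃`, and there is `p` with `Wb (Γ (q θ)) τ b t p`; `rk_mem` gives `Γ (q θ) p`
and `lin τ p = t`.
* Tests: if `¬ H (h κ) (y θ k₂)` then the first alternative of the last claim fails (at `t θ k₂`),
  so `¬ H (h κ) p`.
* Slopes: for a coordinate `l`, `(y θ k₃) l - (y θ k₁) l ≤ ‖y θ k₃ - y θ k₁‖ ≤ C (v - u)`, so
  `y l - (C+1) t` is strictly smaller at `v` than at `u`: the first alternative is impossible, and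
  `y l - (C+1) t` is antitone on `[u, v]`; similarly `y l + (C+1) t` is monotone. So for
  `s ≤ s'` in `[u, v]` with values `w, w'`: `|w' l - w l| ≤ (C+1) (s' - s)`. Apply this to `t` and the
  three points, all coordinates (`pi_norm_le_iff_of_nonneg`).
-/

namespace UF

open BU

private theorem br_slope {d : ℕ} {W : ℝ → (Fin d → ℝ) → Prop} {C u v : ℝ} (hC : 0 ≤ C)
    (huv : u < v) {y₁ y₃ : Fin d → ℝ} (h1 : W u y₁) (h3 : W v y₃)
    (hL : ‖y₃ - y₁‖ ≤ C * (v - u))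
    (hm : ∀ l : Fin d,
      (∀ t ∈ Set.Icc u v, ∀ t' ∈ Set.Icc u v, t ≤ t' → ∀ y y', W t y →
        W t' y' → y l - (C + 1) * t ≤ y' l - (C + 1) * t') ∨
      (∀ t ∈ Set.Icc u v, ∀ t' ∈ Set.Icc u v, t ≤ t' → ∀ y y', W t y →
        W t' y' → y' l - (C + 1) * t' ≤ y l - (C + 1) * t))
    (hp : ∀ l : Fin d,
      (∀ t ∈ Set.Icc u v, ∀ t' ∈ Set.Icc u v, t ≤ t' → ∀ y y', W t y →
        W t' y' → y l + (C + 1) * t ≤ y' l + (C + 1) * t') ∨
      (∀ t ∈ Set.Icc u v, ∀ t' ∈ Set.Icc u v, t ≤ t' → ∀ y y', W t y →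
        W t' y' → y' l + (C + 1) * t' ≤ y l + (C + 1) * t)) :
    ∀ s ∈ Set.Icc u v, ∀ s' ∈ Set.Icc u v, ∀ w w', W s w → W s' w' →
      ‖w - w'‖ ≤ (C + 1) * |s - s'| := by
  have hul : u ∈ Set.Icc u v := Set.left_mem_Icc.2 huv.le
  have hvr : v ∈ Set.Icc u v := Set.right_mem_Icc.2 huv.le
  have hcoord : ∀ l, |y₃ l - y₁ l| ≤ C * (v - u) := fun l => by
    have := norm_le_pi_norm (y₃ - y₁) l
    rw [Pi.sub_apply, Real.norm_eq_abs] at this
    exact this.trans hL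
  have key : ∀ s ∈ Set.Icc u v, ∀ s' ∈ Set.Icc u v, s ≤ s' → ∀ w w', W s w → W s' w' →
      ‖w' - w‖ ≤ (C + 1) * (s' - s) := by
    intro s hs s' hs' hss w w' hw hw'
    have h0 : 0 ≤ (C + 1) * (s' - s) := mul_nonneg (by linarith) (by linarith)
    rw [pi_norm_le_iff_of_nonneg h0]
    intro l
    rw [Pi.sub_apply, Real.norm_eq_abs, abs_le]
    have hl := abs_le.1 (hcoord l)
    constructor
    · rcases hp l with h | h
      · have := h s hs s' hs' hss w w' hw hw'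
        linarith
      · exfalso
        have := h u hul v hvr huv.le y₁ y₃ h1 h3
        nlinarith [hl.1]
    · rcases hm l with h | h
      · exfalso
        have := h u hul v hvr huv.le y₁ y₃ h1 h3
        nlinarith [hl.2]
      · have := h s hs s' hs' hss w w' hw hw'
        linarith
  intro s hs s' hs' w w' hw hw'
  rcases le_total s s' with hss | hss
  · have h5 := key s hs s' hs' hss w w' hw hw'
    rw [norm_sub_rev, abs_sub_comm, abs_of_nonneg (by linarith)]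
    exact h5
  · have h5 := key s' hs' s hs hss w' w hw' hw
    rw [abs_of_nonneg (by linarith)]
    exact h5

theorem branch {σ ω : Type} {d : ℕ} (Γ : (σ → ℝ) → (Fin d → ℝ) → Prop) (hΓ : SAF Γ)
    (H : (ω → ℝ) → (Fin d → ℝ) → Prop) (hH : SAF H) (τ C : ℕ) (Θ Κ : Type) [Fintype Θ]
    [Fintype Κ] :
    ∃ M : ℕ, ∀ (q : Θ → σ → ℝ) (h : Κ → ω → ℝ) (y : Θ → Fin M → Fin d → ℝ),
      (∀ θ, Slim τ {x | Γ (q θ) x}) → (∀ θ k, Γ (q θ) (y θ k)) →
      (∀ θ θ' k k', k < k' → lin τ (y θ k) < lin τ (y θ' k')) →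
      (∀ θ k k', ‖y θ k - y θ k'‖ ≤ C * |lin τ (y θ k) - lin τ (y θ k')|) →
      ∃ k₁ k₂ k₃ : Fin M, k₁ < k₂ ∧ k₂ < k₃ ∧
        ∀ t : ℝ, (∀ θ, lin τ (y θ k₁) ≤ t) → (∀ θ, t ≤ lin τ (y θ k₃)) → ∀ θ,
          ∃ p : Fin d → ℝ, Γ (q θ) p ∧ lin τ p = t ∧
            (∀ κ, ¬ H (h κ) (y θ k₂) → ¬ H (h κ) p) ∧
            ‖p - y θ k₁‖ ≤ (C + 1) * |t - lin τ (y θ k₁)| ∧
            ‖p - y θ k₂‖ ≤ (C + 1) * |t - lin τ (y θ k₂)| ∧
            ‖p - y θ k₃‖ ≤ (C + 1) * |t - lin τ (y θ k₃)| := by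
  classical
  obtain ⟨B₁, B, hSB⟩ := single_branch Γ hΓ H hH τ (C + 1)
  set z : ℕ := Fintype.card Θ * (B * (1 + Fintype.card Κ)) with hz
  set M : ℕ := (z + 1) * (2 * Fintype.card (Θ → Fin (B₁ + 1)) + 1) + 3 with hM
  refine ⟨M, fun q h y hslim hΓy hlin hLip => ?_⟩
  choose Zf hZfin hZcard hZ1 hZ2 using fun θ => hSB Κ (q θ) h (hslim θ)
  set Z : Set ℝ := ⋃ θ, Zf θ with hZdef
  have hZF : Z.Finite := Set.finite_iUnion hZfin
  have hZc : Z.ncard ≤ z := by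
    have h1 : Z = ((Finset.univ.biUnion fun θ => (hZfin θ).toFinset : Finset ℝ) : Set ℝ) := by
      ext x
      simp [hZdef]
    rw [h1, Set.ncard_coe_finset]
    refine Finset.card_biUnion_le_card_mul _ _ (B * (1 + Fintype.card Κ)) fun θ _ => ?_
    rw [← Set.ncard_eq_toFinset_card _ (hZfin θ)]
    exact hZcard θ
  set r : Fin M → Θ → Fin (B₁ + 1) := fun k θ =>
    if hb : ∃ b, b < B₁ ∧ Wb (Γ (q θ)) τ b (lin τ (y θ k)) (y θ k) then
      ⟨hb.choose, Nat.lt_succ_of_lt hb.choose_spec.1⟩ else ⟨B₁, Nat.lt_succ_self B₁⟩ with hr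
  have hr1 : ∀ k θ, (∃ b, b < B₁ ∧ Wb (Γ (q θ)) τ b (lin τ (y θ k)) (y θ k)) →
      (r k θ : ℕ) < B₁ ∧ Wb (Γ (q θ)) τ (r k θ : ℕ) (lin τ (y θ k)) (y θ k) := by
    intro k θ hb
    have h1 : r k θ = ⟨hb.choose, Nat.lt_succ_of_lt hb.choose_spec.1⟩ := dif_pos hb
    rw [h1]
    exact hb.choose_spec
  obtain ⟨k₁, k₂, k₃, h12, h23, hr12, hr23, hfree⟩ := sel (Θ := Θ) z M (Nat.le_add_right _ _)
    (fun θ k => lin τ (y θ k)) hlin Z hZF hZc r
  refine ⟨k₁, k₂, k₃, h12, h23, fun t ht1 ht3 θ => ?_⟩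
  set u := lin τ (y θ k₁) with hu
  set v := lin τ (y θ k₃) with hv
  have huv : u < v := hlin θ θ k₁ k₃ (h12.trans h23)
  have hfree' : ∀ x ∈ Set.Icc u v, x ∉ Zf θ := fun x hx hxZ =>
    hfree θ θ x hx.1 hx.2 (Set.mem_iUnion.2 ⟨θ, hxZ⟩)
  have hul : u ∈ Set.Icc u v := Set.left_mem_Icc.2 huv.le
  have hvr : v ∈ Set.Icc u v := Set.right_mem_Icc.2 huv.le
  have h2m : lin τ (y θ k₂) ∈ Set.Icc u v := ⟨(hlin θ θ k₁ k₂ h12).le, (hlin θ θ k₂ k₃ h23).le⟩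
  have w1 := hr1 k₁ θ (hZ1 θ (y θ k₁) (hΓy θ k₁) (hfree' _ hul))
  have w2 := hr1 k₂ θ (hZ1 θ (y θ k₂) (hΓy θ k₂) (hfree' _ h2m))
  have w3 := hr1 k₃ θ (hZ1 θ (y θ k₃) (hΓy θ k₃) (hfree' _ hvr))
  rw [← hr23, ← hr12] at w3
  rw [← hr12] at w2
  obtain ⟨hdom, hmin, hplu, htest⟩ := hZ2 θ (r k₁ θ : ℕ) w1.1 u v huv.le hfree'
  have htm : t ∈ Set.Icc u v := ⟨ht1 θ, ht3 θ⟩
  obtain ⟨p, hp⟩ := hdom ⟨u, hul, y θ k₁, w1.2⟩ t htm
  have hpm := rk_mem hp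
  have hcast : ((C + 1 : ℕ) : ℝ) = (C : ℝ) + 1 := by push_cast; rfl
  rw [hcast] at hmin hplu
  have hsl := br_slope (W := Wb (Γ (q θ)) τ (r k₁ θ : ℕ)) (C := (C : ℝ)) (Nat.cast_nonneg C) huv
    w1.2 w3.2 (by
      have h5 := hLip θ k₃ k₁
      rw [abs_of_nonneg (by linarith)] at h5
      exact h5) hmin hplu
  refine ⟨p, hpm.1, hpm.2, fun κ hκ => ?_, ?_, ?_, ?_⟩
  · rcases htest κ with h5 | h5
    · exact absurd (h5 _ h2m _ w2.2) hκ
    · exact h5 t htm p hp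
  · exact hsl t htm u hul p _ hp w1.2
  · exact hsl t htm _ h2m p _ hp w2.2
  · exact hsl t htm v hvr p _ hp w3.2

end UF
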