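import Pool.Agent.Work.MP_4c5ddc_co.Basic

/-!
# Module Brk: break points of semialgebraic families of subsets of the line, small SA lemmas
-/

namespace UF

open BU Filter Topology

/-- uniform bound for the number of break points. -/
theorem brk {σ : Type} (P : (σ → ℝ) → ℝ → Prop)
    (hP : SA {z : σ ⊕ Unit → ℝ | P (fun i => z (Sum.inl i)) (z (Sum.inr ()))}) :
    ∃ B : ℕ, ∀ b : σ → ℝ, (Bk (P b)).Finite ∧ (Bk (P b)).ncard ≤ B := by
  have h1 := SA.rename hP (Sum.elim (fun i => some i) (fun _ => none) : σ ⊕ Unit → Option σ)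
  obtain ⟨F, hF⟩ := h1
  refine ⟨tsize F, fun b => ?_⟩
  have h2 : Bdd (tsize F) (fun z : Option σ → ℝ => P (fun i => z (some i)) (z none)) :=
    ⟨F, le_rfl, fun x y hxy => propext (hF x y hxy)⟩
  exact Bdd.break_points (tsize F) h2 b

theorem sub_bk {u : ℝ → Prop} (h : {t | u t}.Finite) : {t | u t} ⊆ Bk u := by
  intro t ht hev
  have h1 : ∀ᶠ s in 𝓝 t, s ∈ {t | u t} := by
    filter_upwards [hev] with s hs
    have h2 : u t := ht
    show u s
    rw [hs]
    exact h2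
  exact (infinite_of_mem_nhds t h1) h

/-- an infinite set with finitely many break points contains an interval. -/
theorem exists_Ioo_of_infinite {u : ℝ → Prop} (hB : (Bk u).Finite) (h : {t | u t}.Infinite) :
    ∃ a b : ℝ, a < b ∧ ∀ t ∈ Set.Ioo a b, u t := by
  obtain ⟨t, ht, htB⟩ := (h.sdiff hB).nonempty
  have h1 : ∀ᶠ s in 𝓝 t, u s = u t := by
    by_contra hc
    exact htB hc
  obtain ⟨ε, hε, h2⟩ := Metric.eventually_nhds_iff.1 h1
  refine ⟨t - ε, t + ε, by linarith, fun s hs => ?_⟩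
  have h3 := h2 (y := s) (by
    rw [Real.dist_eq, abs_lt]
    constructor <;> linarith [hs.1, hs.2])
  rw [h3]
  exact ht

/-- two values of `u` on an interval free of break points coincide. -/
theorem eq_of_no_bk {u : ℝ → Prop} {a b : ℝ} (h : ∀ x ∈ Set.Icc a b, x ∉ Bk u) {s t : ℝ}
    (hs : s ∈ Set.Icc a b) (ht : t ∈ Set.Icc a b) : u s ↔ u t := by
  rcases le_total s t with hst | hst
  · exact iff_of_eq (PC.eq_of_Icc hst fun x hx => h x ⟨hs.1.trans hx.1, hx.2.trans ht.2⟩)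
  · exact iff_of_eq
      (PC.eq_of_Icc hst fun x hx => h x ⟨ht.1.trans hx.1, hx.2.trans hs.2⟩).symm

theorem SA_eq {σ : Type} (e f : Fm σ) : SA {x : σ → ℝ | e.eval x = f.eval x} := by
  refine SA.S5a_congr (SA.inter (SA.le e f) (SA.le f e)) fun x => ?_
  simp only [Set.mem_inter_iff, Set.mem_ofPred_eq]
  exact ⟨fun h => le_antisymm h.1 h.2, fun h => ⟨h.le, h.ge⟩⟩

theorem exists_fm_pow {σ : Type} (e : Fm σ) (n : ℕ) :
    ∃ f : Fm σ, ∀ x : σ → ℝ, f.eval x = e.eval x ^ n := by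
  induction n with
  | zero => exact ⟨Fm.const 1, fun x => by simp [Fm.eval]⟩
  | succ n ih =>
    obtain ⟨f, hf⟩ := ih
    exact ⟨Fm.mul f e, fun x => by simp [Fm.eval, hf, pow_succ]⟩

theorem exists_fm_sum {σ ι : Type} (s : Finset ι) (g : ι → (σ → ℝ) → ℝ)
    (hg : ∀ i, ∃ f : Fm σ, ∀ x : σ → ℝ, f.eval x = g i x) :
    ∃ f : Fm σ, ∀ x : σ → ℝ, f.eval x = ∑ i ∈ s, g i x := by
  classical
  induction s using Finset.induction_on with
  | empty => exact ⟨Fm.const 0, fun x => by simp [Fm.eval]⟩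
  | insert a s ha ih =>
    obtain ⟨f, hf⟩ := ih
    obtain ⟨f', hf'⟩ := hg a
    exact ⟨Fm.add f' f, fun x => by simp [Fm.eval, hf, hf', Finset.sum_insert ha]⟩

/-- `lin τ` of a block of variables is the value of an integer expression. -/
theorem exists_fm_lin {σ : Type} {d : ℕ} (τ : ℕ) (r : Fin d → σ) :
    ∃ e : Fm σ, ∀ x : σ → ℝ, e.eval x = lin τ (fun l => x (r l)) := by
  refine exists_fm_sum Finset.univ (fun (l : Fin d) x => (τ : ℝ) ^ (l : ℕ) * x (r l)) fun l => ?_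
  exact ⟨Fm.mul (Fm.const ((τ : ℤ) ^ (l : ℕ))) (Fm.var (r l)), fun x => by simp [Fm.eval]⟩

/-- a slice of a semialgebraic family by a level of `lin τ`, the level being the last parameter. -/
theorem slice_SAF {σ : Type} {d : ℕ} (Γ : (σ → ℝ) → (Fin d → ℝ) → Prop) (hΓ : SAF Γ) (τ : ℕ) :
    SAF fun (q : σ ⊕ Unit → ℝ) (y : Fin d → ℝ) =>
      Γ (fun i => q (Sum.inl i)) y ∧ lin τ y = q (Sum.inr ()) := by
  unfold SAF
  refine SA.S5a_and (SA.rename hΓ (Sum.elim (fun i => Sum.inl (Sum.inl i)) (fun l => Sum.inr l) :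
    σ ⊕ Fin d → (σ ⊕ Unit) ⊕ Fin d)) ?_
  obtain ⟨e, he⟩ := exists_fm_lin (σ := (σ ⊕ Unit) ⊕ Fin d) (d := d) τ (fun l => Sum.inr l)
  refine SA.S5a_congr (SA_eq e (Fm.var (Sum.inl (Sum.inr ())))) fun x => ?_
  simp only [Set.mem_ofPred_eq, he, Fm.eval]

end UF
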