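import Pool.Agent.Work.MP_4c5ddc_co.Rel

/-!
# Module CntC: faces without vertices which touch another set

Let `P` be the family of faces in the statement. Proof.
1. For `F ∈ P` there is `ε_F > 0` such that every `x ∈ closure F` with `x ∉ K j` and
   `∃ z ∈ K j, ∀ l, |x l - z l| < ε_F` is in `F`. For `l ≠ i, j` the compact set
   `Y_l = closure F ∩ K l` (`closure F ⊆ frontier (K i)`, compact) does not meet `K j`: a point of
   both would be in the boundary of the union (`closure_fr`), so in the boundaries of `K l`, `K j`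
   (`mem_fr_of_mem`) and `K i` (`closure_idx`), so its index set would have three elements. So there
   is `δ > 0` with `δ ≤ dist a b` for all `a ∈ Y_l`, `b ∈ K j`, all `l ≠ i, j` (compactness,
   `IsCompact.exists_infDist_eq_dist`, `Metric.infDist`, or `Disjoint.exists_thickenings`). Let
   `ε_F = δ / 2` (`dist ≤ √3 ε < 2 ε`). A point `x` as above is in no `K l`, `l ≠ i`, and it is in
   `frontier (K i)`, so it is in `cell K {i} ⊆ stratum K 1` (`mem_stratum`), and in `F` by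
   `comp_closed`.
2. By `count_finsets` it is enough to bound the number of elements of a finite subset `P'` of `P`.
   Let `ε > 0` be smaller than all `ε_F`, `F ∈ P'`, and apply `count_pieces` to `P'` and
   `A = {y | y ∈ frontier (K i) ∧ y ∉ K j ∧ ∃ z ∈ K j, ∀ l, |y l - z l| < ε}`.
   * Every `F ∈ P'` meets `A`: let `x ∈ closure F ∩ K j`; there is `y ∈ F` with
     `∀ l, |y l - x l| < ε`; `y ∈ cell K {i}`, so `y ∈ frontier (K i)`, `y ∉ K j` (`j ≠ i`).
   * If `Q ⊆ A` is preconnected and meets `F` then `Q ⊆ F`: `clopen_sub` with the set `W` of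
     `comp_rel` (`J = {i}`), and `Q ∩ closure F ⊆ F` by 1.
-/

namespace UF

variable {n : ℕ} {K : Fin n → Set E3}

private theorem cntC_box {x y : E3} {ε : ℝ} (hε : 0 < ε) (h : ∀ j, |y j - x j| < ε) :
    dist y x < 2 * ε := by
  rw [EuclideanSpace.dist_eq, Real.sqrt_lt' (by linarith), Fin.sum_univ_three]
  have h1 : ∀ j, dist (y j) (x j) ^ 2 < ε ^ 2 := fun j => by
    rw [Real.dist_eq]
    exact pow_lt_pow_left₀ (h j) (abs_nonneg _) two_ne_zero
  nlinarith [h1 0, h1 1, h1 2, sq_nonneg ε]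

private theorem cntC_coord {x y : E3} {ε : ℝ} (h : dist y x < ε) (j : Fin 3) :
    |y j - x j| < ε := by
  have h1 : ‖(y - x) j‖ ≤ ‖y - x‖ := PiLp.norm_apply_le (y - x) j
  rw [dist_eq_norm] at h
  have h2 : ‖(y - x) j‖ = |y j - x j| := by
    rw [Real.norm_eq_abs]
    rfl
  rw [h2] at h1
  exact lt_of_le_of_lt h1 h

/-- points of the closure near `K j` are in the face -/
private theorem cntC_eps (hc : ∀ i, IsCompact (K i)) (hreg : Reg K) (i j : Fin n) (hij : i ≠ j)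
    {F : Set E3} (hF : F ∈ comps (stratum K 1)) (hFi : ∀ y ∈ F, idx K y = {i})
    (hF2 : ∀ x ∈ closure F, (idx K x).ncard ≤ 2) :
    ∃ ε : ℝ, 0 < ε ∧ ∀ x ∈ closure F, x ∉ K j → (∃ z ∈ K j, ∀ l, |x l - z l| < ε) → x ∈ F := by
  have hcl : ∀ i, IsClosed (K i) := fun i => (hc i).isClosed
  have hY : IsCompact (closure F ∩ ⋃ l : {l : Fin n // l ≠ i ∧ l ≠ j}, K l.1) :=
    (isCompact_iUnion fun l : {l : Fin n // l ≠ i ∧ l ≠ j} => hc l.1).inter_left isClosed_closure
  have hiF : ∀ x ∈ closure F, i ∈ idx K x := fun x hx =>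
    closure_idx hF (J := {i}) hFi hx (Set.mem_singleton i)
  have hd : Disjoint (closure F ∩ ⋃ l : {l : Fin n // l ≠ i ∧ l ≠ j}, K l.1) (K j) := by
    rw [Set.disjoint_left]
    rintro x ⟨hx, hxl⟩ hxj
    obtain ⟨⟨l, hli, hlj⟩, hxl⟩ := Set.mem_iUnion.1 hxl
    have hfr := closure_fr hF hx
    have h1 : l ∈ idx K x := mem_fr_of_mem hcl hfr hxl
    have h2 : j ∈ idx K x := mem_fr_of_mem hcl hfr hxj
    have h3 := hiF x hx
    have h4 : ({i, j, l} : Set (Fin n)) ⊆ idx K x := by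
      intro a ha
      rcases ha with rfl | rfl | rfl
      · exact h3
      · exact h2
      · exact h1
    have h5 : ({i, j, l} : Set (Fin n)).ncard = 3 := by
      rw [Set.ncard_eq_three]
      exact ⟨i, j, l, hij, hli.symm, hlj.symm, rfl⟩
    have h6 := Set.ncard_le_ncard h4 (Set.toFinite _)
    have h7 := hF2 x hx
    omega
  obtain ⟨r, hr, hr2⟩ := Metric.exists_pos_forall_lt_edist hY (hcl j) hd
  have hr' : (0 : ℝ) < r := by exact_mod_cast hr
  refine ⟨r / 2, by positivity, fun x hx hxj hz => ?_⟩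
  obtain ⟨z, hzj, hz⟩ := hz
  have hdist : dist x z < r := by
    have := cntC_box (by positivity : (0 : ℝ) < r / 2) hz
    linarith
  refine comp_closed hF hx (mem_stratum hcl hreg (J := {i}) (Or.inl rfl) (Set.ncard_singleton i)
    ⟨fun l hl => ?_, fun l hl => ?_⟩)
  · rw [Set.mem_singleton_iff] at hl
    rw [hl]
    exact hiF x hx
  · rw [Set.mem_singleton_iff] at hl
    by_cases hlj : l = j
    · rw [hlj]
      exact hxj
    · intro hxl
      have h1 := hr2 x ⟨hx, Set.mem_iUnion.2 ⟨⟨l, hl, hlj⟩, hxl⟩⟩ z hzj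
      rw [edist_dist, ← ENNReal.ofReal_coe_nnreal] at h1
      have h2 := (ENNReal.ofReal_lt_ofReal_iff_of_nonneg hr'.le).1 h1
      linarith

theorem cnt_edge (hc : ∀ i, IsCompact (K i)) (hreg : Reg K) {N N' : ℕ}
    (hp : Pieces N' (stratum K 1)) (i j : Fin n) (hij : i ≠ j)
    (hA : ∀ ε : ℝ, 0 < ε → Pieces N {y | y ∈ frontier (K i) ∧ y ∉ K j ∧
      ∃ z ∈ K j, ∀ l, |y l - z l| < ε}) :
    {F | F ∈ comps (stratum K 1) ∧ (∀ y ∈ F, idx K y = {i}) ∧
      (∀ x ∈ closure F, (idx K x).ncard ≤ 2) ∧ (closure F ∩ K j).Nonempty}.Finite ∧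
    {F | F ∈ comps (stratum K 1) ∧ (∀ y ∈ F, idx K y = {i}) ∧
      (∀ x ∈ closure F, (idx K x).ncard ≤ 2) ∧ (closure F ∩ K j).Nonempty}.ncard ≤ N := by
  have hcl : ∀ i, IsClosed (K i) := fun i => (hc i).isClosed
  refine count_finsets _ fun P' hP' hfin => ?_
  have heps : ∀ F ∈ P', ∃ ε : ℝ, 0 < ε ∧ ∀ x ∈ closure F, x ∉ K j →
      (∃ z ∈ K j, ∀ l, |x l - z l| < ε) → x ∈ F := fun F hF => by
    obtain ⟨h1, h2, h3, _⟩ := hP' hF
    exact cntC_eps hc hreg i j hij h1 h2 h3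
  choose! e he0 he using heps
  have hex : ∃ ε : ℝ, 0 < ε ∧ ∀ F ∈ P', ε < e F := by
    have h1 : ∀ᶠ ε in nhdsWithin (0 : ℝ) (Set.Ioi 0), ∀ F ∈ P', ε < e F := by
      rw [Filter.eventually_all_finite hfin]
      intro F hF
      filter_upwards [Ioo_mem_nhdsGT (he0 F hF)] with ε hε using hε.2
    obtain ⟨ε, h2, h3⟩ := (h1.and self_mem_nhdsWithin).exists
    exact ⟨ε, h3, h2⟩
  obtain ⟨ε, hε, hεe⟩ := hex
  refine (count_pieces (hA ε hε) P' (fun F hF => (hP' hF).1) (fun F hF => ?_)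
    (fun F hF Q hQA hQ hQF => ?_)).2
  · obtain ⟨h1, h2, _, x, hxF, hxj⟩ := hP' hF
    obtain ⟨y, hyF, hy⟩ := Metric.mem_closure_iff.1 hxF ε hε
    have hcy := cell_of_stratum hcl (comps_sub h1 hyF)
    rw [h2 y hyF] at hcy
    rw [dist_comm] at hy
    exact ⟨y, hyF, hcy.1 i rfl, hcy.2 j (fun h => hij h.symm), x, hxj, fun l => cntC_coord hy l⟩
  · obtain ⟨h1, h2, _, _⟩ := hP' hF
    obtain ⟨W, hW, hFW, hW2⟩ := comp_rel hcl hreg (Or.inl rfl) hp h1 h2
    refine clopen_sub hW hQ hQF (fun y hy => hW2 y hy.2 fun l hl => ?_) (fun y hy => hFW hy.2)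
      (fun y hy => ?_)
    · rw [Set.mem_singleton_iff] at hl
      rw [hl]
      exact (hQA hy.1).1
    · obtain ⟨_, h4, z, hz, h5⟩ := hQA hy.1
      exact he F hF y hy.2 h4 ⟨z, hz, fun l => (h5 l).trans (hεe F hF)⟩

end UF
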