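import Pool.Agent.Work.MP_4c5ddc_co.CntB
import Pool.Agent.Work.MP_4c5ddc_co.CntC

/-!
# Module Tot: the numbers of edges and faces are bounded by the number of vertices

Proof. Let `N` be the number of `pieces_bound s`, `A = 16 * N`. Let `n, K` be given,
`V = vertices K` (finite by `GenPos`, see the beginning of the proof of `Final.final`), and
`m = 1` or `2`. `Reg K` holds by `reg_of` (`Obj` gives convexity, compactness and a ball in `K i`).
`Pieces N' (stratum K m)` for some `N'`: by `mem_stratum`, `cell_of_stratum` it is the union of the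
finitely many sets `cell K J`, `J.ncard = m` (`pieces_strata`; a finite union of sets with `Pieces`
has `Pieces`, by `Fintype.equivFin` of a sigma type).
Let `F ∈ comps (stratum K m)`, `J` its index set (`comp_idx`), `J.ncard = m`. One of the following
holds:
(B) some `x ∈ closure F` has `3 ≤ (idx K x).ncard`: then `x ∈ V` (`closure_fr`;
    `Set.ncard = 3` gives three different indices) and `J ⊆ idx K x` (`closure_idx`);
(A) otherwise, `F` is closed;
(C) otherwise there is `x ∈ closure F`, `x ∉ F`, with `(idx K x).ncard ≤ 2`, `J ⊆ idx K x`,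
    `x ∈ frontier (⋃ i, K i)`. If `(idx K x).ncard = m` then `x ∈ stratum K m` and `x ∈ F` by
    `comp_closed`; so `m = 1`, `J = {i}`, `idx K x = {i, j}` with `j ≠ i`, `x ∈ closure F ∩ K j`.
So `comps (stratum K m)` is contained in the union of
(A) the sets of `cnt_closed` for `J = {i, j}`, `(i, j) ∈ Fin n × Fin n` (for `m = 1`: `i = j`): at
    most `n ^ 2 * N` components (`{y | ∀ l ∈ {i, j}, y ∈ frontier (K l)}` is
    `frontier (K i) ∩ frontier (K j)`, second set of `pieces_bound`);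
(C) the sets of `cnt_edge` for `i ≠ j` (only for `m = 1`): at most `n ^ 2 * N` (third set);
(B) the sets of `cnt_vertex` for `x ∈ V` and `J ⊆ idx K x`, `J.ncard = m` (at most `2 ^ 3 = 8` sets
    `J` for each `x`): at most `8 * N * V.ncard` (fourth set for `m = 1`, `J = {i}`,
    `idx K x = {i, j, k}`; fifth set for `m = 2`, `J = {i, j}`).
Add up for `m = 1, 2`.
-/

namespace UF

theorem union_bound {ι : Type} [Fintype ι] {X : Type} (S : ι → Set X) (N : ℕ)
    (h : ∀ i, (S i).Finite ∧ (S i).ncard ≤ N) :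
    (⋃ i, S i).Finite ∧ (⋃ i, S i).ncard ≤ Fintype.card ι * N := by
  refine ⟨Set.finite_iUnion fun i => (h i).1, (Set.ncard_iUnion_le_of_fintype S).trans ?_⟩
  refine (Finset.sum_le_sum fun i _ => (h i).2).trans ?_
  rw [Finset.sum_const, smul_eq_mul, Finset.card_univ]

theorem pieces_iUnion {ι : Type} [Finite ι] (S : ι → Set E3) (h : ∀ i, ∃ N, Pieces N (S i)) :
    ∃ N, Pieces N (⋃ i, S i) := by
  classical
  have := Fintype.ofFinite ι
  choose N D hD1 hD2 using h
  let e : (Σ i, Fin (N i)) ≃ Fin (Fintype.card (Σ i, Fin (N i))) := Fintype.equivFin _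
  refine ⟨_, fun c => D (e.symm c).1 (e.symm c).2, fun c => hD1 _ _, ?_⟩
  ext x
  constructor
  · intro hx
    obtain ⟨i, hi⟩ := Set.mem_iUnion.1 hx
    rw [hD2 i] at hi
    obtain ⟨c, hc⟩ := Set.mem_iUnion.1 hi
    refine Set.mem_iUnion.2 ⟨e ⟨i, c⟩, ?_⟩
    rw [e.symm_apply_apply]
    exact hc
  · intro hx
    obtain ⟨c, hc⟩ := Set.mem_iUnion.1 hx
    refine Set.mem_iUnion.2 ⟨(e.symm c).1, ?_⟩
    rw [hD2]
    exact Set.mem_iUnion.2 ⟨_, hc⟩

variable {n : ℕ} {K : Fin n → Set E3}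

theorem pieces_stratum {s : ℕ} (hK : ∀ i, Semialg s (K i)) (hcl : ∀ i, IsClosed (K i))
    (hreg : Reg K) {m : ℕ} (hm : m = 1 ∨ m = 2) : ∃ N, Pieces N (stratum K m) := by
  have h1 : stratum K m = ⋃ J : {J : Set (Fin n) // J.ncard = m}, cell K J.1 := by
    ext x
    constructor
    · exact fun hx => Set.mem_iUnion.2 ⟨⟨idx K x, hx.2⟩, cell_of_stratum hcl hx⟩
    · intro hx
      obtain ⟨J, hJ⟩ := Set.mem_iUnion.1 hx
      exact mem_stratum hcl hreg hm J.2 hJ
  rw [h1]
  exact pieces_iUnion _ fun J => pieces_strata K hK J.1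

theorem mem_vertices {x : E3} : x ∈ vertices K ↔ x ∈ frontier (⋃ i, K i) ∧ 3 ≤ (idx K x).ncard := by
  constructor
  · rintro ⟨h1, i, j, k, hij, hik, hjk, h2, h3, h4⟩
    refine ⟨h1, ?_⟩
    have : 2 < (idx K x).ncard := (Set.two_lt_ncard_iff (Set.toFinite _)).2
      ⟨i, j, k, h2, h3, h4, hij, hik, hjk⟩
    omega
  · rintro ⟨h1, h2⟩
    obtain ⟨i, j, k, h3, h4, h5, hij, hik, hjk⟩ :=
      (Set.two_lt_ncard_iff (Set.toFinite _)).1 (show 2 < (idx K x).ncard by omega)
    exact ⟨h1, i, j, k, hij, hik, hjk, h3, h4, h5⟩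

theorem vertices_finite (hG : GenPos K) : (vertices K).Finite := by
  refine Set.Finite.subset (s := ⋃ p : {p : Fin n × Fin n × Fin n // p.1 ≠ p.2.1 ∧
    p.1 ≠ p.2.2 ∧ p.2.1 ≠ p.2.2}, frontier (K p.1.1) ∩ frontier (K p.1.2.1) ∩
      frontier (K p.1.2.2)) (Set.finite_iUnion fun p => hG.2 _ _ _ p.2.1 p.2.2.1 p.2.2.2) ?_
  rintro x ⟨-, i, j, k, hij, hik, hjk, h1, h2, h3⟩
  exact Set.mem_iUnion.2 ⟨⟨(i, j, k), hij, hik, hjk⟩, ⟨h1, h2⟩, h3⟩

/-- the sets `A`, `B`, `C` of the header -/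
def setA (K : Fin n → Set E3) (m : ℕ) (p : Fin n × Fin n) : Set (Set E3) :=
  {F | F ∈ comps (stratum K m) ∧ (∀ x ∈ F, idx K x = {p.1, p.2}) ∧ IsClosed F}

def setB (K : Fin n → Set E3) (m : ℕ) (x : E3) (J : Set (Fin n)) : Set (Set E3) :=
  {F | F ∈ comps (stratum K m) ∧ (∀ y ∈ F, idx K y = J) ∧ x ∈ closure F}

def setC (K : Fin n → Set E3) (m : ℕ) (p : Fin n × Fin n) : Set (Set E3) :=
  {F | m = 1 ∧ p.1 ≠ p.2 ∧ F ∈ comps (stratum K m) ∧ (∀ y ∈ F, idx K y = {p.1}) ∧
      (∀ x ∈ closure F, (idx K x).ncard ≤ 2) ∧ (closure F ∩ K p.2).Nonempty}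

theorem cover (hcl : ∀ i, IsClosed (K i)) {m : ℕ} (hm : m = 1 ∨ m = 2) {F : Set E3}
    (hF : F ∈ comps (stratum K m)) :
    (∃ p, F ∈ setA K m p) ∨ (∃ x ∈ vertices K, ∃ J, J ⊆ idx K x ∧ J.ncard = m ∧
      F ∈ setB K m x J) ∨ (∃ p, F ∈ setC K m p) := by
  obtain ⟨J, hJm, hJ⟩ := comp_idx hcl hF
  by_cases hB : ∃ x ∈ closure F, 3 ≤ (idx K x).ncard
  · obtain ⟨x, hx, hx3⟩ := hB
    exact Or.inr (Or.inl ⟨x, mem_vertices.2 ⟨closure_fr hF hx, hx3⟩, J, closure_idx hF hJ hx, hJm,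
      hF, hJ, hx⟩)
  have hB' : ∀ x ∈ closure F, (idx K x).ncard ≤ 2 := fun x hx => by
    by_contra hc
    exact hB ⟨x, hx, by omega⟩
  by_cases hA : IsClosed F
  · refine Or.inl ?_
    rcases hm with rfl | rfl
    · obtain ⟨i, rfl⟩ := Set.ncard_eq_one.1 hJm
      exact ⟨(i, i), hF, fun x hx => by simpa using hJ x hx, hA⟩
    · obtain ⟨i, j, -, rfl⟩ := Set.ncard_eq_two.1 hJm
      exact ⟨(i, j), hF, hJ, hA⟩
  · refine Or.inr (Or.inr ?_)
    have h1 : ∃ x ∈ closure F, x ∉ F := by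
      by_contra hc
      push Not at hc
      exact hA (isClosed_of_closure_subset fun x hx => hc x hx)
    obtain ⟨x, hx, hxF⟩ := h1
    have h2 := hB' x hx
    have h3 := closure_idx hF hJ hx
    have h4 := closure_fr hF hx
    have h5 : (idx K x).ncard ≠ m := fun h => hxF (comp_closed hF hx ⟨h4, h⟩)
    have h6 := Set.ncard_le_ncard h3 (Set.toFinite _)
    rw [hJm] at h6
    have hm1 : m = 1 := by
      rcases hm with rfl | rfl
      · rfl
      · omega
    subst hm1
    obtain ⟨i, rfl⟩ := Set.ncard_eq_one.1 hJm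
    have h7 : ∃ j ∈ idx K x, j ≠ i := by
      by_contra hc
      push Not at hc
      have : idx K x = {i} := Set.Subset.antisymm (fun j hj => hc j hj) h3
      rw [this] at h5
      simp at h5
    obtain ⟨j, hj, hji⟩ := h7
    exact ⟨(i, j), rfl, fun h => hji h.symm, hF, hJ, hB', x, hx, (hcl j).frontier_subset hj⟩

theorem total_bound (α : ℝ) (s : ℕ) : ∃ A : ℕ, ∀ (n : ℕ) (K : Fin n → Set E3),
    (∀ i, Obj α s (K i)) → GenPos K → (∀ x, (idx K x).ncard ≤ 3) →
      (comps (stratum K 1)).Finite ∧ (comps (stratum K 2)).Finite ∧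
      (comps (stratum K 1)).ncard + (comps (stratum K 2)).ncard ≤
        A * (n ^ 2 + (vertices K).ncard) := by
  classical
  obtain ⟨N, hN⟩ := pieces_bound s
  refine ⟨16 * N, fun n K hK hG h3 => ?_⟩
  have hS : ∀ i, Semialg s (K i) := fun i => (hK i).2.2.2
  have hcl : ∀ i, IsClosed (K i) := fun i => (hK i).1.isClosed
  have hreg : Reg K := by
    refine reg_of hcl (fun i => (hK i).2.1) (fun i => ?_) hG.1
    obtain ⟨x, -, r, -, hr, -, hxr, -⟩ := (hK i).2.2.1
    exact ⟨x, interior_maximal (Metric.ball_subset_closedBall.trans hxr) Metric.isOpen_ball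
      (Metric.mem_ball_self hr)⟩
  have hVf : (vertices K).Finite := vertices_finite hG
  -- the bound for one dimension
  have key : ∀ m, (m = 1 ∨ m = 2) → (comps (stratum K m)).Finite ∧
      (comps (stratum K m)).ncard ≤ 2 * (n ^ 2 * N) + (vertices K).ncard * (8 * N) := by
    intro m hm
    obtain ⟨N', hp⟩ := pieces_stratum hS hcl hreg hm
    have hA : ∀ p, (setA K m p).Finite ∧ (setA K m p).ncard ≤ N := by
      intro p
      refine cnt_closed hcl hreg hm hp {p.1, p.2} ?_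
      have h1 := (hN (K p.1) (K p.2) (K p.2) (hS _) (hS _) (hS _) 0 0).2.1
      have h2 : {y | ∀ i ∈ ({p.1, p.2} : Set (Fin n)), y ∈ frontier (K i)} =
          frontier (K p.1) ∩ frontier (K p.2) := by
        ext y
        simp
      rw [h2]
      exact h1
    have hC : ∀ p, (setC K m p).Finite ∧ (setC K m p).ncard ≤ N := by
      intro p
      by_cases hm1 : m = 1 ∧ p.1 ≠ p.2
      · obtain ⟨rfl, hp12⟩ := hm1
        have h1 := cnt_edge (fun i => (hK i).1) hreg hp p.1 p.2 hp12 (fun ε _ =>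
          (hN (K p.1) (K p.2) (K p.2) (hS _) (hS _) (hS _) 0 ε).2.2.1)
        have h2 : setC K 1 p = {F | F ∈ comps (stratum K 1) ∧ (∀ y ∈ F, idx K y = {p.1}) ∧
            (∀ x ∈ closure F, (idx K x).ncard ≤ 2) ∧ (closure F ∩ K p.2).Nonempty} := by
          ext F
          exact ⟨fun h => h.2.2, fun h => ⟨rfl, hp12, h⟩⟩
        rw [h2]
        exact h1
      · have h2 : setC K m p = ∅ := by
          ext F
          simp only [Set.mem_empty_iff_false, iff_false]
          exact fun h => hm1 ⟨h.1, h.2.1⟩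
        rw [h2]
        simp
    have hB : ∀ x ∈ vertices K, ∀ J, J ⊆ idx K x → J.ncard = m →
        (setB K m x J).Finite ∧ (setB K m x J).ncard ≤ N := by
      intro x hx J hJ hJm
      refine cnt_vertex hcl hreg hm J hJm x hx.1 fun ε _ => ?_
      have hx3 : (idx K x).ncard = 3 := le_antisymm (h3 x) (mem_vertices.1 hx).2
      have hd : (idx K x \ J).ncard = 3 - m := by
        rw [Set.ncard_sdiff hJ (Set.toFinite _), hx3, hJm]
      rcases hm with rfl | rfl
      · obtain ⟨i, rfl⟩ := Set.ncard_eq_one.1 hJm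
        obtain ⟨j, k, -, hjk⟩ := Set.ncard_eq_two.1 hd
        have h1 := (hN (K i) (K j) (K k) (hS _) (hS _) (hS _) x ε).2.2.2.1
        have h2 : {y : E3 | (∀ i' ∈ ({i} : Set (Fin n)), y ∈ frontier (K i')) ∧
            (∀ i' ∈ idx K x, i' ∉ ({i} : Set (Fin n)) → y ∉ K i') ∧ ∀ j, |y j - x j| < ε} =
            {y | y ∈ frontier (K i) ∧ y ∉ K j ∧ y ∉ K k ∧ ∀ j, |y j - x j| < ε} := by
          ext y
          have e1 : (∀ i' ∈ idx K x, i' ∉ ({i} : Set (Fin n)) → y ∉ K i') ↔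
              ∀ i' ∈ idx K x \ {i}, y ∉ K i' :=
            ⟨fun h i' hi' => h i' hi'.1 hi'.2, fun h i' h1 h2 => h i' ⟨h1, h2⟩⟩
          simp only [Set.mem_ofPred_eq, e1, hjk]
          simp [and_assoc]
        rw [h2]
        exact h1
      · obtain ⟨i, j, -, rfl⟩ := Set.ncard_eq_two.1 hJm
        obtain ⟨k, hk⟩ := Set.ncard_eq_one.1 hd
        have h1 := (hN (K i) (K j) (K k) (hS _) (hS _) (hS _) x ε).2.2.2.2
        have h2 : {y : E3 | (∀ i' ∈ ({i, j} : Set (Fin n)), y ∈ frontier (K i')) ∧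
            (∀ i' ∈ idx K x, i' ∉ ({i, j} : Set (Fin n)) → y ∉ K i') ∧ ∀ j, |y j - x j| < ε} =
            {y | y ∈ frontier (K i) ∧ y ∈ frontier (K j) ∧ y ∉ K k ∧ ∀ j, |y j - x j| < ε} := by
          ext y
          have e1 : (∀ i' ∈ idx K x, i' ∉ ({i, j} : Set (Fin n)) → y ∉ K i') ↔
              ∀ i' ∈ idx K x \ {i, j}, y ∉ K i' :=
            ⟨fun h i' hi' => h i' hi'.1 hi'.2, fun h i' h1 h2 => h i' ⟨h1, h2⟩⟩
          simp only [Set.mem_ofPred_eq, e1, hk]
          simp [and_assoc]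
        rw [h2]
        exact h1
    -- the unions
    have hUA := union_bound (setA K m) N hA
    have hUC := union_bound (setC K m) N hC
    have hUB : (⋃ x : vertices K, ⋃ J : {J : Set (Fin n) // J ⊆ idx K x.1 ∧ J.ncard = m},
        setB K m x.1 J.1).Finite ∧
        (⋃ x : vertices K, ⋃ J : {J : Set (Fin n) // J ⊆ idx K x.1 ∧ J.ncard = m},
          setB K m x.1 J.1).ncard ≤ (vertices K).ncard * (8 * N) := by
      have : Fintype (vertices K) := hVf.fintype
      have h1 := union_bound (fun x : vertices K => ⋃ J : {J : Set (Fin n) //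
        J ⊆ idx K x.1 ∧ J.ncard = m}, setB K m x.1 J.1) (8 * N) (fun x => by
          have h2 := union_bound (fun J : {J : Set (Fin n) // J ⊆ idx K x.1 ∧ J.ncard = m} =>
            setB K m x.1 J.1) N (fun J => hB x.1 x.2 J.1 J.2.1 J.2.2)
          refine ⟨h2.1, h2.2.trans (Nat.mul_le_mul_right _ ?_)⟩
          have h5 : Fintype.card {J : Set (Fin n) // J ⊆ idx K x.1 ∧ J.ncard = m} =
              {J : Set (Fin n) | J ⊆ idx K x.1 ∧ J.ncard = m}.ncard := by
            rw [← Nat.card_eq_fintype_card]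
            rfl
          rw [h5]
          have h6 : {J : Set (Fin n) | J ⊆ idx K x.1 ∧ J.ncard = m} ⊆ 𝒫 (idx K x.1) :=
            fun J hJ => hJ.1
          refine (Set.ncard_le_ncard h6 (Set.toFinite _)).trans ?_
          rw [Set.ncard_powerset _ (Set.toFinite _)]
          exact (Nat.pow_le_pow_right (by norm_num) (h3 x.1)).trans (by norm_num))
      have h7 : Fintype.card (vertices K) = (vertices K).ncard := by
        rw [← Nat.card_eq_fintype_card]
        rfl
      rw [h7] at h1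
      exact h1
    have hsub : comps (stratum K m) ⊆ (⋃ p, setA K m p) ∪ ((⋃ x : vertices K,
        ⋃ J : {J : Set (Fin n) // J ⊆ idx K x.1 ∧ J.ncard = m}, setB K m x.1 J.1) ∪
        (⋃ p, setC K m p)) := by
      intro F hF
      rcases cover hcl hm hF with ⟨p, hp⟩ | ⟨x, hx, J, hJ, hJm, hF'⟩ | ⟨p, hp⟩
      · exact Or.inl (Set.mem_iUnion.2 ⟨p, hp⟩)
      · exact Or.inr (Or.inl (Set.mem_iUnion.2 ⟨⟨x, hx⟩, Set.mem_iUnion.2 ⟨⟨J, hJ, hJm⟩, hF'⟩⟩))
      · exact Or.inr (Or.inr (Set.mem_iUnion.2 ⟨p, hp⟩))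
    have hfin := hUA.1.union (hUB.1.union hUC.1)
    refine ⟨hfin.subset hsub, (Set.ncard_le_ncard hsub hfin).trans ?_⟩
    refine (Set.ncard_union_le _ _).trans ?_
    have h8 := Set.ncard_union_le (⋃ x : vertices K,
        ⋃ J : {J : Set (Fin n) // J ⊆ idx K x.1 ∧ J.ncard = m}, setB K m x.1 J.1)
        (⋃ p, setC K m p)
    have h9 : Fintype.card (Fin n × Fin n) = n ^ 2 := by
      rw [Fintype.card_prod, Fintype.card_fin, sq]
    rw [h9] at hUA hUC
    have h10 := hUA.2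
    have h11 := hUB.2
    have h12 := hUC.2
    omega
  obtain ⟨f1, b1⟩ := key 1 (Or.inl rfl)
  obtain ⟨f2, b2⟩ := key 2 (Or.inr rfl)
  refine ⟨f1, f2, ?_⟩
  have : 16 * N * (n ^ 2 + (vertices K).ncard) = 16 * (n ^ 2 * N) +
      2 * ((vertices K).ncard * (8 * N)) := by ring
  rw [this]
  have h13 : 0 ≤ n ^ 2 * N := Nat.zero_le _
  omega

end UF
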