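import Pool.Agent.Work.MP_4c5ddc_co.Str

/-!
# Module CntB: components which are adjacent to a given vertex

Proof. The points `x` is not in `K l` for `l ∉ idx K x` (`mem_fr_of_mem`), so there is `ε > 0` such
that no `y` with `∀ j, |y j - x j| < ε` is in such a `K l` (finitely many closed sets; the sets
`{y | ∀ j, |y j - x j| < ε}` form a basis of neighbourhoods of `x`: if `|y j - x j| < ε` for all `j`
then `dist y x ≤ √3 ε < 2 ε`, `EuclideanSpace.dist_eq`). Apply `count_pieces` to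
`A = {y | (∀ i ∈ J, y ∈ frontier (K i)) ∧ (∀ i ∈ idx K x, i ∉ J → y ∉ K i) ∧ ∀ j, |y j - x j| < ε}`:
`A ⊆ cell K J ⊆ stratum K m` (`mem_stratum`), so the last condition of `count_pieces` is `sub_comp`.
Every `F` of the family meets `A`: `{y | ∀ j, |y j - x j| < ε}` is a neighbourhood of
`x ∈ closure F`, so it contains some `y ∈ F`, and `y ∈ cell K J` (`cell_of_stratum`, `idx K y = J`).
-/

namespace UF

variable {n : ℕ} {K : Fin n → Set E3}

private theorem cntB_box {x y : E3} {ε : ℝ} (hε : 0 < ε) (h : ∀ j, |y j - x j| < ε) :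
    dist y x < 2 * ε := by
  rw [EuclideanSpace.dist_eq, Real.sqrt_lt' (by linarith), Fin.sum_univ_three]
  have h1 : ∀ j, dist (y j) (x j) ^ 2 < ε ^ 2 := fun j => by
    rw [Real.dist_eq]
    exact pow_lt_pow_left₀ (h j) (abs_nonneg _) two_ne_zero
  nlinarith [h1 0, h1 1, h1 2, sq_nonneg ε]

private theorem cntB_coord {x y : E3} {ε : ℝ} (h : dist y x < ε) (j : Fin 3) :
    |y j - x j| < ε := by
  have h1 : ‖(y - x) j‖ ≤ ‖y - x‖ := PiLp.norm_apply_le (y - x) j
  rw [dist_eq_norm] at h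
  have h2 : ‖(y - x) j‖ = |y j - x j| := by
    rw [Real.norm_eq_abs]
    rfl
  rw [h2] at h1
  exact lt_of_le_of_lt h1 h

theorem cnt_vertex (hcl : ∀ i, IsClosed (K i)) (hreg : Reg K) {m N : ℕ} (hm : m = 1 ∨ m = 2)
    (J : Set (Fin n)) (hJm : J.ncard = m) (x : E3) (hx : x ∈ frontier (⋃ i, K i))
    (hA : ∀ ε : ℝ, 0 < ε → Pieces N {y | (∀ i ∈ J, y ∈ frontier (K i)) ∧
      (∀ i ∈ idx K x, i ∉ J → y ∉ K i) ∧ ∀ j, |y j - x j| < ε}) :
    {F | F ∈ comps (stratum K m) ∧ (∀ y ∈ F, idx K y = J) ∧ x ∈ closure F}.Finite ∧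
      {F | F ∈ comps (stratum K m) ∧ (∀ y ∈ F, idx K y = J) ∧ x ∈ closure F}.ncard ≤ N := by
  obtain ⟨δ, hδ, hδ2⟩ := Metric.eventually_nhds_iff.1 (cell_nhds hcl (mem_cell hcl hx))
  have hε : 0 < δ / 2 := by linarith
  refine count_pieces (hA (δ / 2) hε) _ (fun F hF => hF.1) (fun F hF => ?_)
    (fun F hF Q hQA hQ hQF => ?_)
  · obtain ⟨y, hyF, hy⟩ := Metric.mem_closure_iff.1 hF.2.2 (δ / 2) hε
    have hc := cell_of_stratum hcl (comps_sub hF.1 hyF)
    rw [hF.2.1 y hyF] at hc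
    rw [dist_comm] at hy
    exact ⟨y, hyF, hc.1, fun i _ hi => hc.2 i hi, fun j => cntB_coord hy j⟩
  · refine sub_comp hF.1 hQ (fun y hy => ?_) hQF
    obtain ⟨h1, h2, h3⟩ := hQA hy
    refine mem_stratum hcl hreg hm hJm ⟨h1, fun i hi => ?_⟩
    by_cases hix : i ∈ idx K x
    · exact h2 i hix hi
    · refine hδ2 ?_ i hix
      have := cntB_box hε h3
      linarith

end UF
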