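import Pool.Agent.Work.MP_4c5ddc_co.CylC
import Pool.Agent.Work.MP_4c5ddc_co.Basic
import Pool.Agent.Work.MP_4030f5_lc.S2

/-!
# Module CompSA: uniform bound for the number of connected pieces of semialgebraic sets

Proof. `cyl_exists` (`MP_4030f5_lc/S2.lean`) gives a finite list `G` such that the family is
cylindrical over every sign class `cls G b₀` (with the subspace topology). There are only finitely
many sign classes (`finite_cls`), and for each of them `cyl_comp` gives a number of pieces; let `N`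
be the maximum (or the sum) of these numbers over the finite set of classes. For a given `b` use the
class of `b` (`SgnEq.refl`), the sets `{y | (⟨b, _⟩, y) ∈ D c}`, which are preconnected as images
under `Prod.snd` of `D c ∩ {z | z.1 ∈ {⟨b, _⟩}}`, and fill up with empty sets to `N` pieces.
-/

namespace UF

open BU

theorem comp_SAF {σ : Type} {k : ℕ} (E : (σ → ℝ) → (Fin k → ℝ) → Prop) (hE : SAF E) :
    ∃ N : ℕ, ∀ b : σ → ℝ, ∃ D : Fin N → Set (Fin k → ℝ),
      (∀ c, IsPreconnected (D c)) ∧ {y | E b y} = ⋃ c, D c := by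
  classical
  obtain ⟨G, hG⟩ := cyl_exists E hE
  choose N D hD1 hD2 using fun b₀ => cyl_comp k (cls G b₀) (fun b y => E (b : σ → ℝ) y) (hG b₀)
  have hfin : (Set.range (fun x : σ → ℝ => BU.cls G x)).Finite := finite_cls G
  have hrep : ∀ S : Set (σ → ℝ), ∃ b₀ : σ → ℝ, S ∈ Set.range (fun x : σ → ℝ => BU.cls G x) →
      BU.cls G b₀ = S := by
    intro S
    by_cases h : S ∈ Set.range (fun x : σ → ℝ => BU.cls G x)
    · obtain ⟨b, hb⟩ := h
      exact ⟨b, fun _ => hb⟩
    · exact ⟨fun _ => 0, fun h' => absurd h' h⟩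
  choose rep hrep using hrep
  obtain ⟨M, hM⟩ := (hfin.image fun S => N (rep S)).bddAbove
  refine ⟨M, fun b => ?_⟩
  set S := BU.cls G b with hS
  have hSr : S ∈ Set.range (fun x : σ → ℝ => BU.cls G x) := ⟨b, rfl⟩
  have hNM : N (rep S) ≤ M := hM ⟨S, hSr, rfl⟩
  have hb : b ∈ BU.cls G (rep S) := by
    rw [hrep S hSr]
    exact SgnEq.refl G b
  set P : Fin (N (rep S)) → Set (Fin k → ℝ) := fun c => {y | (⟨b, hb⟩, y) ∈ D (rep S) c} with hP
  have hPp : ∀ c, IsPreconnected (P c) := by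
    intro c
    have h1 := hD2 (rep S) c {⟨b, hb⟩} isPreconnected_singleton
    have h2 : P c = Prod.snd '' (D (rep S) c ∩ {z | z.1 ∈ ({⟨b, hb⟩} : Set (BU.cls G (rep S)))}) := by
      ext y
      constructor
      · intro hy
        exact ⟨(⟨b, hb⟩, y), ⟨hy, rfl⟩, rfl⟩
      · rintro ⟨⟨z, y'⟩, ⟨hz, hz'⟩, rfl⟩
        have h3 : z = ⟨b, hb⟩ := hz'
        rw [h3] at hz
        exact hz
    rw [h2]
    exact h1.image _ continuous_snd.continuousOn
  refine ⟨fun c => if h : (c : ℕ) < N (rep S) then P ⟨c, h⟩ else ∅, fun c => ?_, ?_⟩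
  · show IsPreconnected (if h : (c : ℕ) < N (rep S) then P ⟨c, h⟩ else ∅)
    split_ifs with h
    · exact hPp _
    · exact isPreconnected_empty
  · ext y
    rw [Set.mem_iUnion]
    constructor
    · intro hy
      obtain ⟨c, hc⟩ := (hD1 (rep S) ⟨b, hb⟩ y).1 hy
      refine ⟨⟨c, c.2.trans_le hNM⟩, ?_⟩
      show y ∈ (if h : (c : ℕ) < N (rep S) then P ⟨c, h⟩ else ∅)
      rw [dif_pos c.2]
      exact hc
    · rintro ⟨c, hc⟩
      change y ∈ (if h : (c : ℕ) < N (rep S) then P ⟨c, h⟩ else ∅) at hc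
      split_ifs at hc with h
      · exact (hD1 (rep S) ⟨b, hb⟩ y).2 ⟨_, hc⟩
      · exact absurd hc (Set.notMem_empty y)

end UF
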