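import Pool.Agent.Work.MP_4c5ddc_co.Stmt
import Pool.Agent.Work.MP_4c5ddc_co.Basic

/-!
# Module Conv: from Euclidean space to `Fin 3 → ℝ` with the sup norm

Proof. The map `e : E3 → (Fin 3 → ℝ)`, `x ↦ (fun j => x j)`, is a linear homeomorphism
(`EuclideanSpace.equiv (Fin 3) ℝ`, `PiLp.continuousLinearEquiv`, inverse `WithLp.toLp 2`), and
`K = e ⁻¹' K'`, `K' = e '' K`. Boundaries: `Homeomorph.preimage_frontier`. Compactness and convexity:
images under `e`. Fatness: `‖e x‖ ≤ ‖x‖ ≤ √3 ‖e x‖ ≤ 2 ‖e x‖` (sup norm against Euclidean norm,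
`EuclideanSpace.norm_eq`, each coordinate `≤` the sup norm). Let `closedBall x r ⊆ K ⊆
closedBall y R`, `R ≤ α r`, `r > 0`; take `z = e x`, `ρ = r / 2`: a point at sup distance `< r / 2`
from `e x` has Euclidean distance `< r`, so it is in `K'`; and a point of `K` has Euclidean distance
`≤ 2 R ≤ 2 α r = 4 α ρ` from `x` (both are in `closedBall y R`), so also sup distance.
-/

namespace UF

private theorem norm_le_two (x : E3) : ‖x‖ ≤ 2 * ‖(fun j => x j : Fin 3 → ℝ)‖ := by
  set M : ℝ := ‖(fun j => x j : Fin 3 → ℝ)‖ with hM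
  have hM0 : 0 ≤ M := norm_nonneg _
  have h1 : ∀ j : Fin 3, |x j| ≤ M := fun j => norm_le_pi_norm (fun j => x j : Fin 3 → ℝ) j
  rw [EuclideanSpace.norm_eq, Real.sqrt_le_left (by positivity)]
  rw [Fin.sum_univ_three]
  have h2 : ∀ j : Fin 3, ‖x j‖ ^ 2 ≤ M ^ 2 := fun j => by
    rw [Real.norm_eq_abs]
    exact pow_le_pow_left₀ (abs_nonneg _) (h1 j) 2
  have h3 := h2 0
  have h4 := h2 1
  have h5 := h2 2
  nlinarith [sq_nonneg M]

private theorem pi_norm_le' (x : E3) : ‖(fun j => x j : Fin 3 → ℝ)‖ ≤ ‖x‖ := by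
  refine (pi_norm_le_iff_of_nonneg (norm_nonneg _)).2 fun j => ?_
  exact PiLp.norm_apply_le x j

theorem conv_frontier {K : Set E3} {K' : Set (Fin 3 → ℝ)}
    (h : ∀ x : E3, x ∈ K ↔ (fun j => x j) ∈ K') (x : E3) :
    x ∈ frontier K ↔ (fun j => x j) ∈ frontier K' := by
  have e1 : K = (EuclideanSpace.equiv (Fin 3) ℝ).toHomeomorph ⁻¹' K' := by
    ext y
    exact h y
  rw [e1, ← Homeomorph.preimage_frontier]
  exact Iff.rfl

theorem conv_body {α : ℝ} {K : Set E3} {K' : Set (Fin 3 → ℝ)}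
    (h : ∀ x : E3, x ∈ K ↔ (fun j => x j) ∈ K') (hc : IsCompact K) (hv : Convex ℝ K)
    (hf : Fat α K) : Body (4 * α) K' := by
  have e1 : K' = (fun x : E3 => (fun j => x j : Fin 3 → ℝ)) '' K := by
    ext y
    constructor
    · intro hy
      exact ⟨WithLp.toLp 2 y, (h _).2 hy, rfl⟩
    · rintro ⟨x, hx, rfl⟩
      exact (h x).1 hx
  obtain ⟨x, y, r, R, hr, hRr, hball, hsub⟩ := hf
  refine ⟨?_, ?_, fun j => x j, r / 2, by positivity, ?_, ?_⟩
  · rw [e1]
    exact hc.image (EuclideanSpace.equiv (Fin 3) ℝ).continuous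
  · rw [e1]
    exact hv.linear_image (EuclideanSpace.equiv (Fin 3) ℝ).toLinearMap
  · intro z hz
    have h1 : WithLp.toLp 2 z ∈ K := by
      refine hball ?_
      rw [Metric.mem_closedBall, dist_eq_norm]
      have h2 := norm_le_two (WithLp.toLp 2 z - x)
      have h3 : ‖(fun j => (WithLp.toLp 2 z - x : E3) j : Fin 3 → ℝ)‖ < r / 2 := by
        rw [Metric.mem_ball, dist_eq_norm] at hz
        exact hz
      linarith
    exact (h _).1 h1
  · intro z hz
    rw [e1] at hz
    obtain ⟨w, hw, rfl⟩ := hz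
    rw [Metric.mem_closedBall, dist_eq_norm]
    have h2 := pi_norm_le' (w - x)
    have h3 : ‖w - x‖ ≤ 2 * R := by
      have h4 := hsub hw
      have h5 := hsub (hball (Metric.mem_closedBall_self hr.le))
      rw [← dist_eq_norm]
      calc dist w x ≤ dist w y + dist x y := dist_triangle_right _ _ _
        _ ≤ R + R := add_le_add h4 h5
        _ = 2 * R := by ring
    have h4 : ‖(fun j => (w - x : E3) j : Fin 3 → ℝ)‖ ≤ 4 * α * (r / 2) := by
      refine h2.trans (h3.trans ?_)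
      linarith
    exact h4

end UF
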