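import Mathlib

/-!
# Module Cut: the middle of the range of a non-constant function on a finite set
-/

namespace UF

theorem cut_mid {Θ : Type} [Fintype Θ] (f : Θ → ℝ) {θ₁ θ₂ : Θ} (hne : f θ₁ ≠ f θ₂) :
    ∃ t T : ℝ, 0 < T ∧ (∀ θ, |t - f θ| ≤ T / 2) ∧ (∃ θ, f θ = t - T / 2) ∧
      (∃ θ, f θ = t + T / 2) := by
  classical
  have hu : (Finset.univ : Finset Θ).Nonempty := ⟨θ₁, Finset.mem_univ _⟩
  obtain ⟨a, -, ha⟩ := Finset.exists_min_image Finset.univ f hu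
  obtain ⟨b, -, hb⟩ := Finset.exists_max_image Finset.univ f hu
  have ha' : ∀ θ, f a ≤ f θ := fun θ => ha θ (Finset.mem_univ _)
  have hb' : ∀ θ, f θ ≤ f b := fun θ => hb θ (Finset.mem_univ _)
  have hlt : f a < f b := by
    rcases lt_or_gt_of_ne hne with h | h
    · exact lt_of_le_of_lt (ha' θ₁) (lt_of_lt_of_le h (hb' θ₂))
    · exact lt_of_le_of_lt (ha' θ₂) (lt_of_lt_of_le h (hb' θ₁))
  refine ⟨(f a + f b) / 2, f b - f a, by linarith, fun θ => ?_, ⟨a, by ring⟩, ⟨b, by ring⟩⟩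
  rw [abs_le]
  constructor <;> linarith [ha' θ, hb' θ]

end UF
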