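import Pool.Agent.Work.MP_4c5ddc_co.BandC

/-!
# Module CylC: cylindrical families are finite unions of families with connected members

Proof. Induction on `k`, for all `B`. `k = 0`: if `E` is always true take `N = 1`,
`D 0 = univ = B × (Fin 0 → ℝ)`; `D 0 ∩ {z | z.1 ∈ A} = A ×ˢ univ` is preconnected
(`IsPreconnected.prod`, `Fin 0 → ℝ` is a point). If `E` is always false take `N = 0`.
`k + 1`: for every `i : Fin l` the induction hypothesis gives `N_i` and sets `D^i_c ⊆ B × (Fin k → ℝ)`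
for the family over the graph of `ξ i`, and for every band `i` numbers `N'_i` and sets
`D'^i_c ⊆ Band ξ i × (Fin k → ℝ)`. Take the images of `D^i_c` under
`(b, y) ↦ (b, Fin.cons (ξ i b) y)` and of `D'^i_c` under `((b, t), y) ↦ (b, Fin.cons t y)`, both
continuous. Every point `(b, y)`, `y : Fin (k+1) → ℝ`, has `y 0` equal to some `ξ i b` or in exactly
one open band (compare `y 0` with the increasing numbers `ξ i b`), which gives the first claim
(`Fin.cons_self_tail`). Second claim: the part of the image over `A` is the image of the part of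
`D^i_c` over `A`, resp. of the part of `D'^i_c` over `{z : Band ξ i | z.1.1 ∈ A}`, which is
preconnected by `band_preconnected` (transfer from `B × ℝ` to the subtype:
`IsPreconnected` of a subset of a subtype, `Topology.IsInducing.isPreconnected_image`). Number the
pieces by a finite type and transport to `Fin N` (`Fintype.equivFin`).
-/

namespace UF

open BU

private theorem cc_cons {Z : Type} [TopologicalSpace Z] {k : ℕ} (f : Z → ℝ) (g : Z → Fin k → ℝ)
    (hf : Continuous f) (hg : Continuous g) :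
    Continuous (fun z => (Fin.cons (f z) (g z) : Fin (k + 1) → ℝ)) := by
  exact Continuous.finCons hf hg

/-- every real number is one of the increasing numbers or in exactly one band -/
private theorem cc_band {l : ℕ} (a : Fin l → ℝ) (ha : StrictMono a) (t : ℝ) (ht : ∀ j, t ≠ a j) :
    ∃ i : Fin (l + 1), (∀ j : Fin l, (j : ℕ) < i → a j < t) ∧ ∀ j : Fin l, (i : ℕ) ≤ j → t < a j := by
  classical
  have hex : ∃ i : ℕ, ∀ j : Fin l, i ≤ j → t < a j := ⟨l, fun j hj => absurd j.2 (not_lt.2 hj)⟩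
  have hle : Nat.find hex ≤ l := Nat.find_min' hex fun j hj => absurd j.2 (not_lt.2 hj)
  refine ⟨⟨Nat.find hex, Nat.lt_succ_of_le hle⟩, fun j hj => ?_, fun j hj => Nat.find_spec hex j hj⟩
  have h1 := Nat.find_min hex hj
  push Not at h1
  obtain ⟨j', hj', h2⟩ := h1
  have h3 : a j ≤ a j' := ha.monotone (Fin.le_def.2 hj')
  exact lt_of_le_of_ne (h3.trans h2) (Ne.symm (ht j))

theorem cyl_comp (k : ℕ) : ∀ (B : Type) [TopologicalSpace B] (E : B → (Fin k → ℝ) → Prop),
    Cyl k B E → ∃ (N : ℕ) (D : Fin N → Set (B × (Fin k → ℝ))),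
      (∀ b y, E b y ↔ ∃ c, (b, y) ∈ D c) ∧
      ∀ c (A : Set B), IsPreconnected A → IsPreconnected (D c ∩ {z | z.1 ∈ A}) := by
  induction k with
  | zero =>
    intro B _ E hE
    rcases hE with h | h
    · refine ⟨1, fun _ => Set.univ, fun b y => ⟨fun _ => ⟨0, trivial⟩, fun _ => h b y⟩, ?_⟩
      intro c A hA
      have h1 : (Set.univ ∩ {z : B × (Fin 0 → ℝ) | z.1 ∈ A}) = A ×ˢ Set.univ := by
        ext z
        simp
      rw [h1]
      exact hA.prod isPreconnected_univ
    · exact ⟨0, fun c => c.elim0, fun b y => ⟨fun h' => absurd h' (h b y), fun ⟨c, _⟩ => c.elim0⟩,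
        fun c => c.elim0⟩
  | succ k ih =>
    intro B _ E hE
    obtain ⟨l, ξ, hmono, h1, h2⟩ := hE
    choose N1 D1 hD1 hP1 using fun i => ih B (fun b y => E b (Fin.cons (ξ i b) y)) (h1 i)
    choose N2 D2 hD2 hP2 using fun i => ih (Band ξ i) (fun z y => E z.1.1 (Fin.cons z.1.2 y)) (h2 i)
    let F1 : (i : Fin l) → B × (Fin k → ℝ) → B × (Fin (k + 1) → ℝ) :=
      fun i z => (z.1, Fin.cons (ξ i z.1) z.2)
    let F2 : (i : Fin (l + 1)) → (Band ξ i) × (Fin k → ℝ) → B × (Fin (k + 1) → ℝ) :=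
      fun i z => (z.1.1.1, Fin.cons z.1.1.2 z.2)
    have hF1 : ∀ i, Continuous (F1 i) := fun i =>
      continuous_fst.prodMk (cc_cons _ _ ((ξ i).continuous.comp continuous_fst) continuous_snd)
    have hF2 : ∀ i, Continuous (F2 i) := fun i =>
      (continuous_fst.comp (continuous_subtype_val.comp continuous_fst)).prodMk
        (cc_cons _ _ (continuous_snd.comp (continuous_subtype_val.comp continuous_fst))
          continuous_snd)
    let D : ((Σ i : Fin l, Fin (N1 i)) ⊕ (Σ i : Fin (l + 1), Fin (N2 i))) →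
        Set (B × (Fin (k + 1) → ℝ)) := fun c =>
      Sum.elim (fun c => F1 c.1 '' D1 c.1 c.2) (fun c => F2 c.1 '' D2 c.1 c.2) c
    have key1 : ∀ b y, E b y ↔ ∃ c, (b, y) ∈ D c := by
      intro b y
      constructor
      · intro hE
        rw [← Fin.cons_self_tail y] at hE ⊢
        by_cases hy : ∃ j, y 0 = ξ j b
        · obtain ⟨j, hj⟩ := hy
          rw [hj] at hE ⊢
          obtain ⟨c, hc⟩ := (hD1 j b (Fin.tail y)).1 hE
          exact ⟨Sum.inl ⟨j, c⟩, _, hc, rfl⟩
        · push Not at hy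
          obtain ⟨i, hi1, hi2⟩ := cc_band (fun j => ξ j b) (hmono b) (y 0) hy
          obtain ⟨c, hc⟩ := (hD2 i ⟨(b, y 0), hi1, hi2⟩ (Fin.tail y)).1 hE
          exact ⟨Sum.inr ⟨i, c⟩, _, hc, rfl⟩
      · rintro ⟨c | c, z, hz, hzy⟩
        · have e1 : z.1 = b := congrArg Prod.fst hzy
          have e2 : (Fin.cons (ξ c.1 z.1) z.2 : Fin (k + 1) → ℝ) = y := congrArg Prod.snd hzy
          have h3 := (hD1 c.1 z.1 z.2).2 ⟨c.2, hz⟩
          rw [← e1, ← e2]
          exact h3
        · have e1 : z.1.1.1 = b := congrArg Prod.fst hzy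
          have e2 : (Fin.cons z.1.1.2 z.2 : Fin (k + 1) → ℝ) = y := congrArg Prod.snd hzy
          have h3 := (hD2 c.1 z.1 z.2).2 ⟨c.2, hz⟩
          rw [← e1, ← e2]
          exact h3
    have key2 : ∀ c (A : Set B), IsPreconnected A → IsPreconnected (D c ∩ {z | z.1 ∈ A}) := by
      rintro (c | c) A hA
      · have e : D (Sum.inl c) ∩ {z | z.1 ∈ A} = F1 c.1 '' (D1 c.1 c.2 ∩ {z | z.1 ∈ A}) := by
          ext w
          constructor
          · rintro ⟨⟨z, hz, rfl⟩, hw⟩
            exact ⟨z, ⟨hz, hw⟩, rfl⟩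
          · rintro ⟨z, ⟨hz, hw⟩, rfl⟩
            exact ⟨⟨z, hz, rfl⟩, hw⟩
        rw [e]
        exact (hP1 c.1 c.2 A hA).image _ (hF1 c.1).continuousOn
      · have hA' : IsPreconnected {z : Band ξ c.1 | z.1.1 ∈ A} := by
          rw [← Topology.IsInducing.subtypeVal.isPreconnected_image]
          have e : (Subtype.val '' {z : Band ξ c.1 | z.1.1 ∈ A}) =
              {z : B × ℝ | z ∈ Band ξ c.1 ∧ z.1 ∈ A} := by
            ext w
            constructor
            · rintro ⟨z, hz, rfl⟩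
              exact ⟨z.2, hz⟩
            · rintro ⟨hw, hw'⟩
              exact ⟨⟨w, hw⟩, hw', rfl⟩
          rw [e]
          exact band_preconnected ξ hmono c.1 A hA
        have e : D (Sum.inr c) ∩ {z | z.1 ∈ A} =
            F2 c.1 '' (D2 c.1 c.2 ∩ {z | z.1 ∈ {z : Band ξ c.1 | z.1.1 ∈ A}}) := by
          ext w
          constructor
          · rintro ⟨⟨z, hz, rfl⟩, hw⟩
            exact ⟨z, ⟨hz, hw⟩, rfl⟩
          · rintro ⟨z, ⟨hz, hw⟩, rfl⟩
            exact ⟨⟨z, hz, rfl⟩, hw⟩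
        rw [e]
        exact (hP2 c.1 c.2 _ hA').image _ (hF2 c.1).continuousOn
    let e := (Fintype.equivFin ((Σ i : Fin l, Fin (N1 i)) ⊕ (Σ i : Fin (l + 1), Fin (N2 i))))
    refine ⟨_, fun c => D (e.symm c), fun b y => ?_, fun c A hA => key2 _ A hA⟩
    rw [key1]
    exact ⟨fun ⟨c, hc⟩ => ⟨e c, by
      change (b, y) ∈ D (e.symm (e c))
      rwa [e.symm_apply_apply]⟩, fun ⟨c, hc⟩ => ⟨_, hc⟩⟩

end UF
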