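import Pool.Agent.Work.MP_4c5ddc_co.KST

/-!
# Module Erd: Erdős' theorem for 3-partite 3-uniform hypergraphs

Proof. For `m = 0` the pattern always exists (empty functions), so there is nothing to prove
(`C = 1`, `δ = 1`). Let `m ≥ 1`, `δ = 1 / m^2`, `C = 8 m^2` (any larger constant is fine).
Let `n ≥ 1` (for `n = 0` both sides are `0`: `H` is empty, and the right side is `≥ 0`).
Suppose `|H| > C n^(3-δ)` and put `ρ = |H| / n^3`, so `ρ > C n^(-δ)`, `0 ≤ ρ`.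
1. Apply `kst m` with `X = Fin n`, `W = Fin n × Fin n` (after `n ≥ 1`, nonempty): the condition is
   `2 m^2 ≤ ρ^m n`; indeed `ρ^m n ≥ C^m n^(1 - δ m) = C^m n^(1 - 1/m) ≥ C^m ≥ C ≥ 2 m^2`.
   It gives an injective `a : Fin m → Fin n` such that
   `H' = {(y, z) | ∀ i, (a i, y, z) ∈ H}` has at least `(ρ^m / 2) n^2` elements.
2. Apply `kst m` to `H'` with `X = W = Fin n` and `ρ' = ρ^m / 2`: the condition is
   `2 m^2 ≤ ρ'^m n`; indeed `ρ'^m n = ρ^(m^2) n / 2^m ≥ C^(m^2) n^(1 - δ m^2) / 2^m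
   = C^(m^2) / 2^m ≥ (C/2)^m ≥ C / 2 ≥ 2 m^2`. It gives an injective `b : Fin m → Fin n` with at
   least `(ρ'^m / 2) n ≥ m^2 ≥ m` points `z` such that `(b j, z) ∈ H'` for all `j`.
3. Choose `m` of these points `z`: an injective `c : Fin m → Fin n`
   (`Finset.exists_subset_card_eq`, `Finset.orderEmbOfFin`). Then `(a i, b j, c k) ∈ H` always,
   contradiction.
-/

namespace UF

theorem erdos3 (m : ℕ) : ∃ C δ : ℝ, 0 < C ∧ 0 < δ ∧ δ ≤ 1 ∧
    ∀ (n : ℕ) (H : Finset (Fin n × Fin n × Fin n)),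
      (¬ ∃ a b c : Fin m → Fin n, Function.Injective a ∧ Function.Injective b ∧
        Function.Injective c ∧ ∀ i j k, (a i, b j, c k) ∈ H) →
      (H.card : ℝ) ≤ C * (n : ℝ) ^ (3 - δ) := by
  classical
  rcases Nat.eq_zero_or_pos m with rfl | hm0
  · refine ⟨1, 1, one_pos, one_pos, le_rfl, fun n H h => ?_⟩
    exact absurd ⟨Fin.elim0, Fin.elim0, Fin.elim0, fun i => i.elim0, fun i => i.elim0,
      fun i => i.elim0, fun i => i.elim0⟩ h
  have hmr : (1 : ℝ) ≤ m := by exact_mod_cast hm0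
  have hm2 : (1 : ℝ) ≤ (m : ℝ) ^ 2 := one_le_pow₀ hmr
  set δ : ℝ := 1 / (m : ℝ) ^ 2 with hδ
  set C : ℝ := 8 * (m : ℝ) ^ 2 with hC
  have hδ0 : 0 < δ := by positivity
  have hδ1 : δ ≤ 1 := by
    rw [hδ, div_le_one (by positivity)]
    exact hm2
  have hC0 : 0 < C := by positivity
  have hC1 : 1 ≤ C := by linarith
  refine ⟨C, δ, hC0, hδ0, hδ1, fun n H hno => ?_⟩
  rcases Nat.eq_zero_or_pos n with rfl | hn0
  · have : H = ∅ := by
      ext x
      exact x.1.elim0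
    rw [this, Finset.card_empty, Nat.cast_zero]
    positivity
  by_contra hcon
  push Not at hcon
  have hnr : (1 : ℝ) ≤ n := by exact_mod_cast hn0
  have hnr0 : (0 : ℝ) < n := by linarith
  haveI : Nonempty (Fin n) := ⟨⟨0, hn0⟩⟩
  set ρ : ℝ := H.card / (n : ℝ) ^ 3 with hρ
  have hρ0 : 0 ≤ ρ := by positivity
  have hρC : C * (n : ℝ) ^ (-δ) ≤ ρ := by
    rw [hρ, le_div_iff₀ (by positivity)]
    have h1 : C * (n : ℝ) ^ (-δ) * (n : ℝ) ^ 3 = C * (n : ℝ) ^ (3 - δ) := by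
      rw [mul_assoc, ← Real.rpow_natCast (n : ℝ) 3, ← Real.rpow_add hnr0]
      congr 2
      push_cast
      ring
    rw [h1]
    exact hcon.le
  have hpowm : ∀ k : ℕ, (k : ℝ) ≤ (m : ℝ) ^ 2 → C ^ k ≤ ρ ^ k * n := by
    intro k hk
    have h1 : (C * (n : ℝ) ^ (-δ)) ^ k ≤ ρ ^ k := by
      gcongr
    have h2 : (C * (n : ℝ) ^ (-δ)) ^ k * n = C ^ k * (n : ℝ) ^ (1 - δ * k) := by
      rw [mul_pow, ← Real.rpow_natCast ((n : ℝ) ^ (-δ)) k, ← Real.rpow_mul hnr0.le, mul_assoc]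
      congr 1
      nth_rewrite 2 [← Real.rpow_one (n : ℝ)]
      rw [← Real.rpow_add hnr0]
      congr 1
      ring
    have h3 : (1 : ℝ) ≤ (n : ℝ) ^ (1 - δ * k) := by
      refine Real.one_le_rpow hnr ?_
      have : δ * k ≤ δ * (m : ℝ) ^ 2 := by gcongr
      have h4 : δ * (m : ℝ) ^ 2 = 1 := by
        rw [hδ]
        field_simp
      linarith
    calc C ^ k = C ^ k * 1 := (mul_one _).symm
      _ ≤ C ^ k * (n : ℝ) ^ (1 - δ * k) := by gcongr
      _ = (C * (n : ℝ) ^ (-δ)) ^ k * n := h2.symm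
      _ ≤ ρ ^ k * n := by gcongr
  have hCm : C ≤ C ^ m := le_self_pow₀ hC1 (by omega)
  have hstep1 : 2 * (m : ℝ) ^ 2 ≤ ρ ^ m * Fintype.card (Fin n) := by
    rw [Fintype.card_fin]
    have h1 := hpowm m (by nlinarith)
    linarith
  obtain ⟨a, ha, ha2⟩ := kst m (X := Fin n) (W := Fin n × Fin n) H ρ hρ0 (by
    rw [Fintype.card_prod, Fintype.card_fin, hρ]
    push_cast
    rw [div_mul_eq_mul_div, div_le_iff₀ (by positivity)]
    exact le_of_eq (by ring)) hstep1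
  set H' : Finset (Fin n × Fin n) :=
    (Finset.univ : Finset (Fin n × Fin n)).filter fun w => ∀ i, (a i, w) ∈ H with hH'
  set ρ' : ℝ := ρ ^ m / 2 with hρ'
  have hρ'0 : 0 ≤ ρ' := by positivity
  have hstep2 : 2 * (m : ℝ) ^ 2 ≤ ρ' ^ m * Fintype.card (Fin n) := by
    rw [Fintype.card_fin]
    have h1 := hpowm (m * m) (by push_cast; exact le_of_eq (by ring))
    have h2 : ρ' ^ m * n = ρ ^ (m * m) * n / 2 ^ m := by
      rw [hρ', div_pow, ← pow_mul]
      ring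
    rw [h2, le_div_iff₀ (by positivity)]
    have h3 : (C / 2) ^ m * 2 ^ m ≤ C ^ (m * m) := by
      rw [← mul_pow, div_mul_cancel₀ _ two_ne_zero, pow_mul]
      have h5 : C ^ m ≤ (C ^ m) ^ m := le_self_pow₀ (hC1.trans hCm) (by omega)
      exact h5
    have h4 : C / 2 ≤ (C / 2) ^ m := le_self_pow₀ (by linarith) (by omega)
    calc 2 * (m : ℝ) ^ 2 * 2 ^ m ≤ (C / 2) ^ m * 2 ^ m := by
          gcongr
          linarith
      _ ≤ ρ ^ (m * m) * n := h3.trans h1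
  obtain ⟨b, hb, hb2⟩ := kst m (X := Fin n) (W := Fin n) H' ρ' hρ'0 (by
    rw [Fintype.card_prod, Fintype.card_fin] at ha2
    rw [Fintype.card_fin]
    push_cast at ha2
    exact ha2) hstep2
  set Z : Finset (Fin n) := (Finset.univ : Finset (Fin n)).filter fun z => ∀ j, (b j, z) ∈ H'
    with hZ
  have hZm : m ≤ Z.card := by
    rw [Fintype.card_fin] at hb2 hstep2
    have h1 : (m : ℝ) ≤ (Z.card : ℝ) := by nlinarith
    exact_mod_cast h1
  obtain ⟨Z', hZ', hZc⟩ := Finset.exists_subset_card_eq hZm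
  refine hno ⟨a, b, fun k => Z'.orderEmbOfFin hZc k, ha, hb,
    (Z'.orderEmbOfFin hZc).injective, fun i j k => ?_⟩
  have h1 : Z'.orderEmbOfFin hZc k ∈ Z := hZ' (Finset.orderEmbOfFin_mem _ _ _)
  have h2 := (Finset.mem_filter.1 h1).2 j
  exact (Finset.mem_filter.1 h2).2 i

end UF
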