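import Pool.Agent.Work.MP_4c5ddc_co.Brk

/-!
# Module Fib: uniform bound for the finite fibres of a semialgebraic family

Proof. For `l : Fin d` let `P_l q s := ∃ y, G q y ∧ y l = s` (a semialgebraic family of subsets of
the line by `SA.exists` and `SA_eq`; see `slice_SAF` in `Brk` and `SA_bad` in `S5a` for the style).
By `brk` there is `B_l` with `(Bk (P_l q)).ncard ≤ B_l` for all `q`. Let `B₀ = max_l B_l` (or the
sum). If `{y | G q y}` is finite then `{s | P_l q s}` is finite (image), so it is contained in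
`Bk (P_l q)` (`sub_bk`) and has at most `B₀` elements. The set `{y | G q y}` is contained in the
product `Set.pi univ (fun l => {s | P_l q s})`, which has at most `B₀ ^ d` elements
(`Set.Finite.pi`, `Fintype.piFinset`, `Fintype.card_piFinset`). Take `B = B₀ ^ d`.
-/

namespace UF

open BU

theorem fib_bound {σ : Type} {d : ℕ} (G : (σ → ℝ) → (Fin d → ℝ) → Prop) (hG : SAF G) :
    ∃ B : ℕ, ∀ q : σ → ℝ, {y | G q y}.Finite → {y | G q y}.ncard ≤ B := by
  have hP : ∀ l : Fin d, SA {z : σ ⊕ Unit → ℝ |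
      ∃ y : Fin d → ℝ, G (fun i => z (Sum.inl i)) y ∧ y l = z (Sum.inr ())} := by
    intro l
    refine SA.exists (σ := σ ⊕ Unit) (τ := Fin d) (P := fun z y =>
      G (fun i => z (Sum.inl i)) y ∧ y l = z (Sum.inr ())) ?_
    refine SA.S5a_and ?_ (SA_eq (Fm.var (Sum.inr l)) (Fm.var (Sum.inl (Sum.inr ()))))
    exact SA.rename hG (Sum.elim (fun i => Sum.inl (Sum.inl i)) (fun i => Sum.inr i) :
      σ ⊕ Fin d → (σ ⊕ Unit) ⊕ Fin d)
  choose B hB using fun l : Fin d => brk (fun q s => ∃ y : Fin d → ℝ, G q y ∧ y l = s) (hP l)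
  refine ⟨∏ l, B l, fun q hfin => ?_⟩
  have hfl : ∀ l : Fin d, {s : ℝ | ∃ y : Fin d → ℝ, G q y ∧ y l = s}.Finite := by
    intro l
    refine (hfin.image fun y => y l).subset ?_
    rintro s ⟨y, hy, rfl⟩
    exact ⟨y, hy, rfl⟩
  have hcl : ∀ l : Fin d, (hfl l).toFinset.card ≤ B l := by
    intro l
    rw [← Set.ncard_eq_toFinset_card _ (hfl l)]
    exact (Set.ncard_le_ncard (sub_bk (hfl l)) (hB l q).1).trans (hB l q).2
  rw [Set.ncard_eq_toFinset_card _ hfin]
  have hsub : hfin.toFinset ⊆ Fintype.piFinset fun l => (hfl l).toFinset := by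
    intro y hy
    rw [Set.Finite.mem_toFinset] at hy
    rw [Fintype.mem_piFinset]
    intro l
    rw [Set.Finite.mem_toFinset]
    exact ⟨y, hy, rfl⟩
  refine (Finset.card_le_card hsub).trans ?_
  rw [Fintype.card_piFinset]
  exact Finset.prod_le_prod' fun l _ => hcl l

end UF
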