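import Pool.Agent.Work.MP_4c5ddc_co.SecMisc

/-!
# Module Fin2: lines meet the boundary of a planar convex body in finitely many points

Proof. Let `f = lin τ` on the plane, `m, M` its minimum and maximum on the compact nonempty set `K`.
We show: for `t ≠ m`, `t ≠ M` the set `{x ∈ frontier K | f x = t}` has at most two points; so the
exceptional set is contained in `{m, M}`. If `t < m` or `t > M` the set is empty (`frontier K ⊆ K`).
Let `m < t < M`. There are points of `K` with `f < t` and with `f > t`; as `K` is the closure of its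
interior (`Convex.closure_interior_eq_closure_of_nonempty_interior`), there are interior points
`a, b` with `f a < t < f b`, and on the segment `[a, b]`, contained in the interior (convex), a point
`x₀` with `f x₀ = t`. Suppose there are three different points `y₁, y₂, y₃ ∈ frontier K` with
`f = t`. Write `y_i = x₀ + s_i e` where `e` is a nonzero vector with `f e = 0` (in the plane the
kernel of `f` is spanned by `e = (-τ, 1)`: from `f (y_i - x₀) = 0`,
`(y_i - x₀) 0 = -τ (y_i - x₀) 1`, so `y_i - x₀ = ((y_i - x₀) 1) • e`). The numbers `s_i` are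
different and nonzero (`x₀` is interior, `y_i` is not), so two of them, say `s_1, s_2`, have the same
sign, `|s_1| < |s_2|`: `y_1` is in the open segment from `x₀` to `y_2`, so it is an interior point
of `K` (`Convex.openSegment_interior_closure_subset_interior`), contradiction.
-/

namespace UF

theorem lin_two (τ : ℕ) (x : Fin 2 → ℝ) : lin τ x = x 0 + τ * x 1 := by
  simp [lin, Fin.sum_univ_two]

theorem fin2_aux {τ : ℕ} {K : Set (Fin 2 → ℝ)} (hK : IsClosed K) (hc : Convex ℝ K)
    {x₀ y₁ y₂ : Fin 2 → ℝ} (h0 : x₀ ∈ interior K) (h1 : y₁ ∈ frontier K) (h2 : y₂ ∈ frontier K)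
    (e1 : lin τ y₁ = lin τ x₀) (e2 : lin τ y₂ = lin τ x₀) {θ : ℝ} (hθ0 : 0 < θ) (hθ1 : θ < 1)
    (h : y₁ 1 - x₀ 1 = θ * (y₂ 1 - x₀ 1)) : False := by
  have h3 : y₁ ∈ openSegment ℝ x₀ y₂ := by
    refine ⟨1 - θ, θ, by linarith, hθ0, by ring, ?_⟩
    rw [lin_two, lin_two] at e1 e2
    have h4 : y₁ 0 - x₀ 0 = θ * (y₂ 0 - x₀ 0) := by
      have h5 : y₁ 0 - x₀ 0 = -(τ : ℝ) * (y₁ 1 - x₀ 1) := by linarith
      have h6 : y₂ 0 - x₀ 0 = -(τ : ℝ) * (y₂ 1 - x₀ 1) := by linarith
      rw [h5, h6, h]
      ring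
    funext i
    fin_cases i
    · simp only [Fin.zero_eta, Pi.add_apply, Pi.smul_apply, smul_eq_mul]
      linarith
    · simp only [Fin.mk_one, Pi.add_apply, Pi.smul_apply, smul_eq_mul]
      linarith
  have h4 : y₁ ∈ interior K :=
    hc.openSegment_interior_self_subset_interior h0 (hK.frontier_subset h2) h3
  exact disjoint_interior_frontier.le_bot ⟨h4, h1⟩

theorem slim_frontier2 (τ : ℕ) (K : Set (Fin 2 → ℝ)) (hK : IsCompact K) (hc : Convex ℝ K)
    (hint : (interior K).Nonempty) : Slim τ (frontier K) := by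
  have hne : K.Nonempty := hint.mono interior_subset
  have hcont : Continuous (lin τ : (Fin 2 → ℝ) → ℝ) := lin_continuous τ
  obtain ⟨xm, hxm, hm⟩ := hK.exists_isMinOn hne hcont.continuousOn
  obtain ⟨xM, hxM, hM⟩ := hK.exists_isMaxOn hne hcont.continuousOn
  refine Set.Finite.subset (s := {lin τ xm, lin τ xM}) (Set.toFinite _) ?_
  intro t ht
  by_contra hcon
  simp only [Set.mem_insert_iff, Set.mem_singleton_iff, not_or] at hcon
  obtain ⟨y, hyfr, hyt⟩ := Set.Infinite.nonempty ht
  have hyK : y ∈ K := hK.isClosed.frontier_subset hyfr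
  have hmt : lin τ xm < t := lt_of_le_of_ne (hyt ▸ hm hyK) (Ne.symm hcon.1)
  have htM : t < lin τ xM := lt_of_le_of_ne (hyt ▸ hM hyK) hcon.2
  have hcl := hc.closure_interior_eq_closure_of_nonempty_interior hint
  obtain ⟨a, ha1, ha2⟩ := mem_closure_iff.1 (hcl ▸ subset_closure hxm : xm ∈ closure (interior K))
    {x | lin τ x < t} (isOpen_lt hcont continuous_const) hmt
  obtain ⟨b, hb1, hb2⟩ := mem_closure_iff.1 (hcl ▸ subset_closure hxM : xM ∈ closure (interior K))
    {x | t < lin τ x} (isOpen_lt continuous_const hcont) htM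
  have ha1' : lin τ a < t := ha1
  have hb1' : t < lin τ b := hb1
  have hd : 0 < lin τ b - lin τ a := by linarith
  obtain ⟨x₀, hx₀, hx₀t⟩ : ∃ x₀ ∈ interior K, lin τ x₀ = t := by
    refine ⟨((lin τ b - t) / (lin τ b - lin τ a)) • a + ((t - lin τ a) / (lin τ b - lin τ a)) • b,
      hc.interior ha2 hb2 (div_nonneg (by linarith) hd.le) (div_nonneg (by linarith) hd.le) ?_, ?_⟩
    · field_simp
      ring
    · rw [lin_add, lin_smul, lin_smul]
      field_simp
      ring
  -- the two parts
  have hpos : {x | (x ∈ frontier K ∧ lin τ x = t) ∧ x₀ 1 < x 1}.Subsingleton := by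
    intro y₁ h1 y₂ h2
    obtain ⟨⟨f1, e1⟩, s1⟩ := h1
    obtain ⟨⟨f2, e2⟩, s2⟩ := h2
    by_contra hne
    have hs : y₁ 1 ≠ y₂ 1 := by
      intro hs
      refine hne ?_
      have h5 := e1.trans e2.symm
      rw [lin_two, lin_two, hs] at h5
      funext i
      fin_cases i
      · simp only [Fin.zero_eta]
        linarith
      · exact hs
    rcases lt_or_gt_of_ne hs with h | h
    · refine fin2_aux (θ := (y₁ 1 - x₀ 1) / (y₂ 1 - x₀ 1)) hK.isClosed hc hx₀ f1 f2
        (e1.trans hx₀t.symm) (e2.trans hx₀t.symm) (div_pos (by linarith) (by linarith)) ?_ ?_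
      · rw [div_lt_one (by linarith)]
        linarith
      · rw [div_mul_cancel₀]
        exact (by linarith : 0 < y₂ 1 - x₀ 1).ne'
    · refine fin2_aux (θ := (y₂ 1 - x₀ 1) / (y₁ 1 - x₀ 1)) hK.isClosed hc hx₀ f2 f1
        (e2.trans hx₀t.symm) (e1.trans hx₀t.symm) (div_pos (by linarith) (by linarith)) ?_ ?_
      · rw [div_lt_one (by linarith)]
        linarith
      · rw [div_mul_cancel₀]
        exact (by linarith : 0 < y₁ 1 - x₀ 1).ne'
  have hneg : {x | (x ∈ frontier K ∧ lin τ x = t) ∧ x 1 < x₀ 1}.Subsingleton := by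
    intro y₁ h1 y₂ h2
    obtain ⟨⟨f1, e1⟩, s1⟩ := h1
    obtain ⟨⟨f2, e2⟩, s2⟩ := h2
    by_contra hne
    have hs : y₁ 1 ≠ y₂ 1 := by
      intro hs
      refine hne ?_
      have h5 := e1.trans e2.symm
      rw [lin_two, lin_two, hs] at h5
      funext i
      fin_cases i
      · simp only [Fin.zero_eta]
        linarith
      · exact hs
    rcases lt_or_gt_of_ne hs with h | h
    · refine fin2_aux (θ := (x₀ 1 - y₂ 1) / (x₀ 1 - y₁ 1)) hK.isClosed hc hx₀ f2 f1
        (e2.trans hx₀t.symm) (e1.trans hx₀t.symm) (div_pos (by linarith) (by linarith)) ?_ ?_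
      · rw [div_lt_one (by linarith)]
        linarith
      · have h6 : 0 < x₀ 1 - y₁ 1 := by linarith
        field_simp
        ring
    · refine fin2_aux (θ := (x₀ 1 - y₁ 1) / (x₀ 1 - y₂ 1)) hK.isClosed hc hx₀ f1 f2
        (e1.trans hx₀t.symm) (e2.trans hx₀t.symm) (div_pos (by linarith) (by linarith)) ?_ ?_
      · rw [div_lt_one (by linarith)]
        linarith
      · have h6 : 0 < x₀ 1 - y₂ 1 := by linarith
        field_simp
        ring
  refine ht ((hpos.finite.union hneg.finite).subset ?_)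
  intro x hx
  obtain ⟨hx1, hx2⟩ := hx
  rcases lt_trichotomy (x 1) (x₀ 1) with h | h | h
  · exact Or.inr ⟨⟨hx1, hx2⟩, h⟩
  · exfalso
    have h7 : x = x₀ := by
      have h5 := hx2.trans hx₀t.symm
      rw [lin_two, lin_two, h] at h5
      funext i
      fin_cases i
      · simp only [Fin.zero_eta]
        linarith
      · exact h
    rw [h7] at hx1
    exact disjoint_interior_frontier.le_bot ⟨hx₀, hx1⟩
  · exact Or.inl ⟨⟨hx1, hx2⟩, h⟩

end UF
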