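import Pool.Agent.Work.MP_4c5ddc_co.NoK
import Pool.Agent.Work.MP_4c5ddc_co.Erd

/-!
# Module Final: the subcubic bound

Proof. Let `m` be the number of `no_K α s`, `C, δ` the numbers of `erdos3 m`, `L` the number of
`tri_bound s`; we prove the bound with the constant `L * C` and `δ`. The vertices are contained in
the finite union of the finite sets `frontier (K i) ∩ frontier (K j) ∩ frontier (K k)`. For every
vertex `x` choose a triple `F x = (i, j, k)` of different indices as in the definition. Let `H` be the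
set of all `F x`, `x` a vertex (a `Finset` of `Fin n × Fin n × Fin n`, image of the finite set of
vertices). Each fibre of `F` has at most `L` elements (`tri_bound`, `GenPos`), so
`ncard vertices ≤ L * H.card` (`Finset.card_le_mul_card_image`). If `H` contained
`{a i} × {b j} × {c k}` for injective `a, b, c : Fin m → Fin n`, choose vertices `v i j k` with
`F (v i j k) = (a i, b j, c k)`; they are different for different `(i, j, k)`, and `no_K` gives a
contradiction. So `H.card ≤ C * n ^ (3 - δ)`.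
-/

namespace UF

theorem final (α : ℝ) (s : ℕ) : ∃ C δ : ℝ, 0 < δ ∧ ∀ (n : ℕ) (K : Fin n → Set E3),
    (∀ i, Obj α s (K i)) → GenPos K →
      (vertices K).Finite ∧ ((vertices K).ncard : ℝ) ≤ C * (n : ℝ) ^ (3 - δ) := by
  classical
  obtain ⟨m, hm⟩ := no_K α s
  obtain ⟨C, δ, hC, hδ, hδ1, hE⟩ := erdos3 m
  obtain ⟨L, hL⟩ := tri_bound s
  refine ⟨L * C, δ, hδ, fun n K hK hG => ?_⟩
  have hfin : (vertices K).Finite := by
    refine Set.Finite.subset (s := ⋃ p : {p : Fin n × Fin n × Fin n // p.1 ≠ p.2.1 ∧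
      p.1 ≠ p.2.2 ∧ p.2.1 ≠ p.2.2}, frontier (K p.1.1) ∩ frontier (K p.1.2.1) ∩
        frontier (K p.1.2.2)) (Set.finite_iUnion fun p => hG.2 _ _ _ p.2.1 p.2.2.1 p.2.2.2) ?_
    rintro x ⟨-, i, j, k, hij, hik, hjk, h1, h2, h3⟩
    exact Set.mem_iUnion.2 ⟨⟨(i, j, k), hij, hik, hjk⟩, ⟨h1, h2⟩, h3⟩
  refine ⟨hfin, ?_⟩
  rcases (vertices K).eq_empty_or_nonempty with hemp | ⟨x₀, hx₀⟩
  · rw [hemp, Set.ncard_empty, Nat.cast_zero]
    exact mul_nonneg (mul_nonneg (Nat.cast_nonneg _) hC.le) (Real.rpow_nonneg (Nat.cast_nonneg _) _)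
  have hne : Nonempty (Fin n × Fin n × Fin n) := by
    obtain ⟨-, i, -⟩ := hx₀
    exact ⟨(i, i, i)⟩
  have hF : ∀ x ∈ vertices K, ∃ p : Fin n × Fin n × Fin n,
      (p.1 ≠ p.2.1 ∧ p.1 ≠ p.2.2 ∧ p.2.1 ≠ p.2.2) ∧
        x ∈ frontier (K p.1) ∧ x ∈ frontier (K p.2.1) ∧ x ∈ frontier (K p.2.2) := by
    rintro x ⟨-, i, j, k, hij, hik, hjk, h1, h2, h3⟩
    exact ⟨(i, j, k), ⟨hij, hik, hjk⟩, h1, h2, h3⟩
  choose! F hFd hF1 hF2 hF3 using hF
  set V : Finset E3 := hfin.toFinset with hV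
  have hVm : ∀ x, x ∈ V ↔ x ∈ vertices K := fun x => hfin.mem_toFinset
  set H : Finset (Fin n × Fin n × Fin n) := V.image F with hH
  have h1 : V.card ≤ L * H.card := by
    refine Finset.card_le_mul_card_image V L fun p hp => ?_
    obtain ⟨x, hx, rfl⟩ := Finset.mem_image.1 hp
    have hx' := (hVm x).1 hx
    have hd := hFd x hx'
    have hft := hG.2 (F x).1 (F x).2.1 (F x).2.2 hd.1 hd.2.1 hd.2.2
    have h2 := hL (K (F x).1) (K (F x).2.1) (K (F x).2.2) (hK _).2.2.2 (hK _).2.2.2 (hK _).2.2.2 hft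
    refine le_trans ?_ h2
    rw [← Set.ncard_coe_finset]
    refine Set.ncard_le_ncard ?_ hft
    intro y hy
    rw [Finset.mem_coe, Finset.mem_filter] at hy
    have hy' := (hVm y).1 hy.1
    rw [← hy.2]
    exact ⟨⟨hF1 y hy', hF2 y hy'⟩, hF3 y hy'⟩
  have h2 : (H.card : ℝ) ≤ C * (n : ℝ) ^ (3 - δ) := by
    refine hE n H ?_
    rintro ⟨a, b, c, ha, hb, hc, habc⟩
    have h3 : ∀ i j k, ∃ x, x ∈ vertices K ∧ F x = (a i, b j, c k) := by
      intro i j k
      obtain ⟨x, hx, hx2⟩ := Finset.mem_image.1 (habc i j k)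
      exact ⟨x, (hVm x).1 hx, hx2⟩
    choose v hv hvF using h3
    refine hm n K hK hG a b c v ?_ (fun i j k => (hv i j k).1) ?_ ?_ ?_ ?_
    · intro i j k
      have := hFd _ (hv i j k)
      rw [hvF] at this
      exact this
    · intro i j k
      have := hF1 _ (hv i j k)
      rwa [hvF] at this
    · intro i j k
      have := hF2 _ (hv i j k)
      rwa [hvF] at this
    · intro i j k
      have := hF3 _ (hv i j k)
      rwa [hvF] at this
    · intro i j k i' j' k' h
      have h4 : ((a i, b j, c k) : Fin n × Fin n × Fin n) = (a i', b j', c k') := by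
        rw [← hvF, ← hvF, h]
      rw [Prod.mk.injEq, Prod.mk.injEq] at h4
      exact ⟨ha h4.1, hb h4.2.1, hc h4.2.2⟩
  have h3 : ((vertices K).ncard : ℝ) = V.card := by
    rw [Set.ncard_eq_toFinset_card _ hfin]
  rw [h3, mul_assoc]
  refine le_trans ?_ (mul_le_mul_of_nonneg_left h2 (Nat.cast_nonneg L))
  exact_mod_cast h1

end UF
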