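import Pool.Agent.Work.MP_4c5ddc_co.Tot
import Pool.Agent.Work.MP_4c5ddc_co.Final

/-!
# Module Final2: the subcubic bound for the combinatorial complexity
-/

namespace UF

theorem final2 (α : ℝ) (s : ℕ) : ∃ C δ : ℝ, 0 < δ ∧ ∀ (n : ℕ) (K : Fin n → Set E3),
    (∀ i, Obj α s (K i)) → GenPos K → (∀ x, (idx K x).ncard ≤ 3) →
      (vertices K).Finite ∧ (comps (stratum K 2)).Finite ∧ (comps (stratum K 1)).Finite ∧
        (complexity K : ℝ) ≤ C * (n : ℝ) ^ (3 - δ) := by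
  obtain ⟨C, δ, hδ, h⟩ := final α s
  obtain ⟨A, hA⟩ := total_bound α s
  set δ' := min δ 1 with hδ'
  refine ⟨(1 + A) * |C| + A, δ', lt_min hδ one_pos, fun n K hK hG h3 => ?_⟩
  obtain ⟨hV, hVb⟩ := h n K hK hG
  obtain ⟨h1, h2, h12⟩ := hA n K hK hG h3
  refine ⟨hV, h2, h1, ?_⟩
  have h12' : ((comps (stratum K 1)).ncard : ℝ) + ((comps (stratum K 2)).ncard : ℝ) ≤
      A * ((n : ℝ) ^ 2 + ((vertices K).ncard : ℝ)) := by exact_mod_cast h12
  have hc : (complexity K : ℝ) = ((vertices K).ncard : ℝ) + ((comps (stratum K 2)).ncard : ℝ) +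
      ((comps (stratum K 1)).ncard : ℝ) := by
    unfold complexity
    push_cast
    ring
  have hA0 : (0 : ℝ) ≤ A := Nat.cast_nonneg A
  have hp0 : (0 : ℝ) ≤ (n : ℝ) ^ (3 - δ') := Real.rpow_nonneg (Nat.cast_nonneg _) _
  rcases Nat.eq_zero_or_pos n with rfl | hn
  · have e1 : (vertices K).ncard = 0 := by
      have : vertices K = ∅ := by
        ext x
        simp only [Set.mem_empty_iff_false, iff_false]
        rintro ⟨-, i, -⟩
        exact i.elim0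
      rw [this, Set.ncard_empty]
    rw [e1] at h12'
    rw [hc, e1]
    have : 0 ≤ ((1 + A) * |C| + A) * ((0 : ℕ) : ℝ) ^ (3 - δ') :=
      mul_nonneg (by positivity) hp0
    have h4 : (A : ℝ) * (((0 : ℕ) : ℝ) ^ 2 + ((0 : ℕ) : ℝ)) = 0 := by simp
    rw [h4] at h12'
    push_cast at *
    linarith
  · have hn1 : (1 : ℝ) ≤ n := by exact_mod_cast hn
    have e1 : (n : ℝ) ^ (3 - δ) ≤ (n : ℝ) ^ (3 - δ') :=
      Real.rpow_le_rpow_of_exponent_le hn1 (by linarith [min_le_left δ 1])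
    have e2 : (n : ℝ) ^ 2 ≤ (n : ℝ) ^ (3 - δ') := by
      have : (n : ℝ) ^ 2 = (n : ℝ) ^ (2 : ℝ) := by norm_cast
      rw [this]
      exact Real.rpow_le_rpow_of_exponent_le hn1 (by linarith [min_le_right δ 1])
    have e3 : ((vertices K).ncard : ℝ) ≤ |C| * (n : ℝ) ^ (3 - δ') := by
      refine hVb.trans ((mul_le_mul_of_nonneg_right (le_abs_self C)
        (Real.rpow_nonneg (Nat.cast_nonneg _) _)).trans ?_)
      exact mul_le_mul_of_nonneg_left e1 (abs_nonneg _)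
    rw [hc]
    have e4 : (A : ℝ) * ((n : ℝ) ^ 2 + ((vertices K).ncard : ℝ)) ≤
        A * ((n : ℝ) ^ (3 - δ') + |C| * (n : ℝ) ^ (3 - δ')) :=
      mul_le_mul_of_nonneg_left (add_le_add e2 e3) hA0
    have e5 : ((1 + A) * |C| + A) * (n : ℝ) ^ (3 - δ') = |C| * (n : ℝ) ^ (3 - δ') +
        A * ((n : ℝ) ^ (3 - δ') + |C| * (n : ℝ) ^ (3 - δ')) := by ring
    rw [e5]
    linarith

end UF
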