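import Pool.Agent.Work.MP_4c5ddc_co.Brk

/-!
# Module FrSA: the boundaries of the sets of a semialgebraic family; sections by hyperplanes

Proof of `frontier_SAF`. `y ∈ frontier {x | E q x}` iff for every `ε > 0` there are `x` with `E q x`
and `x'` with `¬ E q x'`, both at sup distance `< ε` from `y` (`frontier_eq_closure_inter_closure`,
`Metric.mem_closure_iff`, `BU.S5a_dist_lt`: `dist a b < ε ↔ ∀ i, a i < b i + ε ∧ b i < a i + ε` for
`ε > 0`). Semialgebraic by `SA.S5a_and`, `SA.exists`, `SA.forall` (or `S5a_exists_real` and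
negation for `ε`), `SA.S5a_near`; copy the style of `SA_bad` in `MP_4030f5_lc/S5a.lean`.

Proof of `sec_SAF`. `E q (sec τ t y) ↔ ∃ x : Fin (d+1) → ℝ, E q x ∧ (∀ l, x l.succ = y l) ∧
lin τ x = t` (`lin τ x = x 0 + ∑ l, τ^(l+1) * x l.succ`, `Fin.sum_univ_succ`); this is semialgebraic
by `SA.exists` with `τ := Fin (d+1)`, `SA_eq` and `exists_fm_lin`.
-/

namespace UF

open BU

private theorem frSA_iff {d : ℕ} (S : (Fin d → ℝ) → Prop) (y : Fin d → ℝ) :
    y ∈ frontier {x | S x} ↔ ∀ ε : ℝ, 0 < ε →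
      (∃ x, S x ∧ ∀ i, x i < y i + ε ∧ y i < x i + ε) ∧
        (∃ x, ¬ S x ∧ ∀ i, x i < y i + ε ∧ y i < x i + ε) := by
  rw [frontier_eq_closure_inter_closure, Set.mem_inter_iff, Metric.mem_closure_iff,
    Metric.mem_closure_iff]
  constructor
  · rintro ⟨h1, h2⟩ ε hε
    obtain ⟨x, hx, hd⟩ := h1 ε hε
    obtain ⟨x', hx', hd'⟩ := h2 ε hε
    rw [dist_comm] at hd hd'
    exact ⟨⟨x, hx, (S5a_dist_lt _ _ hε).1 hd⟩, ⟨x', hx', (S5a_dist_lt _ _ hε).1 hd'⟩⟩
  · intro h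
    constructor
    · intro ε hε
      obtain ⟨⟨x, hx, hd⟩, _⟩ := h ε hε
      refine ⟨x, hx, ?_⟩
      rw [dist_comm]
      exact (S5a_dist_lt _ _ hε).2 hd
    · intro ε hε
      obtain ⟨_, ⟨x, hx, hd⟩⟩ := h ε hε
      refine ⟨x, hx, ?_⟩
      rw [dist_comm]
      exact (S5a_dist_lt _ _ hε).2 hd

theorem frontier_SAF {σ : Type} {d : ℕ} (E : (σ → ℝ) → (Fin d → ℝ) → Prop) (hE : SAF E) :
    SAF fun q y => y ∈ frontier {x | E q x} := by
  unfold SAF at hE ⊢
  simp only [frSA_iff]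
  refine SA.forall (σ := σ ⊕ Fin d) (τ := Unit) (P := fun z e => 0 < e () →
    (∃ x, E (fun i => z (Sum.inl i)) x ∧ ∀ i, x i < z (Sum.inr i) + e () ∧
      z (Sum.inr i) < x i + e ()) ∧
    (∃ x, ¬ E (fun i => z (Sum.inl i)) x ∧ ∀ i, x i < z (Sum.inr i) + e () ∧
      z (Sum.inr i) < x i + e ())) ?_ |>.S5a_congr fun z => ?_
  · have hE' : SA {x : ((σ ⊕ Fin d) ⊕ Unit) ⊕ Fin d → ℝ |
        E (fun i => x (Sum.inl (Sum.inl (Sum.inl i)))) (fun i => x (Sum.inr i))} :=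
      SA.rename hE (Sum.elim (fun i => Sum.inl (Sum.inl (Sum.inl i))) (fun i => Sum.inr i))
    refine SA.S5a_imp (SA.S5a_var_pos _) (SA.S5a_and ?_ ?_)
    · refine SA.exists (σ := (σ ⊕ Fin d) ⊕ Unit) (τ := Fin d) (P := fun z x =>
        E (fun i => z (Sum.inl (Sum.inl i))) x ∧
          ∀ i, x i < z (Sum.inl (Sum.inr i)) + z (Sum.inr ()) ∧
            z (Sum.inl (Sum.inr i)) < x i + z (Sum.inr ())) ?_
      exact SA.S5a_and hE' (SA.S5a_near (fun i => Sum.inr i) (fun i => Sum.inl (Sum.inl (Sum.inr i)))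
        (Sum.inl (Sum.inr ())))
    · refine SA.exists (σ := (σ ⊕ Fin d) ⊕ Unit) (τ := Fin d) (P := fun z x =>
        ¬ E (fun i => z (Sum.inl (Sum.inl i))) x ∧
          ∀ i, x i < z (Sum.inl (Sum.inr i)) + z (Sum.inr ()) ∧
            z (Sum.inl (Sum.inr i)) < x i + z (Sum.inr ())) ?_
      exact SA.S5a_and (SA.S5a_not hE')
        (SA.S5a_near (fun i => Sum.inr i) (fun i => Sum.inl (Sum.inl (Sum.inr i)))
        (Sum.inl (Sum.inr ())))
  · constructor
    · intro h ε hε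
      exact h (fun _ => ε) hε
    · intro h e he
      exact h (e ()) he

theorem sec_SAF {σ : Type} {d : ℕ} (E : (σ → ℝ) → (Fin (d + 1) → ℝ) → Prop) (hE : SAF E)
    (τ : ℕ) : SAF fun (q : σ ⊕ Unit → ℝ) (y : Fin d → ℝ) =>
      E (fun i => q (Sum.inl i)) (sec τ (q (Sum.inr ())) y) := by
  unfold SAF at hE ⊢
  have h1 : ∀ (S : (Fin (d + 1) → ℝ) → Prop) (t : ℝ) (y : Fin d → ℝ), S (sec τ t y) ↔
      ∃ x : Fin (d + 1) → ℝ, S x ∧ (∀ l : Fin d, x l.succ = y l) ∧ lin τ x = t := by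
    intro S t y
    constructor
    · intro h
      refine ⟨sec τ t y, h, fun l => ?_, ?_⟩
      · unfold sec
        rw [Fin.cons_succ]
      · unfold lin sec
        rw [Fin.sum_univ_succ]
        simp only [Fin.val_zero, pow_zero, one_mul, Fin.cons_zero, Fin.cons_succ, Fin.val_succ]
        ring
    · rintro ⟨x, hx, h2, h3⟩
      have h4 : x = sec τ t y := by
        funext l
        refine Fin.cases ?_ (fun l => ?_) l
        · unfold sec
          rw [Fin.cons_zero, ← h3]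
          unfold lin
          rw [Fin.sum_univ_succ]
          simp only [Fin.val_zero, pow_zero, one_mul, Fin.val_succ, h2]
          ring
        · unfold sec
          rw [Fin.cons_succ]
          exact h2 l
      rwa [← h4]
  simp only [h1]
  refine SA.exists (σ := (σ ⊕ Unit) ⊕ Fin d) (τ := Fin (d + 1)) (P := fun z x =>
    E (fun i => z (Sum.inl (Sum.inl i))) x ∧ (∀ l : Fin d, x l.succ = z (Sum.inr l)) ∧
      lin τ x = z (Sum.inl (Sum.inr ()))) ?_
  refine SA.S5a_and ?_ (SA.S5a_and ?_ ?_)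
  · exact SA.rename hE (Sum.elim (fun i => Sum.inl (Sum.inl (Sum.inl i))) (fun i => Sum.inr i))
  · exact SA.S5a_all fun l => SA_eq (Fm.var (Sum.inr l.succ)) (Fm.var (Sum.inl (Sum.inr l)))
  · obtain ⟨e, he⟩ := exists_fm_lin (σ := ((σ ⊕ Unit) ⊕ Fin d) ⊕ Fin (d + 1)) τ (fun l => Sum.inr l)
    refine SA.S5a_congr (SA_eq e (Fm.var (Sum.inl (Sum.inl (Sum.inr ()))))) fun x => ?_
    simp only [Set.mem_setOf_eq, he, Fm.eval]

end UF
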