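import Pool.Agent.Work.MP_4c5ddc_co.Basic

/-!
# Module FunGood: every vector is bad for few of the functionals `lin τ`

Proof. If `Q ≤ d` take `c = 1` (a subset of `range Q` has at most `Q ≤ d` elements). In general:
for every subset `T` of `range Q` with exactly `d + 1` elements the linear map
`Φ_T : (Fin (d+1) → ℝ) → (T → ℝ)`, `u ↦ (lin τ u)_{τ ∈ T}`, is injective: if `lin τ u = 0` for the
`d + 1` different numbers `τ ∈ T` then the polynomial `∑ l, u_l X^l` of degree `≤ d` has `d + 1`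
roots, so it is zero and `u = 0` (Vandermonde). An injective linear map of finite dimensional spaces
is bounded below (`LinearMap.exists_antilipschitzWith` or compactness of the unit sphere): there is
`c_T > 0` with `c_T ‖u‖ ≤ ‖Φ_T u‖ = max_{τ ∈ T} |lin τ u|` for all `u`. Let `c > 0` be the smallest
of the finitely many numbers `c_T` (and `1`). If some `u` had more than `d` numbers `τ ∈ range Q`
with `|lin τ u| < c ‖u‖`, choose `d + 1` of them, `T`; then
`c ‖u‖ ≤ c_T ‖u‖ ≤ max_T |lin τ u| < c ‖u‖`, contradiction.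
-/

namespace UF

/-- the map `u ↦ (lin τ u)_{τ ∈ T}` -/
noncomputable def linMap (d : ℕ) (T : Finset ℕ) : (Fin (d + 1) → ℝ) →ₗ[ℝ] (T → ℝ) where
  toFun u := fun τ => lin (τ : ℕ) u
  map_add' x y := by
    funext τ
    simp only [lin, Pi.add_apply, mul_add, Finset.sum_add_distrib]
  map_smul' c x := by
    funext τ
    simp only [lin, Pi.smul_apply, smul_eq_mul, Finset.mul_sum, RingHom.id_apply]
    exact Finset.sum_congr rfl fun l _ => by ring

theorem linMap_inj (d : ℕ) (T : Finset ℕ) (hT : T.card = d + 1) :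
    LinearMap.ker (linMap d T) = ⊥ := by
  rw [LinearMap.ker_eq_bot']
  intro u hu
  obtain ⟨e⟩ : Nonempty (Fin (d + 1) ≃ T) := ⟨(T.equivFinOfCardEq hT).symm⟩
  have hinj : Function.Injective (fun i : Fin (d + 1) => ((e i : ℕ) : ℝ)) := by
    intro i j hij
    exact e.injective (Subtype.ext (Nat.cast_injective hij))
  have hdet : (Matrix.vandermonde (fun i : Fin (d + 1) => ((e i : ℕ) : ℝ))).det ≠ 0 :=
    Matrix.det_vandermonde_ne_zero_iff.2 hinj
  refine Matrix.eq_zero_of_mulVec_eq_zero hdet ?_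
  funext i
  have h1 : (linMap d T u) (e i) = 0 := by rw [hu]; rfl
  simpa [Matrix.mulVec, dotProduct, Matrix.vandermonde_apply, linMap, lin] using h1

theorem fun_good (d Q : ℕ) : ∃ c : ℝ, 0 < c ∧ ∀ u : Fin (d + 1) → ℝ,
    ((Finset.range Q).filter fun τ => |lin τ u| < c * ‖u‖).card ≤ d := by
  classical
  have h1 : ∀ T : Finset ℕ, ∃ K : ℝ, 0 ≤ K ∧ (T.card = d + 1 →
      ∀ u : Fin (d + 1) → ℝ, ‖u‖ ≤ K * ‖linMap d T u‖) := by
    intro T
    by_cases hT : T.card = d + 1
    · obtain ⟨K, hK, h⟩ := LinearMap.exists_antilipschitzWith (linMap d T) (linMap_inj d T hT)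
      refine ⟨K, K.2, fun _ u => ?_⟩
      have h2 := h.le_mul_dist u 0
      simpa using h2
    · exact ⟨0, le_rfl, fun h => absurd h hT⟩
  choose K hK0 hK using h1
  have hS : 0 ≤ ∑ T ∈ (Finset.range Q).powersetCard (d + 1), K T :=
    Finset.sum_nonneg fun T _ => hK0 T
  refine ⟨1 / (1 + ∑ T ∈ (Finset.range Q).powersetCard (d + 1), K T), by positivity, fun u => ?_⟩
  by_contra hc
  push Not at hc
  obtain ⟨T, hTsub, hTcard⟩ := Finset.exists_subset_card_eq (Nat.succ_le_of_lt hc)
  have hTmem : T ∈ (Finset.range Q).powersetCard (d + 1) := by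
    rw [Finset.mem_powersetCard]
    exact ⟨fun x hx => (Finset.mem_filter.1 (hTsub hx)).1, hTcard⟩
  have hKT : K T ≤ ∑ T ∈ (Finset.range Q).powersetCard (d + 1), K T :=
    Finset.single_le_sum (fun T _ => hK0 T) hTmem
  set c := 1 / (1 + ∑ T ∈ (Finset.range Q).powersetCard (d + 1), K T) with hcdef
  have hcpos : 0 < c := by positivity
  have hKc : K T * c < 1 := by
    rw [hcdef, mul_one_div, div_lt_one (by linarith)]
    linarith
  have hne : T.Nonempty := by
    rw [← Finset.card_pos]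
    omega
  obtain ⟨τ₀, hτ₀⟩ := hne
  have hu : 0 < c * ‖u‖ := lt_of_le_of_lt (abs_nonneg _) (Finset.mem_filter.1 (hTsub hτ₀)).2
  have hun : 0 < ‖u‖ := by
    rcases (norm_nonneg u).lt_or_eq with h | h
    · exact h
    · rw [← h] at hu; simp at hu
  have h2 : ‖linMap d T u‖ ≤ c * ‖u‖ := by
    refine (pi_norm_le_iff_of_nonneg hu.le).2 fun τ => ?_
    exact (Finset.mem_filter.1 (hTsub τ.2)).2.le
  have h3 := hK T hTcard u
  have h4 : K T * ‖linMap d T u‖ ≤ K T * (c * ‖u‖) := mul_le_mul_of_nonneg_left h2 (hK0 T)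
  have h5 : K T * (c * ‖u‖) < 1 * ‖u‖ := by
    rw [← mul_assoc]
    exact mul_lt_mul_of_pos_right hKc hun
  linarith

end UF
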