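import Pool.Agent.Work.MP_4c5ddc_co.PRam

/-!
# Module Hom: a subgrid on which the points avoid the sets of the other indices

Proof. Let `m` be the number of `prod_ramsey3 κ (N + L + 3)`, `κ = Fin 6 → Prop` (or `Bool`), the
colour of `(i, i', j, j', k, k')` being the truth values of
`v i j k ∈ KA i'`, `v i' j k ∈ KA i`, `v i j k ∈ KB j'`, `v i j' k ∈ KB j`, `v i j k ∈ KC k'`,
`v i j k' ∈ KC k`. On the homogeneous grids `A, B, C : Fin (N+L+3) → Fin m` (write `v i j k` for
`v (A i) (B j) (C k)` and so on) each truth value is constant over all `i < i'`, `j < j'`, `k < k'`.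
1. If the first is true: `v i 0 0 ∈ KA i'` hence `∈ FA i'` for all `i < i'`; take `i' = L + 1`: the
   points `v 0 0 0, ..., v L 0 0` are `L + 1` different points of `FA (L+1) ∩ FB 0 ∩ FC 0`, which
   has at most `L` points; contradiction.
2. If the second is true: `v i' 0 0 ∈ FA 0` for all `i' > 0`; the points `v 1 0 0, ..., v (L+1) 0 0`
   are `L + 1` different points of `FA 0 ∩ FB 0 ∩ FC 0`; contradiction.
3. The same for `B` and `C`. So all six are false: for `i ≠ i'` and `j, k` not the last index,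
   `v i j k ∉ KA i'`, etc. Restrict the grids to their first `N` indices (`Fin.castLE`).
-/

namespace UF

private theorem hom_card {X : Type} {S : Set X} {L : ℕ} (hS : S.Finite) (hc : S.ncard ≤ L)
    (p : Fin (L + 1) → X) (hp : Function.Injective p) (hm : ∀ i, p i ∈ S) : False := by
  classical
  have h3 : (Finset.univ.image p).card = L + 1 := by
    rw [Finset.card_image_of_injective _ hp, Finset.card_univ, Fintype.card_fin]
  have h4 : ((Finset.univ.image p : Finset X) : Set X) ⊆ S := by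
    intro y hy
    rw [Finset.mem_coe, Finset.mem_image] at hy
    obtain ⟨b, -, rfl⟩ := hy
    exact hm b
  have h5 := Set.ncard_le_ncard h4 hS
  rw [Set.ncard_coe_finset, h3] at h5
  omega

theorem hom (N L : ℕ) : ∃ m : ℕ, ∀ (X : Type) (KA KB KC FA FB FC : Fin m → Set X)
    (v : Fin m → Fin m → Fin m → X),
    (∀ i j k i' j' k', v i j k = v i' j' k' → i = i' ∧ j = j' ∧ k = k') →
    (∀ i j k, v i j k ∈ FA i) → (∀ i j k, v i j k ∈ FB j) → (∀ i j k, v i j k ∈ FC k) →
    (∀ i i' j k, v i j k ∈ KA i' → v i j k ∈ FA i') →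
    (∀ i j j' k, v i j k ∈ KB j' → v i j k ∈ FB j') →
    (∀ i j k k', v i j k ∈ KC k' → v i j k ∈ FC k') →
    (∀ i j k, (FA i ∩ FB j ∩ FC k).Finite ∧ (FA i ∩ FB j ∩ FC k).ncard ≤ L) →
    ∃ a b c : Fin N → Fin m, StrictMono a ∧ StrictMono b ∧ StrictMono c ∧
      (∀ i i' j k, i ≠ i' → v (a i) (b j) (c k) ∉ KA (a i')) ∧
      (∀ i j j' k, j ≠ j' → v (a i) (b j) (c k) ∉ KB (b j')) ∧
      (∀ i j k k', k ≠ k' → v (a i) (b j) (c k) ∉ KC (c k')) := by
  classical
  obtain ⟨m, hm⟩ := prod_ramsey3 (Fin 6 → Prop) (N + L + 3)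
  refine ⟨m, fun X KA KB KC FA FB FC v hv hA hB hC hKA hKB hKC hL => ?_⟩
  obtain ⟨a, b, c, κ₀, ha, hb, hc, h⟩ := hm fun i i' j j' k k' =>
    ![v i j k ∈ KA i', v i' j k ∈ KA i, v i j k ∈ KB j', v i j' k ∈ KB j,
      v i j k ∈ KC k', v i j k' ∈ KC k]
  -- the index `i` as an element of the grid
  set ix : ∀ i : ℕ, i < N + L + 3 → Fin (N + L + 3) := fun i hi => ⟨i, hi⟩ with hix
  set o : Fin (N + L + 3) := ⟨0, by omega⟩ with ho
  set e : Fin (N + L + 3) := ⟨1, by omega⟩ with he
  set u : Fin (N + L + 3) := ⟨L + 1, by omega⟩ with hu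
  set q : Fin (L + 1) → Fin (N + L + 3) := fun i => ⟨i, by omega⟩ with hq
  set q' : Fin (L + 1) → Fin (N + L + 3) := fun i => ⟨i + 1, by omega⟩ with hq'
  have hoe : o < e := by rw [Fin.lt_def]; exact Nat.zero_lt_one
  have hqu : ∀ i, q i < u := fun i => by rw [Fin.lt_def]; exact i.2
  have hoq : ∀ i, o < q' i := fun i => by rw [Fin.lt_def]; exact Nat.succ_pos _
  have hqi : Function.Injective q := fun i j hij => by
    rw [Fin.mk.injEq] at hij
    exact Fin.ext hij
  have hqi' : Function.Injective q' := fun i j hij => by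
    rw [Fin.mk.injEq] at hij
    exact Fin.ext (by omega)
  have f0 : ¬ κ₀ 0 := by
    intro hk
    refine hom_card (hL (a u) (b o) (c o)).1 (hL (a u) (b o) (c o)).2
      (fun i => v (a (q i)) (b o) (c o))
      (fun i j hij => hqi (ha.injective (hv _ _ _ _ _ _ hij).1)) fun i => ⟨⟨?_, hB _ _ _⟩, hC _ _ _⟩
    apply hKA
    have h1 := congrFun (h (q i) u o e o e (hqu i) hoe hoe) 0
    rw [← h1] at hk
    exact hk
  have f1 : ¬ κ₀ 1 := by
    intro hk
    refine hom_card (hL (a o) (b o) (c o)).1 (hL (a o) (b o) (c o)).2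
      (fun i => v (a (q' i)) (b o) (c o))
      (fun i j hij => hqi' (ha.injective (hv _ _ _ _ _ _ hij).1)) fun i => ⟨⟨?_, hB _ _ _⟩, hC _ _ _⟩
    apply hKA
    have h1 := congrFun (h o (q' i) o e o e (hoq i) hoe hoe) 1
    rw [← h1] at hk
    exact hk
  have f2 : ¬ κ₀ 2 := by
    intro hk
    refine hom_card (hL (a o) (b u) (c o)).1 (hL (a o) (b u) (c o)).2
      (fun i => v (a o) (b (q i)) (c o))
      (fun i j hij => hqi (hb.injective (hv _ _ _ _ _ _ hij).2.1))
      fun i => ⟨⟨hA _ _ _, ?_⟩, hC _ _ _⟩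
    apply hKB
    have h1 := congrFun (h o e (q i) u o e hoe (hqu i) hoe) 2
    rw [← h1] at hk
    exact hk
  have f3 : ¬ κ₀ 3 := by
    intro hk
    refine hom_card (hL (a o) (b o) (c o)).1 (hL (a o) (b o) (c o)).2
      (fun i => v (a o) (b (q' i)) (c o))
      (fun i j hij => hqi' (hb.injective (hv _ _ _ _ _ _ hij).2.1))
      fun i => ⟨⟨hA _ _ _, ?_⟩, hC _ _ _⟩
    apply hKB
    have h1 := congrFun (h o e o (q' i) o e hoe (hoq i) hoe) 3
    rw [← h1] at hk
    exact hk
  have f4 : ¬ κ₀ 4 := by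
    intro hk
    refine hom_card (hL (a o) (b o) (c u)).1 (hL (a o) (b o) (c u)).2
      (fun i => v (a o) (b o) (c (q i)))
      (fun i j hij => hqi (hc.injective (hv _ _ _ _ _ _ hij).2.2))
      fun i => ⟨⟨hA _ _ _, hB _ _ _⟩, ?_⟩
    apply hKC
    have h1 := congrFun (h o e o e (q i) u hoe hoe (hqu i)) 4
    rw [← h1] at hk
    exact hk
  have f5 : ¬ κ₀ 5 := by
    intro hk
    refine hom_card (hL (a o) (b o) (c o)).1 (hL (a o) (b o) (c o)).2
      (fun i => v (a o) (b o) (c (q' i)))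
      (fun i j hij => hqi' (hc.injective (hv _ _ _ _ _ _ hij).2.2))
      fun i => ⟨⟨hA _ _ _, hB _ _ _⟩, ?_⟩
    apply hKC
    have h1 := congrFun (h o e o e o (q' i) hoe hoe (hoq i)) 5
    rw [← h1] at hk
    exact hk
  set lo : Fin N → Fin (N + L + 3) := fun i => ⟨i, by omega⟩ with hlo
  set la : Fin (N + L + 3) := ⟨N, by omega⟩ with hla
  have hlol : ∀ i, lo i < la := fun i => by rw [Fin.lt_def]; exact i.2
  have hlom : StrictMono lo := fun i j hij => hij
  refine ⟨fun i => a (lo i), fun i => b (lo i), fun i => c (lo i),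
    fun i j hij => ha (hlom hij), fun i j hij => hb (hlom hij), fun i j hij => hc (hlom hij),
    ?_, ?_, ?_⟩
  · intro i i' j k hne hmem
    rcases lt_or_gt_of_ne hne with hlt | hlt
    · have h1 := congrFun (h (lo i) (lo i') (lo j) la (lo k) la (hlom hlt) (hlol j) (hlol k)) 0
      rw [← h1] at f0
      exact f0 hmem
    · have h1 := congrFun (h (lo i') (lo i) (lo j) la (lo k) la (hlom hlt) (hlol j) (hlol k)) 1
      rw [← h1] at f1
      exact f1 hmem
  · intro i j j' k hne hmem
    rcases lt_or_gt_of_ne hne with hlt | hlt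
    · have h1 := congrFun (h (lo i) la (lo j) (lo j') (lo k) la (hlol i) (hlom hlt) (hlol k)) 2
      rw [← h1] at f2
      exact f2 hmem
    · have h1 := congrFun (h (lo i) la (lo j') (lo j) (lo k) la (hlol i) (hlom hlt) (hlol k)) 3
      rw [← h1] at f3
      exact f3 hmem
  · intro i j k k' hne hmem
    rcases lt_or_gt_of_ne hne with hlt | hlt
    · have h1 := congrFun (h (lo i) la (lo j) la (lo k) (lo k') (hlol i) (hlol j) (hlom hlt)) 4
      rw [← h1] at f4
      exact f4 hmem
    · have h1 := congrFun (h (lo i) la (lo j) la (lo k') (lo k) (hlol i) (hlol j) (hlom hlt)) 5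
      rw [← h1] at f5
      exact f5 hmem

end UF
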