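import Pool.Agent.Work.MP_31af1e_lc.RR

/-!
# Module PRam: product Ramsey theorems for pairs
-/

namespace UF

theorem prod_ramsey2 (κ : Type) [Finite κ] (N : ℕ) : ∃ m : ℕ,
    ∀ χ : Fin m → Fin m → Fin m → Fin m → κ,
    ∃ (a b : Fin N → Fin m) (κ₀ : κ), StrictMono a ∧ StrictMono b ∧
      ∀ i i' j j', i < i' → j < j' → χ (a i) (a i') (b j) (b j') = κ₀ := by
  obtain ⟨mb, hb⟩ := GP.ramsey2 κ N
  obtain ⟨ma, ha⟩ := GP.ramsey2 (Fin mb → Fin mb → κ) N
  refine ⟨max ma mb, fun χ => ?_⟩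
  have h1 : ma ≤ max ma mb := le_max_left _ _
  have h2 : mb ≤ max ma mb := le_max_right _ _
  obtain ⟨f, K, hf, hK⟩ := ha (fun i i' j j' =>
    χ (Fin.castLE h1 i) (Fin.castLE h1 i') (Fin.castLE h2 j) (Fin.castLE h2 j'))
  obtain ⟨g, k, hg, hk⟩ := hb K
  refine ⟨fun i => Fin.castLE h1 (f i), fun j => Fin.castLE h2 (g j), k,
    fun x y h => by simpa using hf h, fun x y h => by simpa using hg h, ?_⟩
  intro i i' j j' hi hj
  have e1 := congrFun (congrFun (hK i i' hi) (g j)) (g j')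
  rw [← hk j j' hj, ← e1]

theorem prod_ramsey3 (κ : Type) [Finite κ] (N : ℕ) : ∃ m : ℕ,
    ∀ χ : Fin m → Fin m → Fin m → Fin m → Fin m → Fin m → κ,
    ∃ (a b c : Fin N → Fin m) (κ₀ : κ), StrictMono a ∧ StrictMono b ∧ StrictMono c ∧
      ∀ i i' j j' k k', i < i' → j < j' → k < k' →
        χ (a i) (a i') (b j) (b j') (c k) (c k') = κ₀ := by
  obtain ⟨mb, hb⟩ := prod_ramsey2 κ N
  obtain ⟨ma, ha⟩ := GP.ramsey2 (Fin mb → Fin mb → Fin mb → Fin mb → κ) N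
  refine ⟨max ma mb, fun χ => ?_⟩
  have h1 : ma ≤ max ma mb := le_max_left _ _
  have h2 : mb ≤ max ma mb := le_max_right _ _
  obtain ⟨f, K, hf, hK⟩ := ha (fun i i' j j' k k' =>
    χ (Fin.castLE h1 i) (Fin.castLE h1 i') (Fin.castLE h2 j) (Fin.castLE h2 j')
      (Fin.castLE h2 k) (Fin.castLE h2 k'))
  obtain ⟨g, e, k₀, hg, he, hk⟩ := hb K
  refine ⟨fun i => Fin.castLE h1 (f i), fun j => Fin.castLE h2 (g j),
    fun k => Fin.castLE h2 (e k), k₀,
    fun x y h => by simpa using hf h, fun x y h => by simpa using hg h,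
    fun x y h => by simpa using he h, ?_⟩
  intro i i' j j' k k' hi hj hk'
  have e1 := congrFun (congrFun (congrFun (congrFun (hK i i' hi) (g j)) (g j')) (e k)) (e k')
  rw [← hk j j' k k' hj hk', ← e1]

end UF
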