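import Pool.Agent.Work.MP_4c5ddc_co.FunGood
import Pool.Agent.Work.MP_4c5ddc_co.PRam

/-!
# Module Inc2: a functional with good slopes, increasing in each index (two indices)

Proof. As in `Inc3` (read its header), with `fun_good 1 3`: in the plane every vector is bad for at
most one of the three functionals `lin 0, lin 1, lin 2`, and there are two kinds of differences
`v i' j - v i j`, `v i j' - v i j`, so one `τ < 3` is good for both; use `prod_ramsey2` with
`N + 2`, colour `κ = Fin 3 → Fin 2 → Bool × SignType`; restrict to the first `N` indices, reverse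
the order of a grid when the sign is negative.
-/

namespace UF

private theorem inc_lin_sub {d : ℕ} (τ : ℕ) (x y : Fin d → ℝ) :
    lin τ (x - y) = lin τ x - lin τ y := by
  unfold lin
  rw [← Finset.sum_sub_distrib]
  exact Finset.sum_congr rfl fun l _ => by rw [Pi.sub_apply]; ring

/-- the number `w` is large compared with `‖u‖`, with sign -/
private noncomputable def col (c : ℝ) {d : ℕ} (τ : ℕ) (u : Fin d → ℝ) : Bool × SignType :=
  (decide (c * ‖u‖ ≤ |lin τ u|), SignType.sign (lin τ u))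

/-- reversal of a grid -/
private def rv {m N : ℕ} (a : Fin (N + 2) → Fin m) (s : SignType) (i : Fin N) : Fin m :=
  if s = 1 then a (Fin.castLE (by omega) i) else a (Fin.castLE (by omega) i.rev)

private theorem rv_inj {m N : ℕ} (a : Fin (N + 2) → Fin m) (ha : StrictMono a) (s : SignType) :
    Function.Injective (rv a s) := by
  intro i i' h
  unfold rv at h
  split_ifs at h
  · have := ha.injective h
    exact Fin.castLE_injective _ this
  · have := ha.injective h
    exact Fin.rev_injective (Fin.castLE_injective _ this)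

private theorem rv_mem {m N : ℕ} (a : Fin (N + 2) → Fin m) (s : SignType) (i : Fin N) :
    ∃ x : Fin (N + 2), x < Fin.last (N + 1) ∧ rv a s i = a x := by
  unfold rv
  split_ifs
  · exact ⟨_, by rw [Fin.lt_def]; simp, rfl⟩
  · exact ⟨_, by rw [Fin.lt_def]; simp, rfl⟩

/-- the increment along one index -/
private theorem rv_inc {m N d : ℕ} (c : ℝ) (hc : 0 < c) (τ : ℕ) (a : Fin (N + 2) → Fin m)
    (s : SignType) (w : Fin m → (Fin d → ℝ))
    (h : ∀ x x' : Fin (N + 2), x < x' → x < Fin.last (N + 1) → x' < Fin.last (N + 1) →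
      w (a x) ≠ w (a x') ∧ col c τ (w (a x') - w (a x)) = (true, s)) (i i' : Fin N)
    (hi : i < i') : c * ‖w (rv a s i') - w (rv a s i)‖ ≤
      lin τ (w (rv a s i')) - lin τ (w (rv a s i)) := by
  have key : ∀ x x' : Fin (N + 2), x < x' → x < Fin.last (N + 1) → x' < Fin.last (N + 1) →
      c * ‖w (a x') - w (a x)‖ ≤ |lin τ (w (a x') - w (a x))| ∧
      SignType.sign (lin τ (w (a x') - w (a x))) = s ∧ lin τ (w (a x') - w (a x)) ≠ 0 := by
    intro x x' h1 h2 h3
    obtain ⟨h4, h5⟩ := h x x' h1 h2 h3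
    unfold col at h5
    rw [Prod.mk.injEq, decide_eq_true_eq] at h5
    refine ⟨h5.1, h5.2, fun h0 => ?_⟩
    have h6 := h5.1
    rw [h0, abs_zero] at h6
    have h7 : 0 < ‖w (a x') - w (a x)‖ := norm_pos_iff.2 (sub_ne_zero.2 h4.symm)
    have := mul_pos hc h7
    linarith
  unfold rv
  split_ifs with hs
  · subst hs
    obtain ⟨k1, k2, k3⟩ := key (Fin.castLE (by omega) i) (Fin.castLE (by omega) i')
      (by simpa using hi) (by rw [Fin.lt_def]; simp) (by rw [Fin.lt_def]; simp)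
    rw [sign_eq_one_iff] at k2
    rw [abs_of_pos k2] at k1
    rw [← inc_lin_sub]
    exact k1
  · obtain ⟨k1, k2, k3⟩ := key (Fin.castLE (by omega) i'.rev) (Fin.castLE (by omega) i.rev)
      (by simpa using hi) (by rw [Fin.lt_def]; simp) (by rw [Fin.lt_def]; simp)
    have k4 : lin τ (w (a (Fin.castLE (by omega) i.rev)) - w (a (Fin.castLE (by omega) i'.rev)))
        < 0 := by
      rcases lt_trichotomy (lin τ (w (a (Fin.castLE (by omega) i.rev)) -
        w (a (Fin.castLE (by omega) i'.rev)))) 0 with h1 | h1 | h1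
      · exact h1
      · exact absurd h1 k3
      · rw [sign_pos h1] at k2
        exact absurd k2.symm hs
    rw [abs_of_neg k4, inc_lin_sub] at k1
    rw [norm_sub_rev]
    linarith

/-- the numbers of bad functionals for a nonempty list of vectors -/
private theorem exists_good (c : ℝ) {d Q n : ℕ} (hQ : n * d < Q)
    (hc : ∀ u : Fin (d + 1) → ℝ,
      ((Finset.range Q).filter fun τ => |lin τ u| < c * ‖u‖).card ≤ d)
    (u : Fin n → Fin (d + 1) → ℝ) : ∃ τ < Q, ∀ l, c * ‖u l‖ ≤ |lin τ (u l)| := by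
  by_contra hcon
  push Not at hcon
  have h1 : Finset.range Q ⊆ Finset.univ.biUnion fun l : Fin n =>
      (Finset.range Q).filter fun τ => |lin τ (u l)| < c * ‖u l‖ := by
    intro τ hτ
    obtain ⟨l, hl⟩ := hcon τ (Finset.mem_range.1 hτ)
    rw [Finset.mem_biUnion]
    exact ⟨l, Finset.mem_univ _, Finset.mem_filter.2 ⟨hτ, hl⟩⟩
  have h2 := Finset.card_le_card h1
  rw [Finset.card_range] at h2
  have h3 := h2.trans Finset.card_biUnion_le
  have h4 : ∑ l : Fin n, ((Finset.range Q).filter fun τ => |lin τ (u l)| < c * ‖u l‖).card ≤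
      ∑ _l : Fin n, d := Finset.sum_le_sum fun l _ => hc (u l)
  rw [Finset.sum_const, Finset.card_univ, Fintype.card_fin, smul_eq_mul] at h4
  omega

theorem inc2 : ∃ c : ℝ, 0 < c ∧ ∀ N : ℕ, ∃ m : ℕ, ∀ v : Fin m → Fin m → (Fin 2 → ℝ),
    (∀ i i' j, i ≠ i' → v i j ≠ v i' j) →
    (∀ i j j', j ≠ j' → v i j ≠ v i j') →
    ∃ (τ : ℕ) (a b : Fin N → Fin m), τ < 3 ∧ Function.Injective a ∧ Function.Injective b ∧
      (∀ i i' j, i < i' → c * ‖v (a i') (b j) - v (a i) (b j)‖ ≤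
        lin τ (v (a i') (b j)) - lin τ (v (a i) (b j))) ∧
      (∀ i j j', j < j' → c * ‖v (a i) (b j') - v (a i) (b j)‖ ≤
        lin τ (v (a i) (b j')) - lin τ (v (a i) (b j))) := by
  obtain ⟨c, hc, hbad⟩ := fun_good 1 3
  refine ⟨c, hc, fun N => ?_⟩
  obtain ⟨m, hm⟩ := prod_ramsey2 (Fin 3 → Fin 2 → Bool × SignType) (N + 2)
  refine ⟨m, fun v hv1 hv2 => ?_⟩
  obtain ⟨a, b, κ, ha, hb, hκ⟩ := hm fun i i' j j' τ l =>
    col c τ (![v i' j - v i j, v i j' - v i j] l)
  have h01 : (0 : Fin (N + 2)) < Fin.last (N + 1) := by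
    rw [Fin.lt_def]; simp
  obtain ⟨τ, hτ, hgood⟩ := exists_good (n := 2) c (by norm_num) hbad
    ![v (a (Fin.last _)) (b 0) - v (a 0) (b 0), v (a 0) (b (Fin.last _)) - v (a 0) (b 0)]
  have hκτ : ∀ l, (κ ⟨τ, hτ⟩ l).1 = true := by
    intro l
    have h1 := congrFun (congrFun (hκ _ _ _ _ h01 h01) ⟨τ, hτ⟩) l
    rw [← h1]
    unfold col
    simpa using hgood l
  have K : ∀ l, κ ⟨τ, hτ⟩ l = (true, (κ ⟨τ, hτ⟩ l).2) := fun l =>
    Prod.ext (hκτ l) rfl
  have K0 : ∀ x x' y, x < x' → y < Fin.last (N + 1) →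
      col c τ (v (a x') (b y) - v (a x) (b y)) = (true, (κ ⟨τ, hτ⟩ 0).2) := by
    intro x x' y h1 h2
    rw [← K 0, ← hκ _ _ _ _ h1 h2]
    rfl
  have K1 : ∀ x y y', x < Fin.last (N + 1) → y < y' →
      col c τ (v (a x) (b y') - v (a x) (b y)) = (true, (κ ⟨τ, hτ⟩ 1).2) := by
    intro x y y' h1 h2
    rw [← K 1, ← hκ _ _ _ _ h1 h2]
    rfl
  refine ⟨τ, rv a (κ ⟨τ, hτ⟩ 0).2, rv b (κ ⟨τ, hτ⟩ 1).2, hτ, rv_inj _ ha _, rv_inj _ hb _,
    ?_, ?_⟩
  · intro i i' j hi
    obtain ⟨y, hy, hy'⟩ := rv_mem b (κ ⟨τ, hτ⟩ 1).2 j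
    rw [hy']
    exact rv_inc c hc τ a _ (fun p => v p (b y)) (fun x x' h1 _ _ =>
      ⟨hv1 _ _ _ (ha.injective.ne h1.ne), K0 x x' y h1 hy⟩) i i' hi
  · intro i j j' hj
    obtain ⟨x, hx, hx'⟩ := rv_mem a (κ ⟨τ, hτ⟩ 0).2 i
    rw [hx']
    exact rv_inc c hc τ b _ (fun p => v (a x) p) (fun y y' h1 _ _ =>
      ⟨hv2 _ _ _ (hb.injective.ne h1.ne), K1 x y y' hx h1⟩) j j' hj

end UF
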