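import Mathlib

/-!
# Module KST: one step of the Kővári-Sós-Turán / Erdős argument

Proof. Put `n = |X|`, `w = |W| ≥ 1`, `deg y = |{x | (x, y) ∈ H}|` for `y ∈ W`.
If `m = 0` take the empty function (`ρ ^ 0 / 2 * w ≤ w`). Let `m ≥ 1`. Then `n ≥ 1` by `hm`, and
`ρ ≤ 1` since `ρ n w ≤ |H| ≤ n w`.
1. The number of pairs `(S, y)` with `S : Fin m → X` and `(S i, y) ∈ H` for all `i` is
   `∑_y (deg y)^m` (for fixed `y` the functions `S` with values in a set of `deg y` elements:
   `Fintype.piFinset`, `Fintype.card_piFinset_const`).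
2. By the power mean inequality (`pow_sum_div_card_le_sum_pow` in `Algebra/Order/Chebyshev`, it
   reads `(∑ f)^(n+1) / card^n ≤ ∑ f^(n+1)`)
   `∑_y (deg y)^m ≥ (∑_y deg y)^m / w^(m-1) = |H|^m / w^(m-1) ≥ (ρ n w)^m / w^(m-1) = ρ^m n^m w`.
3. The functions `S : Fin m → X` which are not injective number at most `m^2 * n^(m-1)`
   (union bound over the pairs `i ≠ j`; for a given pair at most `n^(m-1)` functions have
   `S i = S j`), and each of them occurs in at most `w` pairs `(S, y)`.
4. By `hm`, `m^2 n^(m-1) w ≤ ρ^m n^m w / 2`, so the number of pairs `(S, y)` with `S` injective is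
   at least `ρ^m n^m w / 2`. If all injective `S` had fewer than `ρ^m w / 2` points `y`, the number
   would be smaller than `n^m * ρ^m w / 2` (there are at most `n^m` injective `S`, and at least one,
   since `n ≥ 2 m^2 ≥ m`); contradiction.
-/

namespace UF

private theorem kst_pair (m : ℕ) {X : Type} [Fintype X] [DecidableEq X] (i j : Fin m)
    (hij : i ≠ j) : ((Finset.univ : Finset (Fin m → X)).filter fun S => S i = S j).card ≤
      Fintype.card X ^ (m - 1) := by
  classical
  have h1 : Fintype.card ({k : Fin m // k ≠ j} → X) = Fintype.card X ^ (m - 1) := by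
    rw [Fintype.card_fun]
    congr 1
    simp [Fintype.card_subtype_compl]
  rw [← h1, ← Finset.card_univ]
  refine Finset.card_le_card_of_injOn (fun S => fun k : {k : Fin m // k ≠ j} => S k)
    (fun _ _ => Finset.mem_coe.2 (Finset.mem_univ _)) ?_
  intro S hS S' hS' h
  have hS1 : S i = S j := (Finset.mem_filter.1 (Finset.mem_coe.1 hS)).2
  have hS2 : S' i = S' j := (Finset.mem_filter.1 (Finset.mem_coe.1 hS')).2
  funext k
  by_cases hk : k = j
  · rw [hk, ← hS1, ← hS2]
    exact congrFun h ⟨i, hij⟩
  · exact congrFun h ⟨k, hk⟩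

private theorem kst_noninj (m : ℕ) {X : Type} [Fintype X] [DecidableEq X] :
    ((Finset.univ : Finset (Fin m → X)).filter fun S => ¬ Function.Injective S).card ≤
      m ^ 2 * Fintype.card X ^ (m - 1) := by
  classical
  have h1 : ((Finset.univ : Finset (Fin m → X)).filter fun S => ¬ Function.Injective S) ⊆
      ((Finset.univ : Finset (Fin m × Fin m)).filter fun p => p.1 ≠ p.2).biUnion
        fun p => (Finset.univ : Finset (Fin m → X)).filter fun S => S p.1 = S p.2 := by
    intro S hS
    have h2 : ¬ Function.Injective S := (Finset.mem_filter.1 hS).2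
    unfold Function.Injective at h2
    push Not at h2
    obtain ⟨i, j, h3, h4⟩ := h2
    exact Finset.mem_biUnion.2 ⟨(i, j), Finset.mem_filter.2 ⟨Finset.mem_univ _, h4⟩,
      Finset.mem_filter.2 ⟨Finset.mem_univ _, h3⟩⟩
  refine (Finset.card_le_card h1).trans (Finset.card_biUnion_le.trans ?_)
  refine (Finset.sum_le_card_nsmul _ _ (Fintype.card X ^ (m - 1)) fun p hp =>
    kst_pair m p.1 p.2 (Finset.mem_filter.1 hp).2).trans ?_
  rw [smul_eq_mul]
  refine Nat.mul_le_mul_right _ ((Finset.card_filter_le _ _).trans ?_)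
  rw [Finset.card_univ, Fintype.card_prod, Fintype.card_fin, sq]

private theorem kst_double (m : ℕ) {X W : Type} [Fintype X] [Fintype W] [DecidableEq X]
    [DecidableEq W] (H : Finset (X × W)) :
    ∑ S : Fin m → X, ((Finset.univ : Finset W).filter fun w => ∀ i, (S i, w) ∈ H).card =
      ∑ w : W, ((Finset.univ : Finset X).filter fun x => (x, w) ∈ H).card ^ m := by
  classical
  have h1 : ∀ S : Fin m → X, ((Finset.univ : Finset W).filter fun w => ∀ i, (S i, w) ∈ H).card =
      ∑ w : W, if ∀ i, (S i, w) ∈ H then 1 else 0 := fun S => by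
    rw [Finset.card_filter]
  simp_rw [h1]
  rw [Finset.sum_comm]
  refine Finset.sum_congr rfl fun w _ => ?_
  rw [← Finset.card_filter]
  have h2 : ((Finset.univ : Finset (Fin m → X)).filter fun S => ∀ i, (S i, w) ∈ H) =
      Fintype.piFinset fun _ : Fin m => (Finset.univ : Finset X).filter fun x => (x, w) ∈ H := by
    ext S
    simp [Fintype.mem_piFinset]
  rw [h2, Fintype.card_piFinset_const, ]

private theorem kst_deg {X W : Type} [Fintype X] [Fintype W] [DecidableEq X]
    [DecidableEq W] (H : Finset (X × W)) :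
    ∑ w : W, ((Finset.univ : Finset X).filter fun x => (x, w) ∈ H).card = H.card := by
  classical
  have h1 : ∀ w : W, ((Finset.univ : Finset X).filter fun x => (x, w) ∈ H).card =
      ∑ x : X, if (x, w) ∈ H then 1 else 0 := fun w => by
    rw [Finset.card_filter]
  simp_rw [h1]
  rw [Finset.sum_comm, ← Fintype.sum_prod_type' (f := fun x w => if (x, w) ∈ H then 1 else 0),
    ← Finset.card_filter]
  congr 1
  ext x
  simp

theorem kst (m : ℕ) {X W : Type} [Fintype X] [Fintype W] [DecidableEq X] [DecidableEq W]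
    [Nonempty W] (H : Finset (X × W)) (ρ : ℝ) (hρ : 0 ≤ ρ)
    (h : ρ * (Fintype.card X * Fintype.card W) ≤ H.card)
    (hm : 2 * (m : ℝ) ^ 2 ≤ ρ ^ m * Fintype.card X) :
    ∃ S : Fin m → X, Function.Injective S ∧
      ρ ^ m / 2 * Fintype.card W ≤
        (((Finset.univ : Finset W).filter fun w => ∀ i, (S i, w) ∈ H).card : ℝ) := by
  classical
  rcases Nat.eq_zero_or_pos m with rfl | hm0
  · refine ⟨Fin.elim0, fun i => i.elim0, ?_⟩
    have h1 : ((Finset.univ : Finset W).filter fun w => ∀ i : Fin 0, ((Fin.elim0 i : X), w) ∈ H) =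
        Finset.univ := by
      rw [Finset.filter_true_of_mem]
      exact fun w _ i => i.elim0
    rw [h1, Finset.card_univ, pow_zero]
    have : (0 : ℝ) ≤ Fintype.card W := Nat.cast_nonneg _
    linarith
  set n : ℕ := Fintype.card X with hn
  set w : ℕ := Fintype.card W with hw
  have hw0 : 0 < w := Fintype.card_pos
  have hwr : (0 : ℝ) < w := by exact_mod_cast hw0
  have hmr : (1 : ℝ) ≤ m := by exact_mod_cast hm0
  have hn0 : 0 < n := by
    rcases Nat.eq_zero_or_pos n with h0 | h0
    · rw [h0] at hm
      simp only [Nat.cast_zero, mul_zero] at hm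
      nlinarith
    · exact h0
  have hnr : (0 : ℝ) < n := by exact_mod_cast hn0
  have hρ1 : ρ ≤ 1 := by
    have h1 : (H.card : ℝ) ≤ n * w := by
      have : H.card ≤ n * w := by
        rw [hn, hw, ← Fintype.card_prod]
        exact Finset.card_le_univ H
      exact_mod_cast this
    have h2 : ρ * (n * w) ≤ 1 * (n * w) := by linarith
    exact le_of_mul_le_mul_right h2 (by positivity)
  have hmn : m ≤ n := by
    have h1 : ρ ^ m * n ≤ 1 * n := by
      gcongr
      exact pow_le_one₀ hρ hρ1
    have h2 : (m : ℝ) ≤ n := by nlinarith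
    exact_mod_cast h2
  obtain ⟨S0, hS0⟩ : ∃ S : Fin m → X, Function.Injective S := by
    have : Fintype.card (Fin m) ≤ Fintype.card X := by rw [Fintype.card_fin]; exact hmn
    obtain ⟨e⟩ := Function.Embedding.nonempty_of_card_le this
    exact ⟨e, e.injective⟩
  by_contra hcon
  push Not at hcon
  set N : (Fin m → X) → ℕ := fun S =>
    ((Finset.univ : Finset W).filter fun w => ∀ i, (S i, w) ∈ H).card with hN
  have hlow : ρ ^ m * n ^ m * w ≤ ((∑ S : Fin m → X, N S : ℕ) : ℝ) := by
    rw [hN, kst_double]
    obtain ⟨k, rfl⟩ : ∃ k, m = k + 1 := ⟨m - 1, by omega⟩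
    have h1 := pow_sum_div_card_le_sum_pow (s := (Finset.univ : Finset W))
      (f := fun w => ((((Finset.univ : Finset X).filter fun x => (x, w) ∈ H).card : ℕ) : ℝ))
      (n := k) (fun _ _ => Nat.cast_nonneg _)
    push_cast
    refine le_trans ?_ h1
    rw [← Nat.cast_sum, kst_deg, Finset.card_univ, ← hw, le_div_iff₀ (by positivity)]
    calc ρ ^ (k + 1) * n ^ (k + 1) * w * w ^ k = (ρ * (n * w)) ^ (k + 1) := by ring
      _ ≤ (H.card : ℝ) ^ (k + 1) := by
        gcongr
  have hup : ((∑ S : Fin m → X, N S : ℕ) : ℝ) < ρ ^ m * n ^ m * w := by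
    push_cast
    rw [← Finset.sum_filter_add_sum_filter_not _ (fun S : Fin m → X => Function.Injective S)]
    have h1 : ∑ S ∈ (Finset.univ : Finset (Fin m → X)).filter (fun S => Function.Injective S),
        (N S : ℝ) < (n : ℝ) ^ m * (ρ ^ m / 2 * w) := by
      have h2 : ∑ S ∈ (Finset.univ : Finset (Fin m → X)).filter (fun S => Function.Injective S),
          (N S : ℝ) < ∑ S ∈ (Finset.univ : Finset (Fin m → X)).filter
            (fun S => Function.Injective S), (ρ ^ m / 2 * w) := by
        refine Finset.sum_lt_sum_of_nonempty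
          ⟨S0, Finset.mem_filter.2 ⟨Finset.mem_univ _, hS0⟩⟩ fun S hS => ?_
        exact hcon S (Finset.mem_filter.1 hS).2
      refine h2.trans_le ?_
      rw [Finset.sum_const, nsmul_eq_mul]
      have h3 : (((Finset.univ : Finset (Fin m → X)).filter
          (fun S => Function.Injective S)).card : ℝ) ≤ (n : ℝ) ^ m := by
        have h4 : ((Finset.univ : Finset (Fin m → X)).filter
          (fun S => Function.Injective S)).card ≤ n ^ m := by
          refine (Finset.card_filter_le _ _).trans ?_
          rw [Finset.card_univ, Fintype.card_fun, Fintype.card_fin]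
        exact_mod_cast h4
      gcongr
    have h5 : ∑ S ∈ (Finset.univ : Finset (Fin m → X)).filter (fun S => ¬ Function.Injective S),
        (N S : ℝ) ≤ (n : ℝ) ^ m * (ρ ^ m / 2 * w) := by
      have h6 : ∑ S ∈ (Finset.univ : Finset (Fin m → X)).filter
          (fun S => ¬ Function.Injective S), (N S : ℝ) ≤
          (((Finset.univ : Finset (Fin m → X)).filter
            (fun S => ¬ Function.Injective S)).card : ℝ) * w := by
        rw [← nsmul_eq_mul]
        refine Finset.sum_le_card_nsmul _ _ _ fun S _ => ?_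
        have : N S ≤ w := (Finset.card_filter_le _ _).trans (by rw [Finset.card_univ])
        exact_mod_cast this
      refine h6.trans ?_
      have h7 : (((Finset.univ : Finset (Fin m → X)).filter
            (fun S => ¬ Function.Injective S)).card : ℝ) ≤ (m : ℝ) ^ 2 * (n : ℝ) ^ (m - 1) := by
        exact_mod_cast kst_noninj m (X := X)
      have h8 : (n : ℝ) ^ m = (n : ℝ) ^ (m - 1) * n := by
        rw [← pow_succ]
        congr 1
        omega
      have h9 : 0 ≤ (n : ℝ) ^ (m - 1) := by positivity
      calc (((Finset.univ : Finset (Fin m → X)).filter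
            (fun S => ¬ Function.Injective S)).card : ℝ) * w
          ≤ (m : ℝ) ^ 2 * (n : ℝ) ^ (m - 1) * w := by gcongr
        _ ≤ (ρ ^ m * n / 2) * (n : ℝ) ^ (m - 1) * w := by
          gcongr
          linarith
        _ = (n : ℝ) ^ m * (ρ ^ m / 2 * w) := by
          rw [h8]
          ring
    calc _ < (n : ℝ) ^ m * (ρ ^ m / 2 * w) + (n : ℝ) ^ m * (ρ ^ m / 2 * w) := by
          exact add_lt_add_of_lt_of_le h1 h5
      _ = ρ ^ m * n ^ m * w := by ring
  linarith

end UF
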