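import Mathlib

/-!
# Module MonoT: a function with constant one-sided types is monotone

Proof. `hR` says that at all `t ∈ [u, v)` the function is locally to the right bigger (case `>`),
equal (`=`) or smaller (`<`) than at `t`; `hL` is the same on the left, at all `t ∈ (u, v]`.
1. (`R` bigger, `L` smaller): `ψ` is strictly increasing. Let `x < y` in `[u, v]`, and
   `S = {s ∈ [x, y] | ∀ r, x < r → r ≤ s → ψ x < ψ r}`, `m = sSup S`. `S` contains `x` and is an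
   initial segment. `m ∈ S`: every `r < m` with `x < r` has `ψ x < ψ r`; if `m > x`, by `hL` at `m`
   there is such an `r` close to `m` with `ψ r < ψ m`, hence `ψ x < ψ m`. If `m < y`: `hR` at `m`
   gives `ε` with `ψ m < ψ s` for `m < s < m + ε`, and `ψ x ≤ ψ m`, so `m + ε/2` (or `y`) is in `S`,
   contradiction. So `m = y` and `ψ x < ψ y`. (Alternatively use
   `StrictMonoOn`-gluing lemmas or `IsClosed.Icc_subset_of_forall_exists_gt`-like real induction.)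
2. (`R` smaller, `L` bigger): apply 1 to `-ψ`.
3. (`R` equal, `L` equal): `ψ` is locally constant on `[u, v]`, hence constant (same sup argument,
   or `IsPreconnected.constant...`).
4. (`R` bigger, `L` bigger): every `t ∈ (u, v)` is a strict local minimum. The map sending `t` to a
   pair of rationals `(a, b)`, `a < t < b`, such that `ψ t < ψ s` for all `s ∈ (a, b)`, `s ≠ t`, is
   injective (two different `t, t'` with the same pair would give `ψ t < ψ t' < ψ t`), so `(u, v)`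
   would be countable; contradiction (`Cardinal` or `Set.Countable` with
   `not_countable` of an interval: `(Set.Countable.measure_zero)` or `Set.uncountable_Ioo`).
5. (`R` smaller, `L` smaller): apply 4 to `-ψ`.
6. (`R` equal, `L` not equal): take `t = u`, `ε` from `hR` (`ε ≤ v - u`); at `s = u + ε / 2` the
   function is constant on `(u, u + ε)`, but `hL` at `s` says that it is different from `ψ s` just
   to the left of `s`; contradiction. (`R` not equal, `L` equal): the same from the right end `v`.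
-/

namespace UF

private theorem monoT_le (ψ : ℝ → ℝ) (u v : ℝ)
    (hR : ∀ t ∈ Set.Ico u v, ∃ ε : ℝ, 0 < ε ∧ ∀ s, t < s → s < t + ε → ψ t ≤ ψ s)
    (hL : ∀ t ∈ Set.Ioc u v, ∃ ε : ℝ, 0 < ε ∧ ∀ s, t - ε < s → s < t → ψ s ≤ ψ t) :
    MonotoneOn ψ (Set.Icc u v) := by
  intro x hx y hy hxy
  rcases hxy.eq_or_lt with rfl | hlt
  · exact le_rfl
  set S : Set ℝ := {s | x ≤ s ∧ s ≤ y ∧ ∀ r, x < r → r ≤ s → ψ x ≤ ψ r} with hS
  have hxS : x ∈ S := ⟨le_rfl, hxy, fun r h1 h2 => absurd h1 (not_lt.2 h2)⟩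
  have hbdd : BddAbove S := ⟨y, fun s hs => hs.2.1⟩
  set m := sSup S with hm
  have hxm : x ≤ m := le_csSup hbdd hxS
  have hmy : m ≤ y := csSup_le ⟨x, hxS⟩ fun s hs => hs.2.1
  have hmS : ∀ r, x < r → r ≤ m → ψ x ≤ ψ r := by
    intro r hxr hrm
    rcases hrm.eq_or_lt with heq | hrm
    · obtain ⟨ε, hε, h1⟩ := hL r ⟨lt_of_le_of_lt hx.1 hxr, (heq ▸ hmy).trans hy.2⟩
      have hlt' : max x (r - ε) < sSup S := by
        rw [← hm, ← heq]
        exact max_lt hxr (sub_lt_self _ hε)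
      obtain ⟨s, hsS, hs⟩ := exists_lt_of_lt_csSup ⟨x, hxS⟩ hlt'
      have hsr : s ≤ r := heq ▸ le_csSup hbdd hsS
      have hs1 : x < s := (le_max_left _ _).trans_lt hs
      have hs2 : r - ε < s := (le_max_right _ _).trans_lt hs
      have h2 : ψ x ≤ ψ s := hsS.2.2 s hs1 le_rfl
      rcases hsr.eq_or_lt with h3 | h3
      · rw [← h3]
        exact h2
      · exact h2.trans (h1 s hs2 h3)
    · obtain ⟨s, hsS, hs⟩ := exists_lt_of_lt_csSup ⟨x, hxS⟩ hrm
      exact hsS.2.2 r hxr hs.le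
  have hxm' : ψ x ≤ ψ m := by
    rcases hxm.eq_or_lt with h | h
    · rw [← h]
    · exact hmS m h le_rfl
  rcases hmy.eq_or_lt with h | h
  · rw [← h]
    exact hxm'
  · exfalso
    obtain ⟨ε, hε, h1⟩ := hR m ⟨hx.1.trans hxm, h.trans_le hy.2⟩
    have hm' : m < min y (m + ε / 2) := lt_min h (by linarith)
    have hmem : min y (m + ε / 2) ∈ S := by
      refine ⟨hxm.trans hm'.le, min_le_left _ _, fun r hxr hr => ?_⟩
      rcases le_or_gt r m with h2 | h2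
      · exact hmS r hxr h2
      · have h3 : r ≤ m + ε / 2 := hr.trans (min_le_right _ _)
        exact hxm'.trans (h1 r h2 (by linarith))
    exact absurd (le_csSup hbdd hmem) (not_le.2 hm')

private theorem monoT_min (ψ : ℝ → ℝ) (u v : ℝ) (huv : u < v)
    (hR : ∀ t ∈ Set.Ico u v, ∃ ε : ℝ, 0 < ε ∧ ∀ s, t < s → s < t + ε → ψ t < ψ s)
    (hL : ∀ t ∈ Set.Ioc u v, ∃ ε : ℝ, 0 < ε ∧ ∀ s, t - ε < s → s < t → ψ t < ψ s) : False := by
  have key : ∀ t : Set.Ioo u v, ∃ ab : ℚ × ℚ, (ab.1 : ℝ) < t ∧ (t : ℝ) < ab.2 ∧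
      ∀ s : ℝ, (ab.1 : ℝ) < s → s < ab.2 → s ≠ t → ψ t < ψ s := by
    rintro ⟨t, ht⟩
    obtain ⟨ε1, hε1, h1⟩ := hR t ⟨ht.1.le, ht.2⟩
    obtain ⟨ε2, hε2, h2⟩ := hL t ⟨ht.1, ht.2.le⟩
    obtain ⟨a, ha1, ha2⟩ := exists_rat_btwn (show t - ε2 < t by linarith)
    obtain ⟨b, hb1, hb2⟩ := exists_rat_btwn (show t < t + ε1 by linarith)
    refine ⟨(a, b), ha2, hb1, fun s hs1 hs2 hne => ?_⟩
    rcases lt_or_gt_of_ne hne with h | h
    · exact h2 s (ha1.trans hs1) h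
    · exact h1 s h (hs2.trans hb2)
  choose f hf1 hf2 hf3 using key
  have hinj : Function.Injective f := by
    intro t t' h
    by_contra hne
    have hne' : (t : ℝ) ≠ t' := fun h' => hne (Subtype.ext h')
    have h1 := hf3 t t' (by rw [h]; exact hf1 t') (by rw [h]; exact hf2 t') hne'.symm
    have h2 := hf3 t' t (by rw [← h]; exact hf1 t) (by rw [← h]; exact hf2 t) hne'
    exact absurd h1 (not_lt.2 h2.le)
  have hc : Countable (Set.Ioo u v) := hinj.countable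
  have h0 : MeasureTheory.volume (Set.Ioo u v) = 0 :=
    (Set.countable_coe_iff.1 hc).measure_zero _
  rw [Real.volume_Ioo, ENNReal.ofReal_eq_zero] at h0
  linarith

private theorem monoT_eqR (ψ : ℝ → ℝ) (u v : ℝ) (huv : u < v)
    (hR : ∀ t ∈ Set.Ico u v, ∃ ε : ℝ, 0 < ε ∧ ∀ s, t < s → s < t + ε → ψ t = ψ s)
    (hL : ∀ t ∈ Set.Ioc u v, ∃ ε : ℝ, 0 < ε ∧ ∀ s, t - ε < s → s < t → ψ t ≠ ψ s) : False := by
  obtain ⟨ε, hε, h1⟩ := hR u ⟨le_rfl, huv⟩
  set d : ℝ := min (ε / 2) (v - u) with hd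
  have hd0 : 0 < d := lt_min (by linarith) (by linarith)
  have hd1 : d ≤ ε / 2 := min_le_left _ _
  have hd2 : d ≤ v - u := min_le_right _ _
  obtain ⟨ε', hε', h2⟩ := hL (u + d) ⟨by linarith, by linarith⟩
  set r : ℝ := max (u + d / 2) (u + d - ε' / 2) with hr
  have hr1 : u + d / 2 ≤ r := le_max_left _ _
  have hr2 : u + d - ε' / 2 ≤ r := le_max_right _ _
  have hr3 : r < u + d := max_lt (by linarith) (by linarith)
  apply h2 r (by linarith) hr3
  rw [← h1 r (by linarith) (by linarith), ← h1 (u + d) (by linarith) (by linarith)]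

private theorem monoT_eqL (ψ : ℝ → ℝ) (u v : ℝ) (huv : u < v)
    (hR : ∀ t ∈ Set.Ico u v, ∃ ε : ℝ, 0 < ε ∧ ∀ s, t < s → s < t + ε → ψ t ≠ ψ s)
    (hL : ∀ t ∈ Set.Ioc u v, ∃ ε : ℝ, 0 < ε ∧ ∀ s, t - ε < s → s < t → ψ t = ψ s) : False := by
  obtain ⟨ε, hε, h1⟩ := hL v ⟨huv, le_rfl⟩
  set d : ℝ := min (ε / 2) (v - u) with hd
  have hd0 : 0 < d := lt_min (by linarith) (by linarith)
  have hd1 : d ≤ ε / 2 := min_le_left _ _
  have hd2 : d ≤ v - u := min_le_right _ _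
  obtain ⟨ε', hε', h2⟩ := hR (v - d) ⟨by linarith, by linarith⟩
  set r : ℝ := min (v - d / 2) (v - d + ε' / 2) with hr
  have hr1 : r ≤ v - d / 2 := min_le_left _ _
  have hr2 : r ≤ v - d + ε' / 2 := min_le_right _ _
  have hr3 : v - d < r := lt_min (by linarith) (by linarith)
  apply h2 r hr3 (by linarith)
  rw [← h1 r (by linarith) (by linarith), ← h1 (v - d) (by linarith) (by linarith)]

theorem mono_types (ψ : ℝ → ℝ) (u v : ℝ) (huv : u < v)
    (hR : (∀ t ∈ Set.Ico u v, ∃ ε : ℝ, 0 < ε ∧ ∀ s, t < s → s < t + ε → ψ t < ψ s) ∨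
      (∀ t ∈ Set.Ico u v, ∃ ε : ℝ, 0 < ε ∧ ∀ s, t < s → s < t + ε → ψ t = ψ s) ∨
      (∀ t ∈ Set.Ico u v, ∃ ε : ℝ, 0 < ε ∧ ∀ s, t < s → s < t + ε → ψ s < ψ t))
    (hL : (∀ t ∈ Set.Ioc u v, ∃ ε : ℝ, 0 < ε ∧ ∀ s, t - ε < s → s < t → ψ t < ψ s) ∨
      (∀ t ∈ Set.Ioc u v, ∃ ε : ℝ, 0 < ε ∧ ∀ s, t - ε < s → s < t → ψ t = ψ s) ∨
      (∀ t ∈ Set.Ioc u v, ∃ ε : ℝ, 0 < ε ∧ ∀ s, t - ε < s → s < t → ψ s < ψ t)) :
    MonotoneOn ψ (Set.Icc u v) ∨ AntitoneOn ψ (Set.Icc u v) := by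
  rcases hR with hR | hR | hR <;> rcases hL with hL | hL | hL
  · exact (monoT_min ψ u v huv hR hL).elim
  · exfalso
    refine monoT_eqL ψ u v huv (fun t ht => ?_) hL
    obtain ⟨ε, hε, h⟩ := hR t ht
    exact ⟨ε, hε, fun s h1 h2 => (h s h1 h2).ne⟩
  · left
    refine monoT_le ψ u v (fun t ht => ?_) fun t ht => ?_
    · obtain ⟨ε, hε, h⟩ := hR t ht
      exact ⟨ε, hε, fun s h1 h2 => (h s h1 h2).le⟩
    · obtain ⟨ε, hε, h⟩ := hL t ht
      exact ⟨ε, hε, fun s h1 h2 => (h s h1 h2).le⟩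
  · exfalso
    refine monoT_eqR ψ u v huv hR fun t ht => ?_
    obtain ⟨ε, hε, h⟩ := hL t ht
    exact ⟨ε, hε, fun s h1 h2 => (h s h1 h2).ne⟩
  · left
    refine monoT_le ψ u v (fun t ht => ?_) fun t ht => ?_
    · obtain ⟨ε, hε, h⟩ := hR t ht
      exact ⟨ε, hε, fun s h1 h2 => (h s h1 h2).le⟩
    · obtain ⟨ε, hε, h⟩ := hL t ht
      exact ⟨ε, hε, fun s h1 h2 => (h s h1 h2).ge⟩
  · exfalso
    refine monoT_eqR ψ u v huv hR fun t ht => ?_
    obtain ⟨ε, hε, h⟩ := hL t ht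
    exact ⟨ε, hε, fun s h1 h2 => (h s h1 h2).ne'⟩
  · right
    have h1 := monoT_le (fun s => - ψ s) u v (fun t ht => by
      obtain ⟨ε, hε, h⟩ := hR t ht
      exact ⟨ε, hε, fun s h1 h2 => neg_le_neg (h s h1 h2).le⟩) fun t ht => by
      obtain ⟨ε, hε, h⟩ := hL t ht
      exact ⟨ε, hε, fun s h1 h2 => neg_le_neg (h s h1 h2).le⟩
    intro x hx y hy hxy
    have := h1 hx hy hxy
    simpa using this
  · exfalso
    refine monoT_eqL ψ u v huv (fun t ht => ?_) hL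
    obtain ⟨ε, hε, h⟩ := hR t ht
    exact ⟨ε, hε, fun s h1 h2 => (h s h1 h2).ne'⟩
  · exfalso
    refine monoT_min (fun s => - ψ s) u v huv (fun t ht => ?_) fun t ht => ?_
    · obtain ⟨ε, hε, h⟩ := hR t ht
      exact ⟨ε, hε, fun s h1 h2 => neg_lt_neg (h s h1 h2)⟩
    · obtain ⟨ε, hε, h⟩ := hL t ht
      exact ⟨ε, hε, fun s h1 h2 => neg_lt_neg (h s h1 h2)⟩

end UF
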