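import Pool.Agent.Work.MP_4c5ddc_co.Typ
import Pool.Agent.Work.MP_4c5ddc_co.MonoT

/-!
# Module Mono: the uniform monotonicity theorem for semialgebraic functions of one variable

Proof. Let `Z q` be the union of the sets of break points (`Bk`) of the seven subsets of the line
`{t | ∃ s, R q t s}`, `{t | RTyp (R q) c t}`, `{t | LTyp (R q) c t}` (`c : Fin 3`). By `brk` (with
`rtyp_SA`, `ltyp_SA`, and `SA.S5a_exists_real` for the domain) each is finite with a number of
elements bounded independently of `q`; `B` is the sum of the seven bounds.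
Let `[u, v]` be free of `Z q`. By `eq_of_no_bk` each of the seven conditions is constant on `[u, v]`.
1. If there is no value at some point then there is none on `[u, v]`: first alternative.
2. Otherwise the function is defined on `[u, v]`, and also near every point `t ∈ [u, v]`, on both
   sides (as `t` is not a break point of the domain: `∀ᶠ t' in 𝓝 t, ∃ s, R q t' s`). If `u = v` the
   monotonicity is clear (`t = t'` and `hfun`). Let `u < v`. By `rtyp_exists` at `u` there is `c` with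
   `RTyp (R q) c u`, hence `RTyp (R q) c t` for all `t ∈ [u, v]` by constancy; similarly `c'` with
   `LTyp (R q) c' t` for all `t ∈ [u, v]`. Let `ψ t` be the value at `t` (chosen, `0` if there is
   none; `R q t (ψ t)` for `t` near any point of `[u, v]`). Then `hR`, `hL` of `mono_types` hold
   (`cmp3` unfolds to the three cases; shrink `ε` such that the function is defined on
   `(t, t + ε)` resp. `(t - ε, t)`), and `ψ` is monotone or antitone on `[u, v]`. Conclude with
   `hfun` (`s = ψ t`, `s' = ψ t'`).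
-/

namespace UF

open BU Filter Topology

private theorem mn_cmp {c : Fin 3} {s s' : ℝ} (h : cmp3 c s s') :
    (c = 0 → s < s') ∧ (c = 1 → s = s') ∧ (c = 2 → s' < s) := by
  rcases h with ⟨rfl, h⟩ | ⟨rfl, h⟩ | ⟨rfl, h⟩
  · exact ⟨fun _ => h, fun h1 => absurd h1 (by decide), fun h1 => absurd h1 (by decide)⟩
  · exact ⟨fun h1 => absurd h1 (by decide), fun _ => h, fun h1 => absurd h1 (by decide)⟩
  · exact ⟨fun h1 => absurd h1 (by decide), fun h1 => absurd h1 (by decide), fun _ => h⟩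

theorem mono_pieces {σ : Type} (R : (σ → ℝ) → ℝ → ℝ → Prop)
    (hR : SA {z : σ ⊕ Fin 2 → ℝ | R (fun i => z (Sum.inl i)) (z (Sum.inr 0)) (z (Sum.inr 1))})
    (hfun : ∀ q t s s', R q t s → R q t s' → s = s') :
    ∃ B : ℕ, ∀ q : σ → ℝ, ∃ Z : Set ℝ, Z.Finite ∧ Z.ncard ≤ B ∧
      ∀ u v, u ≤ v → (∀ x ∈ Set.Icc u v, x ∉ Z) →
        (∀ t ∈ Set.Icc u v, ∀ s, ¬ R q t s) ∨
        ((∀ t ∈ Set.Icc u v, ∃ s, R q t s) ∧
          ((∀ t ∈ Set.Icc u v, ∀ t' ∈ Set.Icc u v, t ≤ t' → ∀ s s', R q t s → R q t' s' → s ≤ s') ∨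
           (∀ t ∈ Set.Icc u v, ∀ t' ∈ Set.Icc u v, t ≤ t' →
              ∀ s s', R q t s → R q t' s' → s' ≤ s))) := by
  classical
  have hD : SA {z : σ ⊕ Unit → ℝ | ∃ s, R (fun i => z (Sum.inl i)) (z (Sum.inr ())) s} := by
    refine SA.S5a_exists_real (σ := σ ⊕ Unit)
      (P := fun z s => R (fun i => z (Sum.inl i)) (z (Sum.inr ())) s) ?_
    exact SA.S5a_congr (SA.rename hR (Sum.elim (fun i => Sum.inl (Sum.inl i))
      (fun j => (![Sum.inl (Sum.inr ()), Sum.inr ()] : Fin 2 → (σ ⊕ Unit) ⊕ Unit) j))) fun x => Iff.rfl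
  obtain ⟨B0, hB0⟩ := brk (fun q t => ∃ s, R q t s) hD
  choose BR hBR using fun c => brk (fun q t => RTyp (R q) c t) (rtyp_SA R hR c)
  choose BL hBL using fun c => brk (fun q t => LTyp (R q) c t) (ltyp_SA R hR c)
  refine ⟨B0 + (BR 0 + BR 1 + BR 2) + (BL 0 + BL 1 + BL 2), fun q => ?_⟩
  set D : Set ℝ := Bk (fun t => ∃ s, R q t s) with hDdef
  set ZR : Fin 3 → Set ℝ := fun c => Bk (fun t => RTyp (R q) c t) with hZR
  set ZL : Fin 3 → Set ℝ := fun c => Bk (fun t => LTyp (R q) c t) with hZL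
  have fD : D.Finite := (hB0 q).1
  have fR : ∀ c, (ZR c).Finite := fun c => (hBR c q).1
  have fL : ∀ c, (ZL c).Finite := fun c => (hBL c q).1
  refine ⟨D ∪ (ZR 0 ∪ ZR 1 ∪ ZR 2) ∪ (ZL 0 ∪ ZL 1 ∪ ZL 2), ?_, ?_, ?_⟩
  · exact (fD.union (((fR 0).union (fR 1)).union (fR 2))).union
      (((fL 0).union (fL 1)).union (fL 2))
  · have h1 := Set.ncard_union_le (D ∪ (ZR 0 ∪ ZR 1 ∪ ZR 2)) (ZL 0 ∪ ZL 1 ∪ ZL 2)
    have h2 := Set.ncard_union_le D (ZR 0 ∪ ZR 1 ∪ ZR 2)
    have h3 := Set.ncard_union_le (ZR 0 ∪ ZR 1) (ZR 2)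
    have h4 := Set.ncard_union_le (ZR 0) (ZR 1)
    have h5 := Set.ncard_union_le (ZL 0 ∪ ZL 1) (ZL 2)
    have h6 := Set.ncard_union_le (ZL 0) (ZL 1)
    have e0 : D.ncard ≤ B0 := (hB0 q).2
    have e1 : ∀ c, (ZR c).ncard ≤ BR c := fun c => (hBR c q).2
    have e2 : ∀ c, (ZL c).ncard ≤ BL c := fun c => (hBL c q).2
    have e10 := e1 0
    have e11 := e1 1
    have e12 := e1 2
    have e20 := e2 0
    have e21 := e2 1
    have e22 := e2 2
    omega
  · intro u v huv hZ
    have hnD : ∀ x ∈ Set.Icc u v, x ∉ D := fun x hx h => hZ x hx (Or.inl (Or.inl h))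
    have hnR : ∀ c, ∀ x ∈ Set.Icc u v, x ∉ ZR c := by
      intro c x hx h
      apply hZ x hx
      left
      right
      have hc : c = 0 ∨ c = 1 ∨ c = 2 := by fin_cases c <;> simp
      rcases hc with rfl | rfl | rfl
      · exact Or.inl (Or.inl h)
      · exact Or.inl (Or.inr h)
      · exact Or.inr h
    have hnL : ∀ c, ∀ x ∈ Set.Icc u v, x ∉ ZL c := by
      intro c x hx h
      apply hZ x hx
      right
      have hc : c = 0 ∨ c = 1 ∨ c = 2 := by fin_cases c <;> simp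
      rcases hc with rfl | rfl | rfl
      · exact Or.inl (Or.inl h)
      · exact Or.inl (Or.inr h)
      · exact Or.inr h
    by_cases hex : ∃ t ∈ Set.Icc u v, ∃ s, R q t s
    swap
    · left
      intro t ht s hs
      exact hex ⟨t, ht, s, hs⟩
    right
    obtain ⟨t0, ht0, s0, hs0⟩ := hex
    have hdom : ∀ t ∈ Set.Icc u v, ∃ s, R q t s := fun t ht =>
      (eq_of_no_bk hnD ht0 ht).1 ⟨s0, hs0⟩
    refine ⟨hdom, ?_⟩
    rcases huv.eq_or_lt with heq | hlt
    · left
      intro t ht t' ht' _ s s' hs hs'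
      have h1 : t = t' := by
        have a1 := ht.1
        have a2 := ht.2
        have a3 := ht'.1
        have a4 := ht'.2
        linarith
      rw [← h1] at hs'
      exact (hfun q t s s' hs hs').le
    have hev : ∀ t ∈ Set.Icc u v, ∀ᶠ t' in 𝓝 t, ∃ s, R q t' s := by
      intro t ht
      have h2 : ∀ᶠ s in 𝓝 t, (∃ s', R q s s') = (∃ s', R q t s') := by
        by_contra hc
        exact hnD t ht hc
      filter_upwards [h2] with s hs
      rw [hs]
      exact hdom t ht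
    have hul : u ∈ Set.Icc u v := Set.left_mem_Icc.2 hlt.le
    have hvr : v ∈ Set.Icc u v := Set.right_mem_Icc.2 hlt.le
    obtain ⟨su, hsu⟩ := hdom u hul
    obtain ⟨sv, hsv⟩ := hdom v hvr
    obtain ⟨c, hc⟩ := rtyp_exists R hR hfun q u su hsu
      ((hev u hul).filter_mono nhdsWithin_le_nhds)
    obtain ⟨c', hc'⟩ := ltyp_exists R hR hfun q v sv hsv
      ((hev v hvr).filter_mono nhdsWithin_le_nhds)
    have hcR : ∀ t ∈ Set.Icc u v, RTyp (R q) c t := fun t ht =>
      (eq_of_no_bk (hnR c) hul ht).1 hc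
    have hcL : ∀ t ∈ Set.Icc u v, LTyp (R q) c' t := fun t ht =>
      (eq_of_no_bk (hnL c') hvr ht).1 hc'
    set ψ : ℝ → ℝ := fun t => if h : ∃ s, R q t s then h.choose else 0 with hψdef
    have hψ : ∀ t, (∃ s, R q t s) → R q t (ψ t) := by
      intro t ht
      have h1 : ψ t = ht.choose := dif_pos ht
      rw [h1]
      exact ht.choose_spec
    have key1 : ∀ t ∈ Set.Icc u v, ∃ ε : ℝ, 0 < ε ∧ ∀ s, t < s → s < t + ε →
        cmp3 c (ψ t) (ψ s) := by
      intro t ht
      obtain ⟨ε, hε, h1⟩ := hcR t ht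
      obtain ⟨δ, hδ, h2⟩ := Metric.eventually_nhds_iff.1 (hev t ht)
      refine ⟨min ε δ, lt_min hε hδ, fun s hs1 hs2 => ?_⟩
      have hm1 := min_le_left ε δ
      have hm2 := min_le_right ε δ
      refine h1 s hs1 (by linarith) _ _ (hψ t (hdom t ht)) (hψ s (h2 ?_))
      rw [Real.dist_eq, abs_lt]
      constructor <;> linarith
    have key2 : ∀ t ∈ Set.Icc u v, ∃ ε : ℝ, 0 < ε ∧ ∀ s, t - ε < s → s < t →
        cmp3 c' (ψ t) (ψ s) := by
      intro t ht
      obtain ⟨ε, hε, h1⟩ := hcL t ht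
      obtain ⟨δ, hδ, h2⟩ := Metric.eventually_nhds_iff.1 (hev t ht)
      refine ⟨min ε δ, lt_min hε hδ, fun s hs1 hs2 => ?_⟩
      have hm1 := min_le_left ε δ
      have hm2 := min_le_right ε δ
      refine h1 s (by linarith) hs2 _ _ (hψ t (hdom t ht)) (hψ s (h2 ?_))
      rw [Real.dist_eq, abs_lt]
      constructor <;> linarith
    have hmono := mono_types ψ u v hlt (by
      have hcc : c = 0 ∨ c = 1 ∨ c = 2 := by fin_cases c <;> simp
      rcases hcc with h0 | h0 | h0
      · left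
        intro t ht
        obtain ⟨ε, hε, h1⟩ := key1 t (Set.Ico_subset_Icc_self ht)
        exact ⟨ε, hε, fun s a1 a2 => (mn_cmp (h1 s a1 a2)).1 h0⟩
      · right
        left
        intro t ht
        obtain ⟨ε, hε, h1⟩ := key1 t (Set.Ico_subset_Icc_self ht)
        exact ⟨ε, hε, fun s a1 a2 => (mn_cmp (h1 s a1 a2)).2.1 h0⟩
      · right
        right
        intro t ht
        obtain ⟨ε, hε, h1⟩ := key1 t (Set.Ico_subset_Icc_self ht)
        exact ⟨ε, hε, fun s a1 a2 => (mn_cmp (h1 s a1 a2)).2.2 h0⟩) (by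
      have hcc : c' = 0 ∨ c' = 1 ∨ c' = 2 := by fin_cases c' <;> simp
      rcases hcc with h0 | h0 | h0
      · left
        intro t ht
        obtain ⟨ε, hε, h1⟩ := key2 t (Set.Ioc_subset_Icc_self ht)
        exact ⟨ε, hε, fun s a1 a2 => (mn_cmp (h1 s a1 a2)).1 h0⟩
      · right
        left
        intro t ht
        obtain ⟨ε, hε, h1⟩ := key2 t (Set.Ioc_subset_Icc_self ht)
        exact ⟨ε, hε, fun s a1 a2 => (mn_cmp (h1 s a1 a2)).2.1 h0⟩
      · right
        right
        intro t ht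
        obtain ⟨ε, hε, h1⟩ := key2 t (Set.Ioc_subset_Icc_self ht)
        exact ⟨ε, hε, fun s a1 a2 => (mn_cmp (h1 s a1 a2)).2.2 h0⟩)
    rcases hmono with hm | hm
    · left
      intro t ht t' ht' htt s s' hs hs'
      rw [hfun q t s (ψ t) hs (hψ t ⟨s, hs⟩), hfun q t' s' (ψ t') hs' (hψ t' ⟨s', hs'⟩)]
      exact hm ht ht' htt
    · right
      intro t ht t' ht' htt s s' hs hs'
      rw [hfun q t s (ψ t) hs (hψ t ⟨s, hs⟩), hfun q t' s' (ψ t') hs' (hψ t' ⟨s', hs'⟩)]
      exact hm ht ht' htt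

end UF
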