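import Pool.Agent.Work.MP_4c5ddc_co.NullP
import Pool.Agent.Work.MP_4c5ddc_co.Brk

/-!
# Module SlimN: semialgebraic sets of measure zero have finite fibres
-/

open MeasureTheory

namespace UF

open BU

private theorem A_SA {σ τ' : Type} (Γ : (σ → ℝ) → (Fin 3 → ℝ) → Prop) (hΓ : SAF Γ) (τ : ℕ)
    (l : Fin 3) (r : σ → τ') (a b : τ') :
    SA {z : τ' → ℝ | ∃ y : Fin 3 → ℝ, Γ (fun i => z (r i)) y ∧ lin τ y = z a ∧ y l = z b} := by
  refine SA.exists (σ := τ') (τ := Fin 3)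
    (P := fun z y => Γ (fun i => z (r i)) y ∧ lin τ y = z a ∧ y l = z b) ?_
  refine SA.S5a_and (SA.rename hΓ (Sum.elim (fun i => Sum.inl (r i)) (fun l => Sum.inr l) :
    σ ⊕ Fin 3 → τ' ⊕ Fin 3)) ?_
  refine SA.S5a_and ?_ (SA_eq (Fm.var (Sum.inr l)) (Fm.var (Sum.inl b)))
  obtain ⟨e, he⟩ := exists_fm_lin (σ := τ' ⊕ Fin 3) (d := 3) τ (fun l => Sum.inr l)
  refine SA.S5a_congr (SA_eq e (Fm.var (Sum.inl a))) fun x => ?_
  simp only [Set.mem_ofPred_eq, he, Fm.eval]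

theorem slim_of_null {σ : Type} (Γ : (σ → ℝ) → (Fin 3 → ℝ) → Prop) (hΓ : SAF Γ) (q : σ → ℝ)
    (h0 : Measure.hausdorffMeasure 2 {x : E3 | Γ q (fun j => x j)} = 0) (τ : ℕ) :
    Slim τ {y | Γ q y} := by
  have hT : ∀ l : Fin 3, {t : ℝ | ∃ u : ℝ, ∃ v : ℝ, u < v ∧ ∀ s : ℝ, u < s → s < v →
      ∃ y : Fin 3 → ℝ, Γ q y ∧ lin τ y = t ∧ y l = s}.Finite := by
    intro l
    by_contra hinf
    obtain ⟨B, hB⟩ := brk (σ := σ) (fun q t => ∃ u : ℝ, ∃ v : ℝ, u < v ∧ ∀ s : ℝ, u < s → s < v →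
      ∃ y : Fin 3 → ℝ, Γ q y ∧ lin τ y = t ∧ y l = s) (by
      refine SA.S5a_exists_real (σ := σ ⊕ Unit) (P := fun z u => ∃ v : ℝ, u < v ∧ ∀ s : ℝ, u < s →
        s < v → ∃ y : Fin 3 → ℝ, Γ (fun i => z (Sum.inl i)) y ∧ lin τ y = z (Sum.inr ()) ∧
          y l = s) ?_
      refine SA.S5a_exists_real (σ := (σ ⊕ Unit) ⊕ Unit) (P := fun z v => z (Sum.inr ()) < v ∧
        ∀ s : ℝ, z (Sum.inr ()) < s → s < v → ∃ y : Fin 3 → ℝ,
          Γ (fun i => z (Sum.inl (Sum.inl i))) y ∧ lin τ y = z (Sum.inl (Sum.inr ())) ∧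
          y l = s) ?_
      refine SA.S5a_and (SA.lt (Fm.var _) (Fm.var _)) ?_
      refine SA.S5a_congr (SA.forall (σ := ((σ ⊕ Unit) ⊕ Unit) ⊕ Unit) (τ := Unit)
        (P := fun z y => z (Sum.inl (Sum.inr ())) < y () → y () < z (Sum.inr ()) →
          ∃ y' : Fin 3 → ℝ, Γ (fun i => z (Sum.inl (Sum.inl (Sum.inl i)))) y' ∧
            lin τ y' = z (Sum.inl (Sum.inl (Sum.inr ()))) ∧ y' l = y ()) ?_) ?_
      · refine SA.S5a_imp (SA.lt (Fm.var _) (Fm.var _)) (SA.S5a_imp (SA.lt (Fm.var _) (Fm.var _)) ?_)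
        exact A_SA Γ hΓ τ l (fun i => Sum.inl (Sum.inl (Sum.inl (Sum.inl i)))) _ _
      · intro z
        constructor
        · intro h s h1 h2
          exact h (fun _ => s) h1 h2
        · intro h y h1 h2
          exact h (y ()) h1 h2)
    obtain ⟨a, b, hab, h⟩ := exists_Ioo_of_infinite (hB q).1 hinf
    refine null_proj {x : E3 | Γ q (fun j => x j)} h0 τ l a b hab fun t ht => ?_
    obtain ⟨u, v, huv, h1⟩ := h t ht
    refine ⟨u, v, huv, fun s hs => ?_⟩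
    obtain ⟨y, hy1, hy2, hy3⟩ := h1 s hs.1 hs.2
    exact ⟨WithLp.toLp 2 y, hy1, hy2, hy3⟩
  refine (Set.finite_iUnion hT).subset fun t ht => ?_
  by_contra hcon
  simp only [Set.mem_iUnion, not_exists] at hcon
  have hfin : ∀ l : Fin 3, {s : ℝ | ∃ y : Fin 3 → ℝ, Γ q y ∧ lin τ y = t ∧ y l = s}.Finite := by
    intro l
    by_contra hinf
    obtain ⟨B, hB⟩ := brk (σ := σ ⊕ Unit) (fun z s => ∃ y : Fin 3 → ℝ,
      Γ (fun i => z (Sum.inl i)) y ∧ lin τ y = z (Sum.inr ()) ∧ y l = s) (by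
      exact A_SA Γ hΓ τ l (fun i => Sum.inl (Sum.inl i)) _ _)
    obtain ⟨u, v, huv, h⟩ := exists_Ioo_of_infinite (hB (Sum.elim q fun _ => t)).1 hinf
    exact hcon l ⟨u, v, huv, fun s h1 h2 => h s ⟨h1, h2⟩⟩
  apply ht
  refine (Set.Finite.pi' hfin).subset ?_
  intro x hx l
  exact ⟨x, hx.1, hx.2, rfl⟩

end UF
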