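import Pool.Agent.Work.MP_4c5ddc_co.Univ
import Pool.Agent.Work.MP_4c5ddc_co.FrSA
import Pool.Agent.Work.MP_4c5ddc_co.Fib
import Pool.Agent.Work.MP_4c5ddc_co.Conv

/-!
# Module Tri: uniform bound for the finite intersections of three boundaries

Proof. Let `E` be the family of `univ_family s`. The family
`G (q : (σ ⊕ σ) ⊕ σ → ℝ) y := y ∈ frontier {x | E q₁ x} ∧ y ∈ frontier {x | E q₂ x} ∧
y ∈ frontier {x | E q₃ x}` is semialgebraic (`frontier_SAF`, `SA.rename`, `SA.S5a_and`), let `L` be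
the bound of `fib_bound`. Given `K₁, K₂, K₃`, write them as fibres; the map `x ↦ (fun j => x j)` is a
bijection from the intersection of the boundaries onto `{y | G q y}` (`conv_frontier`; inverse
`WithLp.toLp 2`), so the latter is finite, and the numbers of elements agree
(`Set.ncard_image_of_injective`).
-/

namespace UF

open BU

theorem tri_bound (s : ℕ) : ∃ L : ℕ, ∀ K₁ K₂ K₃ : Set E3, Semialg s K₁ → Semialg s K₂ →
    Semialg s K₃ → (frontier K₁ ∩ frontier K₂ ∩ frontier K₃).Finite →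
    (frontier K₁ ∩ frontier K₂ ∩ frontier K₃).ncard ≤ L := by
  obtain ⟨σ, E, hE, hK⟩ := univ_family s
  have hF := frontier_SAF E hE
  -- the three boundaries together
  have hG : SAF fun (q : (σ ⊕ σ) ⊕ σ → ℝ) (y : Fin 3 → ℝ) =>
      (y ∈ frontier {x | E (fun i => q (Sum.inl (Sum.inl i))) x} ∧
        y ∈ frontier {x | E (fun i => q (Sum.inl (Sum.inr i))) x}) ∧
        y ∈ frontier {x | E (fun i => q (Sum.inr i)) x} := by
    unfold SAF at hF ⊢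
    refine SA.S5a_and (SA.S5a_and ?_ ?_) ?_
    · exact SA.rename hF (Sum.elim (fun i => Sum.inl (Sum.inl (Sum.inl i))) (fun l => Sum.inr l) :
        σ ⊕ Fin 3 → ((σ ⊕ σ) ⊕ σ) ⊕ Fin 3)
    · exact SA.rename hF (Sum.elim (fun i => Sum.inl (Sum.inl (Sum.inr i))) (fun l => Sum.inr l) :
        σ ⊕ Fin 3 → ((σ ⊕ σ) ⊕ σ) ⊕ Fin 3)
    · exact SA.rename hF (Sum.elim (fun i => Sum.inl (Sum.inr i)) (fun l => Sum.inr l) :
        σ ⊕ Fin 3 → ((σ ⊕ σ) ⊕ σ) ⊕ Fin 3)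
  obtain ⟨L, hL⟩ := fib_bound _ hG
  refine ⟨L, fun K₁ K₂ K₃ h1 h2 h3 hfin => ?_⟩
  obtain ⟨q₁, hq₁⟩ := hK K₁ h1
  obtain ⟨q₂, hq₂⟩ := hK K₂ h2
  obtain ⟨q₃, hq₃⟩ := hK K₃ h3
  have hb := hL (Sum.elim (Sum.elim q₁ q₂) q₃)
  have f1 := conv_frontier (K := K₁) (K' := {x | E q₁ x}) hq₁
  have f2 := conv_frontier (K := K₂) (K' := {x | E q₂ x}) hq₂
  have f3 := conv_frontier (K := K₃) (K' := {x | E q₃ x}) hq₃
  set T : Set (Fin 3 → ℝ) := {y | (y ∈ frontier {x | E q₁ x} ∧ y ∈ frontier {x | E q₂ x}) ∧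
    y ∈ frontier {x | E q₃ x}} with hT
  have hb' : T.Finite → T.ncard ≤ L := hb
  set e : E3 → (Fin 3 → ℝ) := fun x j => x j with he
  have hinj : Function.Injective e := by
    intro x y hxy
    ext j
    exact congrFun hxy j
  have himg : e '' (frontier K₁ ∩ frontier K₂ ∩ frontier K₃) = T := by
    ext y
    constructor
    · rintro ⟨x, ⟨⟨hx1, hx2⟩, hx3⟩, rfl⟩
      exact ⟨⟨(f1 x).1 hx1, (f2 x).1 hx2⟩, (f3 x).1 hx3⟩
    · rintro ⟨⟨hy1, hy2⟩, hy3⟩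
      exact ⟨WithLp.toLp 2 y, ⟨⟨(f1 _).2 hy1, (f2 _).2 hy2⟩, (f3 _).2 hy3⟩, rfl⟩
  rw [← Set.ncard_image_of_injective _ hinj, himg]
  apply hb'
  rw [← himg]
  exact hfin.image e

end UF
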