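import Pool.Agent.Work.MP_4c5ddc_co.NoPat3
import Pool.Agent.Work.MP_4c5ddc_co.Hom
import Pool.Agent.Work.MP_4c5ddc_co.Tri
import Pool.Agent.Work.MP_4c5ddc_co.SlimN

/-!
# Module NoK: the vertex hypergraph contains no large complete tripartite hypergraph

Proof. Let `σ, E` be the family of `univ_family s`, `N` the number of `noPat3 E hE (4 * α)`, `L` the
number of `tri_bound s`, `m` the number of `hom N L`. Given `n, K` and `a, b, c, v` as in the
statement, apply `hom` with `X = E3`, `KA i = K (a i)`, `FA i = frontier (K (a i))`, etc.: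
`v i j k ∈ K (a i')` implies `v i j k ∈ frontier (K (a i'))`, since otherwise `v i j k` would be an
interior point of `K (a i')` (a closed set: `frontier = K \ interior`), hence of the union, but it is
in the boundary of the union; the intersections of three boundaries are finite by `GenPos` (the
indices `a i, b j, c k` are different) and have at most `L` points by `tri_bound`. We get
subfamilies of size `N` with non-membership. Write `K l = {x | E (q l) (fun j => x j)}`
(`univ_family`), and apply `noPat3` to the parameters `q (a i)` etc. and the points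
`fun l => v i j k l`: bodies by `conv_body`, boundary points by `conv_frontier` (with
`K' = {x | E (q l) x}`), `Slim` by `slim_of_null` for the semialgebraic family
`Γ (q : σ ⊕ σ → ℝ) y := y ∈ frontier {x | E q₁ x} ∧ y ∈ frontier {x | E q₂ x}` and the first part of
`GenPos` (`conv_frontier` again identifies the set of measure zero).
-/

namespace UF

open BU

theorem no_K (α : ℝ) (s : ℕ) : ∃ m : ℕ, ∀ (n : ℕ) (K : Fin n → Set E3), (∀ i, Obj α s (K i)) →
    GenPos K → ∀ (a b c : Fin m → Fin n) (v : Fin m → Fin m → Fin m → E3),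
      (∀ i j k, a i ≠ b j ∧ a i ≠ c k ∧ b j ≠ c k) →
      (∀ i j k, v i j k ∈ frontier (⋃ l, K l)) →
      (∀ i j k, v i j k ∈ frontier (K (a i))) → (∀ i j k, v i j k ∈ frontier (K (b j))) →
      (∀ i j k, v i j k ∈ frontier (K (c k))) →
      (∀ i j k i' j' k', v i j k = v i' j' k' → i = i' ∧ j = j' ∧ k = k') → False := by
  classical
  obtain ⟨σ, E, hE, hU⟩ := univ_family s
  obtain ⟨N, hN⟩ := noPat3 E hE (4 * α)
  obtain ⟨L, hL⟩ := tri_bound s
  obtain ⟨m, hm⟩ := hom N L
  refine ⟨m, fun n K hK hG a b c v hd hv ha hb hc hinj => ?_⟩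
  have hcl : ∀ l, IsClosed (K l) := fun l => (hK l).1.isClosed
  have hfr : ∀ i j k l, v i j k ∈ K l → v i j k ∈ frontier (K l) := by
    intro i j k l h
    rw [(hcl l).frontier_eq]
    refine ⟨h, fun hint => ?_⟩
    have h1 : v i j k ∈ interior (⋃ l, K l) := interior_mono (Set.subset_iUnion K l) hint
    exact (hv i j k).2 h1
  obtain ⟨a', b', c', -, -, -, h1, h2, h3⟩ := hm E3 (fun i => K (a i)) (fun j => K (b j))
    (fun k => K (c k)) (fun i => frontier (K (a i))) (fun j => frontier (K (b j)))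
    (fun k => frontier (K (c k))) v hinj ha hb hc (fun i i' j k h => hfr _ _ _ _ h)
    (fun i j j' k h => hfr _ _ _ _ h) (fun i j k k' h => hfr _ _ _ _ h)
    (fun i j k => by
      have h4 := hG.2 (a i) (b j) (c k) (hd i j k).1 (hd i j k).2.1 (hd i j k).2.2
      exact ⟨h4, hL _ _ _ (hK _).2.2.2 (hK _).2.2.2 (hK _).2.2.2 h4⟩)
  have hq : ∀ l, ∃ q : σ → ℝ, ∀ x : E3, x ∈ K l ↔ E q (fun j => x j) :=
    fun l => hU _ (hK l).2.2.2
  choose q hq using hq
  have hfr' : ∀ (l : Fin n) (x : E3), x ∈ frontier (K l) ↔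
      (fun j => x j) ∈ frontier {x | E (q l) x} := fun l x => conv_frontier (hq l) x
  have hbody : ∀ l, Body (4 * α) {x | E (q l) x} :=
    fun l => conv_body (hq l) (hK l).1 (hK l).2.1 (hK l).2.2.1
  have hΓ : SAF fun (q : σ ⊕ σ → ℝ) (y : Fin 3 → ℝ) =>
      y ∈ frontier {x | E (fun i => q (Sum.inl i)) x} ∧
      y ∈ frontier {x | E (fun i => q (Sum.inr i)) x} := by
    refine SA.S5a_and ?_ ?_
    · exact SA.rename (frontier_SAF E hE) (Sum.elim (fun i => Sum.inl (Sum.inl i))
        (fun l => Sum.inr l) : σ ⊕ Fin 3 → (σ ⊕ σ) ⊕ Fin 3)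
    · exact SA.rename (frontier_SAF E hE) (Sum.elim (fun i => Sum.inl (Sum.inr i))
        (fun l => Sum.inr l) : σ ⊕ Fin 3 → (σ ⊕ σ) ⊕ Fin 3)
  have hslim : ∀ l l', l ≠ l' → ∀ τ, Slim τ (frontier {x | E (q l) x} ∩
      frontier {x | E (q l') x}) := by
    intro l l' hll τ
    refine slim_of_null _ hΓ (Sum.elim (q l) (q l')) ?_ τ
    rw [← hG.1 l l' hll]
    congr 1
    ext x
    exact and_congr (hfr' l x).symm (hfr' l' x).symm
  refine hN (fun i => q (a (a' i))) (fun j => q (b (b' j))) (fun k => q (c (c' k)))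
    (fun i j k l => v (a' i) (b' j) (c' k) l) (fun i => hbody _) (fun j => hbody _)
    (fun k => hbody _) ?_ ?_ ?_ ?_ ?_ ?_ ?_ ?_ ?_
  · exact fun τ i j => hslim _ _ (hd (a' i) (b' j) (c' j)).1 τ
  · exact fun τ i k => hslim _ _ (hd (a' i) (b' i) (c' k)).2.1 τ
  · exact fun τ j k => hslim _ _ (hd (a' j) (b' j) (c' k)).2.2 τ
  · exact fun i j k => (hfr' _ _).1 (ha _ _ _)
  · exact fun i j k => (hfr' _ _).1 (hb _ _ _)
  · exact fun i j k => (hfr' _ _).1 (hc _ _ _)
  · exact fun i i' j k h hE' => h1 i i' j k h ((hq _ _).2 hE')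
  · exact fun i j j' k h hE' => h2 i j j' k h ((hq _ _).2 hE')
  · exact fun i j k k' h hE' => h3 i j k k' h ((hq _ _).2 hE')

end UF
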