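import Pool.Agent.Work.MP_4c5ddc_co.PRam

/-!
# Module Ord2: a dominating index (two indices)

Proof. Let `m` be the number of `prod_ramsey2 SignType (2 * N + 3)` with the colour
`s = sign (t i' j - t i j')` of `(i, i', j, j')`. On the homogeneous grids `A, B : Fin (2N+3) → Fin m`
the sign is a constant. It is not zero: `t i j' = t i' j = t i j''` for `j < j' < j''` would
contradict strict monotonicity. Suppose `s < 0`: `t i' j < t i j'` for all `i < i'`, `j < j'` (the
case `s > 0` is the same with the indices exchanged). Take `a i = A i`, `b j = B (2 j)` for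
`i, j < N`; for `j < j'` and any `i, i' < N`:
`t i (2j) < t N (2j) < t 0 (2j+1) < t 0 (2j') ≤ t i' (2j')`. For `N = 0` nothing to prove.
-/

namespace UF

theorem ord2 (N : ℕ) : ∃ m : ℕ, ∀ t : Fin m → Fin m → ℝ,
    (∀ i i' j, i < i' → t i j < t i' j) → (∀ i j j', j < j' → t i j < t i j') →
    ∃ a b : Fin N → Fin m, StrictMono a ∧ StrictMono b ∧
      ((∀ i i' j j', i < i' → t (a i) (b j) < t (a i') (b j')) ∨
       (∀ i i' j j', j < j' → t (a i) (b j) < t (a i') (b j'))) := by
  classical
  obtain ⟨m, hm⟩ := prod_ramsey2 SignType (2 * N + 3)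
  refine ⟨m, fun t ht1 ht2 => ?_⟩
  obtain ⟨A, B, κ₀, hA, hB, h⟩ := hm fun i i' j j' => SignType.sign (t i' j - t i j')
  have hle1 : ∀ i i' j, i ≤ i' → t i j ≤ t i' j := by
    intro i i' j hi
    rcases eq_or_lt_of_le hi with h | h
    · rw [h]
    · exact (ht1 _ _ _ h).le
  have hle2 : ∀ i j j', j ≤ j' → t i j ≤ t i j' := by
    intro i j j' hi
    rcases eq_or_lt_of_le hi with h | h
    · rw [h]
    · exact (ht2 _ _ _ h).le
  -- the first `N` indices and the even ones
  set lo : Fin N → Fin (2 * N + 3) := fun i => ⟨i, by omega⟩ with hlo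
  set ev : Fin N → Fin (2 * N + 3) := fun i => ⟨2 * i, by omega⟩ with hev
  set od : Fin N → Fin (2 * N + 3) := fun i => ⟨2 * i + 1, by omega⟩ with hod
  set top : Fin (2 * N + 3) := ⟨N, by omega⟩ with htop
  have hlom : StrictMono lo := fun i j hij => hij
  have hevm : StrictMono ev := by
    intro i j hij
    rw [Fin.lt_def] at hij ⊢
    show 2 * (i : ℕ) < 2 * (j : ℕ)
    omega
  have hlt : ∀ i, lo i < top := fun i => by
    rw [Fin.lt_def]
    exact i.2
  have heo : ∀ i, ev i < od i := fun i => by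
    rw [Fin.lt_def]
    show 2 * (i : ℕ) < 2 * (i : ℕ) + 1
    omega
  have hoe : ∀ i j, i < j → od i < ev j := by
    intro i j hij
    rw [Fin.lt_def] at hij ⊢
    show 2 * (i : ℕ) + 1 < 2 * (j : ℕ)
    omega
  rcases lt_trichotomy κ₀ 0 with hk | hk | hk
  · -- negative sign
    have hneg : ∀ i i' j j', i < i' → j < j' → t (A i') (B j) < t (A i) (B j') := by
      intro i i' j j' hi hj
      have h1 := h i i' j j' hi hj
      have h2 := (by decide : ∀ s : SignType, s < 0 → s = -1) κ₀ hk
      rw [h2, sign_eq_neg_one_iff] at h1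
      linarith
    refine ⟨fun i => A (lo i), fun j => B (ev j), fun i j hij => hA (hlom hij),
      fun i j hij => hB (hevm hij), Or.inr ?_⟩
    intro i i' j j' hj
    have h0N : (0 : Fin (2 * N + 3)) < top := by
      rw [Fin.lt_def]
      show 0 < N
      exact Nat.pos_of_ne_zero fun h => by subst h; exact i.elim0
    calc t (A (lo i)) (B (ev j)) < t (A top) (B (ev j)) := ht1 _ _ _ (hA (hlt i))
      _ < t (A 0) (B (od j)) := hneg 0 top (ev j) (od j) h0N (heo j)
      _ < t (A 0) (B (ev j')) := ht2 _ _ _ (hB (hoe j j' hj))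
      _ ≤ t (A (lo i')) (B (ev j')) := hle1 _ _ _ (hA.monotone (Fin.zero_le _))
  · exfalso
    have e01 : (0 : Fin (2 * N + 3)) < 1 := by
      rw [Fin.lt_def]
      show 0 < 1 % (2 * N + 3)
      rw [Nat.mod_eq_of_lt (by omega)]
      omega
    have h1 := h 0 1 0 1 e01 e01
    have e12 : (1 : Fin (2 * N + 3)) < ⟨2, by omega⟩ := by
      rw [Fin.lt_def]
      show 1 % (2 * N + 3) < 2
      rw [Nat.mod_eq_of_lt (by omega)]
      omega
    have h2 := h 0 1 0 ⟨2, by omega⟩ e01 (e01.trans e12)
    rw [hk, sign_eq_zero_iff] at h1 h2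
    have h3 := ht2 (A 0) _ _ (hB e12)
    linarith
  · have hpos : ∀ i i' j j', i < i' → j < j' → t (A i) (B j') < t (A i') (B j) := by
      intro i i' j j' hi hj
      have h1 := h i i' j j' hi hj
      have h2 := (by decide : ∀ s : SignType, 0 < s → s = 1) κ₀ hk
      rw [h2, sign_eq_one_iff] at h1
      linarith
    refine ⟨fun i => A (ev i), fun j => B (lo j), fun i j hij => hA (hevm hij),
      fun i j hij => hB (hlom hij), Or.inl ?_⟩
    intro i i' j j' hi
    have h0N : (0 : Fin (2 * N + 3)) < top := by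
      rw [Fin.lt_def]
      show 0 < N
      exact Nat.pos_of_ne_zero fun h => by subst h; exact i.elim0
    calc t (A (ev i)) (B (lo j)) < t (A (ev i)) (B top) := ht2 _ _ _ (hB (hlt j))
      _ < t (A (od i)) (B 0) := hpos (ev i) (od i) 0 top (heo i) h0N
      _ < t (A (ev i')) (B 0) := ht1 _ _ _ (hA (hoe i i' hi))
      _ ≤ t (A (ev i')) (B (lo j')) := hle2 _ _ _ (hB.monotone (Fin.zero_le _))

end UF
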