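import Pool.Agent.Work.MP_4c5ddc_co.Step2
import Pool.Agent.Work.MP_4c5ddc_co.Inc2
import Pool.Agent.Work.MP_4c5ddc_co.Ord2

/-!
# Module NoPat2: there are no large planar patterns

Proof. Let `c` be the constant of `inc2`, `Λ' = max |Λ| (1 / c)`; for `τ < 3` let `N_τ, M_τ` be the
numbers of `step2 E hE τ Λ'`; `N₂ =` the maximum of all of them; `N₁ =` the number of `ord2 N₂`,
`N =` the number of `inc2` for `N₁`. Given a pattern of size `N`, `p i j ≠ p i' j` for `i ≠ i'`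
(`p i' j` is in `{x | E (a i') x}`, a compact set which contains its boundary, `p i j` is not) and
`p i j ≠ p i j'` for `j ≠ j'` (same with `b`). `inc2` gives `τ < 3` and injective reindexings; then
`lin τ` of the reindexed points is strictly increasing in each index (`c ‖difference‖ > 0`), and
`ord2 N₂` gives further reindexings with one index dominating. In the case where the second index
dominates apply `step2` to the sets `a` (reindexed), restricted to the first `N_τ`, `M_τ` indices; in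
the other case to the sets `b` and the points with the indices exchanged. The slope condition
`‖x - y‖ ≤ Λ' |lin τ x - lin τ y|` follows from `c ‖x - y‖ ≤ lin τ x - lin τ y` (for `i < i'`, by
symmetry for `i > i'`, trivial for `i = i'`).
-/

namespace UF

open BU

theorem noPat2 {σ : Type} (E : (σ → ℝ) → (Fin 2 → ℝ) → Prop) (hE : SAF E) (Λ : ℝ) :
    ∃ N : ℕ, ∀ (a b : Fin N → σ → ℝ) (p : Fin N → Fin N → Fin 2 → ℝ) (ρ : ℝ), 0 < ρ →
      (∀ i, IsCompact {x | E (a i) x}) → (∀ i, Convex ℝ {x | E (a i) x}) →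
      (∀ j, IsCompact {x | E (b j) x}) → (∀ j, Convex ℝ {x | E (b j) x}) →
      (∀ i j, ∃ z, Metric.ball z ρ ⊆ {x | E (a i) x} ∧ ‖z - p i j‖ ≤ Λ * ρ) →
      (∀ i j, ∃ z, Metric.ball z ρ ⊆ {x | E (b j) x} ∧ ‖z - p i j‖ ≤ Λ * ρ) →
      (∀ i j i' j', ‖p i j - p i' j'‖ ≤ Λ * ρ) →
      (∀ i j, p i j ∈ frontier {x | E (a i) x}) → (∀ i j, p i j ∈ frontier {x | E (b j) x}) →
      (∀ i i' j, i ≠ i' → ¬ E (a i') (p i j)) → (∀ i j j', j ≠ j' → ¬ E (b j') (p i j)) →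
      False := by
  obtain ⟨c, hc, hinc⟩ := inc2
  set Λ' : ℝ := max |Λ| (1 / c) with hΛ'
  have hΛ1 : Λ ≤ Λ' := (le_abs_self Λ).trans (le_max_left _ _)
  have hΛ2 : 1 / c ≤ Λ' := le_max_right _ _
  choose Nf Mf hstep using fun τ => step2 E hE τ Λ'
  set N₂ : ℕ := ∑ τ ∈ Finset.range 3, (Nf τ + Mf τ) with hN₂
  have hle : ∀ τ < 3, Nf τ + Mf τ ≤ N₂ := fun τ hτ =>
    Finset.single_le_sum (f := fun τ => Nf τ + Mf τ) (fun _ _ => Nat.zero_le _)
      (Finset.mem_range.2 hτ)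
  obtain ⟨N₁, hord⟩ := ord2 N₂
  obtain ⟨N, hN⟩ := hinc N₁
  refine ⟨N, fun a b p ρ hρ ha1 ha2 hb1 hb2 ha3 hb3 hp hfa hfb hna hnb => ?_⟩
  have ne1 : ∀ i i' j, i ≠ i' → p i j ≠ p i' j := fun i i' j h heq =>
    hna i i' j h (by
      rw [heq]
      exact (ha1 i').isClosed.frontier_subset (hfa i' j))
  have ne2 : ∀ i j j', j ≠ j' → p i j ≠ p i j' := fun i j j' h heq =>
    hnb i j j' h (by
      rw [heq]
      exact (hb1 j').isClosed.frontier_subset (hfb i j'))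
  obtain ⟨τ, A, B, hτ, hA, hB, s1, s2⟩ := hN p ne1 ne2
  have hpos : ∀ x y : Fin 2 → ℝ, x ≠ y → c * ‖y - x‖ ≤ lin τ y - lin τ x → lin τ x < lin τ y := by
    intro x y hxy h
    have h1 : 0 < ‖y - x‖ := norm_pos_iff.2 (sub_ne_zero.2 hxy.symm)
    have := mul_pos hc h1
    linarith
  have hslope : ∀ x y : Fin 2 → ℝ, (c * ‖y - x‖ ≤ lin τ y - lin τ x ∨
      c * ‖x - y‖ ≤ lin τ x - lin τ y ∨ x = y) → ‖x - y‖ ≤ Λ' * |lin τ x - lin τ y| := by
    intro x y h
    have key : c * ‖x - y‖ ≤ |lin τ x - lin τ y| := by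
      rcases h with h | h | h
      · rw [norm_sub_rev, abs_sub_comm]
        exact h.trans (le_abs_self _)
      · exact h.trans (le_abs_self _)
      · rw [h]
        simp
    calc ‖x - y‖ = (1 / c) * (c * ‖x - y‖) := by field_simp
      _ ≤ (1 / c) * |lin τ x - lin τ y| := mul_le_mul_of_nonneg_left key (by positivity)
      _ ≤ Λ' * |lin τ x - lin τ y| := mul_le_mul_of_nonneg_right hΛ2 (abs_nonneg _)
  obtain ⟨a', b', ha', hb', hdom⟩ := hord (fun i j => lin τ (p (A i) (B j)))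
    (fun i i' j h => hpos _ _ (ne1 _ _ _ (hA.ne h.ne)) (s1 i i' j h))
    (fun i j j' h => hpos _ _ (ne2 _ _ _ (hB.ne h.ne)) (s2 i j j' h))
  have sl1 : ∀ i i' j, ‖p (A i) (B j) - p (A i') (B j)‖ ≤
      Λ' * |lin τ (p (A i) (B j)) - lin τ (p (A i') (B j))| := by
    intro i i' j
    refine hslope _ _ ?_
    rcases lt_trichotomy i i' with h | h | h
    · exact Or.inl (s1 i i' j h)
    · exact Or.inr (Or.inr (by rw [h]))
    · exact Or.inr (Or.inl (s1 i' i j h))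
  have sl2 : ∀ i j j', ‖p (A i) (B j) - p (A i) (B j')‖ ≤
      Λ' * |lin τ (p (A i) (B j)) - lin τ (p (A i) (B j'))| := by
    intro i j j'
    refine hslope _ _ ?_
    rcases lt_trichotomy j j' with h | h | h
    · exact Or.inl (s2 i j j' h)
    · exact Or.inr (Or.inr (by rw [h]))
    · exact Or.inr (Or.inl (s2 i j' j h))
  have hNτ : Nf τ ≤ N₂ := by have := hle τ hτ; omega
  have hMτ : Mf τ ≤ N₂ := by have := hle τ hτ; omega
  have fin : ∀ (a0 : Fin N₂ → σ → ℝ) (p0 : Fin N₂ → Fin N₂ → Fin 2 → ℝ),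
      (∀ i, IsCompact {x | E (a0 i) x}) → (∀ i, Convex ℝ {x | E (a0 i) x}) →
      (∀ i j, ∃ z, Metric.ball z ρ ⊆ {x | E (a0 i) x} ∧ ‖z - p0 i j‖ ≤ Λ * ρ) →
      (∀ i j i' j', ‖p0 i j - p0 i' j'‖ ≤ Λ * ρ) →
      (∀ i j, p0 i j ∈ frontier {x | E (a0 i) x}) →
      (∀ i i' j, i ≠ i' → ¬ E (a0 i') (p0 i j)) →
      (∀ i i' j, ‖p0 i j - p0 i' j‖ ≤ Λ' * |lin τ (p0 i j) - lin τ (p0 i' j)|) →
      (∀ i j j', ‖p0 i j - p0 i j'‖ ≤ Λ' * |lin τ (p0 i j) - lin τ (p0 i j')|) →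
      (∀ i i' j j', j < j' → lin τ (p0 i j) < lin τ (p0 i' j')) → False := by
    intro a0 p0 h1 h2 h3 h4 h5 h6 h7 h8 h9
    have hρ' : Λ * ρ ≤ Λ' * ρ := mul_le_mul_of_nonneg_right hΛ1 hρ.le
    exact hstep τ (fun i => a0 (Fin.castLE hNτ i))
      (fun i j => p0 (Fin.castLE hNτ i) (Fin.castLE hMτ j)) ρ hρ (fun i => h1 _) (fun i => h2 _)
      (fun i j => by
        obtain ⟨z, hz1, hz2⟩ := h3 (Fin.castLE hNτ i) (Fin.castLE hMτ j)
        exact ⟨z, hz1, hz2.trans hρ'⟩)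
      (fun i j i' j' => (h4 _ _ _ _).trans hρ') (fun i j => h5 _ _)
      (fun i i' j h => h6 _ _ _ ((Fin.castLE_injective hNτ).ne h)) (fun i i' j => h7 _ _ _)
      (fun i j j' => h8 _ _ _) (fun i i' j j' h => h9 _ _ _ _ (by simpa using h))
  rcases hdom with hdom | hdom
  · exact fin (fun j => b (B (b' j))) (fun j i => p (A (a' i)) (B (b' j))) (fun _ => hb1 _)
      (fun _ => hb2 _) (fun _ _ => hb3 _ _) (fun _ _ _ _ => hp _ _ _ _) (fun _ _ => hfb _ _)
      (fun j j' i h => hnb _ _ _ (hB.ne (hb'.injective.ne h))) (fun j j' i => sl2 _ _ _)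
      (fun j i i' => sl1 _ _ _) (fun j j' i i' h => hdom i i' j j' h)
  · exact fin (fun i => a (A (a' i))) (fun i j => p (A (a' i)) (B (b' j))) (fun _ => ha1 _)
      (fun _ => ha2 _) (fun _ _ => ha3 _ _) (fun _ _ _ _ => hp _ _ _ _) (fun _ _ => hfa _ _)
      (fun i i' j h => hna _ _ _ (hA.ne (ha'.injective.ne h))) (fun i i' j => sl1 _ _ _)
      (fun i j j' => sl2 _ _ _) (fun i i' j j' h => hdom i i' j j' h)

end UF
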