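import Pool.Agent.Work.MP_4c5ddc_co.PRam

/-!
# Module Ord3: a dominating index (three indices)

Proof. Let `m` be the number of `prod_ramsey3 κ (2 * N + 3)` with `κ = Fin 3 → SignType`, the colour
of `(i, i', j, j', k, k')` being the three signs
`s₀ = sign (t i' j k - t i j' k)`, `s₁ = sign (t i' j k - t i j k')`,
`s₂ = sign (t i j' k - t i j k')`. Let `A, B, C : Fin (2N+3) → Fin m` be the homogeneous grids; we
write `t i j k` for `t (A i) (B j) (C k)` from now on; `s₀` is the comparison of `t i' j k` with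
`t i j' k` for ALL `i < i'`, `j < j'` and all `k` which are not the last index, etc.
1. No sign is zero: if `s₀ = 0` take `i < i'`, `j < j' < j''`: `t i j' k = t i' j k = t i j'' k`,
   contradicting strict monotonicity in `j`; same for `s₁, s₂` (`2N + 3 ≥ 3` indices; the other
   index is not the last one).
2. Cases. `s₀ > 0` and `s₁ > 0` (index `i` beats `j` and `k`), or `s₀ < 0` and `s₂ > 0` (`j` beats
   `i` and `k`), or `s₁ < 0` and `s₂ < 0` (`k` beats `i` and `j`); the two other sign patterns are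
   cyclic and impossible: `s₀ > 0, s₂ > 0, s₁ < 0` would give
   `t i' j k > t i j' k > t i j k' > t i' j k`, and the reversed pattern similarly.
3. Suppose `k` beats `i` and `j` (the other cases are the same): for `k < k'`,
   `t i' j k < t i j k'` for `i < i'`, `j` not last, and `t i j' k < t i j k'` for `j < j'`, `i` not
   last. Take `a i = A i`, `b j = B j` for `i, j < N` and `c k = C (2 k)` for `k < N`. For `k < k'`
   and any `i, i', j, j' < N`:
   `t i j (2k) < t N N (2k) < t 0 N (2k+1) < t 0 0 (2k') ≤ t i' j' (2k')` (first step: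
   monotonicity in `i` and in `j`; second: `k` beats `i` with `0 < N`, `2k < 2k+1`; third: `k` beats
   `j` with `0 < N`, `2k+1 < 2k'`; last: monotonicity). For `N = 0` there is nothing to prove.
-/

namespace UF

private theorem o3_core (N : ℕ) (T : Fin (2 * N + 3) → Fin (2 * N + 3) → Fin (2 * N + 3) → ℝ)
    (m1 : ∀ i i' j k, i < i' → T i j k < T i' j k) (m2 : ∀ i j j' k, j < j' → T i j k < T i j' k)
    (h1 : ∀ i i' j j' k k', i < i' → j < j' → k < k' → T i' j k < T i j k')
    (h2 : ∀ i i' j j' k k', i < i' → j < j' → k < k' → T i j' k < T i j k')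
    (e f : Fin N → Fin (2 * N + 3)) (he : ∀ i, (e i : ℕ) = i) (hf : ∀ i, (f i : ℕ) = 2 * i) :
    ∀ i i' j j' k k' : Fin N, k < k' → T (e i) (e j) (f k) < T (e i') (e j') (f k') := by
  intro i i' j j' k k' hk
  have hN : 0 < N := i.pos
  have hi := i.isLt
  have hj := j.isLt
  have hk1 := k'.isLt
  have hk2 : (k : ℕ) < k' := hk
  set z : Fin (2 * N + 3) := ⟨0, by omega⟩ with hz
  set o : Fin (2 * N + 3) := ⟨1, by omega⟩ with ho
  set n : Fin (2 * N + 3) := ⟨N, by omega⟩ with hn
  set n1 : Fin (2 * N + 3) := ⟨N + 1, by omega⟩ with hn1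
  set g : Fin (2 * N + 3) := ⟨2 * k + 1, by omega⟩ with hg
  have a1 : T (e i) (e j) (f k) < T n (e j) (f k) := m1 _ _ _ _ (by
    rw [Fin.lt_def, he]
    exact hi)
  have a2 : T n (e j) (f k) < T n n (f k) := m2 _ _ _ _ (by
    rw [Fin.lt_def, he]
    exact hj)
  have a3 : T n n (f k) < T z n g := h1 z n n n1 (f k) g (by
    rw [Fin.lt_def]
    exact hN) (by
    rw [Fin.lt_def]
    exact Nat.lt_succ_self N) (by
    rw [Fin.lt_def, hf]
    exact Nat.lt_succ_self _)
  have a4 : T z n g < T z z (f k') := h2 z o z n g (f k') (by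
    rw [Fin.lt_def]
    exact Nat.zero_lt_one) (by
    rw [Fin.lt_def]
    exact hN) (by
    rw [Fin.lt_def, hf]
    show 2 * (k : ℕ) + 1 < 2 * (k' : ℕ)
    omega)
  have w1 : ∀ x : Fin (2 * N + 3), z ≤ x := fun x => by
    rw [Fin.le_def]
    exact Nat.zero_le _
  have a5 : T z z (f k') ≤ T (e i') z (f k') := by
    rcases (w1 (e i')).eq_or_lt with h | h
    · rw [← h]
    · exact (m1 _ _ _ _ h).le
  have a6 : T (e i') z (f k') ≤ T (e i') (e j') (f k') := by
    rcases (w1 (e j')).eq_or_lt with h | h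
    · rw [← h]
    · exact (m2 _ _ _ _ h).le
  linarith

theorem ord3 (N : ℕ) : ∃ m : ℕ, ∀ t : Fin m → Fin m → Fin m → ℝ,
    (∀ i i' j k, i < i' → t i j k < t i' j k) → (∀ i j j' k, j < j' → t i j k < t i j' k) →
    (∀ i j k k', k < k' → t i j k < t i j k') →
    ∃ a b c : Fin N → Fin m, StrictMono a ∧ StrictMono b ∧ StrictMono c ∧
      ((∀ i i' j j' k k', i < i' → t (a i) (b j) (c k) < t (a i') (b j') (c k')) ∨
       (∀ i i' j j' k k', j < j' → t (a i) (b j) (c k) < t (a i') (b j') (c k')) ∨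
       (∀ i i' j j' k k', k < k' → t (a i) (b j) (c k) < t (a i') (b j') (c k'))) := by
  obtain ⟨m, hm⟩ := prod_ramsey3 (Ordering × Ordering × Ordering) (2 * N + 3)
  refine ⟨m, fun t t1 t2 t3 => ?_⟩
  obtain ⟨A, B, C, κ, hA, hB, hC, hκ⟩ := hm (fun i i' j j' k k' =>
    (cmp (t i' j k) (t i j' k), cmp (t i' j k) (t i j k'), cmp (t i j' k) (t i j k')))
  set T : Fin (2 * N + 3) → Fin (2 * N + 3) → Fin (2 * N + 3) → ℝ :=
    fun i j k => t (A i) (B j) (C k) with hT
  have m1 : ∀ i i' j k, i < i' → T i j k < T i' j k := fun i i' j k h => t1 _ _ _ _ (hA h)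
  have m2 : ∀ i j j' k, j < j' → T i j k < T i j' k := fun i j j' k h => t2 _ _ _ _ (hB h)
  have m3 : ∀ i j k k', k < k' → T i j k < T i j k' := fun i j k k' h => t3 _ _ _ _ (hC h)
  have k0 : ∀ i i' j j' k k', i < i' → j < j' → k < k' →
      cmp (T i' j k) (T i j' k) = κ.1 := fun i i' j j' k k' hi hj hk =>
    congrArg Prod.fst (hκ i i' j j' k k' hi hj hk)
  have k1 : ∀ i i' j j' k k', i < i' → j < j' → k < k' →
      cmp (T i' j k) (T i j k') = κ.2.1 := fun i i' j j' k k' hi hj hk =>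
    congrArg (fun p => p.2.1) (hκ i i' j j' k k' hi hj hk)
  have k2 : ∀ i i' j j' k k', i < i' → j < j' → k < k' →
      cmp (T i j' k) (T i j k') = κ.2.2 := fun i i' j j' k k' hi hj hk =>
    congrArg (fun p => p.2.2) (hκ i i' j j' k k' hi hj hk)
  set z : Fin (2 * N + 3) := ⟨0, by omega⟩ with hz
  set o : Fin (2 * N + 3) := ⟨1, by omega⟩ with ho
  set w : Fin (2 * N + 3) := ⟨2, by omega⟩ with hw
  have hzo : z < o := by
    rw [Fin.lt_def]
    exact Nat.zero_lt_one
  have how : o < w := by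
    rw [Fin.lt_def]
    exact Nat.one_lt_two
  have hzw : z < w := hzo.trans how
  set e : Fin N → Fin (2 * N + 3) := fun i => ⟨i, by omega⟩ with he
  set f : Fin N → Fin (2 * N + 3) := fun i => ⟨2 * i, by omega⟩ with hf
  have hem : StrictMono e := fun i i' h => by
    rw [Fin.lt_def] at h ⊢
    exact h
  have hfm : StrictMono f := fun i i' h => by
    rw [Fin.lt_def] at h ⊢
    show 2 * (i : ℕ) < 2 * (i' : ℕ)
    omega
  have n0 : κ.1 ≠ Ordering.eq := by
    intro h
    have h1 := (cmp_eq_eq_iff _ _).1 ((k0 z o z o z o hzo hzo hzo).trans h)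
    have h2 := (cmp_eq_eq_iff _ _).1 ((k0 z o z w z o hzo hzw hzo).trans h)
    have h3 := m2 z o w z how
    linarith
  have n1 : κ.2.1 ≠ Ordering.eq := by
    intro h
    have h1 := (cmp_eq_eq_iff _ _).1 ((k1 z o z o z o hzo hzo hzo).trans h)
    have h2 := (cmp_eq_eq_iff _ _).1 ((k1 z o z o z w hzo hzo hzw).trans h)
    have h3 := m3 z z o w how
    linarith
  have n2 : κ.2.2 ≠ Ordering.eq := by
    intro h
    have h1 := (cmp_eq_eq_iff _ _).1 ((k2 z o z o z o hzo hzo hzo).trans h)
    have h2 := (cmp_eq_eq_iff _ _).1 ((k2 z o z o z w hzo hzo hzw).trans h)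
    have h3 := m3 z z o w how
    linarith
  have lt0 : κ.1 = Ordering.lt → ∀ i i' j j' k k', i < i' → j < j' → k < k' →
      T i' j k < T i j' k := fun h i i' j j' k k' hi hj hk =>
    (cmp_eq_lt_iff _ _).1 ((k0 i i' j j' k k' hi hj hk).trans h)
  have gt0 : κ.1 = Ordering.gt → ∀ i i' j j' k k', i < i' → j < j' → k < k' →
      T i j' k < T i' j k := fun h i i' j j' k k' hi hj hk =>
    (cmp_eq_gt_iff _ _).1 ((k0 i i' j j' k k' hi hj hk).trans h)
  have lt1 : κ.2.1 = Ordering.lt → ∀ i i' j j' k k', i < i' → j < j' → k < k' →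
      T i' j k < T i j k' := fun h i i' j j' k k' hi hj hk =>
    (cmp_eq_lt_iff _ _).1 ((k1 i i' j j' k k' hi hj hk).trans h)
  have gt1 : κ.2.1 = Ordering.gt → ∀ i i' j j' k k', i < i' → j < j' → k < k' →
      T i j k' < T i' j k := fun h i i' j j' k k' hi hj hk =>
    (cmp_eq_gt_iff _ _).1 ((k1 i i' j j' k k' hi hj hk).trans h)
  have lt2 : κ.2.2 = Ordering.lt → ∀ i i' j j' k k', i < i' → j < j' → k < k' →
      T i j' k < T i j k' := fun h i i' j j' k k' hi hj hk =>
    (cmp_eq_lt_iff _ _).1 ((k2 i i' j j' k k' hi hj hk).trans h)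
  have gt2 : κ.2.2 = Ordering.gt → ∀ i i' j j' k k', i < i' → j < j' → k < k' →
      T i j k' < T i j' k := fun h i i' j j' k k' hi hj hk =>
    (cmp_eq_gt_iff _ _).1 ((k2 i i' j j' k k' hi hj hk).trans h)
  have caseI : κ.1 = Ordering.gt → κ.2.1 = Ordering.gt →
      ∃ a b c : Fin N → Fin m, StrictMono a ∧ StrictMono b ∧ StrictMono c ∧
      ((∀ i i' j j' k k', i < i' → t (a i) (b j) (c k) < t (a i') (b j') (c k')) ∨
       (∀ i i' j j' k k', j < j' → t (a i) (b j) (c k) < t (a i') (b j') (c k')) ∨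
       (∀ i i' j j' k k', k < k' → t (a i) (b j) (c k) < t (a i') (b j') (c k'))) := by
    intro g0 g1
    have h := o3_core N (fun a b c => T c a b) (fun a a' b c h => m2 c a a' b h)
      (fun a b b' c h => m3 c a b b' h)
      (fun a a' b b' c c' ha hb hc => gt0 g0 c c' a a' b b' hc ha hb)
      (fun a a' b b' c c' ha hb hc => gt1 g1 c c' a a' b b' hc ha hb) e f (fun _ => rfl)
      (fun _ => rfl)
    exact ⟨fun i => A (f i), fun j => B (e j), fun k => C (e k), hA.comp hfm, hB.comp hem,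
      hC.comp hem, Or.inl fun i i' j j' k k' hi => h j j' k k' i i' hi⟩
  have caseJ : κ.1 = Ordering.lt → κ.2.2 = Ordering.gt →
      ∃ a b c : Fin N → Fin m, StrictMono a ∧ StrictMono b ∧ StrictMono c ∧
      ((∀ i i' j j' k k', i < i' → t (a i) (b j) (c k) < t (a i') (b j') (c k')) ∨
       (∀ i i' j j' k k', j < j' → t (a i) (b j) (c k) < t (a i') (b j') (c k')) ∨
       (∀ i i' j j' k k', k < k' → t (a i) (b j) (c k) < t (a i') (b j') (c k'))) := by
    intro g0 g2
    have h := o3_core N (fun a b c => T a c b) (fun a a' b c h => m1 a a' c b h)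
      (fun a b b' c h => m3 a c b b' h)
      (fun a a' b b' c c' ha hb hc => lt0 g0 a a' c c' b b' ha hc hb)
      (fun a a' b b' c c' ha hb hc => gt2 g2 a a' c c' b b' ha hc hb) e f (fun _ => rfl)
      (fun _ => rfl)
    exact ⟨fun i => A (e i), fun j => B (f j), fun k => C (e k), hA.comp hem, hB.comp hfm,
      hC.comp hem, Or.inr (Or.inl fun i i' j j' k k' hj => h i i' k k' j j' hj)⟩
  have caseK : κ.2.1 = Ordering.lt → κ.2.2 = Ordering.lt →
      ∃ a b c : Fin N → Fin m, StrictMono a ∧ StrictMono b ∧ StrictMono c ∧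
      ((∀ i i' j j' k k', i < i' → t (a i) (b j) (c k) < t (a i') (b j') (c k')) ∨
       (∀ i i' j j' k k', j < j' → t (a i) (b j) (c k) < t (a i') (b j') (c k')) ∨
       (∀ i i' j j' k k', k < k' → t (a i) (b j) (c k) < t (a i') (b j') (c k'))) := by
    intro g1 g2
    have h := o3_core N T m1 m2 (lt1 g1) (lt2 g2) e f (fun _ => rfl) (fun _ => rfl)
    exact ⟨fun i => A (e i), fun j => B (e j), fun k => C (f k), hA.comp hem, hB.comp hem,
      hC.comp hfm, Or.inr (Or.inr fun i i' j j' k k' hk => h i i' j j' k k' hk)⟩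
  rcases h0 : κ.1 with _ | _ | _
  · rcases h2 : κ.2.2 with _ | _ | _
    · rcases h1 : κ.2.1 with _ | _ | _
      · exact caseK h1 h2
      · exact absurd h1 n1
      · exfalso
        have b1 := lt0 h0 z o z o z o hzo hzo hzo
        have b2 := lt2 h2 z o z o z o hzo hzo hzo
        have b3 := gt1 h1 z o z o z o hzo hzo hzo
        linarith
    · exact absurd h2 n2
    · exact caseJ h0 h2
  · exact absurd h0 n0
  · rcases h1 : κ.2.1 with _ | _ | _
    · rcases h2 : κ.2.2 with _ | _ | _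
      · exact caseK h1 h2
      · exact absurd h2 n2
      · exfalso
        have b1 := gt0 h0 z o z o z o hzo hzo hzo
        have b2 := gt2 h2 z o z o z o hzo hzo hzo
        have b3 := lt1 h1 z o z o z o hzo hzo hzo
        linarith
    · exact absurd h1 n1
    · exact caseI h0 h1

end UF
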