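import Pool.Agent.Work.MP_4c5ddc_co.Step3
import Pool.Agent.Work.MP_4c5ddc_co.Inc3
import Pool.Agent.Work.MP_4c5ddc_co.Ord3

/-!
# Module NoPat3: there are no large spatial patterns

Proof. Let `c` be the constant of `inc3`, `Λ' = max |Λ| (1 / c)`; for `τ < 7` let `N_τ, M_τ` be the
numbers of `step3 E hE τ Λ'`, `N₂` the maximum of all of them, `N₁` the number of `ord3 N₂`, `N` the
number of `inc3` for `N₁`. Given a pattern of size `N`: `v i j k ≠ v i' j k` for `i ≠ i'` since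
`v i' j k ∈ frontier {x | E (a i') x} ⊆ {x | E (a i') x}` (compact) and `¬ E (a i') (v i j k)`; same
for the other indices. `inc3` gives `τ < 7` and injective reindexings for which `lin τ` is strictly
increasing in each index with good slopes; `ord3 N₂` gives further reindexings with a dominating
index. If the third index dominates apply `step3` to the families `a, b` (first `N_τ` indices,
`Fin.castLE`) and the first `M_τ` indices of the third; if the second dominates apply it to `a, c`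
and `v' i k j = v i j k`; if the first dominates to `b, c` and `v' j k i = v i j k`.
`Body Λ K` implies `Body Λ' K` (`Λ ≤ Λ'`, the radius is positive).
-/

namespace UF

open BU

theorem noPat3 {σ : Type} (E : (σ → ℝ) → (Fin 3 → ℝ) → Prop) (hE : SAF E) (Λ : ℝ) :
    ∃ N : ℕ, ∀ (a b c : Fin N → σ → ℝ) (v : Fin N → Fin N → Fin N → Fin 3 → ℝ),
      (∀ i, Body Λ {x | E (a i) x}) → (∀ j, Body Λ {x | E (b j) x}) →
      (∀ k, Body Λ {x | E (c k) x}) →
      (∀ τ i j, Slim τ (frontier {x | E (a i) x} ∩ frontier {x | E (b j) x})) →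
      (∀ τ i k, Slim τ (frontier {x | E (a i) x} ∩ frontier {x | E (c k) x})) →
      (∀ τ j k, Slim τ (frontier {x | E (b j) x} ∩ frontier {x | E (c k) x})) →
      (∀ i j k, v i j k ∈ frontier {x | E (a i) x}) →
      (∀ i j k, v i j k ∈ frontier {x | E (b j) x}) →
      (∀ i j k, v i j k ∈ frontier {x | E (c k) x}) →
      (∀ i i' j k, i ≠ i' → ¬ E (a i') (v i j k)) →
      (∀ i j j' k, j ≠ j' → ¬ E (b j') (v i j k)) →
      (∀ i j k k', k ≠ k' → ¬ E (c k') (v i j k)) → False := by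
  obtain ⟨c, hc, hinc⟩ := inc3
  set Λ' : ℝ := max |Λ| (1 / c) with hΛ'
  have hΛ1 : Λ ≤ Λ' := (le_abs_self Λ).trans (le_max_left _ _)
  have hΛ2 : 1 / c ≤ Λ' := le_max_right _ _
  choose Nf Mf hstep using fun τ => step3 E hE τ Λ'
  set N₂ : ℕ := ∑ τ ∈ Finset.range 7, (Nf τ + Mf τ) with hN₂
  have hle : ∀ τ < 7, Nf τ + Mf τ ≤ N₂ := fun τ hτ =>
    Finset.single_le_sum (f := fun τ => Nf τ + Mf τ) (fun _ _ => Nat.zero_le _)
      (Finset.mem_range.2 hτ)
  obtain ⟨N₁, hord⟩ := ord3 N₂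
  obtain ⟨N, hN⟩ := hinc N₁
  refine ⟨N, fun a b c0 v ha hb hcc sab sac sbc fa fb fc na nb nc => ?_⟩
  have ne1 : ∀ i i' j k, i ≠ i' → v i j k ≠ v i' j k := fun i i' j k h heq =>
    na i i' j k h (by
      rw [heq]
      exact (ha i').1.isClosed.frontier_subset (fa i' j k))
  have ne2 : ∀ i j j' k, j ≠ j' → v i j k ≠ v i j' k := fun i j j' k h heq =>
    nb i j j' k h (by
      rw [heq]
      exact (hb j').1.isClosed.frontier_subset (fb i j' k))
  have ne3 : ∀ i j k k', k ≠ k' → v i j k ≠ v i j k' := fun i j k k' h heq =>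
    nc i j k k' h (by
      rw [heq]
      exact (hcc k').1.isClosed.frontier_subset (fc i j k'))
  obtain ⟨τ, A, B, C, hτ, hA, hB, hC, s1, s2, s3⟩ := hN v ne1 ne2 ne3
  have hpos : ∀ x y : Fin 3 → ℝ, x ≠ y → c * ‖y - x‖ ≤ lin τ y - lin τ x → lin τ x < lin τ y := by
    intro x y hxy h
    have h1 : 0 < ‖y - x‖ := norm_pos_iff.2 (sub_ne_zero.2 hxy.symm)
    have := mul_pos hc h1
    linarith
  have hslope : ∀ x y : Fin 3 → ℝ, (c * ‖y - x‖ ≤ lin τ y - lin τ x ∨
      c * ‖x - y‖ ≤ lin τ x - lin τ y ∨ x = y) → ‖x - y‖ ≤ Λ' * |lin τ x - lin τ y| := by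
    intro x y h
    have key : c * ‖x - y‖ ≤ |lin τ x - lin τ y| := by
      rcases h with h | h | h
      · rw [norm_sub_rev, abs_sub_comm]
        exact h.trans (le_abs_self _)
      · exact h.trans (le_abs_self _)
      · rw [h]
        simp
    calc ‖x - y‖ = (1 / c) * (c * ‖x - y‖) := by field_simp
      _ ≤ (1 / c) * |lin τ x - lin τ y| := mul_le_mul_of_nonneg_left key (by positivity)
      _ ≤ Λ' * |lin τ x - lin τ y| := mul_le_mul_of_nonneg_right hΛ2 (abs_nonneg _)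
  obtain ⟨a', b', c', ha', hb', hc', hdom⟩ := hord (fun i j k => lin τ (v (A i) (B j) (C k)))
    (fun i i' j k h => hpos _ _ (ne1 _ _ _ _ (hA.ne h.ne)) (s1 i i' j k h))
    (fun i j j' k h => hpos _ _ (ne2 _ _ _ _ (hB.ne h.ne)) (s2 i j j' k h))
    (fun i j k k' h => hpos _ _ (ne3 _ _ _ _ (hC.ne h.ne)) (s3 i j k k' h))
  have sl1 : ∀ i i' j k, ‖v (A i) (B j) (C k) - v (A i') (B j) (C k)‖ ≤
      Λ' * |lin τ (v (A i) (B j) (C k)) - lin τ (v (A i') (B j) (C k))| := by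
    intro i i' j k
    refine hslope _ _ ?_
    rcases lt_trichotomy i i' with h | h | h
    · exact Or.inl (s1 i i' j k h)
    · exact Or.inr (Or.inr (by rw [h]))
    · exact Or.inr (Or.inl (s1 i' i j k h))
  have sl2 : ∀ i j j' k, ‖v (A i) (B j) (C k) - v (A i) (B j') (C k)‖ ≤
      Λ' * |lin τ (v (A i) (B j) (C k)) - lin τ (v (A i) (B j') (C k))| := by
    intro i j j' k
    refine hslope _ _ ?_
    rcases lt_trichotomy j j' with h | h | h
    · exact Or.inl (s2 i j j' k h)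
    · exact Or.inr (Or.inr (by rw [h]))
    · exact Or.inr (Or.inl (s2 i j' j k h))
  have sl3 : ∀ i j k k', ‖v (A i) (B j) (C k) - v (A i) (B j) (C k')‖ ≤
      Λ' * |lin τ (v (A i) (B j) (C k)) - lin τ (v (A i) (B j) (C k'))| := by
    intro i j k k'
    refine hslope _ _ ?_
    rcases lt_trichotomy k k' with h | h | h
    · exact Or.inl (s3 i j k k' h)
    · exact Or.inr (Or.inr (by rw [h]))
    · exact Or.inr (Or.inl (s3 i j k' k h))
  have hNτ : Nf τ ≤ N₂ := by have := hle τ hτ; omega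
  have hMτ : Mf τ ≤ N₂ := by have := hle τ hτ; omega
  have hbody : ∀ K : Set (Fin 3 → ℝ), Body Λ K → Body Λ' K := by
    rintro K ⟨h1, h2, z, ρ, h3, h4, h5⟩
    exact ⟨h1, h2, z, ρ, h3, h4, h5.trans (Metric.closedBall_subset_closedBall
      (mul_le_mul_of_nonneg_right hΛ1 h3.le))⟩
  have fin : ∀ (a0 b0 : Fin N₂ → σ → ℝ) (v0 : Fin N₂ → Fin N₂ → Fin N₂ → Fin 3 → ℝ),
      (∀ i, Body Λ {x | E (a0 i) x}) → (∀ j, Body Λ {x | E (b0 j) x}) →
      (∀ i j, Slim τ (frontier {x | E (a0 i) x} ∩ frontier {x | E (b0 j) x})) →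
      (∀ i j k, v0 i j k ∈ frontier {x | E (a0 i) x}) →
      (∀ i j k, v0 i j k ∈ frontier {x | E (b0 j) x}) →
      (∀ i i' j k, i ≠ i' → ¬ E (a0 i') (v0 i j k)) →
      (∀ i j j' k, j ≠ j' → ¬ E (b0 j') (v0 i j k)) →
      (∀ i i' j k, ‖v0 i j k - v0 i' j k‖ ≤ Λ' * |lin τ (v0 i j k) - lin τ (v0 i' j k)|) →
      (∀ i j j' k, ‖v0 i j k - v0 i j' k‖ ≤ Λ' * |lin τ (v0 i j k) - lin τ (v0 i j' k)|) →
      (∀ i j k k', ‖v0 i j k - v0 i j k'‖ ≤ Λ' * |lin τ (v0 i j k) - lin τ (v0 i j k')|) →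
      (∀ i i' j j' k k', k < k' → lin τ (v0 i j k) < lin τ (v0 i' j' k')) → False := by
    intro a0 b0 v0 h1 h2 h3 h4 h5 h6 h7 h8 h9 h10 h11
    exact hstep τ (fun i => a0 (Fin.castLE hNτ i)) (fun j => b0 (Fin.castLE hNτ j))
      (fun i j k => v0 (Fin.castLE hNτ i) (Fin.castLE hNτ j) (Fin.castLE hMτ k))
      (fun i => hbody _ (h1 _)) (fun i => hbody _ (h2 _)) (fun i j => h3 _ _)
      (fun i j k => h4 _ _ _) (fun i j k => h5 _ _ _)
      (fun i i' j k h => h6 _ _ _ _ ((Fin.castLE_injective hNτ).ne h))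
      (fun i j j' k h => h7 _ _ _ _ ((Fin.castLE_injective hNτ).ne h))
      (fun i i' j k => h8 _ _ _ _) (fun i j j' k => h9 _ _ _ _) (fun i j k k' => h10 _ _ _ _)
      (fun i i' j j' k k' h => h11 _ _ _ _ _ _ (by simpa using h))
  rcases hdom with hdom | hdom | hdom
  · exact fin (fun j => b (B (b' j))) (fun k => c0 (C (c' k)))
      (fun j k i => v (A (a' i)) (B (b' j)) (C (c' k))) (fun _ => hb _) (fun _ => hcc _)
      (fun _ _ => sbc _ _ _) (fun _ _ _ => fb _ _ _) (fun _ _ _ => fc _ _ _)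
      (fun j j' k i h => nb _ _ _ _ (hB.ne (hb'.injective.ne h)))
      (fun j k k' i h => nc _ _ _ _ (hC.ne (hc'.injective.ne h)))
      (fun j j' k i => sl2 _ _ _ _) (fun j k k' i => sl3 _ _ _ _) (fun j k i i' => sl1 _ _ _ _)
      (fun j j' k k' i i' h => hdom i i' j j' k k' h)
  · exact fin (fun i => a (A (a' i))) (fun k => c0 (C (c' k)))
      (fun i k j => v (A (a' i)) (B (b' j)) (C (c' k))) (fun _ => ha _) (fun _ => hcc _)
      (fun _ _ => sac _ _ _) (fun _ _ _ => fa _ _ _) (fun _ _ _ => fc _ _ _)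
      (fun i i' k j h => na _ _ _ _ (hA.ne (ha'.injective.ne h)))
      (fun i k k' j h => nc _ _ _ _ (hC.ne (hc'.injective.ne h)))
      (fun i i' k j => sl1 _ _ _ _) (fun i k k' j => sl3 _ _ _ _) (fun i k j j' => sl2 _ _ _ _)
      (fun i i' k k' j j' h => hdom i i' j j' k k' h)
  · exact fin (fun i => a (A (a' i))) (fun j => b (B (b' j)))
      (fun i j k => v (A (a' i)) (B (b' j)) (C (c' k))) (fun _ => ha _) (fun _ => hb _)
      (fun _ _ => sab _ _ _) (fun _ _ _ => fa _ _ _) (fun _ _ _ => fb _ _ _)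
      (fun i i' j k h => na _ _ _ _ (hA.ne (ha'.injective.ne h)))
      (fun i j j' k h => nb _ _ _ _ (hB.ne (hb'.injective.ne h)))
      (fun i i' j k => sl1 _ _ _ _) (fun i j j' k => sl2 _ _ _ _) (fun i j k k' => sl3 _ _ _ _)
      (fun i i' j j' k k' h => hdom i i' j j' k k' h)

end UF
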