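import Pool.Agent.Work.MP_4c5ddc_co.Stmt
import Pool.Agent.Work.MP_4c5ddc_co.Basic

/-!
# Module NullP: Lipschitz projections of a set of two-dimensional Hausdorff measure zero

Proof. The map `Φ : E3 → ℝ × ℝ`, `x ↦ (lin τ x, x l)`, is Lipschitz (it is linear and continuous:
`LipschitzWith` with some constant, `ContinuousLinearMap.lipschitz` or
`LinearMap.toContinuousLinearMap`), so `μH[2] (Φ '' S) = 0` (`LipschitzWith.hausdorffMeasure_image_le`
or `LipschitzOnWith...`), and `μH[2]` is Lebesgue measure on `ℝ × ℝ`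
(`MeasureTheory.hausdorffMeasure_prod_real`). So `volume (Φ '' S) = 0`, and by
`MeasureTheory.Measure.measure_ae_null_of_prod_null` the sections `{s | (t, s) ∈ Φ '' S}` are null
for almost every `t`. But for every `t` in the interval `(a, b)`, of positive measure, the section
contains an interval `(u, v)` of positive measure; contradiction.
-/

open MeasureTheory

namespace UF

private noncomputable def nullPhi (τ : ℕ) (l : Fin 3) : E3 →ₗ[ℝ] ℝ × ℝ where
  toFun x := (lin τ (fun j : Fin 3 => x j), x l)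
  map_add' x y := by
    ext
    · simp only [lin, PiLp.add_apply, Prod.fst_add]
      rw [← Finset.sum_add_distrib]
      exact Finset.sum_congr rfl fun _ _ => by ring
    · simp
  map_smul' c x := by
    ext
    · simp only [lin, PiLp.smul_apply, Prod.smul_fst, smul_eq_mul, RingHom.id_apply]
      rw [Finset.mul_sum]
      exact Finset.sum_congr rfl fun _ _ => by ring
    · simp

theorem null_proj (S : Set E3) (h0 : Measure.hausdorffMeasure 2 S = 0) (τ : ℕ) (l : Fin 3)
    (a b : ℝ) (hab : a < b)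
    (h : ∀ t ∈ Set.Ioo a b, ∃ u v : ℝ, u < v ∧ ∀ s ∈ Set.Ioo u v,
      ∃ x ∈ S, lin τ (fun j : Fin 3 => x j) = t ∧ x l = s) : False := by
  set Φ := LinearMap.toContinuousLinearMap (nullPhi τ l) with hΦ
  have hlip := Φ.lipschitz
  have h1 : (Measure.hausdorffMeasure 2 : Measure (ℝ × ℝ)) (Φ '' S) = 0 := by
    have h2 := hlip.hausdorffMeasure_image_le (show (0 : ℝ) ≤ 2 by norm_num) S
    rw [h0, mul_zero] at h2
    exact le_antisymm h2 zero_le
  rw [hausdorffMeasure_prod_real] at h1
  have h2 := Measure.measure_ae_null_of_prod_null (μ := (volume : Measure ℝ))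
    (ν := (volume : Measure ℝ)) (s := Φ '' S) h1
  have h3 : volume {t : ℝ | ¬ (volume (Prod.mk t ⁻¹' (Φ '' S)) = 0)} = 0 := by
    exact h2
  have h4 : Set.Ioo a b ⊆ {t : ℝ | ¬ (volume (Prod.mk t ⁻¹' (Φ '' S)) = 0)} := by
    intro t ht
    obtain ⟨u, v, huv, hs⟩ := h t ht
    have h5 : Set.Ioo u v ⊆ Prod.mk t ⁻¹' (Φ '' S) := by
      intro s hs'
      obtain ⟨x, hxS, hx1, hx2⟩ := hs s hs'
      refine ⟨x, hxS, ?_⟩
      change (lin τ (fun j : Fin 3 => x j), x l) = (t, s)
      rw [hx1, hx2]
    intro h6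
    have h7 := measure_mono_null h5 h6
    rw [Real.volume_Ioo, ENNReal.ofReal_eq_zero] at h7
    linarith
  have h8 := measure_mono_null h4 h3
  rw [Real.volume_Ioo, ENNReal.ofReal_eq_zero] at h8
  linarith

end UF
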