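import Mathlib

/-!
# Module One: there are no large one-dimensional patterns

Proof. If `Λ < 0` take `N = 1`: `‖z - q 0‖ ≤ Λ ρ < 0` is impossible. Let `Λ ≥ 0`,
`n = ⌈2 Λ⌉₊ + 1`, `N = 2 n + 1`. Identify `Fin 1 → ℝ` with `ℝ` by `x ↦ x 0` (norms agree,
`Pi.norm` over `Fin 1`). The numbers `x i = q i 0` are in `[x 0 - Λ ρ, x 0 + Λ ρ]`, of length
`2 Λ ρ`, which is covered by `n` intervals of length `ρ`
(cell number `⌊(x i - (x 0 - Λ ρ)) / ρ⌋₊ ∈ {0, ..., ⌈2 Λ⌉₊}`). By the pigeonhole principle three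
different indices `i, j, k` have `x i, x j, x k` in one cell, so they are pairwise at distance
`≤ ρ`; they are different (if `q i = q j` with `i ≠ j` then `q i ∈ I j`), say `x i < x j < x k`. Now
`I j` is convex, contains `x j` and neither `x i` nor `x k`, so `I j ⊆ (x i, x k)` (a point of `I j`
at or beyond `x i` would give `x i ∈ I j` by convexity). But `I j` contains a ball of radius `ρ`,
i.e. an open interval of length `2 ρ`, which does not fit in an interval of length `≤ ρ` (the points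
`z - ρ / 2 - s` and `z + ρ / 2 + s`, `0 < s < ρ / 2`, of the ball are more than `ρ` apart).
-/

namespace UF

/-- a point between two points of a convex set of the line -/
theorem one_between {A : Set (Fin 1 → ℝ)} (hA : Convex ℝ A) {p q r : Fin 1 → ℝ} (hp : p ∈ A)
    (hr : r ∈ A) (h1 : p 0 ≤ q 0) (h2 : q 0 ≤ r 0) : q ∈ A := by
  rcases eq_or_lt_of_le (h1.trans h2) with h | h
  · have : q = p := by
      funext i
      rw [Subsingleton.elim i 0]
      linarith
    rw [this]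
    exact hp
  · have hd : 0 < r 0 - p 0 := by linarith
    have h3 : ((r 0 - q 0) / (r 0 - p 0)) • p + ((q 0 - p 0) / (r 0 - p 0)) • r ∈ A := by
      refine hA hp hr (div_nonneg (by linarith) hd.le) (div_nonneg (by linarith) hd.le) ?_
      field_simp
      ring
    have h4 : ((r 0 - q 0) / (r 0 - p 0)) • p + ((q 0 - p 0) / (r 0 - p 0)) • r = q := by
      funext i
      rw [Subsingleton.elim i 0]
      simp only [Pi.add_apply, Pi.smul_apply, smul_eq_mul]
      field_simp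
      ring
    rwa [h4] at h3

theorem one_three {A : Set (Fin 1 → ℝ)} (hA : Convex ℝ A) {p q r z : Fin 1 → ℝ} {ρ : ℝ}
    (hρ : 0 < ρ) (hq : q ∈ A) (hp : p ∉ A) (hr : r ∉ A) (h1 : p 0 < q 0) (h2 : q 0 < r 0)
    (h3 : r 0 - p 0 ≤ ρ) (hz : Metric.ball z ρ ⊆ A) : False := by
  have hmem : ∀ s : ℝ, |s| < ρ → (fun _ => z 0 + s : Fin 1 → ℝ) ∈ A := by
    intro s hs
    refine hz ?_
    rw [mem_ball_iff_norm]
    refine (pi_norm_lt_iff hρ).2 fun i => ?_
    rw [Subsingleton.elim i 0]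
    simpa using hs
  have ha := hmem (-(3 * ρ / 4)) (by rw [abs_neg, abs_of_pos (by linarith)]; linarith)
  have hb := hmem (3 * ρ / 4) (by rw [abs_of_pos (by linarith)]; linarith)
  by_cases hc : z 0 + -(3 * ρ / 4) ≤ p 0
  · exact hp (one_between hA ha hq hc h1.le)
  · by_cases hd : r 0 ≤ z 0 + 3 * ρ / 4
    · exact hr (one_between hA hq hb h2.le hd)
    · push Not at hc hd
      linarith

theorem noPat1 (Λ : ℝ) : ∃ N : ℕ, ∀ (I : Fin N → Set (Fin 1 → ℝ)) (q : Fin N → Fin 1 → ℝ)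
    (ρ : ℝ), 0 < ρ → (∀ i, Convex ℝ (I i)) →
    (∀ i, ∃ z, Metric.ball z ρ ⊆ I i ∧ ‖z - q i‖ ≤ Λ * ρ) → (∀ i, q i ∈ I i) →
    (∀ i i', i ≠ i' → q i ∉ I i') → (∀ i i', ‖q i - q i'‖ ≤ Λ * ρ) → False := by
  classical
  refine ⟨2 * (⌈2 * Λ⌉₊ + 1) + 1, ?_⟩
  intro I q ρ hρ hI hz hq hn hd
  have hx : ∀ i i', |q i 0 - q i' 0| ≤ Λ * ρ := fun i i' =>
    (norm_le_pi_norm (q i - q i') 0).trans (hd i i')
  have hmaps : ∀ i ∈ (Finset.univ : Finset (Fin (2 * (⌈2 * Λ⌉₊ + 1) + 1))),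
      ⌊(q i 0 - (q 0 0 - Λ * ρ)) / ρ⌋₊ ∈ Finset.range (⌈2 * Λ⌉₊ + 1) := by
    intro i _
    rw [Finset.mem_range]
    have h1 : (q i 0 - (q 0 0 - Λ * ρ)) / ρ ≤ 2 * Λ := by
      rw [div_le_iff₀ hρ]
      have := (abs_le.1 (hx i 0)).2
      linarith
    have h2 := Nat.floor_le_floor h1
    have h3 := Nat.floor_le_ceil (2 * Λ)
    omega
  obtain ⟨y, _, hy⟩ := Finset.exists_lt_card_fiber_of_mul_lt_card_of_maps_to (n := 2) hmaps (by
    simp only [Finset.card_range, Finset.card_univ, Fintype.card_fin]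
    omega)
  rw [Finset.two_lt_card] at hy
  obtain ⟨a, ha, b, hb, c, hc, hab, hac, hbc⟩ := hy
  simp only [Finset.mem_filter, Finset.mem_univ, true_and] at ha hb hc
  have hcell : ∀ i j, ⌊(q i 0 - (q 0 0 - Λ * ρ)) / ρ⌋₊ = y →
      ⌊(q j 0 - (q 0 0 - Λ * ρ)) / ρ⌋₊ = y → q j 0 - q i 0 ≤ ρ := by
    intro i j hi hj
    have h0 : ∀ i, 0 ≤ (q i 0 - (q 0 0 - Λ * ρ)) / ρ := by
      intro i
      refine div_nonneg ?_ hρ.le
      have := (abs_le.1 (hx i 0)).1
      linarith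
    have h1 := Nat.floor_le (h0 i)
    have h2 := Nat.lt_floor_add_one ((q j 0 - (q 0 0 - Λ * ρ)) / ρ)
    rw [hi] at h1
    rw [hj] at h2
    rw [le_div_iff₀ hρ] at h1
    rw [div_lt_iff₀ hρ] at h2
    linarith
  have hneq : ∀ i j, i ≠ j → q i 0 ≠ q j 0 := by
    intro i j hij h
    refine hn i j hij ?_
    have : q i = q j := by
      funext l
      rw [Subsingleton.elim l 0]
      exact h
    rw [this]
    exact hq j
  have key : ∀ i j k, i ≠ j → k ≠ j → ⌊(q i 0 - (q 0 0 - Λ * ρ)) / ρ⌋₊ = y →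
      ⌊(q k 0 - (q 0 0 - Λ * ρ)) / ρ⌋₊ = y → q i 0 < q j 0 → q j 0 < q k 0 → False := by
    intro i j k hij hkj hi hk h1 h2
    obtain ⟨z, hz1, _⟩ := hz j
    exact one_three (hI j) hρ (hq j) (hn i j hij) (hn k j hkj) h1 h2 (hcell i k hi hk) hz1
  rcases lt_or_gt_of_ne (hneq a b hab) with h1 | h1 <;>
    rcases lt_or_gt_of_ne (hneq b c hbc) with h2 | h2 <;>
    rcases lt_or_gt_of_ne (hneq a c hac) with h3 | h3
  · exact key a b c hab hbc.symm ha hc h1 h2
  · linarith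
  · exact key a c b hac hbc ha hb h3 h2
  · exact key c a b hac.symm hab.symm hc hb h3 h1
  · exact key b a c hab.symm hac.symm hb hc h1 h3
  · exact key b c a hbc hac hb ha h2 h3
  · linarith
  · exact key c b a hbc.symm hab hc ha h2 h1

end UF
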