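import Pool.Agent.Work.MP_4c5ddc_co.Stmt2

/-!
# Module Pcs: sets which are unions of `N` preconnected sets, counting of components

Proofs.
* `comps_finite`: every `F ∈ comps S` contains some `x ∈ D c`, and then `D c ⊆ F`
  (`IsPreconnected.subset_connectedComponentIn`, `connectedComponentIn_eq`); choose `c` for every
  `F`. Two components which meet are equal, so the choice is injective (if `D c ⊆ F ∩ F'` and
  `x ∈ D c` then `F = F'`). So `(comps S)` injects into `Fin N`.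
* `comp_closed`: `F` is closed in `S`: the set `F ∪ {x}` is preconnected for `x ∈ closure F`
  (`IsPreconnected.subset_closure`), contained in `S`, so it is contained in the component.
* `comp_open`: the other components are finitely many, `U = ` complement of the union of their
  closures (`comps_finite`): open, `F ⊆ U`: a point of `F` is in `S` and not in another component,
  so not in the closure of another component by `comp_closed`; `S ∩ U ⊆ F`: a point of `S` is in its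
  own component.
* `count_pieces`: as `comps_finite`: for `F ∈ P` choose `x ∈ F ∩ A`, `c` with `x ∈ D c`; then
  `D c ⊆ F` by `hsub`; injective.
* `count_finsets`: if `P` were infinite or `N < P.ncard` it would have a finite subset with `N + 1`
  elements (`Set.Infinite.exists_subset_ncard_eq`).
* `clopen_sub`: `Q ∩ F` is nonempty, relatively open and closed in the preconnected set `Q`
  (`IsPreconnected` and the open sets `W`, `(closure F)ᶜ`: `Q ⊆ W ∪ (closure F)ᶜ`).
-/

namespace UF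

/-- `S` is a union of `N` preconnected sets. -/
def Pieces (N : ℕ) (S : Set E3) : Prop :=
  ∃ D : Fin N → Set E3, (∀ c, IsPreconnected (D c)) ∧ S = ⋃ c, D c

theorem comps_sub {S F : Set E3} (hF : F ∈ comps S) : F ⊆ S := by
  obtain ⟨x, -, rfl⟩ := hF
  exact connectedComponentIn_subset S x

theorem comps_nonempty {S F : Set E3} (hF : F ∈ comps S) : F.Nonempty := by
  obtain ⟨x, hx, rfl⟩ := hF
  exact ⟨x, mem_connectedComponentIn hx⟩

theorem comps_preconnected {S F : Set E3} (hF : F ∈ comps S) : IsPreconnected F := by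
  obtain ⟨x, -, rfl⟩ := hF
  exact isPreconnected_connectedComponentIn

theorem sub_comp {S F Q : Set E3} (hF : F ∈ comps S) (hQ : IsPreconnected Q) (hQS : Q ⊆ S)
    (h : (Q ∩ F).Nonempty) : Q ⊆ F := by
  obtain ⟨x, -, rfl⟩ := hF
  obtain ⟨y, hyQ, hyF⟩ := h
  rw [connectedComponentIn_eq hyF]
  exact hQ.subset_connectedComponentIn hyQ hQS

theorem comps_eq {S F F' : Set E3} (hF : F ∈ comps S) (hF' : F' ∈ comps S)
    (h : (F ∩ F').Nonempty) : F = F' :=
  Set.Subset.antisymm (sub_comp hF' (comps_preconnected hF) (comps_sub hF) h)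
    (sub_comp hF (comps_preconnected hF') (comps_sub hF') (by rwa [Set.inter_comm]))

private theorem pcs_inj {N : ℕ} (P : Set (Set E3)) (φ : Set E3 → Fin N → Prop)
    (h1 : ∀ F ∈ P, ∃ c, φ F c) (h2 : ∀ F ∈ P, ∀ F' ∈ P, ∀ c, φ F c → φ F' c → F = F') :
    P.Finite ∧ P.ncard ≤ N := by
  choose c hc using h1
  have hinj : Function.Injective (fun F : P => c F.1 F.2) := by
    rintro ⟨F, hF⟩ ⟨F', hF'⟩ he
    have he' : c F hF = c F' hF' := he
    exact Subtype.ext (h2 F hF F' hF' (c F hF) (hc F hF) (by rw [he']; exact hc F' hF'))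
  have hfin : Finite P := Finite.of_injective _ hinj
  refine ⟨Set.toFinite P, ?_⟩
  have h3 := Nat.card_le_card_of_injective _ hinj
  rw [Nat.card_fin] at h3
  exact h3

theorem comps_finite {N : ℕ} {S : Set E3} (h : Pieces N S) :
    (comps S).Finite ∧ (comps S).ncard ≤ N := by
  obtain ⟨D, hD, hS⟩ := h
  refine pcs_inj (comps S) (fun F c => (D c ∩ F).Nonempty ∧ D c ⊆ F) (fun F hF => ?_)
    (fun F hF F' hF' c h1 h2 => ?_)
  · obtain ⟨x, hx⟩ := comps_nonempty hF
    have hxS := comps_sub hF hx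
    rw [hS] at hxS
    obtain ⟨c, hc⟩ := Set.mem_iUnion.1 hxS
    refine ⟨c, ⟨x, hc, hx⟩, sub_comp hF (hD c) ?_ ⟨x, hc, hx⟩⟩
    rw [hS]
    exact Set.subset_iUnion D c
  · obtain ⟨x, hx1, hx2⟩ := h1.1
    exact comps_eq hF hF' ⟨x, hx2, h2.2 hx1⟩

theorem comp_closed {S F : Set E3} (hF : F ∈ comps S) {x : E3} (hx : x ∈ closure F)
    (hxS : x ∈ S) : x ∈ F := by
  have h1 : IsPreconnected (insert x F) :=
    (comps_preconnected hF).subset_closure (Set.subset_insert x F)
      (Set.insert_subset hx subset_closure)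
  obtain ⟨y, hy⟩ := comps_nonempty hF
  exact sub_comp hF h1 (Set.insert_subset hxS (comps_sub hF)) ⟨y, Set.mem_insert_of_mem x hy, hy⟩
    (Set.mem_insert x F)

theorem comp_open {N : ℕ} {S : Set E3} (h : Pieces N S) {F : Set E3} (hF : F ∈ comps S) :
    ∃ U : Set E3, IsOpen U ∧ F = S ∩ U := by
  have hfin := (comps_finite h).1
  refine ⟨(⋃ F' ∈ comps S \ {F}, closure F')ᶜ, ?_, ?_⟩
  · rw [isOpen_compl_iff]
    exact (hfin.subset Set.diff_subset).isClosed_biUnion fun F' _ => isClosed_closure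
  · apply Set.Subset.antisymm
    · intro x hx
      refine ⟨comps_sub hF hx, fun hx2 => ?_⟩
      obtain ⟨F', hF', hx3⟩ := Set.mem_iUnion₂.1 hx2
      have hxF' : x ∈ F' := comp_closed hF'.1 hx3 (comps_sub hF hx)
      exact hF'.2 (comps_eq hF'.1 hF ⟨x, hxF', hx⟩)
    · rintro x ⟨hxS, hxU⟩
      by_contra hxF
      refine hxU (Set.mem_iUnion₂.2 ⟨connectedComponentIn S x, ⟨⟨x, hxS, rfl⟩, ?_⟩,
        subset_closure (mem_connectedComponentIn hxS)⟩)
      intro he
      exact hxF (he ▸ mem_connectedComponentIn hxS)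

theorem count_pieces {N : ℕ} {A : Set E3} (hA : Pieces N A) {S : Set E3} (P : Set (Set E3))
    (hP : P ⊆ comps S) (hmeet : ∀ F ∈ P, (F ∩ A).Nonempty)
    (hsub : ∀ F ∈ P, ∀ Q ⊆ A, IsPreconnected Q → (Q ∩ F).Nonempty → Q ⊆ F) :
    P.Finite ∧ P.ncard ≤ N := by
  obtain ⟨D, hD, hS⟩ := hA
  refine pcs_inj P (fun F c => (D c ∩ F).Nonempty ∧ D c ⊆ F) (fun F hF => ?_)
    (fun F hF F' hF' c h1 h2 => ?_)
  · obtain ⟨x, hx, hxA⟩ := hmeet F hF
    rw [hS] at hxA
    obtain ⟨c, hc⟩ := Set.mem_iUnion.1 hxA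
    refine ⟨c, ⟨x, hc, hx⟩, hsub F hF (D c) ?_ (hD c) ⟨x, hc, hx⟩⟩
    rw [hS]
    exact Set.subset_iUnion D c
  · obtain ⟨x, hx1, hx2⟩ := h1.1
    exact comps_eq (hP hF) (hP hF') ⟨x, hx2, h2.2 hx1⟩

theorem count_finsets {N : ℕ} (P : Set (Set E3))
    (h : ∀ P' ⊆ P, P'.Finite → P'.ncard ≤ N) : P.Finite ∧ P.ncard ≤ N := by
  by_cases hP : P.Finite
  · exact ⟨hP, h P le_rfl hP⟩
  · exfalso
    obtain ⟨t, ht, htf, htc⟩ := Set.Infinite.exists_subset_ncard_eq (s := P) hP (N + 1)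
    have := h t ht htf
    omega

theorem clopen_sub {F W Q : Set E3} (hW : IsOpen W) (hQ : IsPreconnected Q)
    (hm : (Q ∩ F).Nonempty) (ho : Q ∩ W ⊆ F) (ho' : Q ∩ F ⊆ W) (hc : Q ∩ closure F ⊆ F) :
    Q ⊆ F := by
  intro x hx
  by_contra hxF
  obtain ⟨y, hyQ, hyF⟩ := hm
  have h1 : Q ⊆ W ∪ (closure F)ᶜ := by
    intro z hz
    by_cases hzF : z ∈ closure F
    · exact Or.inl (ho' ⟨hz, hc ⟨hz, hzF⟩⟩)
    · exact Or.inr hzF
  obtain ⟨z, hz, hzW, hzF⟩ := hQ W (closure F)ᶜ hW isClosed_closure.isOpen_compl h1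
    ⟨y, hyQ, ho' ⟨hyQ, hyF⟩⟩ ⟨x, hx, fun hxc => hxF (hc ⟨hx, hxc⟩)⟩
  exact hzF (subset_closure (ho ⟨hz, hzW⟩))

end UF
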