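import Pool.Agent.Work.MP_4c5ddc_co.Stmt
import Pool.Agent.Work.MP_4c5ddc_co.Brk

/-!
# Module Univ: all semialgebraic sets of complexity `s` are fibres of one semialgebraic family

Proof. Parameters: `σ = (Fin s × (Fin 3 → Fin (s + 1))) ⊕ (Fin s → SignType)`. For `q : σ → ℝ` and
`x : Fin 3 → ℝ` let `p_i = ∑ μ, q (Sum.inl (i, μ)) * ∏ j, x j ^ (μ j : ℕ)`, and
`E q x := 0 < q (Sum.inr (fun i => SignType.sign (p_i)))`.
* `SAF E`: the set is the finite union over `ε : Fin s → SignType` of
  `{∀ i, sign (p_i) = ε i} ∩ {0 < q (Sum.inr ε)}` (`SA.iUnion`, `SA.iInter`); `p_i` is the value of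
  an integer expression in the variables `σ ⊕ Fin 3` (`exists_fm_sum`, `exists_fm_pow` in `Brk`;
  the product over `j : Fin 3` by hand, `Fin.prod_univ_three`), and `sign (e.eval z) = ε i` is one of
  `e.eval z < 0`, `= 0`, `> 0` (`SA.lt`, `SA_eq` with `Fm.const 0`), or directly from the definition
  of `SA` with the list `[e]`.
* Given `K` with `Semialg s K` (polynomials `P i`, set `S`), put
  `q (Sum.inl (i, μ)) = coeff (Finsupp.equivFunOnFinite.symm fun j => (μ j : ℕ)) (P i)` and
  `q (Sum.inr ε) = if ε ∈ S then 1 else 0` (classical). One needs `p_i = eval x (P i)`: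
  `MvPolynomial.eval_eq'` writes the right side as a sum over the support of `P i`, whose elements `d`
  satisfy `d j ≤ totalDegree (P i) ≤ s` (`MvPolynomial.le_totalDegree`, `∑ j, d j ≥ d j`), so
  `d` comes from a unique `μ` (`Finset.sum_bij_ne_zero`, or `Finset.sum_subset` to the image of the
  injective map `μ ↦ Finsupp`); the `μ` outside of the support have coefficient zero.
-/

namespace UF

open BU

/-- values of polynomials of bounded degree in three variables -/
private theorem univ_eval (s : ℕ) (P : MvPolynomial (Fin 3) ℝ) (hP : P.totalDegree ≤ s)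
    (x : Fin 3 → ℝ) :
    ∑ μ : Fin 3 → Fin (s + 1),
      MvPolynomial.coeff (Finsupp.equivFunOnFinite.symm fun j => (μ j : ℕ)) P *
        ∏ j, x j ^ (μ j : ℕ) = MvPolynomial.eval x P := by
  classical
  rw [MvPolynomial.eval_eq']
  set f : (Fin 3 → Fin (s + 1)) → (Fin 3 →₀ ℕ) :=
    fun μ => Finsupp.equivFunOnFinite.symm fun j => (μ j : ℕ) with hf
  have hfv : ∀ μ j, f μ j = (μ j : ℕ) := fun μ j => rfl
  have hinj : Function.Injective f := by
    intro μ ν h
    funext j
    have h1 := DFunLike.congr_fun h j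
    rw [hfv, hfv] at h1
    exact Fin.ext h1
  have hsub : P.support ⊆ Finset.univ.image f := by
    intro d hd
    rw [Finset.mem_image]
    have hdj : ∀ j, d j ≤ s := by
      intro j
      have h1 : d j ≤ d.sum fun _ e => e := by
        rw [Finsupp.sum_fintype _ _ (fun _ => rfl)]
        exact Finset.single_le_sum (f := fun j => d j) (fun _ _ => Nat.zero_le _) (Finset.mem_univ j)
      exact h1.trans ((MvPolynomial.le_totalDegree hd).trans hP)
    refine ⟨fun j => ⟨d j, Nat.lt_succ_of_le (hdj j)⟩, Finset.mem_univ _, ?_⟩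
    ext j
    rfl
  rw [Finset.sum_subset hsub (fun d _ hd => by
    rw [MvPolynomial.notMem_support_iff.1 hd, zero_mul]), Finset.sum_image hinj.injOn]
  rfl

theorem univ_family (s : ℕ) : ∃ (σ : Type) (E : (σ → ℝ) → (Fin 3 → ℝ) → Prop), SAF E ∧
    ∀ K : Set E3, Semialg s K → ∃ q : σ → ℝ, ∀ x : E3, x ∈ K ↔ E q (fun j => x j) := by
  classical
  let σ : Type := (Fin s × (Fin 3 → Fin (s + 1))) ⊕ (Fin s → SignType)
  let p : Fin s → (σ → ℝ) → (Fin 3 → ℝ) → ℝ := fun i q x =>
    ∑ μ : Fin 3 → Fin (s + 1), q (Sum.inl (i, μ)) * ∏ j, x j ^ (μ j : ℕ)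
  refine ⟨σ, fun q x => 0 < q (Sum.inr (fun i => SignType.sign (p i q x))), ?_, ?_⟩
  · have he : ∀ i, ∃ e : Fm (σ ⊕ Fin 3), ∀ z : σ ⊕ Fin 3 → ℝ,
        e.eval z = p i (fun a => z (Sum.inl a)) (fun a => z (Sum.inr a)) := by
      intro i
      refine exists_fm_sum Finset.univ (fun (μ : Fin 3 → Fin (s + 1)) (z : σ ⊕ Fin 3 → ℝ) =>
        z (Sum.inl (Sum.inl (i, μ))) * ∏ j, z (Sum.inr j) ^ (μ j : ℕ)) fun μ => ?_
      obtain ⟨f0, h0⟩ := exists_fm_pow (Fm.var (Sum.inr 0) : Fm (σ ⊕ Fin 3)) (μ 0)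
      obtain ⟨f1, h1⟩ := exists_fm_pow (Fm.var (Sum.inr 1) : Fm (σ ⊕ Fin 3)) (μ 1)
      obtain ⟨f2, h2⟩ := exists_fm_pow (Fm.var (Sum.inr 2) : Fm (σ ⊕ Fin 3)) (μ 2)
      refine ⟨Fm.mul (Fm.var (Sum.inl (Sum.inl (i, μ)))) (Fm.mul (Fm.mul f0 f1) f2), fun z => ?_⟩
      simp only [Fm.eval, h0, h1, h2, Fin.prod_univ_three]
    choose e he using he
    refine ⟨(List.finRange s).map e ++ (Finset.univ.toList : List (Fin s → SignType)).map
      (fun ε => Fm.var (Sum.inl (Sum.inr ε))), fun z z' hz => ?_⟩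
    have h1 : ∀ i, SignType.sign (p i (fun a => z (Sum.inl a)) (fun a => z (Sum.inr a))) =
        SignType.sign (p i (fun a => z' (Sum.inl a)) (fun a => z' (Sum.inr a))) := by
      intro i
      have h2 := hz (e i) (List.mem_append_left _ (List.mem_map.2 ⟨i, List.mem_finRange i, rfl⟩))
      unfold Fm.sgn at h2
      rwa [he, he] at h2
    have h3 : ∀ ε : Fin s → SignType, SignType.sign (z (Sum.inl (Sum.inr ε))) =
        SignType.sign (z' (Sum.inl (Sum.inr ε))) := by
      intro ε
      exact hz (Fm.var (Sum.inl (Sum.inr ε))) (List.mem_append_right _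
        (List.mem_map.2 ⟨ε, Finset.mem_toList.2 (Finset.mem_univ _), rfl⟩))
    have h4 : (fun i => SignType.sign (p i (fun a => z (Sum.inl a)) (fun a => z (Sum.inr a)))) =
        fun i => SignType.sign (p i (fun a => z' (Sum.inl a)) (fun a => z' (Sum.inr a))) :=
      funext h1
    show 0 < z (Sum.inl (Sum.inr (fun i => SignType.sign (p i (fun a => z (Sum.inl a))
        (fun a => z (Sum.inr a)))))) ↔
      0 < z' (Sum.inl (Sum.inr (fun i => SignType.sign (p i (fun a => z' (Sum.inl a))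
        (fun a => z' (Sum.inr a))))))
    rw [h4, ← sign_eq_one_iff, ← sign_eq_one_iff, h3]
  · rintro K ⟨P, S, hdeg, hK⟩
    let q : σ → ℝ := Sum.elim (fun a => MvPolynomial.coeff
      (Finsupp.equivFunOnFinite.symm fun j => (a.2 j : ℕ)) (P a.1)) (fun ε => if ε ∈ S then 1 else 0)
    refine ⟨q, fun x => ?_⟩
    rw [hK x]
    have h1 : ∀ i, p i q (fun j => x j) = MvPolynomial.eval (fun j => x j) (P i) := fun i =>
      univ_eval s (P i) (hdeg i) (fun j => x j)
    have h2 : (fun i => SignType.sign (p i q (fun j => x j))) =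
        fun i => SignType.sign (MvPolynomial.eval (fun j => x j) (P i)) := by
      funext i
      rw [h1]
    beta_reduce
    rw [h2]
    show _ ↔ (0 : ℝ) < if (fun i => SignType.sign (MvPolynomial.eval (fun j => x j) (P i))) ∈ S
      then 1 else 0
    by_cases h : (fun i => SignType.sign (MvPolynomial.eval (fun j => x j) (P i))) ∈ S
    · rw [if_pos h]
      exact iff_of_true h one_pos
    · rw [if_neg h]
      exact iff_of_false h (lt_irrefl _)

end UF
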