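import Pool.Agent.Work.MP_4c5ddc_co.Pcs
import Pool.Agent.Work.MP_4c5ddc_co.CompSA
import Pool.Agent.Work.MP_4c5ddc_co.Univ
import Pool.Agent.Work.MP_4c5ddc_co.FrSA
import Pool.Agent.Work.MP_4c5ddc_co.Conv

/-!
# Module PcsSA: uniform bounds for the pieces of the sets which occur in the arrangement

Proof. Let `E` be the family of `univ_family s`, `σ` its parameter type. All the sets are fibres of
semialgebraic families with the parameters of `K₁, K₂, K₃` (each `σ → ℝ`), the three coordinates of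
`x` and `ε`: build the family over the parameter type `(σ ⊕ σ ⊕ σ) ⊕ (Fin 3 ⊕ Unit)` with
`frontier_SAF`, `SA.rename`, `SA.S5a_and`, `SA.S5a_not`, `SA.exists` (for `∃ z ∈ K₂`) and
`SA.S5a_near`-like sets for `|y j - x j| < ε` (`abs_lt`). `comp_SAF` gives a uniform number of
preconnected pieces in `Fin 3 → ℝ`; pull them back by the homeomorphism `E3 → (Fin 3 → ℝ)`,
`x ↦ (fun j => x j)` (images of preconnected sets under the continuous inverse `WithLp.toLp 2`).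
Boundaries are transferred by `conv_frontier`. The maximum of the bounds works for all the sets
(fill up with empty sets: `Pieces.mono`).
For `pieces_strata`: the parameters are `Fin n × σ`, finite intersections (`SA.S5a_all`; for
`i ∈ J` or `i ∉ J` split cases, `J` is fixed).
-/

namespace UF

open BU

theorem Pieces.mono {N M : ℕ} (h : N ≤ M) {S : Set E3} (hS : Pieces N S) : Pieces M S := by
  classical
  obtain ⟨D, hD, hS⟩ := hS
  refine ⟨fun c => if h : (c : ℕ) < N then D ⟨c, h⟩ else ∅, fun c => ?_, ?_⟩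
  · show IsPreconnected (if h : (c : ℕ) < N then D ⟨c, h⟩ else ∅)
    split_ifs with h
    · exact hD _
    · exact isPreconnected_empty
  · rw [hS]
    ext y
    rw [Set.mem_iUnion, Set.mem_iUnion]
    constructor
    · rintro ⟨c, hc⟩
      refine ⟨⟨c, c.2.trans_le h⟩, ?_⟩
      show y ∈ (if h : (c : ℕ) < N then D ⟨c, h⟩ else ∅)
      rw [dif_pos c.2]
      exact hc
    · rintro ⟨c, hc⟩
      change y ∈ (if h : (c : ℕ) < N then D ⟨c, h⟩ else ∅) at hc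
      split_ifs at hc with h
      · exact ⟨_, hc⟩
      · exact absurd hc (Set.notMem_empty y)

private theorem psa_of {π : Type} {F : (π → ℝ) → (Fin 3 → ℝ) → Prop} (hF : SAF F) :
    ∃ N : ℕ, ∀ (b : π → ℝ) (S : Set E3), (∀ y : E3, y ∈ S ↔ F b (fun j => y j)) → Pieces N S := by
  obtain ⟨N, hN⟩ := comp_SAF F hF
  refine ⟨N, fun b S hS => ?_⟩
  obtain ⟨D, hD, hU⟩ := hN b
  refine ⟨fun c => (fun y : Fin 3 → ℝ => (WithLp.toLp 2 y : E3)) '' D c, fun c => ?_, ?_⟩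
  · exact (hD c).image _ (PiLp.continuous_toLp 2 _).continuousOn
  · ext y
    rw [hS, Set.mem_iUnion]
    have h1 : F b (fun j => y j) ↔ (fun j => y j) ∈ ⋃ c, D c := by
      rw [← hU]
      exact Iff.rfl
    rw [h1, Set.mem_iUnion]
    constructor
    · rintro ⟨c, hc⟩
      exact ⟨c, _, hc, rfl⟩
    · rintro ⟨c, z, hz, rfl⟩
      exact ⟨c, hz⟩

private theorem psa_mem {σ π : Type} {E : (σ → ℝ) → (Fin 3 → ℝ) → Prop} (hE : SAF E)
    (a : σ → π) : SAF fun (p : π → ℝ) (y : Fin 3 → ℝ) => E (fun i => p (a i)) y :=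
  SA.rename hE (Sum.elim (fun i => Sum.inl (a i)) (fun j => Sum.inr j))

private theorem psa_near {π : Type} (x : Fin 3 → π) (e : π) :
    SAF fun (p : π → ℝ) (y : Fin 3 → ℝ) => ∀ j, |y j - p (x j)| < p e := by
  refine (SA.S5a_near (fun j : Fin 3 => (Sum.inr j : π ⊕ Fin 3)) (fun j => Sum.inl (x j))
    (Sum.inl e)).S5a_congr fun z => ?_
  show (∀ j, _) ↔ (∀ j, |z (Sum.inr j) - z (Sum.inl (x j))| < z (Sum.inl e))
  refine forall_congr' fun j => ?_
  rw [abs_lt]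
  constructor
  · rintro ⟨h1, h2⟩
    constructor <;> linarith
  · rintro ⟨h1, h2⟩
    constructor <;> linarith

private theorem psa_ex {σ π : Type} {E : (σ → ℝ) → (Fin 3 → ℝ) → Prop} (hE : SAF E)
    (a : σ → π) (e : π) : SAF fun (p : π → ℝ) (y : Fin 3 → ℝ) =>
      ∃ z : Fin 3 → ℝ, E (fun i => p (a i)) z ∧ ∀ j, |y j - z j| < p e := by
  refine SA.exists (σ := π ⊕ Fin 3) (τ := Fin 3) (P := fun w z =>
    E (fun i => w (Sum.inl (a i))) z ∧ ∀ j, |w (Sum.inr j) - z j| < w (Sum.inl e)) ?_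
  refine SA.S5a_and ?_ ?_
  · exact SA.rename hE (Sum.elim (fun i => Sum.inl (Sum.inl (a i))) (fun j => Sum.inr j))
  · refine (SA.S5a_near (fun j : Fin 3 => (Sum.inl (Sum.inr j) : (π ⊕ Fin 3) ⊕ Fin 3))
      (fun j => Sum.inr j) (Sum.inl (Sum.inl e))).S5a_congr fun z => ?_
    show (∀ j, _) ↔ (∀ j, |z (Sum.inl (Sum.inr j)) - z (Sum.inr j)| < z (Sum.inl (Sum.inl e)))
    refine forall_congr' fun j => ?_
    rw [abs_lt]
    constructor
    · rintro ⟨h1, h2⟩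
      constructor <;> linarith
    · rintro ⟨h1, h2⟩
      constructor <;> linarith

theorem pieces_bound (s : ℕ) : ∃ N : ℕ, ∀ K₁ K₂ K₃ : Set E3, Semialg s K₁ → Semialg s K₂ →
    Semialg s K₃ → ∀ (x : E3) (ε : ℝ),
      Pieces N (frontier K₁) ∧ Pieces N (frontier K₁ ∩ frontier K₂) ∧
      Pieces N {y | y ∈ frontier K₁ ∧ y ∉ K₂ ∧ ∃ z ∈ K₂, ∀ j, |y j - z j| < ε} ∧
      Pieces N {y | y ∈ frontier K₁ ∧ y ∉ K₂ ∧ y ∉ K₃ ∧ ∀ j, |y j - x j| < ε} ∧
      Pieces N {y | y ∈ frontier K₁ ∧ y ∈ frontier K₂ ∧ y ∉ K₃ ∧ ∀ j, |y j - x j| < ε} := by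
  obtain ⟨σ, E, hE, hK⟩ := univ_family s
  let i1 : σ → σ ⊕ σ ⊕ σ ⊕ Fin 3 ⊕ Unit := fun i => Sum.inl i
  let i2 : σ → σ ⊕ σ ⊕ σ ⊕ Fin 3 ⊕ Unit := fun i => Sum.inr (Sum.inl i)
  let i3 : σ → σ ⊕ σ ⊕ σ ⊕ Fin 3 ⊕ Unit := fun i => Sum.inr (Sum.inr (Sum.inl i))
  let jx : Fin 3 → σ ⊕ σ ⊕ σ ⊕ Fin 3 ⊕ Unit := fun i => Sum.inr (Sum.inr (Sum.inr (Sum.inl i)))
  let je : σ ⊕ σ ⊕ σ ⊕ Fin 3 ⊕ Unit := Sum.inr (Sum.inr (Sum.inr (Sum.inr ())))
  have hfr := frontier_SAF E hE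
  have f1 := psa_mem hfr i1
  have f2 := psa_mem hfr i2
  have m2 := psa_mem hE i2
  have m3 := psa_mem hE i3
  have hn := psa_near jx je
  have hx := psa_ex hE i2 je
  obtain ⟨N1, hN1⟩ := psa_of f1
  obtain ⟨N2, hN2⟩ := psa_of (F := fun p y => y ∈ frontier {x | E (fun i => p (i1 i)) x} ∧
    y ∈ frontier {x | E (fun i => p (i2 i)) x}) (SA.S5a_and f1 f2)
  obtain ⟨N3, hN3⟩ := psa_of (F := fun p y => y ∈ frontier {x | E (fun i => p (i1 i)) x} ∧
    ¬ E (fun i => p (i2 i)) y ∧ ∃ z : Fin 3 → ℝ, E (fun i => p (i2 i)) z ∧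
      ∀ j, |y j - z j| < p je) (SA.S5a_and f1 (SA.S5a_and (SA.S5a_not m2) hx))
  obtain ⟨N4, hN4⟩ := psa_of (F := fun p y => y ∈ frontier {x | E (fun i => p (i1 i)) x} ∧
    ¬ E (fun i => p (i2 i)) y ∧ ¬ E (fun i => p (i3 i)) y ∧
      ∀ j, |y j - p (jx j)| < p je)
    (SA.S5a_and f1 (SA.S5a_and (SA.S5a_not m2) (SA.S5a_and (SA.S5a_not m3) hn)))
  obtain ⟨N5, hN5⟩ := psa_of (F := fun p y => y ∈ frontier {x | E (fun i => p (i1 i)) x} ∧
    y ∈ frontier {x | E (fun i => p (i2 i)) x} ∧ ¬ E (fun i => p (i3 i)) y ∧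
      ∀ j, |y j - p (jx j)| < p je)
    (SA.S5a_and f1 (SA.S5a_and f2 (SA.S5a_and (SA.S5a_not m3) hn)))
  refine ⟨N1 + N2 + N3 + N4 + N5, fun K₁ K₂ K₃ hK₁ hK₂ hK₃ x ε => ?_⟩
  obtain ⟨q1, hq1⟩ := hK K₁ hK₁
  obtain ⟨q2, hq2⟩ := hK K₂ hK₂
  obtain ⟨q3, hq3⟩ := hK K₃ hK₃
  let b : σ ⊕ σ ⊕ σ ⊕ Fin 3 ⊕ Unit → ℝ :=
    Sum.elim q1 (Sum.elim q2 (Sum.elim q3 (Sum.elim (fun j => x j) (fun _ => ε))))
  have g1 : ∀ y : E3, y ∈ frontier K₁ ↔ (fun j => y j) ∈ frontier {x | E q1 x} := fun y =>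
    conv_frontier (K' := {x | E q1 x}) hq1 y
  have g2 : ∀ y : E3, y ∈ frontier K₂ ↔ (fun j => y j) ∈ frontier {x | E q2 x} := fun y =>
    conv_frontier (K' := {x | E q2 x}) hq2 y
  refine ⟨(hN1 b _ g1).mono (by omega), (hN2 b _ fun y => and_congr (g1 y) (g2 y)).mono (by omega),
    (hN3 b _ fun y => and_congr (g1 y) (and_congr (not_congr (hq2 y)) ?_)).mono (by omega),
    (hN4 b _ fun y => and_congr (g1 y) (and_congr (not_congr (hq2 y))
      (and_congr (not_congr (hq3 y)) Iff.rfl))).mono (by omega),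
    (hN5 b _ fun y => and_congr (g1 y) (and_congr (g2 y)
      (and_congr (not_congr (hq3 y)) Iff.rfl))).mono (by omega)⟩
  constructor
  · rintro ⟨z, hz, h⟩
    exact ⟨fun j => z j, (hq2 z).1 hz, h⟩
  · rintro ⟨z, hz, h⟩
    exact ⟨WithLp.toLp 2 z, (hq2 _).2 hz, h⟩

/-- the open cell of the arrangement with boundaries `J`. -/
def cell {n : ℕ} (K : Fin n → Set E3) (J : Set (Fin n)) : Set E3 :=
  {y | (∀ i ∈ J, y ∈ frontier (K i)) ∧ ∀ i, i ∉ J → y ∉ K i}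

theorem pieces_strata {s n : ℕ} (K : Fin n → Set E3) (hK : ∀ i, Semialg s (K i))
    (J : Set (Fin n)) : ∃ N, Pieces N (cell K J) := by
  classical
  obtain ⟨σ, E, hE, hE2⟩ := univ_family s
  choose q hq using fun i => hE2 (K i) (hK i)
  have hfr := frontier_SAF E hE
  have h1 : SAF fun (p : Fin n × σ → ℝ) (y : Fin 3 → ℝ) =>
      (∀ i, i ∈ J → y ∈ frontier {x | E (fun a => p (i, a)) x}) ∧
        ∀ i, i ∉ J → ¬ E (fun a => p (i, a)) y := by
    refine SA.S5a_and (SA.S5a_all fun i => ?_) (SA.S5a_all fun i => ?_)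
    · by_cases hi : i ∈ J
      · refine SA.S5a_congr (psa_mem hfr (fun a => (i, a))) fun z => ?_
        exact ⟨fun h _ => h, fun h => h hi⟩
      · refine SA.S5a_congr SA.univ fun z => ?_
        exact ⟨fun _ h => absurd h hi, fun _ => trivial⟩
    · by_cases hi : i ∈ J
      · refine SA.S5a_congr SA.univ fun z => ?_
        exact ⟨fun _ h => absurd hi h, fun _ => trivial⟩
      · refine SA.S5a_congr (SA.S5a_not (psa_mem hE (fun a => (i, a)))) fun z => ?_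
        exact ⟨fun h _ => h, fun h => h hi⟩
  obtain ⟨N, hN⟩ := psa_of h1
  refine ⟨N, hN (fun a => q a.1 a.2) _ fun y => ?_⟩
  have g1 : ∀ i, y ∈ frontier (K i) ↔ (fun j => y j) ∈ frontier {x | E (q i) x} := fun i =>
    conv_frontier (K' := {x | E (q i) x}) (hq i) y
  refine and_congr (forall_congr' fun i => imp_congr Iff.rfl (g1 i))
    (forall_congr' fun i => imp_congr Iff.rfl (not_congr (hq i y)))

end UF
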