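import Pool.Agent.Work.MP_4c5ddc_co.Str

/-!
# Module Rel: components are relatively open in the intersections of the boundaries
-/

namespace UF

variable {n : ℕ} {K : Fin n → Set E3}

theorem comp_rel (hcl : ∀ i, IsClosed (K i)) (hreg : Reg K) {m N : ℕ} (hm : m = 1 ∨ m = 2)
    (hp : Pieces N (stratum K m)) {F : Set E3} (hF : F ∈ comps (stratum K m)) {J : Set (Fin n)}
    (hJ : ∀ x ∈ F, idx K x = J) :
    ∃ W : Set E3, IsOpen W ∧ F ⊆ W ∧ ∀ y ∈ W, (∀ i ∈ J, y ∈ frontier (K i)) → y ∈ F := by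
  obtain ⟨U, hU, hFU⟩ := comp_open hp hF
  have hJm : J.ncard = m := by
    obtain ⟨x, hx⟩ := comps_nonempty hF
    rw [← hJ x hx]
    exact (comps_sub hF hx).2
  refine ⟨U ∩ ⋂ i : {i // i ∉ J}, (K i.1)ᶜ,
    hU.inter (isOpen_iInter_of_finite fun i => (hcl i.1).isOpen_compl), ?_, ?_⟩
  · intro y hy
    refine ⟨(hFU ▸ hy : y ∈ stratum K m ∩ U).2, Set.mem_iInter.2 fun i => ?_⟩
    have h1 := cell_of_stratum hcl (comps_sub hF hy)
    rw [hJ y hy] at h1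
    exact h1.2 i.1 i.2
  · rintro y ⟨hyU, hyK⟩ hyJ
    rw [hFU]
    refine ⟨mem_stratum hcl hreg hm hJm ⟨hyJ, fun i hi => ?_⟩, hyU⟩
    exact Set.mem_iInter.1 hyK ⟨i, hi⟩

/-- components which are closed sets -/
theorem cnt_closed (hcl : ∀ i, IsClosed (K i)) (hreg : Reg K) {m N N' : ℕ} (hm : m = 1 ∨ m = 2)
    (hp : Pieces N' (stratum K m)) (J : Set (Fin n))
    (hA : Pieces N {y | ∀ i ∈ J, y ∈ frontier (K i)}) :
    {F | F ∈ comps (stratum K m) ∧ (∀ x ∈ F, idx K x = J) ∧ IsClosed F}.Finite ∧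
      {F | F ∈ comps (stratum K m) ∧ (∀ x ∈ F, idx K x = J) ∧ IsClosed F}.ncard ≤ N := by
  refine count_pieces hA _ (fun F hF => hF.1) (fun F hF => ?_) (fun F hF Q hQA hQ hQF => ?_)
  · obtain ⟨x, hx⟩ := comps_nonempty hF.1
    refine ⟨x, hx, fun i hi => ?_⟩
    have := hF.2.1 x hx
    rw [← this] at hi
    exact hi
  · obtain ⟨W, hW, hFW, hW2⟩ := comp_rel hcl hreg hm hp hF.1 hF.2.1
    refine clopen_sub hW hQ hQF (fun y hy => hW2 y hy.2 (hQA hy.1)) (fun y hy => hFW hy.2)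
      (fun y hy => ?_)
    rw [hF.2.2.closure_eq] at hy
    exact hy.2

end UF
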