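import Pool.Agent.Work.MP_4c5ddc_co.Basic

/-!
# Module Rk: the lexicographic rank

Proof. `lexlt` is a strict linear order on `Fin d → ℝ`: irreflexive, transitive and trichotomous
(if `x ≠ y` take the smallest `i` with `x i ≠ y i`); it is also `Pi.Lex (· < ·) (· < ·)`, i.e. the
order `<` of `Lex (Fin d → ℝ)`, so one may transfer to `toLex x < toLex y`.
* `rk_mem`: both clauses of the definition start with `G y`.
* `rk_unique`: induction on `b`. `b = 0`: two minimal elements are equal by trichotomy. `b + 1`: the
  witnesses `z, z'` are equal by induction; if `lexlt y y'` then `z < y < y'` with `G y` contradicts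
  the last condition for `y'`; symmetric; so `y = y'` by trichotomy.
* `rk_exists`: show by strong induction on the number `k` of elements `z` of the finite set
  `{z | G z ∧ lexlt z y}` that `rk G k y` holds. `k = 0`: clear. If `k > 0`, let `z` be the largest
  element of this set; the set `{z' | G z' ∧ lexlt z' z}` is this set without `z` (trichotomy,
  transitivity), so it has `k - 1` elements and `rk G (k - 1) z`; no `z'` in `G` is strictly between
  `z` and `y`. The number `k` is smaller than the number of elements of `G` (which also contains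
  `y`), so `k < B`.
-/

namespace UF

private theorem rk_lexlt_iff {d : ℕ} (x y : Fin d → ℝ) : lexlt x y ↔ toLex x < toLex y := Iff.rfl

private theorem rk_irrefl {d : ℕ} (x : Fin d → ℝ) : ¬ lexlt x x := by
  rw [rk_lexlt_iff]
  exact lt_irrefl _

private theorem rk_trans {d : ℕ} {x y z : Fin d → ℝ} (h : lexlt x y) (h' : lexlt y z) :
    lexlt x z := by
  rw [rk_lexlt_iff] at h h' ⊢
  exact lt_trans h h'

private theorem rk_tri {d : ℕ} (x y : Fin d → ℝ) : lexlt x y ∨ x = y ∨ lexlt y x := by
  rw [rk_lexlt_iff, rk_lexlt_iff]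
  rcases lt_trichotomy (toLex x) (toLex y) with h | h | h
  · exact Or.inl h
  · exact Or.inr (Or.inl (toLex_inj.1 h))
  · exact Or.inr (Or.inr h)

theorem rk_mem {d : ℕ} {G : (Fin d → ℝ) → Prop} {b : ℕ} {y : Fin d → ℝ} (h : rk G b y) : G y := by
  cases b with
  | zero => exact h.1
  | succ b => exact h.1

theorem rk_unique {d : ℕ} {G : (Fin d → ℝ) → Prop} {b : ℕ} {y y' : Fin d → ℝ}
    (h : rk G b y) (h' : rk G b y') : y = y' := by
  induction b generalizing y y' with
  | zero =>
    rcases rk_tri y y' with h1 | h1 | h1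
    · exact absurd h1 (h'.2 y h.1)
    · exact h1
    · exact absurd h1 (h.2 y' h'.1)
  | succ b ih =>
    obtain ⟨hG, z, hz, hzy, hn⟩ := h
    obtain ⟨hG', z', hz', hzy', hn'⟩ := h'
    have e := ih hz hz'
    subst e
    rcases rk_tri y y' with h1 | h1 | h1
    · exact absurd ⟨hzy, h1⟩ (hn' y hG)
    · exact h1
    · exact absurd ⟨hzy', h1⟩ (hn y' hG')

theorem rk_exists {d : ℕ} {G : (Fin d → ℝ) → Prop} {B : ℕ} (hfin : {y | G y}.Finite)
    (hB : {y | G y}.ncard ≤ B) {y : Fin d → ℝ} (hy : G y) : ∃ b, b < B ∧ rk G b y := by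
  have hfin' : ∀ y, {z | G z ∧ lexlt z y}.Finite := fun y => hfin.subset fun z hz => hz.1
  have key : ∀ (k : ℕ) (y : Fin d → ℝ), G y → {z | G z ∧ lexlt z y}.ncard = k → rk G k y := by
    intro k
    induction k with
    | zero =>
      intro y hy h0
      rw [Set.ncard_eq_zero (hfin' y)] at h0
      refine ⟨hy, fun z hz hzy => ?_⟩
      have : z ∈ {z | G z ∧ lexlt z y} := ⟨hz, hzy⟩
      rw [h0] at this
      exact this
    | succ k ih =>
      intro y hy hk
      have hne : {z | G z ∧ lexlt z y}.Nonempty := by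
        rw [Set.nonempty_iff_ne_empty]
        intro h0
        rw [h0, Set.ncard_empty] at hk
        omega
      obtain ⟨z, hz, hmax⟩ := Set.exists_max_image {z | G z ∧ lexlt z y} (fun z => toLex z)
        (hfin' y) hne
      have hset : {z' | G z' ∧ lexlt z' z} = {z | G z ∧ lexlt z y} \ {z} := by
        ext w
        constructor
        · rintro ⟨h1, h2⟩
          refine ⟨⟨h1, rk_trans h2 hz.2⟩, fun h3 => ?_⟩
          rw [Set.mem_singleton_iff] at h3
          rw [h3] at h2
          exact rk_irrefl _ h2
        · rintro ⟨h1, h2⟩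
          refine ⟨h1.1, ?_⟩
          rcases rk_tri w z with h3 | h3 | h3
          · exact h3
          · exact absurd h3 h2
          · exact absurd (hmax w h1) (not_le.2 ((rk_lexlt_iff _ _).1 h3))
      refine ⟨hy, z, ih z hz.1 ?_, hz.2, fun z' hz' h => ?_⟩
      · rw [hset, Set.ncard_diff_singleton_of_mem hz, hk]
        rfl
      · exact absurd (hmax z' ⟨hz', h.2⟩) (not_le.2 ((rk_lexlt_iff _ _).1 h.1))
  refine ⟨_, lt_of_lt_of_le ?_ hB, key _ y hy rfl⟩
  refine Set.ncard_lt_ncard ⟨fun z hz => hz.1, fun h => ?_⟩ hfin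
  exact rk_irrefl y (h hy).2

end UF
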