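import Pool.Agent.Work.MP_4c5ddc_co.Brk

/-!
# Module RkSA: the rank relation of a semialgebraic family is semialgebraic

Proof. Induction on `b`, generalising nothing: `rk (G q) 0 y` is `G q y ∧ ∀ z, G q z → ¬ lexlt z y`,
`rk (G q) (b+1) y` is `G q y ∧ ∃ z, rk (G q) b z ∧ lexlt z y ∧ ∀ z', G q z' → ¬ (lexlt z z' ∧
lexlt z' y)`. For blocks of variables `r s : Fin d → ρ`,
`SA {x : ρ → ℝ | lexlt (fun i => x (r i)) (fun i => x (s i))}` holds: it is the finite union over `i`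
of `(∀ j < i, x (r j) = x (s j)) ∧ x (r i) < x (s i)` (`SA.iUnion`, `SA.S5a_all`, `SA_eq`,
`SA.lt`). Quantify with `SA.exists`/`SA.forall` (`τ = Fin d`), substitute with `SA.rename`; the
style is that of `SA_bad` in `MP_4030f5_lc/S5a.lean`.
-/

namespace UF

open BU

theorem lexlt_SA {ρ : Type} {d : ℕ} (r s : Fin d → ρ) :
    SA {x : ρ → ℝ | lexlt (fun i => x (r i)) (fun i => x (s i))} := by
  have h1 : ∀ i : Fin d, SA {x : ρ → ℝ | (∀ j : Fin d, j < i → x (r j) = x (s j)) ∧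
      x (r i) < x (s i)} := by
    intro i
    refine SA.S5a_and (SA.S5a_all fun j => ?_) (SA.lt (Fm.var (r i)) (Fm.var (s i)))
    by_cases hj : j < i
    · refine SA.S5a_congr (SA_eq (Fm.var (r j)) (Fm.var (s j))) fun x => ?_
      simp only [Set.mem_setOf_eq, Fm.eval]
      exact ⟨fun h _ => h, fun h => h hj⟩
    · refine SA.S5a_congr SA.univ fun x => ?_
      simp only [Set.mem_univ, Set.mem_setOf_eq, true_iff]
      exact fun h => absurd h hj
  refine SA.S5a_congr (SA.iUnion h1) fun x => ?_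
  rw [Set.mem_iUnion]
  rfl

theorem rk_SAF {σ : Type} {d : ℕ} (G : (σ → ℝ) → (Fin d → ℝ) → Prop) (hG : SAF G) (b : ℕ) :
    SAF fun q y => rk (G q) b y := by
  unfold SAF at hG ⊢
  have hG' : ∀ {ρ : Type} (r : σ → ρ) (t : Fin d → ρ),
      SA {x : ρ → ℝ | G (fun i => x (r i)) (fun i => x (t i))} := fun r t =>
    SA.rename hG (Sum.elim r t)
  induction b with
  | zero =>
    refine SA.S5a_and hG ?_
    refine SA.forall (σ := σ ⊕ Fin d) (τ := Fin d) (P := fun w z =>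
      G (fun i => w (Sum.inl i)) z → ¬ lexlt z (fun i => w (Sum.inr i))) ?_
    exact SA.S5a_imp (hG' (fun i => Sum.inl (Sum.inl i)) (fun i => Sum.inr i))
      (SA.S5a_not (lexlt_SA (fun i => Sum.inr i) (fun i => Sum.inl (Sum.inr i))))
  | succ b ih =>
    refine SA.S5a_and hG ?_
    refine SA.exists (σ := σ ⊕ Fin d) (τ := Fin d) (P := fun w z =>
      rk (G (fun i => w (Sum.inl i))) b z ∧ lexlt z (fun i => w (Sum.inr i)) ∧
        ∀ z', G (fun i => w (Sum.inl i)) z' → ¬ (lexlt z z' ∧ lexlt z' (fun i => w (Sum.inr i)))) ?_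
    refine SA.S5a_and ?_ (SA.S5a_and ?_ ?_)
    · exact SA.rename ih (Sum.elim (fun i => Sum.inl (Sum.inl i)) (fun i => Sum.inr i) :
        σ ⊕ Fin d → (σ ⊕ Fin d) ⊕ Fin d)
    · exact lexlt_SA (fun i => Sum.inr i) (fun i => Sum.inl (Sum.inr i))
    · refine SA.forall (σ := (σ ⊕ Fin d) ⊕ Fin d) (τ := Fin d) (P := fun w z' =>
        G (fun i => w (Sum.inl (Sum.inl i))) z' → ¬ (lexlt (fun i => w (Sum.inr i)) z' ∧
          lexlt z' (fun i => w (Sum.inl (Sum.inr i))))) ?_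
      exact SA.S5a_imp (hG' (fun i => Sum.inl (Sum.inl (Sum.inl i))) (fun i => Sum.inr i))
        (SA.S5a_not (SA.S5a_and (lexlt_SA (fun i => Sum.inl (Sum.inr i)) (fun i => Sum.inr i))
          (lexlt_SA (fun i => Sum.inr i) (fun i => Sum.inl (Sum.inl (Sum.inr i))))))

end UF
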