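import Pool.Agent.Work.MP_4c5ddc_co.SecMisc

/-!
# Module SecBall: hyperplane sections of fat convex sets contain large balls

Everything is in the sup norm. Let `S = nrm d τ ≥ 1` (so `|lin τ x| ≤ S ‖x‖`, `lin_abs_le`,
`‖sec τ t y - sec τ t z‖ ≤ S ‖y - z‖`, `norm_sec_sub`) and `Λ₁ = max Λ 1`.
`c = 1 / ((1 + 2 S) Λ₁ S)`, `C = 1 + Λ₁ S`.

Proof. `Λ > 0` since `0 < T ≤ Λ ρ`, `0 < ρ`.
1. Homothety with centre `p` and ratio `l = T / (Λ₁ ρ) ∈ (0, 1]`: let `w = p + l (z - p)`. Then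
   `ball w (T / Λ₁) ⊆ A`: for `x` in this ball `y = p + (x - p) / l` satisfies
   `‖y - z‖ = ‖x - w‖ / l < ρ`, so `y ∈ A`, and `x = (1 - l) p + l y ∈ A`. And
   `‖w - p‖ = l ‖z - p‖ ≤ l Λ ρ ≤ T`.
2. Let `h = lin τ w - t = lin τ (w - p)`, `|h| ≤ S T`. If `h ≥ 0` let `e = t - lin τ u ≥ T / 2 > 0`,
   `x = (e w + h u) / (e + h)`. Then `lin τ x = (e (t + h) + h (t - e)) / (e + h) = t`. The ball with
   centre `x` and radius `(e / (e + h)) T / Λ₁` is contained in `A` (a point of it is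
   `(e w' + h u) / (e + h)` with `‖w' - w‖ < T / Λ₁`). Here `e / (e + h) ≥ 1 / (1 + 2 S)` since
   `h ≤ S T ≤ 2 S e`. And
   `‖x - p‖ ≤ (e ‖w - p‖ + h ‖u - p‖) / (e + h) ≤ T + h Λ e / (e + h) ≤ T + Λ h ≤ (1 + Λ₁ S) T`.
   If `h < 0` do the same with `v` in place of `u`, `e = lin τ v - t`, `-h` in place of `h`.
3. `z' = Fin.tail x`; `sec τ t z' = x` (`sec_tail`), `‖z' - Fin.tail p‖ ≤ ‖x - p‖`
   (`norm_tail_sub_le`), and for `‖y - z'‖ < c T`: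
   `‖sec τ t y - x‖ ≤ S ‖y - z'‖ < S c T = T / ((1 + 2 S) Λ₁)`, so `sec τ t y ∈ A`.
-/

namespace UF

/-- homothety with centre `p` and ratio `l ∈ (0, 1]` -/
theorem sb_hom {n : ℕ} {A : Set (Fin n → ℝ)} (hA : Convex ℝ A) {p z : Fin n → ℝ} {ρ l : ℝ}
    (hp : p ∈ A) (hz : Metric.ball z ρ ⊆ A) (hl0 : 0 < l) (hl1 : l ≤ 1) :
    Metric.ball (p + l • (z - p)) (l * ρ) ⊆ A := by
  intro x hx
  rw [mem_ball_iff_norm] at hx
  have h1 : p + l⁻¹ • (x - p) - z = l⁻¹ • (x - (p + l • (z - p))) := by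
    ext i
    simp only [Pi.add_apply, Pi.smul_apply, Pi.sub_apply, smul_eq_mul]
    field_simp
    ring
  have hy : p + l⁻¹ • (x - p) ∈ A := by
    refine hz ?_
    rw [mem_ball_iff_norm, h1, norm_smul, norm_inv, Real.norm_of_nonneg hl0.le,
      inv_mul_lt_iff₀ hl0]
    exact hx
  have h2 : (1 - l) • p + l • (p + l⁻¹ • (x - p)) = x := by
    ext i
    simp only [Pi.add_apply, Pi.smul_apply, Pi.sub_apply, smul_eq_mul]
    field_simp
    ring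
  rw [← h2]
  exact hA hp hy (by linarith) hl0.le (by ring)

theorem sb_side {d τ : ℕ} {Λ Λ₁ S : ℝ} (hΛ : 0 ≤ Λ) (hΛ₁ : Λ ≤ Λ₁) (hΛ₁0 : 0 < Λ₁) (hS : 0 < S)
    {A : Set (Fin (d + 1) → ℝ)} (hA : Convex ℝ A) {p u w : Fin (d + 1) → ℝ} {t T e h s : ℝ}
    (hu : u ∈ A) (hT : 0 < T) (hw : Metric.ball w (T / Λ₁) ⊆ A) (hwp : ‖w - p‖ ≤ T)
    (hs : s ≠ 0) (he : e = s * (t - lin τ u)) (hh : h = s * (lin τ w - t)) (hTe : T ≤ 2 * e)
    (hh0 : 0 ≤ h) (hhS : h ≤ S * T) (hpu : ‖p - u‖ ≤ Λ * e) :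
    ∃ x : Fin (d + 1) → ℝ, lin τ x = t ∧ Metric.ball x (T / ((1 + 2 * S) * Λ₁)) ⊆ A ∧
      ‖x - p‖ ≤ (1 + Λ₁ * S) * T := by
  have he0 : 0 < e := by linarith
  have heh : 0 < e + h := by linarith
  have hr0 : 0 < e / (e + h) := div_pos he0 heh
  have hr1 : e / (e + h) ≤ 1 := by
    rw [div_le_one heh]
    linarith
  refine ⟨u + (e / (e + h)) • (w - u), ?_, ?_, ?_⟩
  · rw [lin_add, lin_smul, lin_sub]
    have h1 : s * (lin τ w - lin τ u) = e + h := by rw [he, hh]; ring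
    have h2 : s * (lin τ u + e / (e + h) * (lin τ w - lin τ u)) = s * t := by
      have h3 : s * (lin τ u + e / (e + h) * (lin τ w - lin τ u)) =
          s * lin τ u + e / (e + h) * (s * (lin τ w - lin τ u)) := by ring
      rw [h3, h1, div_mul_cancel₀ _ heh.ne', he]
      ring
    exact mul_left_cancel₀ hs h2
  · refine Set.Subset.trans (Metric.ball_subset_ball ?_) (sb_hom hA hu hw hr0 hr1)
    have h1 : T / ((1 + 2 * S) * Λ₁) = (1 / (1 + 2 * S)) * (T / Λ₁) := by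
      field_simp
    rw [h1]
    refine mul_le_mul_of_nonneg_right ?_ (by positivity)
    rw [div_le_div_iff₀ (by positivity) heh]
    nlinarith
  · have h1 : u + (e / (e + h)) • (w - u) - p =
        (e / (e + h)) • (w - p) + (h / (e + h)) • (u - p) := by
      ext i
      simp only [Pi.add_apply, Pi.smul_apply, Pi.sub_apply, smul_eq_mul]
      field_simp
      ring
    rw [h1]
    refine (norm_add_le _ _).trans ?_
    rw [norm_smul, norm_smul, Real.norm_of_nonneg hr0.le,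
      Real.norm_of_nonneg (div_nonneg hh0 heh.le)]
    have h2 : e / (e + h) * ‖w - p‖ ≤ 1 * T :=
      mul_le_mul hr1 hwp (norm_nonneg _) (by norm_num)
    have h3 : h / (e + h) * ‖u - p‖ ≤ h * Λ := by
      rw [norm_sub_rev u p]
      calc h / (e + h) * ‖p - u‖ ≤ h / (e + h) * (Λ * e) :=
            mul_le_mul_of_nonneg_left hpu (div_nonneg hh0 heh.le)
        _ = (h * Λ) * (e / (e + h)) := by ring
        _ ≤ (h * Λ) * 1 := mul_le_mul_of_nonneg_left hr1 (mul_nonneg hh0 hΛ)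
        _ = h * Λ := by ring
    have h4 : h * Λ ≤ (S * T) * Λ₁ := mul_le_mul hhS hΛ₁ hΛ (by positivity)
    linarith

theorem sec_ball (d τ : ℕ) (Λ : ℝ) : ∃ c C : ℝ, 0 < c ∧ 0 < C ∧
    ∀ (A : Set (Fin (d + 1) → ℝ)) (p u v z : Fin (d + 1) → ℝ) (t T ρ : ℝ),
      Convex ℝ A → p ∈ A → u ∈ A → v ∈ A → lin τ p = t → 0 < T → 0 < ρ → T ≤ Λ * ρ →
      T ≤ 2 * (t - lin τ u) → T ≤ 2 * (lin τ v - t) →
      ‖p - u‖ ≤ Λ * (t - lin τ u) → ‖p - v‖ ≤ Λ * (lin τ v - t) →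
      Metric.ball z ρ ⊆ A → ‖z - p‖ ≤ Λ * ρ →
      ∃ z' : Fin d → ℝ, Metric.ball z' (c * T) ⊆ {y | sec τ t y ∈ A} ∧
        ‖z' - Fin.tail p‖ ≤ C * T := by
  have hS1 := nrm_ge_one d τ
  set S := nrm d τ with hS
  have hS0 : 0 < S := by linarith
  have hΛ₁ : Λ ≤ max Λ 1 := le_max_left _ _
  have hΛ₁0 : 0 < max Λ 1 := lt_of_lt_of_le one_pos (le_max_right _ _)
  set Λ₁ := max Λ 1
  refine ⟨1 / ((1 + 2 * S) * Λ₁ * S), 1 + Λ₁ * S, by positivity, by positivity, ?_⟩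
  intro A p u v z t T ρ hA hp hu hv hpt hT hρ hTρ hTu hTv hpu hpv hz hzp
  have hΛ0 : 0 ≤ Λ := by
    by_contra hcon
    push Not at hcon
    nlinarith
  have hl0 : 0 < T / (Λ₁ * ρ) := by positivity
  have hl1 : T / (Λ₁ * ρ) ≤ 1 := by
    rw [div_le_one (by positivity)]
    exact hTρ.trans (mul_le_mul_of_nonneg_right hΛ₁ hρ.le)
  have hw := sb_hom hA hp hz hl0 hl1
  have hlr : T / (Λ₁ * ρ) * ρ = T / Λ₁ := by
    field_simp
  rw [hlr] at hw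
  set w := p + (T / (Λ₁ * ρ)) • (z - p) with hwdef
  have hwp : ‖w - p‖ ≤ T := by
    have h1 : w - p = (T / (Λ₁ * ρ)) • (z - p) := by rw [hwdef]; abel
    rw [h1, norm_smul, Real.norm_of_nonneg hl0.le]
    calc T / (Λ₁ * ρ) * ‖z - p‖ ≤ T / (Λ₁ * ρ) * (Λ₁ * ρ) :=
          mul_le_mul_of_nonneg_left (hzp.trans (mul_le_mul_of_nonneg_right hΛ₁ hρ.le)) hl0.le
      _ = T := by field_simp
  have habs : |lin τ w - t| ≤ S * T := by
    rw [← hpt, ← lin_sub]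
    exact (lin_abs_le τ (w - p)).trans (mul_le_mul_of_nonneg_left hwp hS0.le)
  obtain ⟨x, hx1, hx2, hx3⟩ : ∃ x : Fin (d + 1) → ℝ, lin τ x = t ∧
      Metric.ball x (T / ((1 + 2 * S) * Λ₁)) ⊆ A ∧ ‖x - p‖ ≤ (1 + Λ₁ * S) * T := by
    rcases le_total 0 (lin τ w - t) with h | h
    · refine sb_side (s := 1) (e := t - lin τ u) (h := lin τ w - t) hΛ0 hΛ₁ hΛ₁0 hS0 hA hu hT hw
        hwp one_ne_zero (by ring) (by ring) hTu h ((le_abs_self _).trans habs) hpu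
    · refine sb_side (s := -1) (e := lin τ v - t) (h := t - lin τ w) hΛ0 hΛ₁ hΛ₁0 hS0 hA hv hT hw
        hwp (by norm_num) (by ring) (by ring) hTv (by linarith) ?_ hpv
      have := neg_le_abs (lin τ w - t)
      linarith
  refine ⟨Fin.tail x, ?_, (norm_tail_sub_le x p).trans hx3⟩
  intro y hy
  rw [mem_ball_iff_norm] at hy
  show sec τ t y ∈ A
  refine hx2 ?_
  rw [mem_ball_iff_norm]
  have h1 : sec τ t (Fin.tail x) = x := sec_tail hx1
  have h2 := norm_sec_sub τ t y (Fin.tail x)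
  rw [h1] at h2
  refine h2.trans_lt ?_
  calc S * ‖y - Fin.tail x‖ < S * (1 / ((1 + 2 * S) * Λ₁ * S) * T) :=
        mul_lt_mul_of_pos_left hy hS0
    _ = T / ((1 + 2 * S) * Λ₁) := by
        field_simp

end UF
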