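import Pool.Agent.Work.MP_4c5ddc_co.SecMisc

/-!
# Module SecFr: boundary points of a section

Proof. `Fin.tail p` lies in `A' = {y | sec τ t y ∈ A}` since `sec τ t (Fin.tail p) = p ∈ A` (`A` is
closed, so its boundary is contained in it), in particular in `closure A'`. It remains to see that
`Fin.tail p` is not an interior point of `A'` (`frontier = closure \ interior`). Suppose it is:
`ball (Fin.tail p) ε ⊆ A'`. We show `p ∈ interior A`, contradicting `p ∈ frontier A`. Let
`a = lin τ v - t > 0` and `b = t - lin τ u > 0`. For `x` near `p` let `η = lin τ x - t` (small).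
If `η ≥ 0` (`η < a`): let `w = (1 - η / a)⁻¹ • (x - (η / a) • v)`; then `lin τ w = t` and `w → p` as
`x → p`, so for `x` close to `p`, `Fin.tail w ∈ ball (Fin.tail p) ε`, hence
`w = sec τ t (Fin.tail w) ∈ A`, and `x = (1 - η / a) w + (η / a) v ∈ A` by convexity. If `η < 0` use
`u`: `w = (1 - (-η) / b)⁻¹ • (x - ((-η) / b) • u)`. The two maps `x ↦ w` are continuous at `p`
(`η → 0`), so `∀ᶠ x in 𝓝 p, x ∈ A`.
-/

namespace UF

open Filter Topology in
/-- one half of the argument: points on the side of `w` of the hyperplane -/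
private theorem side {d : ℕ} (τ : ℕ) (A : Set (Fin (d + 1) → ℝ)) (hA : Convex ℝ A)
    (p w : Fin (d + 1) → ℝ) (t : ℝ) (hw : w ∈ A) (hpt : lin τ p = t) (hwt : lin τ w ≠ t)
    (hin : {y : Fin d → ℝ | sec τ t y ∈ A} ∈ 𝓝 (Fin.tail p)) :
    ∀ᶠ x in 𝓝 p, 0 ≤ (lin τ x - t) / (lin τ w - t) → x ∈ A := by
  set a : ℝ := lin τ w - t with ha
  have ha0 : a ≠ 0 := sub_ne_zero.2 hwt
  set F : (Fin (d + 1) → ℝ) → ℝ := fun x => (lin τ x - t) / a with hF
  have hFc : Continuous F := ((lin_continuous τ).sub continuous_const).div_const _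
  have hFp : F p = 0 := by
    rw [hF]
    simp [hpt]
  set W : (Fin (d + 1) → ℝ) → (Fin (d + 1) → ℝ) := fun x => (1 - F x)⁻¹ • (x - F x • w) with hW
  have hWc : ContinuousAt W p := by
    have c1 : ContinuousAt (fun x => 1 - F x) p := (continuous_const.sub hFc).continuousAt
    have c2 : ContinuousAt (fun x => x - F x • w) p :=
      (continuous_id.sub (hFc.smul continuous_const)).continuousAt
    refine ContinuousAt.smul (c1.inv₀ ?_) c2
    rw [hFp]
    norm_num
  have hWp : W p = p := by
    rw [hW]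
    simp only [hFp, sub_zero, inv_one, one_smul, zero_smul]
  have htail : Continuous (Fin.tail : (Fin (d + 1) → ℝ) → (Fin d → ℝ)) :=
    continuous_pi fun i : Fin d =>
      (continuous_apply i.succ : Continuous fun x : Fin (d + 1) → ℝ => x i.succ)
  have h1 : ∀ᶠ x in 𝓝 p, sec τ t (Fin.tail (W x)) ∈ A := by
    have h2 : ContinuousAt (fun x => Fin.tail (W x)) p := htail.continuousAt.comp hWc
    have h3 : {y : Fin d → ℝ | sec τ t y ∈ A} ∈ 𝓝 (Fin.tail (W p)) := by
      rw [hWp]
      exact hin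
    exact h2.eventually h3
  have h2 : ∀ᶠ x in 𝓝 p, F x < 1 := by
    have h3 : F p < 1 := by
      rw [hFp]
      norm_num
    exact hFc.continuousAt.eventually (Iio_mem_nhds h3)
  filter_upwards [h1, h2] with x hx1 hx2 hx3
  have hx3' : 0 ≤ F x := hx3
  have hne : 1 - F x ≠ 0 := by linarith
  have hlin : lin τ (W x) = t := by
    rw [hW]
    beta_reduce
    rw [lin_smul, lin_sub, lin_smul]
    have e1 : F x * a = lin τ x - t := by
      rw [hF]
      beta_reduce
      field_simp
    have e2 : lin τ w = a + t := by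
      rw [ha]
      ring
    have e3 : lin τ x - F x * lin τ w = (1 - F x) * t := by
      rw [e2, mul_add, e1]
      ring
    rw [e3, ← mul_assoc, inv_mul_cancel₀ hne, one_mul]
  rw [sec_tail hlin] at hx1
  have h4 := hA hx1 hw (by linarith : 0 ≤ 1 - F x) hx3' (by ring)
  have h5 : (1 - F x) • W x + F x • w = x := by
    rw [hW]
    beta_reduce
    rw [smul_smul, mul_inv_cancel₀ hne, one_smul, sub_add_cancel]
  rw [h5] at h4
  exact h4

theorem sec_fr {d : ℕ} (τ : ℕ) (A : Set (Fin (d + 1) → ℝ)) (hA : Convex ℝ A) (hcl : IsClosed A)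
    (p u v : Fin (d + 1) → ℝ) (t : ℝ) (hp : p ∈ frontier A) (hu : u ∈ A) (hv : v ∈ A)
    (hpt : lin τ p = t) (hut : lin τ u < t) (hvt : t < lin τ v) :
    Fin.tail p ∈ frontier {y : Fin d → ℝ | sec τ t y ∈ A} := by
  have hpA : p ∈ A := hcl.frontier_subset hp
  have hmem : Fin.tail p ∈ {y : Fin d → ℝ | sec τ t y ∈ A} := by
    show sec τ t (Fin.tail p) ∈ A
    rw [sec_tail hpt]
    exact hpA
  refine ⟨subset_closure hmem, fun hint => ?_⟩
  have hin := mem_interior_iff_mem_nhds.1 hint
  refine hp.2 (mem_interior_iff_mem_nhds.2 ?_)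
  filter_upwards [side τ A hA p u t hu hpt hut.ne hin, side τ A hA p v t hv hpt hvt.ne' hin]
    with x h1 h2
  rcases le_total (lin τ x) t with h | h
  · exact h1 (div_nonneg_of_nonpos (by linarith) (by linarith))
  · exact h2 (div_nonneg (by linarith) (by linarith))

end UF
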