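import Pool.Agent.Work.MP_4c5ddc_co.Basic

/-!
# Module SecMisc: elementary properties of `lin` and `sec`
-/

namespace UF

theorem lin_add {d : ℕ} (τ : ℕ) (x y : Fin d → ℝ) : lin τ (x + y) = lin τ x + lin τ y := by
  simp only [lin, Pi.add_apply, mul_add, Finset.sum_add_distrib]

theorem lin_sub {d : ℕ} (τ : ℕ) (x y : Fin d → ℝ) : lin τ (x - y) = lin τ x - lin τ y := by
  simp only [lin, Pi.sub_apply, mul_sub, Finset.sum_sub_distrib]

theorem lin_smul {d : ℕ} (τ : ℕ) (c : ℝ) (x : Fin d → ℝ) : lin τ (c • x) = c * lin τ x := by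
  simp only [lin, Pi.smul_apply, smul_eq_mul, Finset.mul_sum]
  exact Finset.sum_congr rfl fun l _ => by ring

theorem lin_continuous {d : ℕ} (τ : ℕ) : Continuous (lin τ : (Fin d → ℝ) → ℝ) := by
  unfold lin
  fun_prop

theorem lin_succ {d : ℕ} (τ : ℕ) (x : Fin (d + 1) → ℝ) :
    lin τ x = x 0 + ∑ l : Fin d, (τ : ℝ) ^ ((l : ℕ) + 1) * x l.succ := by
  simp [lin, Fin.sum_univ_succ]

/-- the norm of `lin τ`, at least one in positive dimension. -/
noncomputable def nrm (d τ : ℕ) : ℝ := 1 + ∑ l : Fin d, (τ : ℝ) ^ ((l : ℕ) + 1)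

theorem nrm_ge_one (d τ : ℕ) : 1 ≤ nrm d τ := by
  unfold nrm
  have : 0 ≤ ∑ l : Fin d, (τ : ℝ) ^ ((l : ℕ) + 1) := Finset.sum_nonneg fun l _ => by positivity
  linarith

theorem sum_abs_le {d : ℕ} (τ : ℕ) (y : Fin d → ℝ) :
    |∑ l : Fin d, (τ : ℝ) ^ ((l : ℕ) + 1) * y l| ≤
      (∑ l : Fin d, (τ : ℝ) ^ ((l : ℕ) + 1)) * ‖y‖ := by
  refine (Finset.abs_sum_le_sum_abs _ _).trans ?_
  rw [Finset.sum_mul]
  refine Finset.sum_le_sum fun l _ => ?_
  rw [abs_mul, abs_of_nonneg (by positivity : (0 : ℝ) ≤ (τ : ℝ) ^ ((l : ℕ) + 1))]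
  exact mul_le_mul_of_nonneg_left (norm_le_pi_norm y l) (by positivity)

theorem lin_abs_le {d : ℕ} (τ : ℕ) (x : Fin (d + 1) → ℝ) : |lin τ x| ≤ nrm d τ * ‖x‖ := by
  rw [lin_succ]
  refine (abs_add_le _ _).trans ?_
  have h1 : |x 0| ≤ ‖x‖ := norm_le_pi_norm x 0
  have h2 := sum_abs_le τ (fun l : Fin d => x l.succ)
  have h3 : ‖(fun l : Fin d => x l.succ)‖ ≤ ‖x‖ :=
    (pi_norm_le_iff_of_nonneg (norm_nonneg _)).2 fun l => norm_le_pi_norm x l.succ
  have h4 : 0 ≤ ∑ l : Fin d, (τ : ℝ) ^ ((l : ℕ) + 1) := Finset.sum_nonneg fun l _ => by positivity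
  unfold nrm
  nlinarith

theorem lin_sec {d : ℕ} (τ : ℕ) (t : ℝ) (y : Fin d → ℝ) : lin τ (sec τ t y) = t := by
  rw [lin_succ]
  simp [sec]

theorem tail_sec {d : ℕ} (τ : ℕ) (t : ℝ) (y : Fin d → ℝ) : Fin.tail (sec τ t y) = y := by
  simp [sec]

theorem sec_tail {d : ℕ} {τ : ℕ} {t : ℝ} {p : Fin (d + 1) → ℝ} (h : lin τ p = t) :
    sec τ t (Fin.tail p) = p := by
  have h1 : t - ∑ l : Fin d, (τ : ℝ) ^ ((l : ℕ) + 1) * Fin.tail p l = p 0 := by
    rw [← h, lin_succ]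
    simp [Fin.tail]
  rw [sec, h1]
  exact Fin.cons_self_tail p

theorem sec_convex {d : ℕ} (τ : ℕ) (t : ℝ) (x y : Fin d → ℝ) {a b : ℝ} (hab : a + b = 1) :
    sec τ t (a • x + b • y) = a • sec τ t x + b • sec τ t y := by
  funext i
  refine Fin.cases ?_ (fun l => ?_) i
  · simp only [sec, Fin.cons_zero, Pi.add_apply, Pi.smul_apply, smul_eq_mul, mul_sub, mul_add,
      Finset.sum_add_distrib, Finset.mul_sum]
    have h1 : a * t + b * t = t := by rw [← add_mul, hab, one_mul]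
    have h2 : ∀ (c : ℝ) (z : Fin d → ℝ), ∑ l : Fin d, (τ : ℝ) ^ ((l : ℕ) + 1) * (c * z l) =
        ∑ l : Fin d, c * ((τ : ℝ) ^ ((l : ℕ) + 1) * z l) :=
      fun c z => Finset.sum_congr rfl fun l _ => by ring
    rw [h2, h2]
    linarith
  · simp [sec]

theorem norm_tail_le {d : ℕ} (x : Fin (d + 1) → ℝ) : ‖Fin.tail x‖ ≤ ‖x‖ :=
  (pi_norm_le_iff_of_nonneg (norm_nonneg _)).2 fun l => norm_le_pi_norm x l.succ

theorem tail_sub {d : ℕ} (x y : Fin (d + 1) → ℝ) : Fin.tail (x - y) = Fin.tail x - Fin.tail y := rfl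

theorem norm_tail_sub_le {d : ℕ} (x y : Fin (d + 1) → ℝ) :
    ‖Fin.tail x - Fin.tail y‖ ≤ ‖x - y‖ := by
  rw [← tail_sub]
  exact norm_tail_le _

theorem norm_sec_sub {d : ℕ} (τ : ℕ) (t : ℝ) (y z : Fin d → ℝ) :
    ‖sec τ t y - sec τ t z‖ ≤ nrm d τ * ‖y - z‖ := by
  have h0 : 0 ≤ ∑ l : Fin d, (τ : ℝ) ^ ((l : ℕ) + 1) := Finset.sum_nonneg fun l _ => by positivity
  refine (pi_norm_le_iff_of_nonneg (mul_nonneg (by linarith [nrm_ge_one d τ])
    (norm_nonneg _))).2 fun i => ?_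
  refine Fin.cases ?_ (fun l => ?_) i
  · have h1 : (sec τ t y - sec τ t z) 0 = -(∑ l : Fin d, (τ : ℝ) ^ ((l : ℕ) + 1) * (y - z) l) := by
      simp only [sec, Pi.sub_apply, Fin.cons_zero, mul_sub, Finset.sum_sub_distrib]
      ring
    rw [h1, Real.norm_eq_abs, abs_neg]
    refine (sum_abs_le τ (y - z)).trans ?_
    refine mul_le_mul_of_nonneg_right ?_ (norm_nonneg _)
    unfold nrm
    linarith
  · have h1 : (sec τ t y - sec τ t z) l.succ = (y - z) l := by simp [sec]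
    rw [h1]
    refine (norm_le_pi_norm (y - z) l).trans ?_
    nlinarith [norm_nonneg (y - z), nrm_ge_one d τ]

theorem sec_continuous {d : ℕ} (τ : ℕ) (t : ℝ) :
    Continuous (sec τ t : (Fin d → ℝ) → Fin (d + 1) → ℝ) := by
  refine continuous_pi fun i => ?_
  refine Fin.cases ?_ (fun l => ?_) i
  · simp only [sec, Fin.cons_zero]
    fun_prop
  · simp only [sec, Fin.cons_succ]
    fun_prop

theorem convex_sec {d : ℕ} {τ : ℕ} {t : ℝ} {A : Set (Fin (d + 1) → ℝ)} (hA : Convex ℝ A) :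
    Convex ℝ {y : Fin d → ℝ | sec τ t y ∈ A} := by
  intro x hx y hy a b ha hb hab
  show sec τ t (a • x + b • y) ∈ A
  rw [sec_convex τ t x y hab]
  exact hA hx hy ha hb hab

theorem compact_sec {d : ℕ} {τ : ℕ} {t : ℝ} {A : Set (Fin (d + 1) → ℝ)} (hA : IsCompact A) :
    IsCompact {y : Fin d → ℝ | sec τ t y ∈ A} := by
  have h1 : IsClosed {y : Fin d → ℝ | sec τ t y ∈ A} := hA.isClosed.preimage (sec_continuous τ t)
  obtain ⟨R, hR⟩ := hA.isBounded.exists_norm_le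
  refine Metric.isCompact_of_isClosed_isBounded h1 ?_
  refine (Metric.isBounded_closedBall (x := (0 : Fin d → ℝ)) (r := R)).subset fun y hy => ?_
  rw [mem_closedBall_zero_iff]
  have h2 := norm_tail_le (sec τ t y)
  rw [tail_sec] at h2
  exact h2.trans (hR _ hy)

end UF
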