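import Pool.Agent.Work.MP_4c5ddc_co.Fib
import Pool.Agent.Work.MP_4c5ddc_co.Rk
import Pool.Agent.Work.MP_4c5ddc_co.RkSA
import Pool.Agent.Work.MP_4c5ddc_co.Mono

/-!
# Module Single: the branches of a semialgebraic curve over the functional `lin τ`
-/

namespace UF

open BU

/-- `y` is the point of rank `b` of the fibre of `S` over `lin τ = t`. -/
def Wb {d : ℕ} (S : (Fin d → ℝ) → Prop) (τ b : ℕ) (t : ℝ) (y : Fin d → ℝ) : Prop :=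
  rk (fun x => S x ∧ lin τ x = t) b y

private theorem W_SA {σ τ' : Type} {d : ℕ} (Γ : (σ → ℝ) → (Fin d → ℝ) → Prop) (hΓ : SAF Γ)
    (τ b : ℕ) (r : σ → τ') (a : τ') (s : Fin d → τ') :
    SA {z : τ' → ℝ | Wb (Γ (fun i => z (r i))) τ b (z a) (fun l => z (s l))} :=
  SA.rename (rk_SAF _ (slice_SAF Γ hΓ τ) b) (Sum.elim (Sum.elim r (fun _ => a)) s)

private theorem ncard_iUnion_le' {ι : Type*} [Fintype ι] (s : ι → Set ℝ) (c : ι → ℕ)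
    (hf : ∀ i, (s i).Finite) (hc : ∀ i, (s i).ncard ≤ c i) : (⋃ i, s i).ncard ≤ ∑ i, c i := by
  classical
  have h1 : (⋃ i, s i) = ((Finset.univ.biUnion fun i => (hf i).toFinset : Finset ℝ) : Set ℝ) := by
    ext x
    simp
  rw [h1, Set.ncard_coe_finset]
  refine Finset.card_biUnion_le.trans (Finset.sum_le_sum fun i _ => ?_)
  rw [← Set.ncard_eq_toFinset_card _ (hf i)]
  exact hc i

theorem single_branch {σ ω : Type} {d : ℕ} (Γ : (σ → ℝ) → (Fin d → ℝ) → Prop) (hΓ : SAF Γ)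
    (H : (ω → ℝ) → (Fin d → ℝ) → Prop) (hH : SAF H) (τ C : ℕ) :
    ∃ B₁ B : ℕ, ∀ (Κ : Type) [Fintype Κ] (q : σ → ℝ) (h : Κ → ω → ℝ), Slim τ {y | Γ q y} →
      ∃ Z : Set ℝ, Z.Finite ∧ Z.ncard ≤ B * (1 + Fintype.card Κ) ∧
        (∀ y, Γ q y → lin τ y ∉ Z → ∃ b, b < B₁ ∧ Wb (Γ q) τ b (lin τ y) y) ∧
        ∀ b, b < B₁ → ∀ u v, u ≤ v → (∀ x ∈ Set.Icc u v, x ∉ Z) →
          ((∃ t ∈ Set.Icc u v, ∃ y, Wb (Γ q) τ b t y) →
            ∀ t ∈ Set.Icc u v, ∃ y, Wb (Γ q) τ b t y) ∧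
          (∀ l : Fin d,
            (∀ t ∈ Set.Icc u v, ∀ t' ∈ Set.Icc u v, t ≤ t' → ∀ y y', Wb (Γ q) τ b t y →
              Wb (Γ q) τ b t' y' → y l - C * t ≤ y' l - C * t') ∨
            (∀ t ∈ Set.Icc u v, ∀ t' ∈ Set.Icc u v, t ≤ t' → ∀ y y', Wb (Γ q) τ b t y →
              Wb (Γ q) τ b t' y' → y' l - C * t' ≤ y l - C * t)) ∧
          (∀ l : Fin d,
            (∀ t ∈ Set.Icc u v, ∀ t' ∈ Set.Icc u v, t ≤ t' → ∀ y y', Wb (Γ q) τ b t y →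
              Wb (Γ q) τ b t' y' → y l + C * t ≤ y' l + C * t') ∨
            (∀ t ∈ Set.Icc u v, ∀ t' ∈ Set.Icc u v, t ≤ t' → ∀ y y', Wb (Γ q) τ b t y →
              Wb (Γ q) τ b t' y' → y' l + C * t' ≤ y l + C * t)) ∧
          (∀ κ : Κ,
            (∀ t ∈ Set.Icc u v, ∀ y, Wb (Γ q) τ b t y → H (h κ) y) ∨
            (∀ t ∈ Set.Icc u v, ∀ y, Wb (Γ q) τ b t y → ¬ H (h κ) y)) := by
  classical
  obtain ⟨B₁, hB₁⟩ := fib_bound _ (slice_SAF Γ hΓ τ)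
  -- (a)
  obtain ⟨Ba, hBa⟩ := brk (σ := σ) (fun q t => ∃ y : Fin d → ℝ, (Γ q y ∧ lin τ y = t) ∧
    ∀ b : Fin B₁, ¬ Wb (Γ q) τ b t y) (by
    refine SA.exists (σ := σ ⊕ Unit) (τ := Fin d) (P := fun z y =>
      (Γ (fun i => z (Sum.inl i)) y ∧ lin τ y = z (Sum.inr ())) ∧
        ∀ b : Fin B₁, ¬ Wb (Γ (fun i => z (Sum.inl i))) τ b (z (Sum.inr ())) y) ?_
    refine SA.S5a_and (slice_SAF Γ hΓ τ) (SA.S5a_all fun b => SA.S5a_not ?_)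
    exact W_SA Γ hΓ τ b (fun i => Sum.inl (Sum.inl i)) (Sum.inl (Sum.inr ())) (fun l => Sum.inr l))
  -- (b)
  have hb : ∀ b : ℕ, ∃ B : ℕ, ∀ q : σ → ℝ, (Bk (fun t => ∃ y, Wb (Γ q) τ b t y)).Finite ∧
      (Bk (fun t => ∃ y, Wb (Γ q) τ b t y)).ncard ≤ B := by
    intro b
    refine brk (σ := σ) (fun q t => ∃ y, Wb (Γ q) τ b t y) ?_
    refine SA.exists (σ := σ ⊕ Unit) (τ := Fin d) (P := fun z y =>
      Wb (Γ (fun i => z (Sum.inl i))) τ b (z (Sum.inr ())) y) ?_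
    exact W_SA Γ hΓ τ b (fun i => Sum.inl (Sum.inl i)) (Sum.inl (Sum.inr ())) (fun l => Sum.inr l)
  choose Bb hBb using hb
  -- (c)
  have hc : ∀ (b : ℕ) (l : Fin d) (c : ℤ), ∃ B : ℕ, ∀ q : σ → ℝ, ∃ Z : Set ℝ, Z.Finite ∧
      Z.ncard ≤ B ∧ ∀ u v, u ≤ v → (∀ x ∈ Set.Icc u v, x ∉ Z) →
        (∀ t ∈ Set.Icc u v, ∀ s, ¬ ∃ y, Wb (Γ q) τ b t y ∧ s = y l + c * t) ∨
        ((∀ t ∈ Set.Icc u v, ∃ s, ∃ y, Wb (Γ q) τ b t y ∧ s = y l + c * t) ∧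
          ((∀ t ∈ Set.Icc u v, ∀ t' ∈ Set.Icc u v, t ≤ t' → ∀ s s',
              (∃ y, Wb (Γ q) τ b t y ∧ s = y l + c * t) →
              (∃ y, Wb (Γ q) τ b t' y ∧ s' = y l + c * t') → s ≤ s') ∨
           (∀ t ∈ Set.Icc u v, ∀ t' ∈ Set.Icc u v, t ≤ t' → ∀ s s',
              (∃ y, Wb (Γ q) τ b t y ∧ s = y l + c * t) →
              (∃ y, Wb (Γ q) τ b t' y ∧ s' = y l + c * t') → s' ≤ s))) := by
    intro b l c
    refine mono_pieces (fun q t s => ∃ y, Wb (Γ q) τ b t y ∧ s = y l + c * t) ?_ ?_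
    · refine SA.exists (σ := σ ⊕ Fin 2) (τ := Fin d) (P := fun z y =>
        Wb (Γ (fun i => z (Sum.inl i))) τ b (z (Sum.inr 0)) y ∧
          z (Sum.inr 1) = y l + c * z (Sum.inr 0)) ?_
      refine SA.S5a_and ?_ ?_
      · exact W_SA Γ hΓ τ b (fun i => Sum.inl (Sum.inl i)) (Sum.inl (Sum.inr 0))
          (fun l => Sum.inr l)
      · exact SA_eq (Fm.var (Sum.inl (Sum.inr 1)))
          (Fm.add (Fm.var (Sum.inr l)) (Fm.mul (Fm.const c) (Fm.var (Sum.inl (Sum.inr 0)))))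
    · rintro q t s s' ⟨y, hy, rfl⟩ ⟨y', hy', rfl⟩
      rw [rk_unique hy hy']
  choose Bc Zc hZcf hZcc hZc using hc
  -- (d)
  have hd : ∀ b : ℕ, ∃ B : ℕ, ∀ q : σ ⊕ ω → ℝ,
      (Bk (fun t => ∃ y, Wb (Γ (fun i => q (Sum.inl i))) τ b t y ∧
        H (fun i => q (Sum.inr i)) y)).Finite ∧
      (Bk (fun t => ∃ y, Wb (Γ (fun i => q (Sum.inl i))) τ b t y ∧
        H (fun i => q (Sum.inr i)) y)).ncard ≤ B := by
    intro b
    refine brk (σ := σ ⊕ ω) (fun q t => ∃ y, Wb (Γ (fun i => q (Sum.inl i))) τ b t y ∧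
        H (fun i => q (Sum.inr i)) y) ?_
    refine SA.exists (σ := (σ ⊕ ω) ⊕ Unit) (τ := Fin d) (P := fun z y =>
      Wb (Γ (fun i => z (Sum.inl (Sum.inl i)))) τ b (z (Sum.inr ())) y ∧
        H (fun i => z (Sum.inl (Sum.inr i))) y) ?_
    refine SA.S5a_and ?_ ?_
    · exact W_SA Γ hΓ τ b (fun i => Sum.inl (Sum.inl (Sum.inl i))) (Sum.inl (Sum.inr ()))
        (fun l => Sum.inr l)
    · exact SA.rename hH (Sum.elim (fun i => Sum.inl (Sum.inl (Sum.inr i))) (fun l => Sum.inr l) :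
        ω ⊕ Fin d → ((σ ⊕ ω) ⊕ Unit) ⊕ Fin d)
  choose Bd hBd using hd
  refine ⟨B₁, Ba + (∑ b : Fin B₁, Bb b) + (∑ b : Fin B₁, ∑ l : Fin d, (Bc b l (-C) + Bc b l C)) +
    ∑ b : Fin B₁, Bd b, ?_⟩
  intro Κ _ q h hslim
  let Za : Set ℝ := Bk (fun t => ∃ y : Fin d → ℝ, (Γ q y ∧ lin τ y = t) ∧
    ∀ b : Fin B₁, ¬ Wb (Γ q) τ b t y)
  let Zb : Set ℝ := ⋃ b : Fin B₁, Bk (fun t => ∃ y, Wb (Γ q) τ b t y)
  let Zc' : Set ℝ := ⋃ b : Fin B₁, ⋃ l : Fin d, (Zc b l (-C) q ∪ Zc b l C q)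
  let Zd : Set ℝ := ⋃ κ : Κ, ⋃ b : Fin B₁, Bk (fun t => ∃ y, Wb (Γ q) τ b t y ∧ H (h κ) y)
  have hZa : Za.Finite ∧ Za.ncard ≤ Ba := hBa q
  have hZb : Zb.Finite ∧ Zb.ncard ≤ ∑ b : Fin B₁, Bb b :=
    ⟨Set.finite_iUnion fun b => (hBb b q).1,
      ncard_iUnion_le' _ _ (fun b => (hBb b q).1) (fun b => (hBb b q).2)⟩
  have hZcl : ∀ (b : Fin B₁) (l : Fin d), (Zc b l (-C) q ∪ Zc b l C q).Finite ∧
      (Zc b l (-C) q ∪ Zc b l C q).ncard ≤ Bc b l (-C) + Bc b l C := fun b l =>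
    ⟨(hZcf _ _ _ _).union (hZcf _ _ _ _),
      (Set.ncard_union_le _ _).trans (Nat.add_le_add (hZcc _ _ _ _) (hZcc _ _ _ _))⟩
  have hZcb : ∀ (b : Fin B₁), (⋃ l : Fin d, (Zc b l (-C) q ∪ Zc b l C q)).Finite ∧
      (⋃ l : Fin d, (Zc b l (-C) q ∪ Zc b l C q)).ncard ≤ ∑ l : Fin d, (Bc b l (-C) + Bc b l C) :=
    fun b => ⟨Set.finite_iUnion fun l => (hZcl b l).1,
      ncard_iUnion_le' _ _ (fun l => (hZcl b l).1) (fun l => (hZcl b l).2)⟩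
  have hZc' : Zc'.Finite ∧ Zc'.ncard ≤ ∑ b : Fin B₁, ∑ l : Fin d, (Bc b l (-C) + Bc b l C) :=
    ⟨Set.finite_iUnion fun b => (hZcb b).1,
      ncard_iUnion_le' _ _ (fun b => (hZcb b).1) (fun b => (hZcb b).2)⟩
  have hZdk : ∀ κ : Κ, (⋃ b : Fin B₁, Bk (fun t => ∃ y, Wb (Γ q) τ b t y ∧ H (h κ) y)).Finite ∧
      (⋃ b : Fin B₁, Bk (fun t => ∃ y, Wb (Γ q) τ b t y ∧ H (h κ) y)).ncard
        ≤ ∑ b : Fin B₁, Bd b := fun κ =>
    ⟨Set.finite_iUnion fun b => (hBd b (Sum.elim q (h κ))).1,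
      ncard_iUnion_le' _ _ (fun b => (hBd b (Sum.elim q (h κ))).1)
        (fun b => (hBd b (Sum.elim q (h κ))).2)⟩
  have hZd : Zd.Finite ∧ Zd.ncard ≤ Fintype.card Κ * ∑ b : Fin B₁, Bd b := by
    refine ⟨Set.finite_iUnion fun κ => (hZdk κ).1, ?_⟩
    have h1 := ncard_iUnion_le' _ (fun _ : Κ => ∑ b : Fin B₁, Bd b) (fun κ => (hZdk κ).1)
      (fun κ => (hZdk κ).2)
    rw [Finset.sum_const, smul_eq_mul, Finset.card_univ] at h1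
    exact h1
  refine ⟨Za ∪ Zb ∪ Zc' ∪ Zd, ((hZa.1.union hZb.1).union hZc'.1).union hZd.1, ?_, ?_, ?_⟩
  · have h1 := Set.ncard_union_le (Za ∪ Zb ∪ Zc') Zd
    have h2 := Set.ncard_union_le (Za ∪ Zb) Zc'
    have h3 := Set.ncard_union_le Za Zb
    have h4 := hZa.2
    have h5 := hZb.2
    have h6 := hZc'.2
    have h7 := hZd.2
    have h8 : (Za ∪ Zb ∪ Zc' ∪ Zd).ncard ≤ Ba + (∑ b : Fin B₁, Bb b) +
        (∑ b : Fin B₁, ∑ l : Fin d, (Bc b l (-C) + Bc b l C)) +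
        Fintype.card Κ * ∑ b : Fin B₁, Bd b := by
      omega
    refine h8.trans ?_
    generalize (∑ b : Fin B₁, Bb b) = x1
    generalize (∑ b : Fin B₁, ∑ l : Fin d, (Bc b l (-C) + Bc b l C)) = x2
    generalize (∑ b : Fin B₁, Bd b) = x3
    generalize Fintype.card Κ = x4
    have e : (Ba + x1 + x2 + x3) * (1 + x4) = (Ba + x1 + x2 + x4 * x3) + (x3 + (Ba + x1 + x2) * x4) := by
      ring
    rw [e]
    exact Nat.le_add_right _ _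
  · intro y hy hyZ
    have hfin : {t | ∃ y : Fin d → ℝ, (Γ q y ∧ lin τ y = t) ∧
        ∀ b : Fin B₁, ¬ Wb (Γ q) τ b t y}.Finite := by
      refine hslim.subset ?_
      rintro t ⟨y, hy, hyb⟩
      by_contra hcon
      have hf : {x : Fin d → ℝ | Γ q x ∧ lin τ x = t}.Finite := Set.not_infinite.1 hcon
      obtain ⟨b, hb, hby⟩ := rk_exists (G := fun x => Γ q x ∧ lin τ x = t) hf
        (hB₁ (Sum.elim q fun _ => t) hf) hy
      exact hyb ⟨b, hb⟩ hby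
    have hsub := sub_bk (u := fun t => ∃ y : Fin d → ℝ, (Γ q y ∧ lin τ y = t) ∧
        ∀ b : Fin B₁, ¬ Wb (Γ q) τ b t y) hfin
    by_contra hcon
    apply hyZ
    refine Or.inl (Or.inl (Or.inl (hsub ⟨y, ⟨hy, rfl⟩, fun b hb => hcon ⟨b, b.2, hb⟩⟩)))
  · intro b hb u v huv hZ
    have hZb' : ∀ x ∈ Set.Icc u v, x ∉ Bk (fun t => ∃ y, Wb (Γ q) τ b t y) := fun x hx hx' =>
      hZ x hx (Or.inl (Or.inl (Or.inr (Set.mem_iUnion.2 ⟨⟨b, hb⟩, hx'⟩))))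
    have hZc1 : ∀ l : Fin d, ∀ x ∈ Set.Icc u v, x ∉ Zc b l (-C) q := fun l x hx hx' =>
      hZ x hx (Or.inl (Or.inr (Set.mem_iUnion.2 ⟨⟨b, hb⟩, Set.mem_iUnion.2 ⟨l, Or.inl hx'⟩⟩)))
    have hZc2 : ∀ l : Fin d, ∀ x ∈ Set.Icc u v, x ∉ Zc b l C q := fun l x hx hx' =>
      hZ x hx (Or.inl (Or.inr (Set.mem_iUnion.2 ⟨⟨b, hb⟩, Set.mem_iUnion.2 ⟨l, Or.inr hx'⟩⟩)))
    have hZd' : ∀ κ : Κ, ∀ x ∈ Set.Icc u v,
        x ∉ Bk (fun t => ∃ y, Wb (Γ q) τ b t y ∧ H (h κ) y) := fun κ x hx hx' =>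
      hZ x hx (Or.inr (Set.mem_iUnion.2 ⟨κ, Set.mem_iUnion.2 ⟨⟨b, hb⟩, hx'⟩⟩))
    refine ⟨?_, ?_, ?_, ?_⟩
    · rintro ⟨t, ht, hty⟩ t' ht'
      exact (eq_of_no_bk hZb' ht ht').1 hty
    · intro l
      rcases hZc b l (-C) q u v huv (hZc1 l) with h1 | ⟨-, h1 | h1⟩
      · left
        intro t ht t' ht' htt y y' hy hy'
        exact absurd ⟨y, hy, rfl⟩ (h1 t ht _)
      · left
        intro t ht t' ht' htt y y' hy hy'
        have := h1 t ht t' ht' htt _ _ ⟨y, hy, rfl⟩ ⟨y', hy', rfl⟩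
        push_cast at this
        linarith
      · right
        intro t ht t' ht' htt y y' hy hy'
        have := h1 t ht t' ht' htt _ _ ⟨y, hy, rfl⟩ ⟨y', hy', rfl⟩
        push_cast at this
        linarith
    · intro l
      rcases hZc b l C q u v huv (hZc2 l) with h1 | ⟨-, h1 | h1⟩
      · left
        intro t ht t' ht' htt y y' hy hy'
        exact absurd ⟨y, hy, rfl⟩ (h1 t ht _)
      · left
        intro t ht t' ht' htt y y' hy hy'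
        have := h1 t ht t' ht' htt _ _ ⟨y, hy, rfl⟩ ⟨y', hy', rfl⟩
        push_cast at this
        linarith
      · right
        intro t ht t' ht' htt y y' hy hy'
        have := h1 t ht t' ht' htt _ _ ⟨y, hy, rfl⟩ ⟨y', hy', rfl⟩
        push_cast at this
        linarith
    · intro κ
      by_cases hex : ∃ t ∈ Set.Icc u v, ∃ y, Wb (Γ q) τ b t y ∧ H (h κ) y
      · left
        obtain ⟨t, ht, hty⟩ := hex
        intro t' ht' y hy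
        obtain ⟨y', hy', hH'⟩ := (eq_of_no_bk (hZd' κ) ht ht').1 hty
        rwa [rk_unique hy hy']
      · right
        intro t ht y hy hH
        exact hex ⟨t, ht, y, hy, hH⟩

end UF
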