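import Pool.Agent.Work.MP_4c5ddc_co.Branch
import Pool.Agent.Work.MP_4c5ddc_co.FrSA
import Pool.Agent.Work.MP_4c5ddc_co.SecBall
import Pool.Agent.Work.MP_4c5ddc_co.SecFr
import Pool.Agent.Work.MP_4c5ddc_co.One
import Pool.Agent.Work.MP_4c5ddc_co.Fin2
import Pool.Agent.Work.MP_4c5ddc_co.Cut

/-!
# Module Step2: no planar pattern in which the second index dominates

Proof. Let `C = ⌈|Λ|⌉₊`, `S = nrm 1 τ`, `Λ₂ = |Λ| + (C + 1) + S * |Λ| + (C + 1) * S * |Λ|`, and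
`c, C'` the constants of `sec_ball 1 τ Λ₂`; let `Λ₁ = max (C' / c) ((C + 1 + |Λ|) / c)` and `N = max 2 N₁` with
`N₁` the number of `noPat1 Λ₁`; let `M` be the number of `branch` for
`Γ q y := y ∈ frontier {x | E q x}` (`frontier_SAF`), `H = E`, `Θ = Κ = Fin N`, slope constant `C`.
Given the pattern, apply `branch` with `q = h = a`, `y = p` (`Slim` by `slim_frontier2`; the interior
of `{x | E (a i) x}` is nonempty as it contains a ball of radius `ρ > 0`; slopes: `Λ ≤ C`): we get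
`k₁ < k₂ < k₃`. Put `f i = lin τ (p i k₂)`, `m₋ = min f`, `m₊ = max f`, `T = m₊ - m₋`,
`t = (m₋ + m₊) / 2`. `T > 0`: for the two indices `0 ≠ 1` the points `p 0 k₂, p 1 k₂` are different
(`p 1 k₂ ∈ {x | E (a 1) x}`, closed, contains its boundary, `p 0 k₂` is not in it) and
`0 < ‖p 0 k₂ - p 1 k₂‖ ≤ Λ |f 0 - f 1|`. For all `i`: `lin τ (p i k₁) < m₋`, `m₊ < lin τ (p i k₃)`
(domination). So `branch` gives points `r i` with `r i ∈ frontier {x | E (a i) x}`, `lin τ (r i) = t`,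
`¬ E (a i') (r i)` for `i' ≠ i`, `‖r i - p i k‖ ≤ (C + 1) |t - lin τ (p i k)|`, `k = k₁, k₂, k₃`.
Apply `sec_ball 1 τ Λ₂` to `A = {x | E (a i) x}`, `p := r i`, `u := p i k₁`, `v := p i k₃`, the ball
`z, ρ` of the hypothesis: `T ≤ lin τ (p i k₃) - lin τ (p i k₁) ≤ S ‖p i k₃ - p i k₁‖ ≤ S Λ ρ`
(`lin_abs_le`; so `Λ > 0`), `T ≤ 2 (t - lin τ u)` since `lin τ u < m₋ = t - T / 2`;
and (with `z` the centre of the ball of the hypothesis for `i, k₂`)
`‖z - r i‖ ≤ ‖z - p i k₂‖ + ‖p i k₂ - r i‖ ≤ Λ ρ + (C + 1) T ≤ (Λ + (C + 1) S Λ) ρ ≤ Λ₂ ρ`.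
It gives `z' i` with `ball (z' i) (c T) ⊆ I i :=
{y | sec τ t y ∈ {x | E (a i) x}}` and `‖z' i - Fin.tail (r i)‖ ≤ C' T`.
Finally `noPat1 Λ₁` (restricted to the first `N₁` indices, `Fin.castLE`) with the sets `I i` (convex:
`convex_sec`), the points `Fin.tail (r i)` (`sec τ t (Fin.tail (r i)) = r i`, `sec_tail`), radius
`c T`: `‖Fin.tail (r i) - Fin.tail (r i')‖ ≤ ‖r i - r i'‖ ≤ ‖r i - p i k₂‖ + ‖p i k₂ - p i' k₂‖ +
‖p i' k₂ - r i'‖ ≤ (C + 1) T / 2 + Λ T + (C + 1) T / 2 ≤ Λ₁ c T`.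
-/

namespace UF

open BU

theorem step2 {σ : Type} (E : (σ → ℝ) → (Fin 2 → ℝ) → Prop) (hE : SAF E) (τ : ℕ) (Λ : ℝ) :
    ∃ N M : ℕ, ∀ (a : Fin N → σ → ℝ) (p : Fin N → Fin M → Fin 2 → ℝ) (ρ : ℝ), 0 < ρ →
      (∀ i, IsCompact {x | E (a i) x}) → (∀ i, Convex ℝ {x | E (a i) x}) →
      (∀ i j, ∃ z, Metric.ball z ρ ⊆ {x | E (a i) x} ∧ ‖z - p i j‖ ≤ Λ * ρ) →
      (∀ i j i' j', ‖p i j - p i' j'‖ ≤ Λ * ρ) →
      (∀ i j, p i j ∈ frontier {x | E (a i) x}) →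
      (∀ i i' j, i ≠ i' → ¬ E (a i') (p i j)) →
      (∀ i i' j, ‖p i j - p i' j‖ ≤ Λ * |lin τ (p i j) - lin τ (p i' j)|) →
      (∀ i j j', ‖p i j - p i j'‖ ≤ Λ * |lin τ (p i j) - lin τ (p i j')|) →
      (∀ i i' j j', j < j' → lin τ (p i j) < lin τ (p i' j')) → False := by
  set C : ℕ := ⌈|Λ|⌉₊ with hC
  set S : ℝ := nrm 1 τ with hS
  have hS1 : 1 ≤ S := nrm_ge_one 1 τ
  set Λ₂ : ℝ := |Λ| + (C + 1) + S * |Λ| + (C + 1) * S * |Λ| with hΛ₂
  obtain ⟨c, C', hc, hC', hball⟩ := sec_ball 1 τ Λ₂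
  set Λ₁ : ℝ := max (C' / c) ((C + 1 + |Λ|) / c) with hΛ₁
  obtain ⟨N₁, hN₁⟩ := noPat1 Λ₁
  set N : ℕ := max 2 N₁ with hN
  obtain ⟨M, hM⟩ := branch (fun q y => y ∈ frontier {x | E q x}) (frontier_SAF E hE) E hE τ C
    (Fin N) (Fin N)
  refine ⟨N, M + 1, fun a p₀ ρ hρ hcomp hconv hb₀ hdiam₀ hfr₀ hnon₀ hsl1₀ hsl2₀ hdom₀ => ?_⟩
  have hΛC : Λ ≤ C := (le_abs_self Λ).trans (Nat.le_ceil _)
  have hC0 : (0 : ℝ) ≤ C := Nat.cast_nonneg C
  have hA0 : 0 ≤ |Λ| := abs_nonneg Λ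
  have hcl : ∀ i, IsClosed {x | E (a i) x} := fun i => (hcomp i).isClosed
  have h2N : 2 ≤ N := le_max_left _ _
  set p : Fin N → Fin M → Fin 2 → ℝ := fun i j => p₀ i j.castSucc with hp
  have hb : ∀ i j, ∃ z, Metric.ball z ρ ⊆ {x | E (a i) x} ∧ ‖z - p i j‖ ≤ Λ * ρ :=
    fun i j => hb₀ i _
  have hdiam : ∀ i j i' j', ‖p i j - p i' j'‖ ≤ Λ * ρ := fun i j i' j' => hdiam₀ _ _ _ _
  have hfr : ∀ i j, p i j ∈ frontier {x | E (a i) x} := fun i j => hfr₀ _ _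
  have hnon : ∀ i i' j, i ≠ i' → ¬ E (a i') (p i j) := fun i i' j h => hnon₀ _ _ _ h
  have hsl1 : ∀ i i' j, ‖p i j - p i' j‖ ≤ Λ * |lin τ (p i j) - lin τ (p i' j)| :=
    fun i i' j => hsl1₀ _ _ _
  have hsl2 : ∀ i j j', ‖p i j - p i j'‖ ≤ Λ * |lin τ (p i j) - lin τ (p i j')| :=
    fun i j j' => hsl2₀ _ _ _
  have hdom : ∀ i i' j j', j < j' → lin τ (p i j) < lin τ (p i' j') :=
    fun i i' j j' h => hdom₀ _ _ _ _ (by simpa using h)
  have hmem : ∀ i j, E (a i) (p i j) := fun i j => (hcl i).frontier_subset (hfr i j)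
  obtain ⟨k₁, k₂, k₃, h12, h23, hbr⟩ := hM a a p
    (fun i => by
      have h1 : Slim τ (frontier {x | E (a i) x}) := by
        refine slim_frontier2 τ _ (hcomp i) (hconv i) ?_
        obtain ⟨z, hz, -⟩ := hb₀ i (Fin.last M)
        exact ⟨z, interior_maximal hz Metric.isOpen_ball (Metric.mem_ball_self hρ)⟩
      exact h1) hfr
    (fun i i' j j' h => hdom i i' j j' h)
    (fun i j j' => (hsl2 i j j').trans (mul_le_mul_of_nonneg_right hΛC (abs_nonneg _)))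
  -- the cut
  let i₀ : Fin N := ⟨0, by omega⟩
  let i₁ : Fin N := ⟨1, by omega⟩
  have h01 : i₀ ≠ i₁ := fun h => by simpa [i₀, i₁] using congrArg Fin.val h
  have hpne : p i₀ k₂ ≠ p i₁ k₂ := fun h => hnon i₀ i₁ k₂ h01 (h ▸ hmem i₁ k₂)
  have hfne : lin τ (p i₀ k₂) ≠ lin τ (p i₁ k₂) := by
    intro h
    have h1 := hsl1 i₀ i₁ k₂
    rw [h, sub_self, abs_zero, mul_zero] at h1
    exact hpne (sub_eq_zero.1 (norm_le_zero_iff.1 h1))
  obtain ⟨t, T, hT, hmid, ⟨im, him⟩, ⟨iM, hiM⟩⟩ := cut_mid (fun i => lin τ (p i k₂)) hfne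
  have hlow : ∀ i, lin τ (p i k₁) < t - T / 2 := fun i => by
    rw [← him]; exact hdom _ _ _ _ h12
  have hupp : ∀ i, t + T / 2 < lin τ (p i k₃) := fun i => by
    rw [← hiM]; exact hdom _ _ _ _ h23
  have hr := hbr t (fun i => by linarith [hlow i]) (fun i => by linarith [hupp i])
  choose r hr1 hr2 hr3 hr4 hr5 hr6 using hr
  have hrmem : ∀ i, E (a i) (r i) := fun i => (hcl i).frontier_subset (hr1 i)
  -- the scale
  have hTρ : ∀ i, T ≤ S * |Λ| * ρ := fun i => by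
    have h1 := lin_abs_le τ (p i k₃ - p i k₁)
    rw [lin_sub] at h1
    have h2 := hdiam i k₃ i k₁
    have h3 : Λ * ρ ≤ |Λ| * ρ := mul_le_mul_of_nonneg_right (le_abs_self Λ) hρ.le
    have h4 := le_abs_self (lin τ (p i k₃) - lin τ (p i k₁))
    have h5 : S * ‖p i k₃ - p i k₁‖ ≤ S * (|Λ| * ρ) :=
      mul_le_mul_of_nonneg_left (h2.trans h3) (by linarith)
    have h6 := hlow i
    have h7 := hupp i
    calc T ≤ lin τ (p i k₃) - lin τ (p i k₁) := by linarith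
      _ ≤ S * (|Λ| * ρ) := by
        refine h4.trans (h1.trans ?_)
        exact h5
      _ = S * |Λ| * ρ := by ring
  have hC1 : (0 : ℝ) ≤ (C : ℝ) + 1 := by linarith
  have hSL : 0 ≤ S * |Λ| := by positivity
  have hCSL : 0 ≤ (C + 1) * S * |Λ| := by positivity
  have hball' : ∀ i, ∃ z' : Fin 1 → ℝ, Metric.ball z' (c * T) ⊆ {y | sec τ t y ∈ {x | E (a i) x}} ∧
      ‖z' - Fin.tail (r i)‖ ≤ C' * T := by
    intro i
    obtain ⟨z, hz1, hz2⟩ := hb i k₂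
    refine hball {x | E (a i) x} (r i) (p i k₁) (p i k₃) z t T ρ (hconv i) (hrmem i) (hmem i k₁)
      (hmem i k₃) (hr2 i) hT hρ ?_ ?_ ?_ ?_ ?_ hz1 ?_
    · refine (hTρ i).trans (mul_le_mul_of_nonneg_right ?_ hρ.le)
      rw [hΛ₂]; linarith
    · linarith [hlow i]
    · linarith [hupp i]
    · have h1 : 0 ≤ t - lin τ (p i k₁) := by linarith [hlow i]
      have h2 := hr4 i
      rw [abs_of_nonneg h1] at h2
      refine h2.trans (mul_le_mul_of_nonneg_right ?_ h1)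
      rw [hΛ₂]; linarith
    · have h1 : 0 ≤ lin τ (p i k₃) - t := by linarith [hupp i]
      have h2 := hr6 i
      rw [abs_sub_comm, abs_of_nonneg h1] at h2
      refine h2.trans (mul_le_mul_of_nonneg_right ?_ h1)
      rw [hΛ₂]; linarith
    · have h1 : ‖z - r i‖ ≤ ‖z - p i k₂‖ + ‖r i - p i k₂‖ := by
        have : z - r i = (z - p i k₂) - (r i - p i k₂) := by abel
        rw [this]; exact norm_sub_le _ _
      have h2 := hr5 i
      have h3 := hmid i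
      have h4 : (C + 1) * |t - lin τ (p i k₂)| ≤ (C + 1) * (S * |Λ| * ρ) :=
        mul_le_mul_of_nonneg_left (by linarith [hTρ i]) hC1
      have h5 : Λ * ρ ≤ |Λ| * ρ := mul_le_mul_of_nonneg_right (le_abs_self Λ) hρ.le
      have h6 : Λ₂ * ρ = |Λ| * ρ + (C + 1) * ρ + S * |Λ| * ρ + (C + 1) * (S * |Λ| * ρ) := by
        rw [hΛ₂]; ring
      have h7 : 0 ≤ (C + 1 : ℝ) * ρ := by positivity
      have h8 : 0 ≤ S * |Λ| * ρ := by positivity
      linarith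
  have hcT : 0 < c * T := mul_pos hc hT
  have hN₁N : N₁ ≤ N := le_max_right _ _
  have hL1 : C' * T ≤ Λ₁ * (c * T) := by
    have h1 : C' / c ≤ Λ₁ := le_max_left _ _
    have h2 : C' / c * (c * T) = C' * T := by field_simp
    rw [← h2]
    exact mul_le_mul_of_nonneg_right h1 hcT.le
  have hL2 : (C + 1 + |Λ|) * T ≤ Λ₁ * (c * T) := by
    have h1 : (C + 1 + |Λ|) / c ≤ Λ₁ := le_max_right _ _
    have h2 : (C + 1 + |Λ|) / c * (c * T) = (C + 1 + |Λ|) * T := by field_simp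
    rw [← h2]
    exact mul_le_mul_of_nonneg_right h1 hcT.le
  refine hN₁ (fun i => {y | sec τ t y ∈ {x | E (a (Fin.castLE hN₁N i)) x}})
    (fun i => Fin.tail (r (Fin.castLE hN₁N i))) (c * T) hcT ?_ ?_ ?_ ?_ ?_
  · exact fun i => convex_sec (hconv _)
  · intro i
    obtain ⟨z', h1, h2⟩ := hball' (Fin.castLE hN₁N i)
    exact ⟨z', h1, h2.trans hL1⟩
  · intro i
    show sec τ t (Fin.tail (r (Fin.castLE hN₁N i))) ∈ {x | E (a (Fin.castLE hN₁N i)) x}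
    rw [sec_tail (hr2 _)]
    exact hrmem _
  · intro i i' hii
    show ¬ sec τ t (Fin.tail (r (Fin.castLE hN₁N i))) ∈ {x | E (a (Fin.castLE hN₁N i')) x}
    rw [sec_tail (hr2 _)]
    exact hr3 _ _ (hnon _ _ _ fun h => hii (Fin.castLE_injective hN₁N h))
  · intro i i'
    set u := Fin.castLE hN₁N i
    set w := Fin.castLE hN₁N i'
    have h1 : ‖r u - r w‖ ≤ ‖r u - p u k₂‖ + ‖p u k₂ - p w k₂‖ + ‖r w - p w k₂‖ := by
      have : r u - r w = (r u - p u k₂) + (p u k₂ - p w k₂) - (r w - p w k₂) := by abel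
      rw [this]
      exact (norm_sub_le _ _).trans (add_le_add_left (norm_add_le _ _) _)
    have h2 := hr5 u
    have h3 := hr5 w
    have h4 := hmid u
    have h5 := hmid w
    have h6 : (C + 1) * |t - lin τ (p u k₂)| ≤ (C + 1) * (T / 2) :=
      mul_le_mul_of_nonneg_left h4 hC1
    have h7 : (C + 1) * |t - lin τ (p w k₂)| ≤ (C + 1) * (T / 2) :=
      mul_le_mul_of_nonneg_left h5 hC1
    have h8 := hsl1 u w k₂
    have h9 : |lin τ (p u k₂) - lin τ (p w k₂)| ≤ T := by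
      have : lin τ (p u k₂) - lin τ (p w k₂) =
        (t - lin τ (p w k₂)) - (t - lin τ (p u k₂)) := by ring
      rw [this]
      exact (abs_sub _ _).trans (by linarith)
    have h10 : Λ * |lin τ (p u k₂) - lin τ (p w k₂)| ≤ |Λ| * T :=
      mul_le_mul (le_abs_self Λ) h9 (abs_nonneg _) hA0
    refine (norm_tail_sub_le _ _).trans (h1.trans (le_trans ?_ hL2))
    have h11 : (C + 1 + |Λ|) * T = (C + 1) * (T / 2) + |Λ| * T + (C + 1) * (T / 2) := by ring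
    rw [h11]
    linarith

end UF
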