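import Pool.Agent.Work.MP_4c5ddc_co.NoPat2

/-!
# Module Step3: no spatial pattern in which the third index dominates

Proof. Constants: `C = ⌈|Λ|⌉₊`, `S = nrm 2 τ`, `Λ₂ = max |Λ| (max (C + 1) (2 * S * |Λ|))`, `c, C'` the
constants of `sec_ball 2 τ Λ₂`, `Λ₁ = max (C' / c) ((C + 1 + 2 * |Λ|) / c)`; `N = max 2 N₂` where
`N₂` is the number of `noPat2` for the family of sections
`E' (q : σ ⊕ Unit → ℝ) y := E (fun i => q (Sum.inl i)) (sec τ (q (Sum.inr ())) y)` (`sec_SAF`) and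
`Λ₁`; `M` the number of `branch` for `Γ (q : σ ⊕ σ → ℝ) y := y ∈ frontier {x | E q₁ x} ∧
y ∈ frontier {x | E q₂ x}` (`frontier_SAF`, `SA.rename`, `SA.S5a_and`), `H = E`,
`Θ = Fin N × Fin N`, `Κ = Fin N ⊕ Fin N`, slope constant `C`.
Given the pattern, apply `branch` with `q (i, j) = Sum.elim (a i) (b j)`, `h = Sum.elim a b`,
`y (i, j) k = v i j k`; we get `k₁ < k₂ < k₃`. Put `f i j = lin τ (v i j k₂)`, `m₋, m₊` its minimum
and maximum, `T = m₊ - m₋`, `t = (m₋ + m₊) / 2`. `T > 0` as in `Step2` (`v 0 0 k₂ ≠ v 1 0 k₂`).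
Domination: `lin τ (v i j k₁) < m₋` and `m₊ < lin τ (v i j k₃)` for all `i, j`. `branch` gives
points `r i j` in both boundaries with `lin τ (r i j) = t`, `¬ E (a i') (r i j)` for `i' ≠ i`,
`¬ E (b j') (r i j)` for `j' ≠ j`, and `‖r i j - v i j k‖ ≤ (C + 1) |t - lin τ (v i j k)|` for
`k = k₁, k₂, k₃`.
Let `K` be one of the bodies `{x | E (a i) x}`, `{x | E (b j) x}` and `ball z ρ ⊆ K ⊆
closedBall z (Λ ρ)`. Then `v i j k₁, v i j k₃, r i j ∈ K` (boundary of a closed set),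
`T ≤ lin τ (v i j k₃) - lin τ (v i j k₁) ≤ S ‖v i j k₃ - v i j k₁‖ ≤ S * 2 Λ ρ ≤ Λ₂ ρ`, and
`‖z - r i j‖ ≤ Λ ρ`. So `sec_ball 2 τ Λ₂` applies with `p := r i j`, `u := v i j k₁`,
`v := v i j k₃` and gives a ball of radius `c T` in the section of `K`, with centre at distance
`≤ C' T ≤ Λ₁ (c T)` from `Fin.tail (r i j)`.
Apply `noPat2 E' Λ₁` (first `N₂` indices) to the parameters `Sum.elim (a i) (fun _ => t)`,
`Sum.elim (b j) (fun _ => t)`, the points `Fin.tail (r i j)` and the radius `c T`: sections are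
compact and convex (`compact_sec`, `convex_sec`), `Fin.tail (r i j)` is in the boundary of the
section (`sec_fr`, with `u = v i j k₁`, `v = v i j k₃`), non-membership: `sec τ t (Fin.tail (r i j))
= r i j` (`sec_tail`); and
`‖Fin.tail (r i j) - Fin.tail (r i' j')‖ ≤ ‖r i j - r i' j'‖ ≤ ‖r i j - v i j k₂‖ +
‖v i j k₂ - v i' j k₂‖ + ‖v i' j k₂ - v i' j' k₂‖ + ‖v i' j' k₂ - r i' j'‖ ≤
(C + 1) T / 2 + Λ T + Λ T + (C + 1) T / 2 ≤ Λ₁ (c T)` (`|t - f i j| ≤ T / 2`).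
-/

namespace UF

open BU

theorem step3 {σ : Type} (E : (σ → ℝ) → (Fin 3 → ℝ) → Prop) (hE : SAF E) (τ : ℕ) (Λ : ℝ) :
    ∃ N M : ℕ, ∀ (a b : Fin N → σ → ℝ) (v : Fin N → Fin N → Fin M → Fin 3 → ℝ),
      (∀ i, Body Λ {x | E (a i) x}) → (∀ j, Body Λ {x | E (b j) x}) →
      (∀ i j, Slim τ (frontier {x | E (a i) x} ∩ frontier {x | E (b j) x})) →
      (∀ i j k, v i j k ∈ frontier {x | E (a i) x}) →
      (∀ i j k, v i j k ∈ frontier {x | E (b j) x}) →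
      (∀ i i' j k, i ≠ i' → ¬ E (a i') (v i j k)) →
      (∀ i j j' k, j ≠ j' → ¬ E (b j') (v i j k)) →
      (∀ i i' j k, ‖v i j k - v i' j k‖ ≤ Λ * |lin τ (v i j k) - lin τ (v i' j k)|) →
      (∀ i j j' k, ‖v i j k - v i j' k‖ ≤ Λ * |lin τ (v i j k) - lin τ (v i j' k)|) →
      (∀ i j k k', ‖v i j k - v i j k'‖ ≤ Λ * |lin τ (v i j k) - lin τ (v i j k')|) →
      (∀ i i' j j' k k', k < k' → lin τ (v i j k) < lin τ (v i' j' k')) → False := by
  set C : ℕ := ⌈|Λ|⌉₊ with hC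
  set S : ℝ := nrm 2 τ with hS
  have hS1 : 1 ≤ S := nrm_ge_one 2 τ
  set Λ₂ : ℝ := |Λ| + (C + 1) + 2 * S * |Λ| with hΛ₂
  obtain ⟨c, C', hc, hC', hball⟩ := sec_ball 2 τ Λ₂
  set Λ₁ : ℝ := max (C' / c) ((C + 1 + 2 * |Λ|) / c) with hΛ₁
  have hE' := sec_SAF (d := 2) E hE τ
  obtain ⟨N₂, hN₂⟩ := noPat2 _ hE' Λ₁
  set N : ℕ := max 2 N₂ with hN
  have hΓ : SAF fun (q : σ ⊕ σ → ℝ) (y : Fin 3 → ℝ) =>
      y ∈ frontier {x | E (fun i => q (Sum.inl i)) x} ∧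
      y ∈ frontier {x | E (fun i => q (Sum.inr i)) x} := by
    refine SA.S5a_and ?_ ?_
    · exact SA.rename (frontier_SAF E hE) (Sum.elim (fun i => Sum.inl (Sum.inl i))
        (fun l => Sum.inr l) : σ ⊕ Fin 3 → (σ ⊕ σ) ⊕ Fin 3)
    · exact SA.rename (frontier_SAF E hE) (Sum.elim (fun i => Sum.inl (Sum.inr i))
        (fun l => Sum.inr l) : σ ⊕ Fin 3 → (σ ⊕ σ) ⊕ Fin 3)
  obtain ⟨M, hM⟩ := branch _ hΓ E hE τ C (Fin N × Fin N) (Fin N ⊕ Fin N)
  refine ⟨N, M, fun a b v hA hB hslim hfa hfb hna hnb hs1 hs2 hs3 hdom => ?_⟩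
  have hΛC : Λ ≤ C := (le_abs_self Λ).trans (Nat.le_ceil _)
  have hC0 : (0 : ℝ) ≤ C := Nat.cast_nonneg C
  have hC1 : (0 : ℝ) ≤ (C : ℝ) + 1 := by linarith
  have hA0 : 0 ≤ |Λ| := abs_nonneg Λ
  have hcla : ∀ i, IsClosed {x | E (a i) x} := fun i => (hA i).1.isClosed
  have hclb : ∀ j, IsClosed {x | E (b j) x} := fun j => (hB j).1.isClosed
  have h2N : 2 ≤ N := le_max_left _ _
  have hma : ∀ i j k, E (a i) (v i j k) := fun i j k => (hcla i).frontier_subset (hfa i j k)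
  have hmb : ∀ i j k, E (b j) (v i j k) := fun i j k => (hclb j).frontier_subset (hfb i j k)
  obtain ⟨k₁, k₂, k₃, h12, h23, hbr⟩ := hM (fun θ => Sum.elim (a θ.1) (b θ.2)) (Sum.elim a b)
    (fun θ k => v θ.1 θ.2 k) (fun θ => hslim θ.1 θ.2) (fun θ k => ⟨hfa _ _ _, hfb _ _ _⟩)
    (fun θ θ' k k' h => hdom _ _ _ _ _ _ h)
    (fun θ k k' => (hs3 _ _ _ _).trans (mul_le_mul_of_nonneg_right hΛC (abs_nonneg _)))
  -- the cut
  let i₀ : Fin N := ⟨0, by omega⟩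
  let i₁ : Fin N := ⟨1, by omega⟩
  have h01 : i₀ ≠ i₁ := fun h => by simpa [i₀, i₁] using congrArg Fin.val h
  have hpne : v i₀ i₀ k₂ ≠ v i₁ i₀ k₂ := fun h => hna i₀ i₁ i₀ k₂ h01 (h ▸ hma i₁ i₀ k₂)
  have hfne : lin τ (v i₀ i₀ k₂) ≠ lin τ (v i₁ i₀ k₂) := by
    intro h
    have h1 := hs1 i₀ i₁ i₀ k₂
    rw [h, sub_self, abs_zero, mul_zero] at h1
    exact hpne (sub_eq_zero.1 (norm_le_zero_iff.1 h1))
  obtain ⟨t, T, hT, hmid, ⟨im, him⟩, ⟨iM, hiM⟩⟩ :=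
    cut_mid (fun θ : Fin N × Fin N => lin τ (v θ.1 θ.2 k₂)) (θ₁ := (i₀, i₀)) (θ₂ := (i₁, i₀)) hfne
  have hlow : ∀ i j, lin τ (v i j k₁) < t - T / 2 := fun i j => by
    rw [← him]; exact hdom _ _ _ _ _ _ h12
  have hupp : ∀ i j, t + T / 2 < lin τ (v i j k₃) := fun i j => by
    rw [← hiM]; exact hdom _ _ _ _ _ _ h23
  have hmid' : ∀ i j, |t - lin τ (v i j k₂)| ≤ T / 2 := fun i j => hmid (i, j)
  have hr := fun i j => hbr t (fun θ => by linarith [hlow θ.1 θ.2])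
    (fun θ => by linarith [hupp θ.1 θ.2]) (i, j)
  choose r hr1 hr2 hr3 hr4 hr5 hr6 using hr
  simp only at hr1 hr2 hr3 hr4 hr5 hr6
  have hra : ∀ i j, E (a i) (r i j) := fun i j => (hcla i).frontier_subset (hr1 i j).1
  have hrb : ∀ i j, E (b j) (r i j) := fun i j => (hclb j).frontier_subset (hr1 i j).2
  -- sections of the bodies
  have hsec : ∀ (K : Set (Fin 3 → ℝ)) (i j : Fin N), Body Λ K → v i j k₁ ∈ K → v i j k₃ ∈ K →
      r i j ∈ K → ∃ z' : Fin 2 → ℝ, Metric.ball z' (c * T) ⊆ {y | sec τ t y ∈ K} ∧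
        ‖z' - Fin.tail (r i j)‖ ≤ C' * T := by
    rintro K i j ⟨-, hconv, z, ρ, hρ, hz1, hz2⟩ hv1 hv3 hrK
    have e1 : ‖v i j k₁ - z‖ ≤ Λ * ρ := by
      have := hz2 hv1
      rwa [mem_closedBall_iff_norm] at this
    have e3 : ‖v i j k₃ - z‖ ≤ Λ * ρ := by
      have := hz2 hv3
      rwa [mem_closedBall_iff_norm] at this
    have er : ‖z - r i j‖ ≤ Λ * ρ := by
      have := hz2 hrK
      rwa [mem_closedBall_iff_norm, norm_sub_rev] at this
    have hΛρ : Λ * ρ ≤ |Λ| * ρ := mul_le_mul_of_nonneg_right (le_abs_self Λ) hρ.le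
    have h8 : 0 ≤ 2 * S * |Λ| * ρ := by positivity
    have h9 : 0 ≤ |Λ| * ρ := by positivity
    have h10 : (0 : ℝ) ≤ (C + 1) * ρ := by positivity
    have h6 : Λ₂ * ρ = |Λ| * ρ + (C + 1) * ρ + 2 * S * |Λ| * ρ := by rw [hΛ₂]; ring
    refine hball K (r i j) (v i j k₁) (v i j k₃) z t T ρ hconv hrK hv1 hv3 (hr2 i j) hT hρ
      ?_ ?_ ?_ ?_ ?_ hz1 ?_
    · have h1 := lin_abs_le τ (v i j k₃ - v i j k₁)
      rw [lin_sub] at h1
      have h2 : ‖v i j k₃ - v i j k₁‖ ≤ 2 * (|Λ| * ρ) := by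
        have : v i j k₃ - v i j k₁ = (v i j k₃ - z) - (v i j k₁ - z) := by abel
        rw [this]
        refine (norm_sub_le _ _).trans ?_
        linarith
      have h3 := le_abs_self (lin τ (v i j k₃) - lin τ (v i j k₁))
      have h4 : S * ‖v i j k₃ - v i j k₁‖ ≤ S * (2 * (|Λ| * ρ)) :=
        mul_le_mul_of_nonneg_left h2 (by linarith)
      have h5 : S * (2 * (|Λ| * ρ)) = 2 * S * |Λ| * ρ := by ring
      have h7 := hlow i j
      have h7' := hupp i j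
      have h11 : T ≤ 2 * S * |Λ| * ρ := by
        rw [← h5]
        refine le_trans ?_ (h3.trans (h1.trans h4))
        linarith
      linarith
    · linarith [hlow i j]
    · linarith [hupp i j]
    · have h1 : 0 ≤ t - lin τ (v i j k₁) := by linarith [hlow i j]
      have h2 := hr4 i j
      rw [abs_of_nonneg h1] at h2
      refine h2.trans (mul_le_mul_of_nonneg_right ?_ h1)
      have : 0 ≤ 2 * S * |Λ| := by positivity
      rw [hΛ₂]; linarith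
    · have h1 : 0 ≤ lin τ (v i j k₃) - t := by linarith [hupp i j]
      have h2 := hr6 i j
      rw [abs_sub_comm, abs_of_nonneg h1] at h2
      refine h2.trans (mul_le_mul_of_nonneg_right ?_ h1)
      have : 0 ≤ 2 * S * |Λ| := by positivity
      rw [hΛ₂]; linarith
    · linarith
  have hcT : 0 < c * T := mul_pos hc hT
  have hN₂N : N₂ ≤ N := le_max_right _ _
  have hL1 : C' * T ≤ Λ₁ * (c * T) := by
    have h1 : C' / c ≤ Λ₁ := le_max_left _ _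
    have h2 : C' / c * (c * T) = C' * T := by field_simp
    rw [← h2]
    exact mul_le_mul_of_nonneg_right h1 hcT.le
  have hL2 : (C + 1 + 2 * |Λ|) * T ≤ Λ₁ * (c * T) := by
    have h1 : (C + 1 + 2 * |Λ|) / c ≤ Λ₁ := le_max_right _ _
    have h2 : (C + 1 + 2 * |Λ|) / c * (c * T) = (C + 1 + 2 * |Λ|) * T := by field_simp
    rw [← h2]
    exact mul_le_mul_of_nonneg_right h1 hcT.le
  let e : Fin N₂ → Fin N := Fin.castLE hN₂N
  have he : Function.Injective e := Fin.castLE_injective hN₂N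
  have hut : ∀ i j, lin τ (v i j k₁) < t := fun i j => by linarith [hlow i j]
  have hvt : ∀ i j, t < lin τ (v i j k₃) := fun i j => by linarith [hupp i j]
  refine hN₂ (fun i => Sum.elim (a (e i)) (fun _ => t)) (fun j => Sum.elim (b (e j)) (fun _ => t))
    (fun i j => Fin.tail (r (e i) (e j))) (c * T) hcT ?_ ?_ ?_ ?_ ?_ ?_ ?_ ?_ ?_ ?_ ?_
  · exact fun i => compact_sec (hA _).1
  · exact fun i => convex_sec (hA _).2.1
  · exact fun j => compact_sec (hB _).1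
  · exact fun j => convex_sec (hB _).2.1
  · intro i j
    obtain ⟨z', h1, h2⟩ := hsec {x | E (a (e i)) x} (e i) (e j) (hA _) (hma _ _ _) (hma _ _ _)
      (hra _ _)
    exact ⟨z', h1, h2.trans hL1⟩
  · intro i j
    obtain ⟨z', h1, h2⟩ := hsec {x | E (b (e j)) x} (e i) (e j) (hB _) (hmb _ _ _) (hmb _ _ _)
      (hrb _ _)
    exact ⟨z', h1, h2.trans hL1⟩
  · intro i j i' j'
    have h1 : ‖r (e i) (e j) - r (e i') (e j')‖ ≤ ‖r (e i) (e j) - v (e i) (e j) k₂‖ +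
        ‖v (e i) (e j) k₂ - v (e i') (e j) k₂‖ + ‖v (e i') (e j) k₂ - v (e i') (e j') k₂‖ +
        ‖r (e i') (e j') - v (e i') (e j') k₂‖ := by
      have : r (e i) (e j) - r (e i') (e j') = (r (e i) (e j) - v (e i) (e j) k₂) +
        (v (e i) (e j) k₂ - v (e i') (e j) k₂) + (v (e i') (e j) k₂ - v (e i') (e j') k₂) -
        (r (e i') (e j') - v (e i') (e j') k₂) := by abel
      rw [this]
      refine (norm_sub_le _ _).trans ?_
      have h2 := norm_add_le ((r (e i) (e j) - v (e i) (e j) k₂) +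
        (v (e i) (e j) k₂ - v (e i') (e j) k₂)) (v (e i') (e j) k₂ - v (e i') (e j') k₂)
      have h3 := norm_add_le (r (e i) (e j) - v (e i) (e j) k₂)
        (v (e i) (e j) k₂ - v (e i') (e j) k₂)
      linarith
    have hdiff : ∀ x y : ℝ, |t - x| ≤ T / 2 → |t - y| ≤ T / 2 → |x - y| ≤ T := by
      intro x y hx hy
      rw [abs_le] at hx hy ⊢
      constructor <;> linarith [hx.1, hx.2, hy.1, hy.2]
    have h2 := hr5 (e i) (e j)
    have h3 := hr5 (e i') (e j')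
    have h6 : (C + 1) * |t - lin τ (v (e i) (e j) k₂)| ≤ (C + 1) * (T / 2) :=
      mul_le_mul_of_nonneg_left (hmid' _ _) hC1
    have h7 : (C + 1) * |t - lin τ (v (e i') (e j') k₂)| ≤ (C + 1) * (T / 2) :=
      mul_le_mul_of_nonneg_left (hmid' _ _) hC1
    have h8 := hs1 (e i) (e i') (e j) k₂
    have h9 := hs2 (e i') (e j) (e j') k₂
    have h10 : Λ * |lin τ (v (e i) (e j) k₂) - lin τ (v (e i') (e j) k₂)| ≤ |Λ| * T :=
      mul_le_mul (le_abs_self Λ) (hdiff _ _ (hmid' _ _) (hmid' _ _)) (abs_nonneg _) hA0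
    have h11 : Λ * |lin τ (v (e i') (e j) k₂) - lin τ (v (e i') (e j') k₂)| ≤ |Λ| * T :=
      mul_le_mul (le_abs_self Λ) (hdiff _ _ (hmid' _ _) (hmid' _ _)) (abs_nonneg _) hA0
    refine (norm_tail_sub_le _ _).trans (h1.trans (le_trans ?_ hL2))
    have h12 : (C + 1 + 2 * |Λ|) * T =
      (C + 1) * (T / 2) + |Λ| * T + |Λ| * T + (C + 1) * (T / 2) := by ring
    rw [h12]
    linarith
  · exact fun i j => sec_fr τ _ (hA _).2.1 (hcla _) (r (e i) (e j)) (v (e i) (e j) k₁)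
      (v (e i) (e j) k₃) t (hr1 _ _).1 (hma _ _ _) (hma _ _ _) (hr2 _ _) (hut _ _) (hvt _ _)
  · exact fun i j => sec_fr τ _ (hB _).2.1 (hclb _) (r (e i) (e j)) (v (e i) (e j) k₁)
      (v (e i) (e j) k₃) t (hr1 _ _).2 (hmb _ _ _) (hmb _ _ _) (hr2 _ _) (hut _ _) (hvt _ _)
  · intro i i' j hii
    show ¬ E (a (e i')) (sec τ t (Fin.tail (r (e i) (e j))))
    rw [sec_tail (hr2 _ _)]
    exact hr3 (e i) (e j) (Sum.inl (e i')) (hna _ _ _ _ fun h => hii (he h))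
  · intro i j j' hjj
    show ¬ E (b (e j')) (sec τ t (Fin.tail (r (e i) (e j))))
    rw [sec_tail (hr2 _ _)]
    exact hr3 (e i) (e j) (Sum.inr (e j')) (hnb _ _ _ _ fun h => hjj (he h))

end UF
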