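import Mathlib

/-!
# Union of fat convex objects in three dimensions: definitions of the statement
-/

open MeasureTheory

namespace UF

/-- Euclidean 3-space. -/
abbrev E3 : Type := EuclideanSpace ℝ (Fin 3)

/-- `K` is a semialgebraic set of description complexity `s`: membership in `K` depends only on the
signs of `s` polynomials of degree at most `s`. -/
def Semialg (s : ℕ) (K : Set E3) : Prop :=
  ∃ (P : Fin s → MvPolynomial (Fin 3) ℝ) (S : Set (Fin s → SignType)),
    (∀ i, (P i).totalDegree ≤ s) ∧
      ∀ x : E3, x ∈ K ↔ (fun i => SignType.sign (MvPolynomial.eval (fun j => x j) (P i))) ∈ S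

/-- `K` is `α`-fat: it contains a ball of some radius `r > 0` and is contained in a ball of radius
at most `α * r`. -/
def Fat (α : ℝ) (K : Set E3) : Prop :=
  ∃ (x y : E3) (r R : ℝ), 0 < r ∧ R ≤ α * r ∧
    Metric.closedBall x r ⊆ K ∧ K ⊆ Metric.closedBall y R

/-- An object: a compact convex `α`-fat semialgebraic set of description complexity `s`. -/
def Obj (α : ℝ) (s : ℕ) (K : Set E3) : Prop :=
  IsCompact K ∧ Convex ℝ K ∧ Fat α K ∧ Semialg s K

/-- General position: the boundaries of two of the sets meet in a set of two-dimensional Hausdorff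
measure zero, the boundaries of three of them meet in a finite set. -/
def GenPos {n : ℕ} (K : Fin n → Set E3) : Prop :=
  (∀ i j, i ≠ j → Measure.hausdorffMeasure 2 (frontier (K i) ∩ frontier (K j)) = 0) ∧
    (∀ i j k, i ≠ j → i ≠ k → j ≠ k →
      (frontier (K i) ∩ frontier (K j) ∩ frontier (K k)).Finite)

/-- The vertices of the union: the points of the boundary of the union which lie on the boundaries
of three different sets. -/
def vertices {n : ℕ} (K : Fin n → Set E3) : Set E3 :=
  {x | x ∈ frontier (⋃ i, K i) ∧ ∃ i j k, i ≠ j ∧ i ≠ k ∧ j ≠ k ∧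
    x ∈ frontier (K i) ∧ x ∈ frontier (K j) ∧ x ∈ frontier (K k)}

end UF
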