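import Pool.Agent.Work.MP_4c5ddc_co.Stmt

/-!
# Union of fat convex objects in three dimensions: combinatorial complexity
-/

open MeasureTheory

namespace UF

/-- The (indices of the) sets whose boundary contains `x`. -/
def idx {n : ℕ} (K : Fin n → Set E3) (x : E3) : Set (Fin n) := {i | x ∈ frontier (K i)}

/-- The points of the boundary of the union which lie on the boundaries of exactly `m` of the
sets. -/
def stratum {n : ℕ} (K : Fin n → Set E3) (m : ℕ) : Set E3 :=
  {x | x ∈ frontier (⋃ i, K i) ∧ (idx K x).ncard = m}

/-- The set of the connected components of `S`. -/
def comps (S : Set E3) : Set (Set E3) := {F | ∃ x ∈ S, F = connectedComponentIn S x}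

/-- The combinatorial complexity of the union: the number of its vertices, edges (the components of
the set of points on exactly two boundaries) and two-dimensional faces (the components of the set of
points on exactly one boundary). -/
noncomputable def complexity {n : ℕ} (K : Fin n → Set E3) : ℕ :=
  (vertices K).ncard + (comps (stratum K 2)).ncard + (comps (stratum K 1)).ncard

end UF
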