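import Pool.Agent.Work.MP_4c5ddc_co.Stmt2

/-!
# Module TwoBd: two convex bodies in general position do not cover a neighbourhood of a common
boundary point

Proof. Suppose `ball y r ⊆ K₁ ∪ K₂`. Since `y ∉ interior K₁` there is a continuous linear `f` with
`f a < f y` on the open convex nonempty set `interior K₁` (`geometric_hahn_banach_open_point`), so
`f ≠ 0` and `f ≤ f y` on `K₁ ⊆ closure (interior K₁)`
(`Convex.closure_interior_eq_closure_of_nonempty_interior`); similarly `g` for `K₂`.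
1. A point `x` of the ball with `f x > f y` is not in `K₁`, so it is in `K₂`, and `g x ≤ g y`. So
   `f h > 0 → g h ≤ 0` for all small `h`, hence for all vectors `h` (scaling). As `g ≠ 0` is strictly
   positive somewhere, it follows that `ker f = ker g` and `g = -λ f` with `λ > 0`; all we need is:
   `f h = 0 → g h = 0` (if `f h = 0`, `g h > 0`, take `h₀` with `f h₀ > 0`; then
   `f (h + δ h₀) > 0` and `g (h + δ h₀) > 0` for small `δ > 0`, contradiction; replace `h` by `-h` for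
   `g h < 0`).
2. Let `x = y + h` be in the ball, `f h = 0`. Then `x` is a limit of points `x + δ h₀` with
   `f > f y` in the ball, which are not in `K₁`; so `x ∉ interior K₁`, and they are in `K₂`, so
   `x ∈ K₂` (closed). Symmetrically (`g h = 0`) `x ∉ interior K₂` and `x ∈ K₁`. So `x` is in both
   boundaries (`IsClosed.frontier_eq`).
3. So the disc `D = {y + h | f h = 0, ‖h‖ < r}` has two-dimensional Hausdorff measure zero. Let
   `u, w` be linearly independent in `ker f` (of dimension `2`), `p, q` linear functionals on `E3`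
   with `p u = q w = 1`, `p w = q u = 0` (dual basis; or `u, w` orthonormal and `p = inner u`,
   `q = inner w`). The Lipschitz map `x ↦ (p x, q x)` sends `D` onto a set which contains the open
   square of all `(p y + a, q y + b)`, `|a|, |b| < r / (‖u‖ + ‖w‖)`, of positive area; but the image
   has `μH[2]`-measure zero, and `μH[2]` is the area on `ℝ × ℝ` (`hausdorffMeasure_prod_real`);
   contradiction (see also `NullP.lean`).
-/

open MeasureTheory

namespace UF

private theorem twobd_supp {K : Set E3} (hc : Convex ℝ K) (hi : (interior K).Nonempty) {y : E3}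
    (hy : y ∈ frontier K) : ∃ (f : E3 →L[ℝ] ℝ) (h₀ : E3), 0 < f h₀ ∧ ∀ x ∈ K, f x ≤ f y := by
  obtain ⟨f, hf⟩ := geometric_hahn_banach_open_point hc.interior isOpen_interior
    (x := y) (fun h => hy.2 h)
  obtain ⟨a, ha⟩ := hi
  refine ⟨f, y - a, ?_, fun x hx => ?_⟩
  · rw [map_sub]
    have := hf a ha
    linarith
  · have h1 : closure (interior K) ⊆ {x | f x ≤ f y} :=
      closure_minimal (fun z hz => (hf z hz).le) (isClosed_le f.continuous continuous_const)
    have h2 := hc.closure_interior_eq_closure_of_nonempty_interior ⟨a, ha⟩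
    rw [h2] at h1
    exact h1 (subset_closure hx)

private theorem twobd_side {K₁ K₂ : Set E3} (h2 : IsClosed K₂) {y : E3} {r : ℝ}
    (hb : Metric.ball y r ⊆ K₁ ∪ K₂) (f : E3 →L[ℝ] ℝ) (h₀ : E3) (hf0 : 0 < f h₀)
    (hf : ∀ x ∈ K₁, f x ≤ f y) {x : E3} (hx : x ∈ Metric.ball y r) (hfx : f x = f y) :
    x ∉ interior K₁ ∧ x ∈ K₂ := by
  have ht : Filter.Tendsto (fun δ : ℝ => x + δ • h₀) (nhdsWithin 0 (Set.Ioi 0)) (nhds x) := by
    have hc : Continuous (fun δ : ℝ => x + δ • h₀) := by fun_prop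
    have h1 := hc.tendsto 0
    simp only [zero_smul, add_zero] at h1
    exact h1.mono_left nhdsWithin_le_nhds
  have hout : ∀ᶠ δ : ℝ in nhdsWithin 0 (Set.Ioi 0), x + δ • h₀ ∉ K₁ := by
    filter_upwards [self_mem_nhdsWithin] with δ hδ hK
    have h3 := hf _ hK
    rw [map_add, map_smul, hfx, smul_eq_mul] at h3
    have : 0 < δ * f h₀ := mul_pos hδ hf0
    linarith
  have hin : ∀ᶠ δ : ℝ in nhdsWithin 0 (Set.Ioi 0), x + δ • h₀ ∈ Metric.ball y r :=
    ht (Metric.isOpen_ball.mem_nhds hx)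
  constructor
  · intro hxi
    have hK : ∀ᶠ δ : ℝ in nhdsWithin 0 (Set.Ioi 0), x + δ • h₀ ∈ interior K₁ :=
      ht (isOpen_interior.mem_nhds hxi)
    obtain ⟨δ, h3, h4⟩ := (hout.and hK).exists
    exact h3 (interior_subset h4)
  · refine h2.mem_of_tendsto ht ?_
    filter_upwards [hout, hin] with δ h3 h4
    exact (hb h4).resolve_left h3

private theorem twobd_sign {K₁ K₂ : Set E3} {y : E3} {r : ℝ} (hr : 0 < r)
    (hb : Metric.ball y r ⊆ K₁ ∪ K₂) (f g : E3 →L[ℝ] ℝ)
    (hf : ∀ x ∈ K₁, f x ≤ f y) (hg : ∀ x ∈ K₂, g x ≤ g y) (h : E3) (hh : 0 < f h) : g h ≤ 0 := by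
  have hn : 0 ≤ ‖h‖ := norm_nonneg h
  set c : ℝ := r / (2 * (‖h‖ + 1)) with hc
  have hc0 : 0 < c := by positivity
  have hx : y + c • h ∈ Metric.ball y r := by
    rw [Metric.mem_ball, dist_eq_norm, add_sub_cancel_left, norm_smul, Real.norm_eq_abs,
      abs_of_pos hc0, hc, div_mul_eq_mul_div, div_lt_iff₀ (by positivity)]
    nlinarith
  have h1 : y + c • h ∉ K₁ := by
    intro hK
    have h3 := hf _ hK
    rw [map_add, map_smul, smul_eq_mul] at h3
    have : 0 < c * f h := mul_pos hc0 hh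
    linarith
  have h2 := hg _ ((hb hx).resolve_left h1)
  rw [map_add, map_smul, smul_eq_mul] at h2
  by_contra hcon
  push Not at hcon
  have : 0 < c * g h := mul_pos hc0 hcon
  linarith

private theorem twobd_le (f g : E3 →L[ℝ] ℝ) (h₀ : E3) (hf0 : 0 < f h₀)
    (hs : ∀ h, 0 < f h → g h ≤ 0) (h : E3) (hh : f h = 0) : g h ≤ 0 := by
  by_contra hcon
  push Not at hcon
  set δ : ℝ := g h / (2 * (|g h₀| + 1)) with hδ
  have ha : 0 ≤ |g h₀| := abs_nonneg _
  have hδ0 : 0 < δ := by positivity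
  have h1 : 0 < f (h + δ • h₀) := by
    rw [map_add, map_smul, hh, smul_eq_mul, zero_add]
    exact mul_pos hδ0 hf0
  have h2 := hs _ h1
  rw [map_add, map_smul, smul_eq_mul] at h2
  have h3 : δ * |g h₀| < g h := by
    rw [hδ, div_mul_eq_mul_div, div_lt_iff₀ (by positivity)]
    nlinarith
  have h4 : -(δ * |g h₀|) ≤ δ * g h₀ := by
    have := neg_abs_le (g h₀)
    nlinarith
  linarith

private theorem twobd_zero (f g : E3 →L[ℝ] ℝ) (h₀ : E3) (hf0 : 0 < f h₀)
    (hs : ∀ h, 0 < f h → g h ≤ 0) (h : E3) (hh : f h = 0) : g h = 0 := by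
  have h1 := twobd_le f g h₀ hf0 hs h hh
  have h2 := twobd_le f g h₀ hf0 hs (-h) (by rw [map_neg, hh, neg_zero])
  rw [map_neg] at h2
  linarith

private theorem twobd_disc (f : E3 →L[ℝ] ℝ) (h₀ : E3) (hf0 : 0 < f h₀) (y : E3) (r : ℝ)
    (hr : 0 < r) (D : Set E3) (hD : ∀ x ∈ Metric.ball y r, f x = f y → x ∈ D)
    (h0 : Measure.hausdorffMeasure 2 D = 0) : False := by
  have hne : (f : E3 →ₗ[ℝ] ℝ) ≠ 0 := by
    intro h
    have h1 : (f : E3 →ₗ[ℝ] ℝ) h₀ = 0 := by rw [h]; rfl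
    exact hf0.ne' h1
  have hrank : Module.finrank ℝ (LinearMap.ker (f : E3 →ₗ[ℝ] ℝ)) = Module.finrank ℝ (ℝ × ℝ) := by
    have h1 := Module.Dual.finrank_ker_add_one_of_ne_zero (f := (f : E3 →ₗ[ℝ] ℝ)) hne
    have h2 : Module.finrank ℝ E3 = 3 := by simp
    have h3 : Module.finrank ℝ (ℝ × ℝ) = 2 := by simp
    omega
  let π : LinearMap.ker (f : E3 →ₗ[ℝ] ℝ) ≃L[ℝ] ℝ × ℝ := ContinuousLinearEquiv.ofFinrankEq hrank
  let P : E3 →L[ℝ] LinearMap.ker (f : E3 →ₗ[ℝ] ℝ) :=
    (ContinuousLinearMap.id ℝ E3 - f.smulRight ((f h₀)⁻¹ • h₀)).codRestrict _ (by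
      intro x
      rw [LinearMap.mem_ker]
      show f (x - f x • ((f h₀)⁻¹ • h₀)) = 0
      rw [map_sub, map_smul, map_smul, smul_eq_mul, smul_eq_mul, inv_mul_cancel₀ hf0.ne', mul_one,
        sub_self])
  let Φ : E3 →L[ℝ] ℝ × ℝ := (π : LinearMap.ker (f : E3 →ₗ[ℝ] ℝ) →L[ℝ] ℝ × ℝ).comp P
  have hP : ∀ z : LinearMap.ker (f : E3 →ₗ[ℝ] ℝ), P (z : E3) = z := by
    intro z
    apply Subtype.ext
    show (z : E3) - f (z : E3) • ((f h₀)⁻¹ • h₀) = z
    have hz : f (z : E3) = 0 := z.2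
    rw [hz, zero_smul, sub_zero]
  let Ψ : ℝ × ℝ → E3 := fun p => y + (π.symm (p - Φ y) : E3)
  have hΨc : Continuous Ψ := by
    have h1 : Continuous (fun p : ℝ × ℝ => π.symm (p - Φ y)) :=
      π.symm.continuous.comp (continuous_id.sub continuous_const)
    exact continuous_const.add (continuous_subtype_val.comp h1)
  have hΦΨ : ∀ p, Φ (Ψ p) = p := by
    intro p
    show Φ (y + (π.symm (p - Φ y) : E3)) = p
    rw [map_add]
    have h1 : Φ ((π.symm (p - Φ y) : E3)) = p - Φ y := by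
      show π (P ((π.symm (p - Φ y) : E3))) = p - Φ y
      rw [hP, ContinuousLinearEquiv.apply_symm_apply]
    rw [h1, add_sub_cancel]
  have hfΨ : ∀ p, f (Ψ p) = f y := by
    intro p
    show f (y + (π.symm (p - Φ y) : E3)) = f y
    rw [map_add]
    have hz : f ((π.symm (p - Φ y) : E3)) = 0 := (π.symm (p - Φ y)).2
    rw [hz, add_zero]
  have h1 : (Measure.hausdorffMeasure 2 : Measure (ℝ × ℝ)) (Φ '' D) = 0 := by
    have h2 := Φ.lipschitz.hausdorffMeasure_image_le (show (0 : ℝ) ≤ 2 by norm_num) D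
    rw [h0, mul_zero] at h2
    exact le_antisymm h2 zero_le
  rw [hausdorffMeasure_prod_real] at h1
  have hsub : Ψ ⁻¹' Metric.ball y r ⊆ Φ '' D := by
    intro p hp
    exact ⟨Ψ p, hD _ hp (hfΨ p), hΦΨ p⟩
  have h2 := measure_mono_null hsub h1
  have hopen : IsOpen (Ψ ⁻¹' Metric.ball y r) := Metric.isOpen_ball.preimage hΨc
  have hnon : (Ψ ⁻¹' Metric.ball y r).Nonempty := by
    refine ⟨Φ y, ?_⟩
    show y + (π.symm (Φ y - Φ y) : E3) ∈ Metric.ball y r
    rw [sub_self, map_zero]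
    simpa using hr
  exact (hopen.measure_pos volume hnon).ne' h2

theorem two_bd {K₁ K₂ : Set E3} (h1 : IsClosed K₁) (h2 : IsClosed K₂) (c1 : Convex ℝ K₁)
    (c2 : Convex ℝ K₂) (i1 : (interior K₁).Nonempty) (i2 : (interior K₂).Nonempty)
    (h0 : Measure.hausdorffMeasure 2 (frontier K₁ ∩ frontier K₂) = 0) {y : E3}
    (hy1 : y ∈ frontier K₁) (hy2 : y ∈ frontier K₂) : y ∉ interior (K₁ ∪ K₂) := by
  intro hy
  obtain ⟨r, hr, hb'⟩ := Metric.isOpen_iff.1 isOpen_interior y hy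
  have hb : Metric.ball y r ⊆ K₁ ∪ K₂ := hb'.trans interior_subset
  obtain ⟨f, a, hfa, hf⟩ := twobd_supp c1 i1 hy1
  obtain ⟨g, b, hgb, hg⟩ := twobd_supp c2 i2 hy2
  have hb2 : Metric.ball y r ⊆ K₂ ∪ K₁ := by rw [Set.union_comm]; exact hb
  have hs := twobd_sign hr hb f g hf hg
  refine twobd_disc f a hfa y r hr _ (fun x hx hfx => ?_) h0
  have hgx : g x = g y := by
    have h3 := twobd_zero f g a hfa hs (x - y) (by rw [map_sub, hfx, sub_self])
    rw [map_sub] at h3
    linarith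
  obtain ⟨e1, e2⟩ := twobd_side h2 hb f a hfa hf hx hfx
  obtain ⟨e3, e4⟩ := twobd_side h1 hb2 g b hgb hg hx hgx
  rw [h1.frontier_eq, h2.frontier_eq]
  exact ⟨⟨e4, e1⟩, ⟨e2, e3⟩⟩

end UF
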