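import Pool.Agent.Work.MP_4c5ddc_co.PcsSA
import Pool.Agent.Work.MP_4c5ddc_co.TwoBd

/-!
# Module Str: elementary facts about the strata of the boundary of the union
-/

namespace UF

open Filter Topology

variable {n : ℕ} {K : Fin n → Set E3}

theorem not_mem_int {x : E3} (hx : x ∈ frontier (⋃ l, K l)) (i : Fin n) :
    x ∉ interior (K i) := fun h => hx.2 (interior_mono (Set.subset_iUnion K i) h)

theorem mem_fr_of_mem (hcl : ∀ i, IsClosed (K i)) {x : E3} (hx : x ∈ frontier (⋃ l, K l))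
    {i : Fin n} (h : x ∈ K i) : x ∈ frontier (K i) := by
  rw [(hcl i).frontier_eq]
  exact ⟨h, not_mem_int hx i⟩

theorem union_closed (hcl : ∀ i, IsClosed (K i)) : IsClosed (⋃ l, K l) :=
  isClosed_iUnion_of_finite hcl

theorem mem_cell (hcl : ∀ i, IsClosed (K i)) {x : E3} (hx : x ∈ frontier (⋃ l, K l)) :
    x ∈ cell K (idx K x) :=
  ⟨fun _ h => h, fun _ h hK => h (mem_fr_of_mem hcl hx hK)⟩

theorem idx_cell (hcl : ∀ i, IsClosed (K i)) {x : E3} {J : Set (Fin n)} (hx : x ∈ cell K J) :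
    idx K x = J := by
  ext i
  constructor
  · intro h
    by_contra hi
    exact hx.2 i hi ((hcl i).frontier_subset h)
  · exact fun h => hx.1 i h

theorem idx_nonempty (hcl : ∀ i, IsClosed (K i)) {x : E3} (hx : x ∈ frontier (⋃ l, K l)) :
    (idx K x).Nonempty := by
  obtain ⟨i, hi⟩ := Set.mem_iUnion.1 ((union_closed hcl).frontier_subset hx)
  exact ⟨i, mem_fr_of_mem hcl hx hi⟩

theorem cell_nhds (hcl : ∀ i, IsClosed (K i)) {x : E3} {J : Set (Fin n)} (hx : x ∈ cell K J) :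
    ∀ᶠ z in 𝓝 x, ∀ i, i ∉ J → z ∉ K i := by
  rw [eventually_all]
  intro i
  by_cases hi : i ∈ J
  · exact Eventually.of_forall fun z h => (h hi).elim
  · filter_upwards [(hcl i).isOpen_compl.mem_nhds (hx.2 i hi)] with z hz _ using hz

theorem idx_nhds (hcl : ∀ i, IsClosed (K i)) (x : E3) : ∀ᶠ z in 𝓝 x, idx K z ⊆ idx K x := by
  have h1 : ∀ᶠ z in 𝓝 x, ∀ i, z ∈ frontier (K i) → x ∈ frontier (K i) := by
    rw [eventually_all]
    intro i
    by_cases hi : x ∈ frontier (K i)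
    · exact Eventually.of_forall fun z _ => hi
    · filter_upwards [isClosed_frontier.isOpen_compl.mem_nhds hi] with z hz h using (hz h).elim
  filter_upwards [h1] with z hz i hi using hz i hi

/-- regular families: the cells of dimension two and one are in the boundary of the union. -/
def Reg (K : Fin n → Set E3) : Prop :=
  ∀ J : Set (Fin n), (J.ncard = 1 ∨ J.ncard = 2) → cell K J ⊆ frontier (⋃ i, K i)

theorem mem_stratum (hcl : ∀ i, IsClosed (K i)) (hreg : Reg K) {m : ℕ} (hm : m = 1 ∨ m = 2)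
    {x : E3} {J : Set (Fin n)} (hJ : J.ncard = m) (hx : x ∈ cell K J) : x ∈ stratum K m := by
  refine ⟨hreg J (by rw [hJ]; exact hm) hx, ?_⟩
  rw [idx_cell hcl hx, hJ]

theorem cell_of_stratum (hcl : ∀ i, IsClosed (K i)) {m : ℕ} {x : E3} (hx : x ∈ stratum K m) :
    x ∈ cell K (idx K x) := mem_cell hcl hx.1

/-- the index set is constant on components. -/
theorem comp_idx (hcl : ∀ i, IsClosed (K i)) {m : ℕ} {F : Set E3}
    (hF : F ∈ comps (stratum K m)) : ∃ J : Set (Fin n), J.ncard = m ∧ ∀ x ∈ F, idx K x = J := by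
  obtain ⟨x₀, hx₀⟩ := comps_nonempty hF
  refine ⟨idx K x₀, (comps_sub hF hx₀).2, fun x hx => ?_⟩
  let _ : TopologicalSpace (Set (Fin n)) := ⊥
  have _ : DiscreteTopology (Set (Fin n)) := ⟨rfl⟩
  refine (comps_preconnected hF).constant (f := idx K) ?_ hx hx₀
  intro y hy
  have h1 : ∀ᶠ z in 𝓝[F] y, idx K z = idx K y := by
    filter_upwards [nhdsWithin_le_nhds (idx_nhds hcl y), self_mem_nhdsWithin] with z hz hzF
    refine Set.eq_of_subset_of_ncard_le hz ?_ (Set.toFinite _)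
    rw [(comps_sub hF hy).2, (comps_sub hF hzF).2]
  exact (tendsto_pure.2 h1).mono_right (pure_le_nhds _)

theorem closure_fr {m : ℕ} {F : Set E3} (hF : F ∈ comps (stratum K m)) {x : E3}
    (hx : x ∈ closure F) : x ∈ frontier (⋃ i, K i) :=
  closure_minimal (fun _ hy => (comps_sub hF hy).1) isClosed_frontier hx

theorem closure_idx {m : ℕ} {F : Set E3} (hF : F ∈ comps (stratum K m)) {J : Set (Fin n)}
    (hJ : ∀ x ∈ F, idx K x = J) {x : E3} (hx : x ∈ closure F) : J ⊆ idx K x := by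
  intro i hi
  refine closure_minimal (s := F) (t := frontier (K i)) (fun y hy => ?_) isClosed_frontier hx
  have := hJ y hy
  rw [← this] at hi
  exact hi

/-- points on one boundary and in no other set are in the boundary of the union. -/
theorem cell_one {i : Fin n} (hcl : ∀ i, IsClosed (K i)) {x : E3} (hx : x ∈ frontier (K i))
    (h : ∀ l, l ≠ i → x ∉ K l) : x ∈ frontier (⋃ l, K l) := by
  have hc : x ∈ cell K {i} := by
    refine ⟨fun l hl => ?_, fun l hl => h l hl⟩
    rw [Set.mem_singleton_iff] at hl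
    rw [hl]
    exact hx
  rw [(union_closed hcl).frontier_eq]
  refine ⟨Set.mem_iUnion.2 ⟨i, (hcl i).frontier_subset hx⟩, fun hint => ?_⟩
  refine hx.2 ?_
  rw [mem_interior_iff_mem_nhds]
  filter_upwards [mem_interior_iff_mem_nhds.1 hint, cell_nhds hcl hc] with z hz1 hz2
  obtain ⟨l, hl⟩ := Set.mem_iUnion.1 hz1
  by_cases hli : l = i
  · rwa [hli] at hl
  · exact (hz2 l hli hl).elim

theorem cell_two {i j : Fin n} (hcl : ∀ i, IsClosed (K i)) (hconv : ∀ i, Convex ℝ (K i))
    (hint : ∀ i, (interior (K i)).Nonempty)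
    (h0 : MeasureTheory.Measure.hausdorffMeasure 2 (frontier (K i) ∩ frontier (K j)) = 0)
    {x : E3} (hx : x ∈ frontier (K i)) (hx' : x ∈ frontier (K j))
    (h : ∀ l, l ≠ i → l ≠ j → x ∉ K l) : x ∈ frontier (⋃ l, K l) := by
  have hev : ∀ᶠ z in 𝓝 x, ∀ l, l ≠ i → l ≠ j → z ∉ K l := by
    rw [eventually_all]
    intro l
    by_cases hi : l ≠ i ∧ l ≠ j
    · filter_upwards [(hcl l).isOpen_compl.mem_nhds (h l hi.1 hi.2)] with z hz _ _ using hz
    · exact Eventually.of_forall fun z h1 h2 => (hi ⟨h1, h2⟩).elim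
  rw [(union_closed hcl).frontier_eq]
  refine ⟨Set.mem_iUnion.2 ⟨i, (hcl i).frontier_subset hx⟩, fun hin => ?_⟩
  refine two_bd (hcl i) (hcl j) (hconv i) (hconv j) (hint i) (hint j) h0 hx hx' ?_
  rw [mem_interior_iff_mem_nhds]
  filter_upwards [mem_interior_iff_mem_nhds.1 hin, hev] with z hz1 hz2
  obtain ⟨l, hl⟩ := Set.mem_iUnion.1 hz1
  by_cases hli : l = i
  · exact Or.inl (by rwa [hli] at hl)
  · by_cases hlj : l = j
    · exact Or.inr (by rwa [hlj] at hl)
    · exact (hz2 l hli hlj hl).elim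

theorem reg_of (hcl : ∀ i, IsClosed (K i)) (hconv : ∀ i, Convex ℝ (K i))
    (hint : ∀ i, (interior (K i)).Nonempty)
    (h0 : ∀ i j, i ≠ j →
      MeasureTheory.Measure.hausdorffMeasure 2 (frontier (K i) ∩ frontier (K j)) = 0) :
    Reg K := by
  intro J hJ x hx
  rcases hJ with hJ | hJ
  · obtain ⟨i, rfl⟩ := Set.ncard_eq_one.1 hJ
    exact cell_one hcl (hx.1 i rfl) fun l hl => hx.2 l hl
  · obtain ⟨i, j, hij, rfl⟩ := Set.ncard_eq_two.1 hJ
    refine cell_two (i := i) (j := j) hcl hconv hint (h0 i j hij) (hx.1 i (by simp))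
      (hx.1 j (by simp)) fun l h1 h2 => hx.2 l ?_
    simp [h1, h2]

end UF
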