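import Pool.Agent.Work.MP_4c5ddc_co.Brk

/-!
# Module Typ: one-sided types of a semialgebraic function exist, and are semialgebraic

`R t s` is the graph of a partial function of `t`. `RTyp R c t`: just to the right of `t` the values
compare with the value at `t` as `c` says (`0`: bigger, `1`: equal, `2`: smaller); `LTyp` on the
left.
-/

namespace UF

open BU Filter Topology

/-- the three comparisons. -/
def cmp3 (c : Fin 3) (s s' : ℝ) : Prop :=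
  (c = 0 ∧ s < s') ∨ (c = 1 ∧ s = s') ∨ (c = 2 ∧ s' < s)

def RTyp (R : ℝ → ℝ → Prop) (c : Fin 3) (t : ℝ) : Prop :=
  ∃ ε : ℝ, 0 < ε ∧ ∀ t', t < t' → t' < t + ε → ∀ s s', R t s → R t' s' → cmp3 c s s'

def LTyp (R : ℝ → ℝ → Prop) (c : Fin 3) (t : ℝ) : Prop :=
  ∃ ε : ℝ, 0 < ε ∧ ∀ t', t - ε < t' → t' < t → ∀ s s', R t s → R t' s' → cmp3 c s s'

private theorem cmp3_exists (s s' : ℝ) : ∃ c, cmp3 c s s' := by
  rcases lt_trichotomy s s' with h | h | h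
  · exact ⟨0, Or.inl ⟨rfl, h⟩⟩
  · exact ⟨1, Or.inr (Or.inl ⟨rfl, h⟩)⟩
  · exact ⟨2, Or.inr (Or.inr ⟨rfl, h⟩)⟩

private theorem SA_const {σ : Type} (p : Prop) : SA {_x : σ → ℝ | p} := by
  by_cases h : p
  · exact SA.S5a_congr SA.univ fun x => by simp [h]
  · exact SA.S5a_congr SA.empty fun x => by simp [h]

private theorem cmp3_SA {σ : Type} (c : Fin 3) (i j : σ) : SA {x : σ → ℝ | cmp3 c (x i) (x j)} := by
  unfold cmp3
  refine SA.S5a_or (SA.S5a_and (SA_const _) (SA.lt (Fm.var i) (Fm.var j))) ?_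
  refine SA.S5a_or (SA.S5a_and (SA_const _) (SA_eq (Fm.var i) (Fm.var j))) ?_
  exact SA.S5a_and (SA_const _) (SA.lt (Fm.var j) (Fm.var i))

private theorem exists_left {β : Type} {u : ℝ → β} (h : PC u) (t : ℝ) :
    ∃ v, ∀ᶠ s in 𝓝[<] t, u s = v := by
  have hfin : (Bk u \ {t}).Finite := Set.Finite.subset h Set.sdiff_subset
  have h1 : ∀ᶠ s in 𝓝 t, s ∉ Bk u \ {t} :=
    hfin.isClosed.isOpen_compl.mem_nhds (by simp)
  obtain ⟨ε, hε, hε'⟩ := Metric.eventually_nhds_iff.1 h1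
  have h2 : ∀ x, x < t → t - ε < x → x ∉ Bk u := by
    intro x hx1 hx2 hx
    have : dist x t < ε := by
      rw [Real.dist_eq, abs_lt]
      constructor <;> linarith
    exact hε' this ⟨hx, fun h0 => hx1.ne h0⟩
  refine ⟨u (t - ε / 2), ?_⟩
  have h3 : ∀ᶠ s in 𝓝[<] t, s ∈ Set.Ioo (t - ε) t := Ioo_mem_nhdsLT (by linarith)
  refine h3.mono ?_
  intro s hs
  rcases le_total s (t - ε / 2) with hle | hle
  · refine PC.eq_of_Icc hle ?_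
    intro x hx
    exact h2 x (by linarith [hx.2]) (lt_of_lt_of_le hs.1 hx.1)
  · refine (PC.eq_of_Icc hle ?_).symm
    intro x hx
    exact h2 x (lt_of_le_of_lt hx.2 hs.2) (by linarith [hx.1])

variable {σ : Type} (R : (σ → ℝ) → ℝ → ℝ → Prop)
  (hR : SA {z : σ ⊕ Fin 2 → ℝ | R (fun i => z (Sum.inl i)) (z (Sum.inr 0)) (z (Sum.inr 1))})

include hR

private theorem R_SA {τ : Type} (r : σ → τ) (a b : τ) :
    SA {z : τ → ℝ | R (fun i => z (r i)) (z a) (z b)} :=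
  SA.rename hR (Sum.elim r ![a, b])

private theorem U_PC (c : Fin 3) (q : σ → ℝ) (t : ℝ) :
    PC (fun t' => ∃ y : Fin 2 → ℝ, R q t (y 0) ∧ R q t' (y 1) ∧ cmp3 c (y 0) (y 1)) := by
  obtain ⟨B, hB⟩ := brk (σ := σ ⊕ Unit) (fun z t' => ∃ y : Fin 2 → ℝ,
    R (fun i => z (Sum.inl i)) (z (Sum.inr ())) (y 0) ∧ R (fun i => z (Sum.inl i)) t' (y 1) ∧
      cmp3 c (y 0) (y 1)) (by
    refine SA.exists (σ := (σ ⊕ Unit) ⊕ Unit) (τ := Fin 2) (P := fun z y =>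
      R (fun i => z (Sum.inl (Sum.inl i))) (z (Sum.inl (Sum.inr ()))) (y 0) ∧
        R (fun i => z (Sum.inl (Sum.inl i))) (z (Sum.inr ())) (y 1) ∧ cmp3 c (y 0) (y 1)) ?_
    refine SA.S5a_and (R_SA R hR (fun i => Sum.inl (Sum.inl (Sum.inl i))) _ _) ?_
    refine SA.S5a_and (R_SA R hR (fun i => Sum.inl (Sum.inl (Sum.inl i))) _ _) ?_
    exact cmp3_SA c _ _)
  exact (hB (Sum.elim q fun _ => t)).1

theorem rtyp_exists (hfun : ∀ q t s s', R q t s → R q t s' → s = s') (q : σ → ℝ) (t s₀ : ℝ)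
    (h₀ : R q t s₀) (hdef : ∀ᶠ t' in 𝓝[>] t, ∃ s, R q t' s) : ∃ c, RTyp (R q) c t := by
  have h1 : ∀ c, ∃ v, ∀ᶠ t' in 𝓝[>] t,
      (∃ y : Fin 2 → ℝ, R q t (y 0) ∧ R q t' (y 1) ∧ cmp3 c (y 0) (y 1)) = v := fun c =>
    (U_PC R hR c q t).exists_right t
  choose v hv using h1
  have hall := Filter.eventually_all.2 hv
  obtain ⟨t₁, ht₁, s₁, hs₁⟩ := (hall.and hdef).exists
  obtain ⟨c, hc⟩ := cmp3_exists s₀ s₁
  refine ⟨c, ?_⟩
  have hvc : v c := by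
    rw [← ht₁ c]
    exact ⟨![s₀, s₁], h₀, hs₁, hc⟩
  have hev : ∀ᶠ t' in 𝓝[>] t, ∀ s s', R q t s → R q t' s' → cmp3 c s s' := by
    filter_upwards [hv c] with t' ht' s s' hs hs'
    obtain ⟨y, hy0, hy1, hy⟩ : ∃ y : Fin 2 → ℝ, R q t (y 0) ∧ R q t' (y 1) ∧ cmp3 c (y 0) (y 1) := by
      rw [ht']
      exact hvc
    rwa [hfun q t s _ hs hy0, hfun q t' s' _ hs' hy1]
  obtain ⟨u, hu, hsub⟩ := mem_nhdsGT_iff_exists_Ioo_subset.1 hev
  refine ⟨u - t, sub_pos.2 hu, fun t' h2 h3 => ?_⟩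
  exact hsub ⟨h2, by linarith⟩

theorem ltyp_exists (hfun : ∀ q t s s', R q t s → R q t s' → s = s') (q : σ → ℝ) (t s₀ : ℝ)
    (h₀ : R q t s₀) (hdef : ∀ᶠ t' in 𝓝[<] t, ∃ s, R q t' s) : ∃ c, LTyp (R q) c t := by
  have h1 : ∀ c, ∃ v, ∀ᶠ t' in 𝓝[<] t,
      (∃ y : Fin 2 → ℝ, R q t (y 0) ∧ R q t' (y 1) ∧ cmp3 c (y 0) (y 1)) = v := fun c =>
    exists_left (U_PC R hR c q t) t
  choose v hv using h1
  have hall := Filter.eventually_all.2 hv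
  obtain ⟨t₁, ht₁, s₁, hs₁⟩ := (hall.and hdef).exists
  obtain ⟨c, hc⟩ := cmp3_exists s₀ s₁
  refine ⟨c, ?_⟩
  have hvc : v c := by
    rw [← ht₁ c]
    exact ⟨![s₀, s₁], h₀, hs₁, hc⟩
  have hev : ∀ᶠ t' in 𝓝[<] t, ∀ s s', R q t s → R q t' s' → cmp3 c s s' := by
    filter_upwards [hv c] with t' ht' s s' hs hs'
    obtain ⟨y, hy0, hy1, hy⟩ : ∃ y : Fin 2 → ℝ, R q t (y 0) ∧ R q t' (y 1) ∧ cmp3 c (y 0) (y 1) := by
      rw [ht']
      exact hvc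
    rwa [hfun q t s _ hs hy0, hfun q t' s' _ hs' hy1]
  obtain ⟨u, hu, hsub⟩ := mem_nhdsLT_iff_exists_Ioo_subset.1 hev
  refine ⟨t - u, sub_pos.2 hu, fun t' h2 h3 => ?_⟩
  exact hsub ⟨by linarith, h3⟩

theorem rtyp_SA (c : Fin 3) : SA {z : σ ⊕ Unit → ℝ |
    RTyp (R (fun i => z (Sum.inl i))) c (z (Sum.inr ()))} := by
  unfold RTyp
  refine SA.S5a_exists_real (σ := σ ⊕ Unit) (P := fun z ε => 0 < ε ∧ ∀ t', z (Sum.inr ()) < t' →
    t' < z (Sum.inr ()) + ε → ∀ s s', R (fun i => z (Sum.inl i)) (z (Sum.inr ())) s →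
      R (fun i => z (Sum.inl i)) t' s' → cmp3 c s s') ?_
  refine SA.S5a_and (SA.S5a_var_pos _) ?_
  refine SA.S5a_congr (SA.forall (σ := (σ ⊕ Unit) ⊕ Unit) (τ := Fin 3) (P := fun z y =>
    z (Sum.inl (Sum.inr ())) < y 0 → y 0 < z (Sum.inl (Sum.inr ())) + z (Sum.inr ()) →
      R (fun i => z (Sum.inl (Sum.inl i))) (z (Sum.inl (Sum.inr ()))) (y 1) →
      R (fun i => z (Sum.inl (Sum.inl i))) (y 0) (y 2) → cmp3 c (y 1) (y 2)) ?_) ?_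
  · refine SA.S5a_imp (SA.lt (Fm.var _) (Fm.var _)) (SA.S5a_imp (SA.S5a_lt_add _ _ _) ?_)
    refine SA.S5a_imp (R_SA R hR (fun i => Sum.inl (Sum.inl (Sum.inl i))) _ _) ?_
    refine SA.S5a_imp (R_SA R hR (fun i => Sum.inl (Sum.inl (Sum.inl i))) _ _) ?_
    exact cmp3_SA c _ _
  · intro z
    constructor
    · intro h t' h1 h2 s s' h3 h4
      exact h ![t', s, s'] h1 h2 h3 h4
    · intro h y h1 h2 h3 h4
      exact h (y 0) h1 h2 (y 1) (y 2) h3 h4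

theorem ltyp_SA (c : Fin 3) : SA {z : σ ⊕ Unit → ℝ |
    LTyp (R (fun i => z (Sum.inl i))) c (z (Sum.inr ()))} := by
  unfold LTyp
  refine SA.S5a_exists_real (σ := σ ⊕ Unit) (P := fun z ε => 0 < ε ∧ ∀ t', z (Sum.inr ()) - ε < t' →
    t' < z (Sum.inr ()) → ∀ s s', R (fun i => z (Sum.inl i)) (z (Sum.inr ())) s →
      R (fun i => z (Sum.inl i)) t' s' → cmp3 c s s') ?_
  refine SA.S5a_and (SA.S5a_var_pos _) ?_
  refine SA.S5a_congr (SA.forall (σ := (σ ⊕ Unit) ⊕ Unit) (τ := Fin 3) (P := fun z y =>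
    z (Sum.inl (Sum.inr ())) < y 0 + z (Sum.inr ()) → y 0 < z (Sum.inl (Sum.inr ())) →
      R (fun i => z (Sum.inl (Sum.inl i))) (z (Sum.inl (Sum.inr ()))) (y 1) →
      R (fun i => z (Sum.inl (Sum.inl i))) (y 0) (y 2) → cmp3 c (y 1) (y 2)) ?_) ?_
  · refine SA.S5a_imp (SA.S5a_lt_add _ _ _) (SA.S5a_imp (SA.lt (Fm.var _) (Fm.var _)) ?_)
    refine SA.S5a_imp (R_SA R hR (fun i => Sum.inl (Sum.inl (Sum.inl i))) _ _) ?_
    refine SA.S5a_imp (R_SA R hR (fun i => Sum.inl (Sum.inl (Sum.inl i))) _ _) ?_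
    exact cmp3_SA c _ _
  · intro z
    constructor
    · intro h t' h1 h2 s s' h3 h4
      exact h ![t', s, s'] (sub_lt_iff_lt_add.1 h1) h2 h3 h4
    · intro h y h1 h2 h3 h4
      exact h (y 0) (sub_lt_iff_lt_add.2 h1) h2 (y 1) (y 2) h3 h4

end UF
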